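import Pool.Agent.H783.HL.Main2

/-!
# `lap^m p ≥ 0`
-/

set_option autoImplicit false

namespace Pool.Agent.H783.HL

open MvPolynomial Filter Topology

variable {σ : Type} [Fintype σ]

theorem dd_add2 (k : σ) (p q : MvPolynomial σ ℝ) : dd k (p + q) = dd k p + dd k q := by
  unfold dd
  rw [map_add, map_add]

theorem dd_smul2 (k : σ) (c : ℝ) (p : MvPolynomial σ ℝ) : dd k (c • p) = c • dd k p := by
  unfold dd
  rw [smul_eq_C_mul, pderiv_C_mul, pderiv_C_mul, smul_eq_C_mul]

/-- the weighted Laplacian as a linear map -/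
noncomputable def lapL (w : σ → ℝ) : MvPolynomial σ ℝ →ₗ[ℝ] MvPolynomial σ ℝ where
  toFun := lap w
  map_add' := fun p q => by
    unfold lap
    simp only [dd_add2, mul_add, Finset.sum_add_distrib]
  map_smul' := fun c p => by
    unfold lap
    simp only [dd_smul2, RingHom.id_apply, Finset.smul_sum, mul_smul_comm]

theorem lapL_pow (w : σ → ℝ) (m : ℕ) (p : MvPolynomial σ ℝ) :
    (lapL w ^ m) p = (lap w)^[m] p := by
  rw [Module.End.pow_apply]
  rfl

theorem reg_zero (e : σ → ℝ) (n : ℕ) (p : MvPolynomial σ ℝ) : reg e n 0 p = p := by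
  unfold reg
  induction n with
  | zero => rfl
  | succ n ih =>
    rw [Function.iterate_succ_apply]
    have : rstep e 0 p = p := by
      unfold rstep
      rw [map_zero, zero_mul, sub_zero]
    rw [this, ih]

theorem eval_scale {q : MvPolynomial σ ℝ} {n : ℕ} (hq : q.IsHomogeneous n) (r : ℝ) (x : σ → ℝ) :
    eval (fun k => r * x k) q = r ^ n * eval x q := by
  have h1 := Local.aeval_smul_hom q n hq (r : ℂ) (fun k => ((x k : ℝ) : ℂ))
  have h2 : (fun k => (r : ℂ) * ((x k : ℝ) : ℂ)) = fun k => (((r * x k : ℝ)) : ℂ) := by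
    funext k
    push_cast
    ring
  rw [h2, GardingL.aeval_real, GardingL.aeval_real] at h1
  exact_mod_cast h1

/-- **The theorem.** -/
theorem box2 (hMain : S2_Main) (hReg : S2_Reg) (hRC : S2_RegCont) (hEx : S2_Extract) :
    S2_Box := by
  intro σ _ Ω e w p m hΩ he h0Ω hstar hp hst hpos
  have hene : ∃ k, e k ≠ 0 := by
    by_contra hcon
    push Not at hcon
    apply h0Ω
    have : e = 0 := funext hcon
    rw [← this]
    exact he
  have he0 : e ≠ 0 := by
    rintro rfl
    exact h0Ω he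
  obtain ⟨hR1, hR2, hR4, hR3⟩ := hReg σ e w p (2 * m) hene hp hst
  obtain ⟨hC1, hC2⟩ := hRC σ e p (2 * m)
  -- positivity on the cone for small parameters
  have hcpt : IsCompact (closure Ω ∩ Metric.sphere (0 : σ → ℝ) 1) :=
    (isCompact_sphere 0 1).inter_left isClosed_closure
  have hev : ∀ᶠ δ : ℝ in 𝓝 0, ∀ v ∈ closure Ω ∩ Metric.sphere (0 : σ → ℝ) 1,
      0 < eval v (reg e (2 * m) δ p) := by
    refine hcpt.eventually_forall_of_forall_eventually
      (P := fun δ v => 0 < eval v (reg e (2 * m) δ p)) ?_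
    intro v hv
    have h1 : 0 < eval v (reg e (2 * m) 0 p) := by
      rw [reg_zero]
      refine hpos v hv.1 ?_
      rintro rfl
      simpa using hv.2
    exact hC2.continuousAt.eventually (lt_mem_nhds h1)
  have hposΩ : ∀ᶠ δ : ℝ in 𝓝 0, ∀ v ∈ Ω, 0 < eval v (reg e (2 * m) δ p) := by
    filter_upwards [hev] with δ hδ v hv
    have hv0 : v ≠ 0 := by
      rintro rfl
      exact h0Ω hv
    have hn : 0 < ‖v‖ := norm_pos_iff.2 hv0
    have h1 := hδ (fun k => ‖v‖⁻¹ * v k) ⟨subset_closure (hΩ.cone _ (inv_pos.2 hn) v hv), ?_⟩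
    · have h2 := eval_scale (hR1 δ) ‖v‖ (fun k => ‖v‖⁻¹ * v k)
      have h3 : (fun k => ‖v‖ * (‖v‖⁻¹ * v k)) = v := by
        funext k
        field_simp
      rw [h3] at h2
      rw [h2]
      positivity
    · have h2 : (fun k => ‖v‖⁻¹ * v k) = ‖v‖⁻¹ • v := rfl
      rw [h2, mem_sphere_zero_iff_norm, norm_smul, norm_inv, norm_norm]
      exact inv_mul_cancel₀ hn.ne'
  -- the inequality for small positive parameters
  have hbox : ∀ᶠ δ : ℝ in 𝓝[>] 0, 0 ≤ eval e ((lap w)^[m] (reg e (2 * m) δ p)) := by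
    filter_upwards [hposΩ.filter_mono nhdsWithin_le_nhds, self_mem_nhdsWithin] with δ hδ hδ0
    have hδ0' : (0 : ℝ) < δ := hδ0
    have hstab : ∀ a : ℝ, 0 < a →
        Stab (flow2 e w (2 * m) a 1 1 (reg e (2 * m) δ p)) e := fun a ha =>
      hMain σ Ω e w _ (2 * m) a hΩ he hstar ha (hR1 δ) hδ (hR4 δ hδ0')
        (fun τ => hR3 δ a τ hδ0'.le ha.le) 1 zero_le_one 1
    have hsum : ∀ a : ℝ, 0 < a → 0 ≤ ∑ k ∈ Finset.range (m + 1),
        a ^ k / ((m - k).factorial * k.factorial) *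
          eval e (g2 e w (reg e (2 * m) δ p) (m - k) k) := fun a ha =>
      hEx σ e w _ m a ha (hR1 δ) (hδ e he) (hstab a ha)
    have hlim : Tendsto (fun a : ℝ => ∑ k ∈ Finset.range (m + 1),
        a ^ k / ((m - k).factorial * k.factorial) *
          eval e (g2 e w (reg e (2 * m) δ p) (m - k) k)) (𝓝[>] 0)
        (𝓝 (∑ k ∈ Finset.range (m + 1), (0 : ℝ) ^ k / ((m - k).factorial * k.factorial) *
          eval e (g2 e w (reg e (2 * m) δ p) (m - k) k))) := by
      have hc : Continuous (fun a : ℝ => ∑ k ∈ Finset.range (m + 1),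
        a ^ k / ((m - k).factorial * k.factorial) *
          eval e (g2 e w (reg e (2 * m) δ p) (m - k) k)) := by fun_prop
      exact (hc.tendsto 0).mono_left nhdsWithin_le_nhds
    have h1 := ge_of_tendsto hlim (eventually_nhdsWithin_of_forall fun a ha => hsum a ha)
    rw [Finset.sum_eq_single 0] at h1
    · simp only [pow_zero, Nat.sub_zero, Nat.factorial_zero, Nat.cast_one, mul_one] at h1
      have h2 : g2 e w (reg e (2 * m) δ p) m 0 = (lap w)^[m] (reg e (2 * m) δ p) := rfl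
      rw [h2] at h1
      have h3 : (0 : ℝ) < 1 / (m.factorial : ℝ) := by positivity
      exact nonneg_of_mul_nonneg_right h1 h3
    · intro k _ hk
      rw [zero_pow hk, zero_div, zero_mul]
    · simp
  have hL := hC1 ((aeval e : MvPolynomial σ ℝ →ₐ[ℝ] ℝ).toLinearMap ∘ₗ (lapL w ^ m))
  have hL2 : ∀ δ, ((aeval e : MvPolynomial σ ℝ →ₐ[ℝ] ℝ).toLinearMap ∘ₗ (lapL w ^ m))
      (reg e (2 * m) δ p) = eval e ((lap w)^[m] (reg e (2 * m) δ p)) := by
    intro δ
    rw [LinearMap.comp_apply, lapL_pow, AlgHom.toLinearMap_apply]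
    exact congrFun (congrArg DFunLike.coe (coe_aeval_eq_eval e)) _
  simp only [hL2] at hL
  have hlim : Tendsto (fun δ => eval e ((lap w)^[m] (reg e (2 * m) δ p))) (𝓝[>] 0)
      (𝓝 (eval e ((lap w)^[m] (reg e (2 * m) 0 p)))) :=
    (hL.tendsto 0).mono_left nhdsWithin_le_nhds
  rw [reg_zero] at hlim
  exact ge_of_tendsto hlim hbox

end Pool.Agent.H783.HL
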