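import Pool.Agent.H783.HL.Stm

/-!
# HL12: the iterated Laplacian of a symmetric form (helper696 for helper783)
-/

set_option autoImplicit false

namespace Pool.Agent.H783.HL

open MvPolynomial

namespace PairAux

variable {K : Type} [Fintype K] [DecidableEq K]

/-- the form attached to `F` -/
noncomputable def SN (N : ℕ) (F : (Fin N → K) → ℝ) : MvPolynomial K ℝ :=
  ∑ β : Fin N → K, (∏ j, X (β j)) * C (F β)

/-- symmetric functions -/
def Sy (N : ℕ) (F : (Fin N → K) → ℝ) : Prop :=
  ∀ (π : Equiv.Perm (Fin N)) (β : Fin N → K), F (β ∘ π) = F β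

omit [DecidableEq K] in
theorem sn_succ (N : ℕ) (F : (Fin (N + 1) → K) → ℝ) :
    SN (N + 1) F = ∑ l, X l * SN N (fun β => F (Fin.cons l β)) := by
  unfold SN
  rw [← (Fin.consEquiv (fun _ : Fin (N + 1) => K)).sum_comp, Fintype.sum_prod_type]
  refine Finset.sum_congr rfl fun l _ => ?_
  rw [Finset.mul_sum]
  refine Finset.sum_congr rfl fun β _ => ?_
  show (∏ j, X ((Fin.cons l β : Fin (N + 1) → K) j)) * C (F (Fin.cons l β)) = _
  rw [Fin.prod_univ_succ]
  simp only [Fin.cons_zero, Fin.cons_succ]
  ring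

omit [Fintype K] [DecidableEq K] in
theorem sy_cons {N : ℕ} {F : (Fin (N + 1) → K) → ℝ} (hF : Sy (N + 1) F) (k : K) :
    Sy N (fun β => F (Fin.cons k β)) := by
  intro π β
  have h := hF (Equiv.Perm.decomposeFin.symm (0, π)) (Fin.cons k β)
  show F (Fin.cons k (β ∘ π)) = F (Fin.cons k β)
  rw [← h]
  congr 1
  funext i
  refine Fin.cases ?_ (fun i => ?_) i
  · simp
  · simp

omit [Fintype K] [DecidableEq K] in
theorem sy_swap {N : ℕ} {F : (Fin (N + 2) → K) → ℝ} (hF : Sy (N + 2) F) (k l : K)
    (β : Fin N → K) : F (Fin.cons l (Fin.cons k β)) = F (Fin.cons k (Fin.cons l β)) := by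
  have h := hF (Equiv.swap 0 1) (Fin.cons k (Fin.cons l β))
  rw [← h]
  congr 1
  funext i
  refine Fin.cases ?_ (fun i => Fin.cases ?_ (fun i => ?_) i) i
  · simp only [Function.comp_apply, Equiv.swap_apply_left, Fin.cons_zero]
    show l = (Fin.cons k (Fin.cons l β) : Fin (N + 2) → K) (Fin.succ 0)
    rw [Fin.cons_succ, Fin.cons_zero]
  · have e : (Fin.succ 0 : Fin (N + 2)) = 1 := rfl
    simp only [Function.comp_apply]
    rw [e, Equiv.swap_apply_right, Fin.cons_zero, ← e, Fin.cons_succ, Fin.cons_zero]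
  · have e1 : (i.succ.succ : Fin (N + 2)) ≠ 0 := Fin.succ_ne_zero _
    have e2 : (i.succ.succ : Fin (N + 2)) ≠ 1 := by
      intro h
      have h3 : (i.succ.succ : Fin (N + 2)) = Fin.succ 0 := h
      exact Fin.succ_ne_zero _ (Fin.succ_injective _ h3)
    simp only [Function.comp_apply]
    rw [Equiv.swap_apply_of_ne_of_ne e1 e2, Fin.cons_succ, Fin.cons_succ, Fin.cons_succ,
      Fin.cons_succ]

theorem pd (k : K) (N : ℕ) : ∀ (F : (Fin (N + 1) → K) → ℝ), Sy (N + 1) F →
    pderiv k (SN (N + 1) F) = C ((N : ℝ) + 1) * SN N (fun β => F (Fin.cons k β)) := by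
  have first : ∀ (N : ℕ) (F : (Fin (N + 1) → K) → ℝ), pderiv k (SN (N + 1) F) =
      SN N (fun β => F (Fin.cons k β)) +
        ∑ l, X l * pderiv k (SN N (fun β => F (Fin.cons l β))) := by
    intro N F
    rw [sn_succ, map_sum]
    have h1 : ∀ l : K, pderiv k (X l * SN N (fun β => F (Fin.cons l β))) =
        (if l = k then SN N (fun β => F (Fin.cons k β)) else 0) +
          X l * pderiv k (SN N (fun β => F (Fin.cons l β))) := by
      intro l
      rw [pderiv_mul]
      by_cases h : l = k
      · subst h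
        rw [if_pos rfl, pderiv_X_self, one_mul]
      · rw [if_neg h, pderiv_X_of_ne h, zero_mul]
    rw [Finset.sum_congr rfl fun l _ => h1 l, Finset.sum_add_distrib, Finset.sum_ite_eq' Finset.univ k,
      if_pos (Finset.mem_univ _)]
  induction N with
  | zero =>
    intro F _
    rw [first]
    have h2 : ∀ l : K, pderiv k (SN 0 (fun β => F (Fin.cons l β))) = 0 := by
      intro l
      unfold SN
      rw [map_sum]
      refine Finset.sum_eq_zero fun β _ => ?_
      rw [Finset.univ_eq_empty, Finset.prod_empty, one_mul, pderiv_C]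
    rw [Finset.sum_eq_zero fun l _ => by rw [h2 l, mul_zero]]
    simp
  | succ N ih =>
    intro F hF
    rw [first]
    have h2 : ∀ l : K, X l * pderiv k (SN (N + 1) (fun β => F (Fin.cons l β))) =
        C ((N : ℝ) + 1) * (X l * SN N (fun β => F (Fin.cons k (Fin.cons l β)))) := by
      intro l
      rw [ih _ (sy_cons hF l)]
      have h3 : (fun β : Fin N → K => F (Fin.cons l (Fin.cons k β))) =
          fun β => F (Fin.cons k (Fin.cons l β)) := by
        funext β
        exact sy_swap hF k l β
      rw [h3]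
      ring
    rw [Finset.sum_congr rfl fun l _ => h2 l, ← Finset.mul_sum,
      ← sn_succ N (fun β => F (Fin.cons k β))]
    push_cast
    simp only [map_add, map_one]
    ring

/-- the operator -/
noncomputable def LL (w : K → ℝ) (p : MvPolynomial K ℝ) : MvPolynomial K ℝ :=
  ∑ k, C (w k) * dd k p

omit [DecidableEq K] in
theorem ll_C (w : K → ℝ) (c : ℝ) (p : MvPolynomial K ℝ) : LL w (C c * p) = C c * LL w p := by
  unfold LL dd
  rw [Finset.mul_sum]
  refine Finset.sum_congr rfl fun k _ => ?_
  rw [pderiv_C_mul, pderiv_C_mul]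
  ring

omit [DecidableEq K] in
theorem ll_iter (w : K → ℝ) (c : ℝ) (m : ℕ) : ∀ p : MvPolynomial K ℝ,
    (LL w)^[m] (C c * p) = C c * (LL w)^[m] p := by
  induction m with
  | zero =>
    intro p
    rfl
  | succ m ih =>
    intro p
    rw [Function.iterate_succ_apply, Function.iterate_succ_apply, ll_C, ih]

theorem ll_sn (w : K → ℝ) (N : ℕ) (F : (Fin (N + 2) → K) → ℝ) (hF : Sy (N + 2) F) :
    LL w (SN (N + 2) F) = C (((N : ℝ) + 2) * (N + 1)) *
      SN N (fun β => ∑ k, w k * F (Fin.cons k (Fin.cons k β))) := by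
  unfold LL dd
  have h1 : ∀ k : K, C (w k) * pderiv k (pderiv k (SN (N + 2) F)) =
      C (((N : ℝ) + 2) * (N + 1)) * SN N (fun β => w k * F (Fin.cons k (Fin.cons k β))) := by
    intro k
    have h2 := pd k (N + 1) F hF
    rw [h2, pderiv_C_mul, pd k N _ (sy_cons hF k)]
    have h3 : SN N (fun β => w k * F (Fin.cons k (Fin.cons k β))) =
        C (w k) * SN N (fun β => F (Fin.cons k (Fin.cons k β))) := by
      unfold SN
      rw [Finset.mul_sum]
      refine Finset.sum_congr rfl fun β _ => ?_
      rw [C_mul]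
      ring
    rw [h3]
    push_cast
    simp only [map_add, map_mul, map_one, map_natCast]
    have e : (C (2 : ℝ) : MvPolynomial K ℝ) = 1 + 1 := by
      rw [← C_1, ← C_add]
      norm_num
    rw [e]
    ring
  rw [Finset.sum_congr rfl fun k _ => h1 k, ← Finset.mul_sum]
  congr 1
  unfold SN
  rw [Finset.sum_comm]
  refine Finset.sum_congr rfl fun β _ => ?_
  rw [← Finset.mul_sum, map_sum]

theorem main (w : K → ℝ) (m : ℕ) : ∀ (F : (Fin (2 * m) → K) → ℝ), Sy (2 * m) F →
    ∀ e : Fin m × Bool ≃ Fin (2 * m), (LL w)^[m] (SN (2 * m) F) =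
      C ((2 * m).factorial * ∑ α : Fin m → K, (∏ j, w (α j)) *
        F ((fun x => α x.1) ∘ e.symm)) := by
  induction m with
  | zero =>
    intro F _ e
    show SN 0 F = _
    unfold SN
    rw [Fintype.sum_unique, Fintype.sum_unique]
    simp only [Finset.univ_eq_empty, Finset.prod_empty, one_mul]
    have h1 : ∀ f g : Fin (2 * 0) → K, f = g := by
      intro f g
      funext i
      exact i.elim0
    have h2 : ((2 * 0).factorial : ℝ) = 1 := by simp
    rw [h2, one_mul]
    exact congrArg C (congrArg F (h1 _ _))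
  | succ m ih =>
    intro F hF e
    rw [Function.iterate_succ_apply]
    have h1 := ll_sn w (2 * m) F hF
    have h2 : SN (2 * (m + 1)) F = SN (2 * m + 2) F := rfl
    rw [h2, h1, ll_iter]
    have hsy : Sy (2 * m) (fun β : Fin (2 * m) → K =>
        ∑ k, w k * F (Fin.cons k (Fin.cons k β))) := by
      intro π β
      refine Finset.sum_congr rfl fun k _ => ?_
      exact congrArg (fun x => w k * x) (sy_cons (sy_cons hF k) k π β)
    obtain ⟨e1⟩ : Nonempty (Fin m × Bool ≃ Fin (2 * m)) := by
      refine ⟨Fintype.equivOfCardEq ?_⟩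
      rw [Fintype.card_prod, Fintype.card_fin, Fintype.card_bool, Fintype.card_fin, mul_comm]
    rw [ih _ hsy e1, ← C_mul]
    congr 1
    -- the comparison of the arrangements
    let g : Fin (2 * m + 2) → Fin (m + 1) × Bool :=
      Fin.cons (0, false) (Fin.cons (0, true) fun i => ((e1.symm i).1.succ, (e1.symm i).2))
    have g0 : g 0 = (0, false) := rfl
    have g1 : g (Fin.succ 0) = (0, true) := by
      show (Fin.cons (0, false) (Fin.cons (0, true) fun i => ((e1.symm i).1.succ, (e1.symm i).2)) :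
        Fin (2 * m + 2) → Fin (m + 1) × Bool) (Fin.succ 0) = _
      rw [Fin.cons_succ, Fin.cons_zero]
    have g2 : ∀ i : Fin (2 * m), g i.succ.succ = ((e1.symm i).1.succ, (e1.symm i).2) := by
      intro i
      show (Fin.cons (0, false) (Fin.cons (0, true) fun i => ((e1.symm i).1.succ, (e1.symm i).2)) :
        Fin (2 * m + 2) → Fin (m + 1) × Bool) i.succ.succ = _
      rw [Fin.cons_succ, Fin.cons_succ]
    have gsurj : Function.Surjective g := by
      rintro ⟨i, b⟩
      refine Fin.cases ?_ (fun i => ?_) i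
      · cases b
        · exact ⟨0, g0⟩
        · exact ⟨Fin.succ 0, g1⟩
      · refine ⟨(e1 (i, b)).succ.succ, ?_⟩
        rw [g2, e1.symm_apply_apply]
    have gbij : Function.Bijective g := by
      rw [Fintype.bijective_iff_surjective_and_card]
      refine ⟨gsurj, ?_⟩
      rw [Fintype.card_prod, Fintype.card_fin, Fintype.card_bool, Fintype.card_fin]
      ring
    let G : Fin (2 * m + 2) ≃ Fin (m + 1) × Bool := Equiv.ofBijective g gbij
    have hG : ∀ i, G i = g i := fun i => rfl
    have hval : ∀ (k : K) (α : Fin m → K),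
        F (Fin.cons k (Fin.cons k ((fun x : Fin m × Bool => α x.1) ∘ e1.symm))) =
          F ((fun x : Fin (m + 1) × Bool => (Fin.cons k α : Fin (m + 1) → K) x.1) ∘ e.symm) := by
      intro k α
      have h3 : (Fin.cons k (Fin.cons k ((fun x : Fin m × Bool => α x.1) ∘ e1.symm)) :
          Fin (2 * m + 2) → K) =
          (fun x : Fin (m + 1) × Bool => (Fin.cons k α : Fin (m + 1) → K) x.1) ∘ g := by
        funext i
        refine Fin.cases ?_ (fun i => Fin.cases ?_ (fun i => ?_) i) i
        · show k = (Fin.cons k α : Fin (m + 1) → K) (g 0).1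
          rw [g0, Fin.cons_zero]
        · show (Fin.cons k (Fin.cons k ((fun x : Fin m × Bool => α x.1) ∘ e1.symm)) :
            Fin (2 * m + 2) → K) (Fin.succ 0) = (Fin.cons k α : Fin (m + 1) → K) (g (Fin.succ 0)).1
          rw [g1, Fin.cons_succ, Fin.cons_zero, Fin.cons_zero]
        · show (Fin.cons k (Fin.cons k ((fun x : Fin m × Bool => α x.1) ∘ e1.symm)) :
            Fin (2 * m + 2) → K) i.succ.succ = (Fin.cons k α : Fin (m + 1) → K) (g i.succ.succ).1
          rw [g2, Fin.cons_succ, Fin.cons_succ, Fin.cons_succ]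
          rfl
      have h4 : (fun x : Fin (m + 1) × Bool => (Fin.cons k α : Fin (m + 1) → K) x.1) ∘ e.symm =
          ((fun x : Fin (m + 1) × Bool => (Fin.cons k α : Fin (m + 1) → K) x.1) ∘ g) ∘
            (e.symm.trans G.symm : Fin (2 * m + 2) ≃ Fin (2 * m + 2)) := by
        funext i
        show (Fin.cons k α : Fin (m + 1) → K) (e.symm i).1 =
          (Fin.cons k α : Fin (m + 1) → K) (G (G.symm (e.symm i))).1
        rw [Equiv.apply_symm_apply]
      rw [h3]
      refine Eq.trans ?_ (congrArg F h4.symm)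
      exact (hF (e.symm.trans G.symm) _).symm
    have h5 : ∑ α : Fin (m + 1) → K, (∏ j, w (α j)) * F ((fun x => α x.1) ∘ e.symm) =
        ∑ k, ∑ α : Fin m → K, w k * ((∏ j, w (α j)) *
          F (Fin.cons k (Fin.cons k ((fun x : Fin m × Bool => α x.1) ∘ e1.symm)))) := by
      rw [← (Fin.consEquiv (fun _ : Fin (m + 1) => K)).sum_comp, Fintype.sum_prod_type]
      refine Finset.sum_congr rfl fun k _ => Finset.sum_congr rfl fun α _ => ?_
      show (∏ j, w ((Fin.cons k α : Fin (m + 1) → K) j)) *
        F ((fun x : Fin (m + 1) × Bool => (Fin.cons k α : Fin (m + 1) → K) x.1) ∘ e.symm) = _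
      rw [hval k α, Fin.prod_univ_succ]
      simp only [Fin.cons_zero, Fin.cons_succ]
      ring
    rw [h5]
    have h6 : ∀ α : Fin m → K, (∏ j, w (α j)) * ∑ k, w k *
        F (Fin.cons k (Fin.cons k ((fun x : Fin m × Bool => α x.1) ∘ e1.symm))) =
        ∑ k, w k * ((∏ j, w (α j)) *
          F (Fin.cons k (Fin.cons k ((fun x : Fin m × Bool => α x.1) ∘ e1.symm)))) := by
      intro α
      rw [Finset.mul_sum]
      refine Finset.sum_congr rfl fun k _ => ?_
      ring
    rw [Finset.sum_congr rfl fun α _ => h6 α, Finset.sum_comm]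
    have h7 : ((2 * (m + 1)).factorial : ℝ) = ((2 * m : ℕ) + 2) * ((2 * m : ℕ) + 1) *
        (2 * m).factorial := by
      have h8 : 2 * (m + 1) = 2 * m + 1 + 1 := by ring
      rw [h8, Nat.factorial_succ, Nat.factorial_succ]
      push_cast
      ring
    rw [h7]
    ring

end PairAux

open PairAux

theorem pair : S_Pair := by
  intro K _ _ w m F hF
  obtain ⟨e⟩ : Nonempty (Fin m × Bool ≃ Fin (2 * m)) := by
    refine ⟨Fintype.equivOfCardEq ?_⟩
    rw [Fintype.card_prod, Fintype.card_fin, Fintype.card_bool, Fintype.card_fin, mul_comm]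
  have hsy : Sy (2 * m) (fun β : Fin (2 * m) → K => F (β ∘ e)) := by
    intro π β
    have h := hF ((e.trans π).trans e.symm) (β ∘ e)
    show F ((β ∘ π) ∘ e) = F (β ∘ e)
    rw [← h]
    congr 1
    funext i
    show β (π (e i)) = β (e (e.symm (π (e i))))
    rw [Equiv.apply_symm_apply]
  have h1 := main w m (fun β : Fin (2 * m) → K => F (β ∘ e)) hsy e
  have h2 : SN (2 * m) (fun β : Fin (2 * m) → K => F (β ∘ e)) =
      ∑ β : Fin m × Bool → K, (∏ j, X (β j)) * C (F β) := by
    unfold SN
    rw [← (Equiv.arrowCongr e (Equiv.refl K)).sum_comp]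
    refine Finset.sum_congr rfl fun β _ => ?_
    have h3 : (Equiv.arrowCongr e (Equiv.refl K)) β = β ∘ e.symm := rfl
    rw [h3]
    congr 1
    · rw [← e.prod_comp]
      refine Finset.prod_congr rfl fun j _ => ?_
      rw [Function.comp_apply, Equiv.symm_apply_apply]
    · congr 1
      show F ((β ∘ e.symm) ∘ e) = F β
      congr 1
      funext j
      show β (e.symm (e j)) = β j
      rw [Equiv.symm_apply_apply]
  rw [h2] at h1
  refine Eq.trans h1 ?_
  congr 2
  refine Finset.sum_congr rfl fun α _ => ?_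
  congr 2
  funext x
  show α (e.symm (e x)).1 = α x.1
  rw [Equiv.symm_apply_apply]

end Pool.Agent.H783.HL
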