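import Pool.Agent.H783.HL.Star2
import Pool.Agent.H783.HL.Box2
import Pool.Agent.H783.HL.Pair
import Pool.Agent.H783.Sig.Acc
import Pool.Graph.R_seed8.Y489.SM.Md

/-!
# The double alternating form of a sum of causal families
-/

set_option autoImplicit false
set_option linter.unusedSectionVars false

namespace Pool.Agent.H783.HL

open MvPolynomial Filter Topology
open Pool.Agent.H783.Hopf (qf)
open Pool.Agent.H783.Sig (sv nq Coer sv_real)
open Pool.Agent.W666.GB (sn MD Yf)
open Pool.Agent.Y489.SM (FF FF_sy FF_poly Yf_sum)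

section dpoly

variable {κ J : Type} [Fintype κ] [DecidableEq κ] [Fintype J] [DecidableEq J]

/-- the determinant of `∑ X_o B_o` -/
noncomputable def dpoly (B : κ → J → J → ℝ) : MvPolynomial κ ℝ :=
  (Matrix.of fun i j => ∑ o, X o * C (B o i j)).det

theorem dpoly_eval (B : κ → J → J → ℝ) (x : κ → ℝ) :
    eval x (dpoly B) = (Matrix.of fun i j => ∑ o, x o * B o i j).det := by
  unfold dpoly
  rw [RingHom.map_det]
  congr 1
  ext i j
  simp [RingHom.mapMatrix_apply]

theorem dpoly_aeval (B : κ → J → J → ℝ) (z : κ → ℂ) :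
    aeval z (dpoly B) = (Matrix.of fun i j => ∑ o, z o * (B o i j : ℂ)).det := by
  unfold dpoly
  rw [AlgHom.map_det]
  congr 1
  ext i j
  simp [AlgHom.mapMatrix_apply]

theorem dpoly_hom (B : κ → J → J → ℝ) : (dpoly B).IsHomogeneous (Fintype.card J) := by
  unfold dpoly
  rw [Matrix.det_apply']
  refine IsHomogeneous.sum _ _ _ fun σ _ => ?_
  have h1 : (∏ i : J, (Matrix.of fun i j => ∑ o, X o * C (B o i j)) (σ i) i :
      MvPolynomial κ ℝ).IsHomogeneous (∑ _i : J, 1) := by
    refine IsHomogeneous.prod _ _ _ fun i _ => ?_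
    rw [Matrix.of_apply]
    refine IsHomogeneous.sum _ _ _ fun o _ => ?_
    have := (isHomogeneous_X ℝ o).mul (isHomogeneous_C κ (B o (σ i) i))
    rwa [add_zero] at this
  rw [Finset.sum_const, smul_eq_mul, mul_one, Finset.card_univ] at h1
  have h2 : ((Equiv.Perm.sign σ : ℤ) : MvPolynomial κ ℝ) = C (((Equiv.Perm.sign σ : ℤ) : ℝ)) := by
    simp
  rw [h2]
  have := (isHomogeneous_C κ (((Equiv.Perm.sign σ : ℤ) : ℝ))).mul h1
  rwa [zero_add] at this

theorem dpoly_expand (B : κ → J → J → ℝ) :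
    C ((Fintype.card J).factorial : ℝ) * dpoly B =
      ∑ β : J → κ, (∏ j, X (β j)) * C (MD fun j => B (β j)) := by
  apply MvPolynomial.funext
  intro x
  have h1 := FF_poly (fun _ : κ => (1 : ℂ)) B x
  have h2 : ∀ β : J → κ, FF (fun _ : κ => (1 : ℂ)) B β = MD fun j => B (β j) := by
    intro β
    unfold FF
    simp
  simp only [h2] at h1
  rw [map_mul, eval_C, dpoly_eval, map_sum]
  simp only [map_mul, map_prod, eval_X, eval_C]
  rw [h1]
  congr 1
  have h3 : (Matrix.of fun i j => ∑ k, (x k : ℂ) * 1 * (B k i j : ℂ)) =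
      (Matrix.of fun i j => ∑ o, x o * B o i j).map (Complex.ofRealHom : ℝ → ℂ) := by
    ext i j
    simp
  rw [h3]
  have h4 := RingHom.map_det Complex.ofRealHom (Matrix.of fun i j => ∑ o, x o * B o i j)
  rw [RingHom.mapMatrix_apply] at h4
  rw [← h4]
  simp

end dpoly

section lapd

variable {κ : Type} [Fintype κ] [DecidableEq κ] {m : ℕ}

theorem lap_iter_C (w : κ → ℝ) (m : ℕ) (c : ℝ) (p : MvPolynomial κ ℝ) :
    (lap w)^[m] (C c * p) = C c * (lap w)^[m] p := by
  rw [← lapL_pow, ← lapL_pow, ← smul_eq_C_mul, map_smul, smul_eq_C_mul]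

/-- **The iterated Laplacian of the determinant is the double alternating form.** -/
theorem lap_dpoly (hPair : S_Pair) (w : κ → ℝ) (B : κ → Fin m × Bool → Fin m × Bool → ℝ)
    (x : κ → ℝ) : eval x ((lap w)^[m] (dpoly B)) =
      Yf (fun a b c d => ∑ k, w k * (B k a b * B k c d)) := by
  have h1 := hPair κ w m (fun β => MD fun j => B (β j)) (fun π β => by
    have := FF_sy (fun _ : κ => (1 : ℂ)) B π β
    unfold FF at this
    simpa using this)
  rw [← dpoly_expand] at h1
  have h2 : (fun p : MvPolynomial κ ℝ => ∑ k, C (w k) * dd k p) = lap w := rfl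
  rw [h2, lap_iter_C] at h1
  have hcard : Fintype.card (Fin m × Bool) = 2 * m := by
    rw [Fintype.card_prod, Fintype.card_fin, Fintype.card_bool, mul_comm]
  rw [hcard] at h1
  have h3 := congrArg (eval x) h1
  rw [map_mul, eval_C, eval_C] at h3
  have h4 : ((2 * m).factorial : ℝ) ≠ 0 := by positivity
  have h5 := mul_left_cancel₀ h4 h3
  rw [h5, Yf_sum]

end lapd

section stab

variable {J : Type} [Fintype J]

theorem sv_add (M N : Matrix J J ℂ) (z : J → ℂ) : sv (M + N) z = sv M z + sv N z := by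
  unfold sv
  rw [← Finset.sum_add_distrib]
  refine Finset.sum_congr rfl fun j _ => ?_
  rw [Matrix.add_mulVec, Pi.add_apply, mul_add]

theorem sv_smul (c : ℂ) (M : Matrix J J ℂ) (z : J → ℂ) : sv (c • M) z = c * sv M z := by
  unfold sv
  rw [Finset.mul_sum]
  refine Finset.sum_congr rfl fun j _ => ?_
  rw [Matrix.smul_mulVec, Pi.smul_apply, smul_eq_mul]
  ring

theorem nq_parts (z : J → ℂ) : nq z = ‖(WithLp.toLp 2 fun j => (z j).re : EuclideanSpace ℝ J)‖ ^ 2 +
    ‖(WithLp.toLp 2 fun j => (z j).im : EuclideanSpace ℝ J)‖ ^ 2 := by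
  unfold nq
  rw [EuclideanSpace.real_norm_sq_eq, EuclideanSpace.real_norm_sq_eq, ← Finset.sum_add_distrib]
  refine Finset.sum_congr rfl fun j _ => ?_
  rw [Complex.sq_norm, Complex.normSq_apply]
  ring

variable [DecidableEq J]

/-- `det (X + i A) ≠ 0` for real symmetric `X` and positive definite `A` -/
theorem det_stab {X A : J → J → ℝ} (hX : ∀ i j, X i j = X j i) (hA : ∀ i j, A i j = A j i)
    {p : ℝ} (hp : 0 < p) (hq : ∀ y : EuclideanSpace ℝ J, p * ‖y‖ ^ 2 ≤ qf A y) :
    (Matrix.of fun i j => (X i j : ℂ) + (A i j : ℂ) * Complex.I).det ≠ 0 := by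
  have h1 : Coer ((-Complex.I) • Matrix.of fun i j => (X i j : ℂ) + (A i j : ℂ) * Complex.I) p := by
    intro z
    have h2 : (Matrix.of fun i j => (X i j : ℂ) + (A i j : ℂ) * Complex.I) =
        (Matrix.of fun i j => (X i j : ℂ)) + Complex.I • (Matrix.of fun i j => (A i j : ℂ)) := by
      ext i j
      simp only [Matrix.of_apply, Matrix.add_apply, Matrix.smul_apply, smul_eq_mul]
      ring
    rw [sv_smul, h2, sv_add, sv_smul, sv_real hX, sv_real hA, nq_parts]
    have h3 := hq (WithLp.toLp 2 fun j => (z j).re)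
    have h4 := hq (WithLp.toLp 2 fun j => (z j).im)
    simp only [mul_add]
    rw [← mul_assoc (-Complex.I) Complex.I, neg_mul Complex.I Complex.I, Complex.I_mul_I]
    simp
    linarith
  have h5 := h1.inj hp
  intro h0
  apply h5
  rw [Matrix.det_smul, h0, mul_zero]

/-- positive determinants -/
theorem det_pos_of_qf {A : J → J → ℝ} (hA : ∀ i j, A i j = A j i)
    {p : ℝ} (hp : 0 < p) (hq : ∀ y : EuclideanSpace ℝ J, p * ‖y‖ ^ 2 ≤ qf A y) :
    0 < (Matrix.of A).det := by
  have h1 : (Matrix.of A).PosDef := by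
    refine Matrix.PosDef.of_dotProduct_mulVec_pos ?_ ?_
    · ext i j
      simp [hA i j]
    · intro y hy
      have h2 := hq (WithLp.toLp 2 y)
      have h3 : qf A (WithLp.toLp 2 y) = star y ⬝ᵥ (Matrix.of A).mulVec y := by
        unfold qf
        simp only [dotProduct, Matrix.mulVec, Matrix.of_apply, Pi.star_apply, star_trivial,
          Finset.mul_sum]
        refine Finset.sum_congr rfl fun i _ => Finset.sum_congr rfl fun j _ => ?_
        ring
      rw [h3] at h2
      have h4 : 0 < ‖(WithLp.toLp 2 y : EuclideanSpace ℝ J)‖ := by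
        rw [norm_pos_iff]
        intro h
        apply hy
        have := congrArg (WithLp.ofLp) h
        simpa using this
      have h5 : 0 < p * ‖(WithLp.toLp 2 y : EuclideanSpace ℝ J)‖ ^ 2 := by positivity
      linarith
  exact h1.det_pos

theorem qf_lin {κ : Type} [Fintype κ] (B : κ → J → J → ℝ) (v : κ → ℝ) (y : EuclideanSpace ℝ J) :
    qf (fun i j => ∑ o, v o * B o i j) y = ∑ o, v o * qf (B o) y := by
  unfold qf
  simp only [Finset.sum_mul, Finset.mul_sum]
  rw [Finset.sum_comm' (s := Finset.univ) (t := fun _ => Finset.univ) (t' := Finset.univ)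
    (s' := fun _ => Finset.univ) (by simp)]
  have h1 : ∀ i, ∑ j, ∑ o, v o * B o i j * (y i * y j) = ∑ o, ∑ j, v o * B o i j * (y i * y j) :=
    fun i => Finset.sum_comm
  rw [Finset.sum_comm]
  simp only [h1]
  rw [Finset.sum_comm]
  refine Finset.sum_congr rfl fun o _ => Finset.sum_congr rfl fun i _ =>
    Finset.sum_congr rfl fun j _ => ?_
  ring

end stab

end Pool.Agent.H783.HL
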