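import Pool.Agent.H783.HL.Core
import Pool.Agent.H783.HL.Link

/-!
# Families with values in products of light cones
-/

set_option autoImplicit false
set_option linter.unusedSectionVars false

namespace Pool.Agent.H783.HL

open MvPolynomial Filter Topology
open Pool.Agent.H783.Hopf (qf)
open Pool.Agent.W666.GB (sn MD Yf)

section strict

variable {ι K : Type} [Fintype ι] [Fintype K] [DecidableEq ι] [DecidableEq K] {m : ℕ}

theorem zero_notMem_PC [Nonempty ι] : (0 : ι × Option K → ℝ) ∉ PC ι K := by
  intro h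
  have := (h (Classical.arbitrary ι)).1
  simp at this

theorem closure_PC {v : ι × Option K → ℝ} (hv : v ∈ closure (PC ι K)) (j : ι) :
    0 ≤ v (j, none) ∧ ∑ b : K, v (j, some b) ^ 2 ≤ v (j, none) ^ 2 := by
  have h1 : closure (PC ι K) ⊆ {v | 0 ≤ v (j, none)} ∩
      {v | ∑ b : K, v (j, some b) ^ 2 ≤ v (j, none) ^ 2} := by
    refine closure_minimal ?_ ?_
    · intro v hv
      exact ⟨(hv j).1.le, (hv j).2.le⟩
    · refine IsClosed.inter ?_ ?_
      · exact isClosed_le continuous_const (continuous_apply _)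
      · exact isClosed_le (by fun_prop) (by fun_prop)
  exact h1 hv

/-- the strict case -/
theorem Yf_strict [Nonempty ι] (B : ι × Option K → Fin m × Bool → Fin m × Bool → ℝ)
    (hs : ∀ o i j, B o i j = B o j i) {ε : ℝ} (hε : 0 < ε)
    (hc : ∀ (j : ι) (y : EuclideanSpace ℝ (Fin m × Bool)),
      Real.sqrt (∑ b, qf (B (j, some b)) y ^ 2) + ε * ‖y‖ ^ 2 ≤ qf (B (j, none)) y) :
    0 ≤ Yf (fun a b c d => ∑ o, pw o * (B o a b * B o c d)) := by
  have hcard : Fintype.card (Fin m × Bool) = 2 * m := by
    rw [Fintype.card_prod, Fintype.card_fin, Fintype.card_bool, mul_comm]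
  have hq0 : ∀ (j : ι) (y : EuclideanSpace ℝ (Fin m × Bool)), ε * ‖y‖ ^ 2 ≤ qf (B (j, none)) y := by
    intro j y
    have := hc j y
    have h2 := Real.sqrt_nonneg (∑ b, qf (B (j, some b)) y ^ 2)
    linarith
  have hlow : ∀ (v : ι × Option K → ℝ), (∀ j, 0 ≤ v (j, none) ∧
      ∑ b : K, v (j, some b) ^ 2 ≤ v (j, none) ^ 2) → ∀ y : EuclideanSpace ℝ (Fin m × Bool),
      (ε * ∑ j, v (j, none)) * ‖y‖ ^ 2 ≤ qf (fun i j => ∑ o, v o * B o i j) y := by
    intro v hv y
    rw [qf_lin, Fintype.sum_prod_type]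
    have h1 : (ε * ∑ j, v (j, none)) * ‖y‖ ^ 2 = ∑ j, v (j, none) * (ε * ‖y‖ ^ 2) := by
      rw [← Finset.sum_mul]
      ring
    rw [h1]
    refine Finset.sum_le_sum fun j _ => ?_
    rw [Fintype.sum_option]
    obtain ⟨h2, h3⟩ := hv j
    have h4 := Finset.sum_mul_sq_le_sq_mul_sq Finset.univ (fun b : K => v (j, some b))
      (fun b : K => qf (B (j, some b)) y)
    have h5 : (∑ b : K, v (j, some b) * qf (B (j, some b)) y) ^ 2 ≤
        (v (j, none) * Real.sqrt (∑ b, qf (B (j, some b)) y ^ 2)) ^ 2 := by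
      refine h4.trans ?_
      rw [mul_pow, Real.sq_sqrt (Finset.sum_nonneg fun _ _ => sq_nonneg _)]
      exact mul_le_mul_of_nonneg_right h3 (Finset.sum_nonneg fun _ _ => sq_nonneg _)
    have h6 := (abs_le_of_sq_le_sq' h5 (by positivity)).1
    have h7 := mul_le_mul_of_nonneg_left (hc j y) h2
    linarith
  have hbox := hl_box (ι × Option K) (PC ι K) pe pw (dpoly B) m (hl_star ι K).1 (hl_star ι K).2.1
    zero_notMem_PC (hl_star ι K).2.2 (by rw [← hcard]; exact dpoly_hom B) ?_ ?_
  · rw [lap_dpoly pair] at hbox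
    exact hbox
  · intro x s hs'
    rw [dpoly_aeval]
    have h1 : (Matrix.of fun i j => ∑ o, cp x (fun k => s * pe k) o * (B o i j : ℂ)) =
        Matrix.of fun i j => (((∑ o, x o * B o i j : ℝ)) : ℂ) +
          (((∑ o, (s * pe o) * B o i j : ℝ)) : ℂ) * Complex.I := by
      ext i j
      simp only [Matrix.of_apply, cp]
      push_cast
      rw [Finset.sum_mul, ← Finset.sum_add_distrib]
      refine Finset.sum_congr rfl fun o _ => ?_
      ring
    rw [h1]
    have hpe1 : ∀ j : ι, (pe ((j, none) : ι × Option K) : ℝ) = 1 := fun _ => rfl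
    have hpe2 : ∀ (j : ι) (b : K), (pe ((j, some b) : ι × Option K) : ℝ) = 0 := fun _ _ => rfl
    refine det_stab (p := ε * ∑ _j : ι, s) ?_ ?_ ?_ ?_
    · intro i j
      exact Finset.sum_congr rfl fun o _ => by rw [hs]
    · intro i j
      exact Finset.sum_congr rfl fun o _ => by rw [hs]
    · have : 0 < ∑ _j : ι, s := Finset.sum_pos (fun _ _ => hs') Finset.univ_nonempty
      positivity
    · intro y
      have h2 := hlow (fun o => s * pe o) (fun j => ?_) y
      · simp only [hpe1, mul_one] at h2
        exact h2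
      · simp only [hpe1, hpe2, mul_one, mul_zero]
        refine ⟨hs'.le, ?_⟩
        simp
        positivity
  · intro v hv hv0
    rw [dpoly_eval]
    have hv' := closure_PC hv
    have hsum : 0 < ∑ j, v (j, none) := by
      refine lt_of_le_of_ne (Finset.sum_nonneg fun j _ => (hv' j).1) ?_
      intro h0
      apply hv0
      have h1 : ∀ j, v (j, none) = 0 := fun j =>
        (Finset.sum_eq_zero_iff_of_nonneg (fun j _ => (hv' j).1)).1 h0.symm j (Finset.mem_univ j)
      funext o
      obtain ⟨j, o⟩ := o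
      cases o with
      | none => exact h1 j
      | some b =>
        have h2 := (hv' j).2
        rw [h1 j, zero_pow two_ne_zero] at h2
        have h3 : v (j, some b) ^ 2 ≤ ∑ b : K, v (j, some b) ^ 2 :=
          Finset.single_le_sum (f := fun b => v (j, some b) ^ 2) (fun _ _ => sq_nonneg _)
            (Finset.mem_univ b)
        have h4 : v (j, some b) ^ 2 = 0 := le_antisymm (h3.trans h2) (sq_nonneg _)
        simpa using pow_eq_zero_iff two_ne_zero |>.1 h4
    refine det_pos_of_qf ?_ (mul_pos hε hsum) (hlow v hv')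
    intro i j
    exact Finset.sum_congr rfl fun o _ => by rw [hs]

end strict

section general

variable {ι K : Type} [Fintype ι] [Fintype K] [DecidableEq ι] [DecidableEq K] {m : ℕ}

/-- `B + ε` in the time components -/
noncomputable def shiftB (B : ι × Option K → Fin m × Bool → Fin m × Bool → ℝ) (ε : ℝ)
    (o : ι × Option K) (i j : Fin m × Bool) : ℝ :=
  B o i j + ε * (o.2.elim (if i = j then 1 else 0) fun _ => 0)

theorem Yf_shift_cont (B : ι × Option K → Fin m × Bool → Fin m × Bool → ℝ) :
    Continuous fun ε : ℝ => Yf (fun a b c d => ∑ o, pw o * (shiftB B ε o a b * shiftB B ε o c d)) := by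
  unfold Yf shiftB
  fun_prop

theorem qf_add_diag (S : Fin m × Bool → Fin m × Bool → ℝ) (ε : ℝ)
    (y : EuclideanSpace ℝ (Fin m × Bool)) :
    qf (fun i j => S i j + ε * (if i = j then 1 else 0)) y = qf S y + ε * ‖y‖ ^ 2 := by
  unfold qf
  simp only [add_mul, Finset.sum_add_distrib]
  congr 1
  rw [EuclideanSpace.real_norm_sq_eq, Finset.mul_sum]
  refine Finset.sum_congr rfl fun i _ => ?_
  rw [Finset.sum_eq_single i]
  · rw [if_pos rfl]
    ring
  · intro j _ hj
    rw [if_neg (Ne.symm hj)]
    ring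
  · simp

/-- **The double alternating form of a sum of causal families is nonnegative.** -/
theorem Yf_causal [Nonempty ι] (B : ι × Option K → Fin m × Bool → Fin m × Bool → ℝ)
    (hs : ∀ o i j, B o i j = B o j i)
    (hc : ∀ (j : ι) (y : EuclideanSpace ℝ (Fin m × Bool)),
      0 ≤ qf (B (j, none)) y ∧ ∑ b, qf (B (j, some b)) y ^ 2 ≤ qf (B (j, none)) y ^ 2) :
    0 ≤ Yf (fun a b c d => ∑ o, pw o * (B o a b * B o c d)) := by
  have h1 : ∀ ε : ℝ, 0 < ε →
      0 ≤ Yf (fun a b c d => ∑ o, pw o * (shiftB B ε o a b * shiftB B ε o c d)) := by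
    intro ε hε
    refine Yf_strict (shiftB B ε) ?_ hε ?_
    · intro o i j
      unfold shiftB
      rw [hs]
      obtain ⟨a, o⟩ := o
      cases o with
      | none => simp only [Option.elim_none, eq_comm]
      | some b => rfl
    · intro j y
      have h2 : shiftB B ε (j, none) = fun i k => B (j, none) i k + ε * (if i = k then 1 else 0) :=
        rfl
      have h3 : ∀ b, shiftB B ε (j, some b) = B (j, some b) := by
        intro b
        funext i k
        show B (j, some b) i k + ε * 0 = B (j, some b) i k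
        ring
      simp only [h2, h3, qf_add_diag]
      obtain ⟨h4, h5⟩ := hc j y
      have h6 := Real.sqrt_le_sqrt h5
      rw [Real.sqrt_sq h4] at h6
      linarith
  have h2 := (Yf_shift_cont B).tendsto 0
  have h3 : shiftB B 0 = B := by
    funext o i j
    unfold shiftB
    rw [zero_mul, add_zero]
  rw [h3] at h2
  exact ge_of_tendsto (h2.mono_left nhdsWithin_le_nhds)
    (eventually_nhdsWithin_of_forall (s := Set.Ioi 0) fun ε hε => h1 ε hε)

end general

end Pool.Agent.H783.HL
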