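import Pool.Agent.H783.HL.Stm4

/-!
# The extended cone (task Cone4, helper113)
-/

set_option autoImplicit false

namespace Pool.Agent.H783.HL

open MvPolynomial

namespace Cone4

section res
variable {κ L : Type}

/-- the restriction to `t = 0` -/
noncomputable def res (κ L : Type) : MvPolynomial (κ ⊕ L) ℝ →ₐ[ℝ] MvPolynomial κ ℝ :=
  aeval (Sum.elim X (fun _ => 0))

theorem res_inl (k : κ) : res κ L (X (Sum.inl k)) = X k := by
  unfold res
  rw [aeval_X]
  rfl

theorem res_inr (l : L) : res κ L (X (Sum.inr l)) = 0 := by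
  unfold res
  rw [aeval_X]
  rfl

theorem aeval_res {S : Type} [CommRing S] [Algebra ℝ S] (z : κ → S) (q : MvPolynomial (κ ⊕ L) ℝ) :
    aeval z (res κ L q) = aeval (Sum.elim z (fun _ => 0)) q := by
  induction q using MvPolynomial.induction_on with
  | C a => simp [res]
  | add p q hp hq => rw [map_add, map_add, map_add, hp, hq]
  | mul_X p k hp =>
    rw [map_mul, map_mul, map_mul, hp, aeval_X]
    rcases k with k | l
    · rw [res_inl, aeval_X]
      rfl
    · rw [res_inr, map_zero]
      rfl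

theorem eval_res (z : κ → ℝ) (q : MvPolynomial (κ ⊕ L) ℝ) :
    eval z (res κ L q) = eval (Sum.elim z (fun _ => 0)) q := by
  have h := aeval_res (S := ℝ) z q
  rw [aeval_def, aeval_def, Algebra.algebraMap_self] at h
  exact h

theorem pderiv_res (k : κ) (q : MvPolynomial (κ ⊕ L) ℝ) :
    pderiv k (res κ L q) = res κ L (pderiv (Sum.inl k) q) := by
  classical
  induction q using MvPolynomial.induction_on with
  | C a =>
    have h : res κ L (C a) = C a := by
      unfold res
      rw [aeval_C]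
      rfl
    rw [h, pderiv_C, pderiv_C, map_zero]
  | add p q hp hq => rw [map_add, map_add, map_add, map_add, hp, hq]
  | mul_X p j hp =>
    rw [map_mul, pderiv_mul, pderiv_mul, hp, map_add, map_mul, map_mul]
    rcases j with j | l
    · rw [res_inl, pderiv_X, pderiv_X]
      by_cases h : k = j
      · subst h
        rw [Pi.single_eq_same, Pi.single_eq_same, map_one]
      · rw [Pi.single_eq_of_ne (Ne.symm h), Pi.single_eq_of_ne (fun h' => h (Sum.inl.inj h').symm),
          map_zero]
    · rw [res_inr, map_zero, pderiv_X, Pi.single_eq_of_ne (by simp), map_zero]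

theorem dd_res (k : κ) (q : MvPolynomial (κ ⊕ L) ℝ) :
    dd k (res κ L q) = res κ L (dd (Sum.inl k) q) := by
  unfold dd
  rw [pderiv_res, pderiv_res]

theorem lap_res [Fintype κ] [Fintype L] (e w : κ → ℝ) (q : MvPolynomial (κ ⊕ L) ℝ) :
    eval e (lap w (res κ L q)) =
      eval (Sum.elim e fun _ => 0) (lap (Sum.elim w fun _ => 0) q) := by
  unfold lap
  rw [map_sum, map_sum, Fintype.sum_sum_type]
  have h1 : ∑ l : L, eval (Sum.elim e fun _ => (0 : ℝ))
      (C (Sum.elim w (fun _ => (0 : ℝ)) (Sum.inr l)) * dd (Sum.inr l) q) = 0 := by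
    refine Finset.sum_eq_zero fun l _ => ?_
    rw [map_mul, eval_C]
    show (0 : ℝ) * _ = 0
    rw [zero_mul]
  rw [h1, add_zero]
  refine Finset.sum_congr rfl fun k _ => ?_
  rw [map_mul, map_mul, eval_C, eval_C, dd_res, eval_res]
  rfl

theorem res_hom {m : ℕ} {q : MvPolynomial (κ ⊕ L) ℝ} (hq : q.IsHomogeneous m) :
    (res κ L q).IsHomogeneous m := by
  have h := hq.aeval (Sum.elim X (fun _ => 0) : κ ⊕ L → MvPolynomial κ ℝ) (n := 1) (by
    rintro (k | l)
    · exact isHomogeneous_X _ _
    · exact isHomogeneous_zero _ _ _)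
  rwa [one_mul] at h

end res

section cone
variable {ι K L : Type} [Fintype ι] [Fintype K]

theorem mem_PCx {c : ℝ} {v : (ι × Option K) ⊕ L → ℝ} : v ∈ PCx ι K L c ↔
    (fun o => v (Sum.inl o)) ∈ PC ι K ∧ ∀ l, |v (Sum.inr l)| < c * ∑ j, v (Sum.inl (j, none)) :=
  Iff.rfl

theorem elim_mem [Nonempty ι] {c : ℝ} (hc : 0 < c) {v : ι × Option K → ℝ} (hv : v ∈ PC ι K) :
    (Sum.elim v fun _ => 0 : (ι × Option K) ⊕ L → ℝ) ∈ PCx ι K L c := by
  rw [mem_PCx]
  refine ⟨hv, fun l => ?_⟩
  show |(0 : ℝ)| < c * ∑ j, v (j, none)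
  rw [abs_zero]
  exact mul_pos hc (Finset.sum_pos (fun j _ => (hv j).1) Finset.univ_nonempty)

end cone

end Cone4

open Cone4 in
theorem cone4 (hS : S2_Star) : S4_Cone := by
  intro ι K L _ _ _ _ c hc
  obtain ⟨hO, hpe, hstar⟩ := hS ι K
  refine ⟨⟨?_, ?_, ?_⟩, elim_mem hc hpe, ?_, ?_⟩
  · -- open
    have h : PCx ι K L c = ((fun (v : (ι × Option K) ⊕ L → ℝ) (o : ι × Option K) =>
        v (Sum.inl o)) ⁻¹' PC ι K) ∩ ⋂ l : L, {v | |v (Sum.inr l)| <
          c * ∑ j, v (Sum.inl (j, none))} := by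
      ext v
      rw [mem_PCx, Set.mem_inter_iff, Set.mem_iInter]
      rfl
    rw [h]
    refine IsOpen.inter (hO.isOpen.preimage (by fun_prop)) (isOpen_iInter_of_finite fun l => ?_)
    exact isOpen_lt (by fun_prop) (by fun_prop)
  · -- convex
    intro v hv u hu a b ha hb hab
    rw [mem_PCx] at hv hu ⊢
    refine ⟨hO.convex hv.1 hu.1 ha hb hab, fun l => ?_⟩
    have h1 := hv.2 l
    have h2 := hu.2 l
    have e1 : (a • v + b • u) (Sum.inr l) = a * v (Sum.inr l) + b * u (Sum.inr l) := rfl
    have e2 : ∑ j, (a • v + b • u) (Sum.inl (j, none)) =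
        a * ∑ j, v (Sum.inl (j, none)) + b * ∑ j, u (Sum.inl (j, none)) := by
      rw [Finset.mul_sum, Finset.mul_sum, ← Finset.sum_add_distrib]
      rfl
    rw [e1, e2]
    have h3 : |a * v (Sum.inr l) + b * u (Sum.inr l)| ≤
        a * |v (Sum.inr l)| + b * |u (Sum.inr l)| := by
      refine (abs_add_le _ _).trans ?_
      rw [abs_mul, abs_mul, abs_of_nonneg ha, abs_of_nonneg hb]
    refine h3.trans_lt ?_
    rcases eq_or_lt_of_le ha with h0 | h0
    · have hb1 : b = 1 := by linarith
      rw [← h0, hb1]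
      linarith
    · have h4 := mul_lt_mul_of_pos_left h1 h0
      have h5 := mul_le_mul_of_nonneg_left h2.le hb
      calc a * |v (Sum.inr l)| + b * |u (Sum.inr l)|
          < a * (c * ∑ j, v (Sum.inl (j, none))) + b * (c * ∑ j, u (Sum.inl (j, none))) := by
            linarith
        _ = _ := by ring
  · -- cone
    intro s hs v hv
    rw [mem_PCx] at hv ⊢
    refine ⟨hO.cone s hs _ hv.1, fun l => ?_⟩
    have h1 := mul_lt_mul_of_pos_left (hv.2 l) hs
    rw [abs_mul, abs_of_pos hs, ← Finset.mul_sum]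
    calc s * |v (Sum.inr l)| < s * (c * ∑ j, v (Sum.inl (j, none))) := h1
      _ = _ := by ring
  · -- zero
    intro h0
    rw [mem_PCx] at h0
    obtain ⟨j⟩ := (inferInstance : Nonempty ι)
    exact lt_irrefl _ (h0.1 j).1
  · -- the condition
    intro q m hm hq hst
    have hst' : StabOn (PC ι K) (res (ι × Option K) L q) := by
      intro x v hv
      have h1 := hst (Sum.elim x fun _ => 0) (Sum.elim v fun _ => 0) (elim_mem hc hv)
      rw [aeval_res]
      have h2 : (Sum.elim (cp x v) fun _ => 0 : (ι × Option K) ⊕ L → ℂ) =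
          cp (Sum.elim x fun _ => 0) (Sum.elim v fun _ => 0) := by
        funext k
        rcases k with k | l
        · rfl
        · simp [cp]
      rw [h2]
      exact h1
    have h := hstar (res (ι × Option K) L q) m hm (res_hom hq) hst'
    rwa [eval_res, lap_res] at h

end Pool.Agent.H783.HL
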