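import Pool.Agent.H783.HL.Stm4

/-!
# The Gaussian mean of polynomials (task HL4-4, helper47)
-/

set_option autoImplicit false

namespace Pool.Agent.H783.HL

open MvPolynomial MeasureTheory ProbabilityTheory
open scoped NNReal ENNReal

namespace Heat4L

/-- the centred Gaussian measure of variance two -/
noncomputable def g1 : Measure ℝ := gaussianReal 0 2

instance g1_prob : IsProbabilityMeasure g1 := by
  unfold g1
  infer_instance

/-- the moments -/
noncomputable def Mo (n : ℕ) : ℝ := ∫ x, x ^ n ∂g1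

theorem int1 (n : ℕ) : Integrable (fun x : ℝ => x ^ n) g1 := by
  have h : MemLp id (n : ℝ≥0∞) g1 := memLp_id_gaussianReal' _ (ENNReal.natCast_ne_top n)
  have h1 := h.integrable_norm_pow'
  have h2 : AEStronglyMeasurable (fun x : ℝ => x ^ n) g1 :=
    (measurable_id.pow_const n).aestronglyMeasurable
  rw [← integrable_norm_iff h2]
  refine h1.congr (Filter.Eventually.of_forall fun x => ?_)
  simp

theorem intv (n : ℕ) : Integrable (fun x : ℝ => x ^ n * Real.exp (-(1 / 4) * x ^ 2)) := by
  have h := integrable_rpow_mul_exp_neg_mul_sq (b := 1 / 4) (by norm_num) (s := (n : ℝ))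
    (lt_of_lt_of_le (by norm_num) (Nat.cast_nonneg n))
  simpa only [Real.rpow_natCast] using h

/-- the moments with respect to the Lebesgue measure -/
noncomputable def Iv (n : ℕ) : ℝ := ∫ x : ℝ, x ^ n * Real.exp (-(1 / 4) * x ^ 2)

theorem Iv_rec (n : ℕ) : Iv (n + 2) = 2 * ((n : ℝ) + 1) * Iv n := by
  have h1 : ∀ x : ℝ, HasDerivAt (fun x : ℝ => x ^ (n + 1) * Real.exp (-(1 / 4) * x ^ 2))
      (((n : ℝ) + 1) * (x ^ n * Real.exp (-(1 / 4) * x ^ 2)) -
        (1 / 2) * (x ^ (n + 2) * Real.exp (-(1 / 4) * x ^ 2))) x := by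
    intro x
    have h2 := (hasDerivAt_pow (n + 1) x).mul
      (((hasDerivAt_pow 2 x).const_mul (-(1 / 4 : ℝ))).exp)
    refine h2.congr_deriv ?_
    push_cast
    ring
  have h2 := integral_eq_zero_of_hasDerivAt_of_integrable h1
    (((intv n).const_mul ((n : ℝ) + 1)).sub ((intv (n + 2)).const_mul (1 / 2))) (intv (n + 1))
  rw [integral_sub ((intv n).const_mul ((n : ℝ) + 1)) ((intv (n + 2)).const_mul (1 / 2)),
    integral_const_mul, integral_const_mul] at h2
  change ((n : ℝ) + 1) * Iv n - 1 / 2 * Iv (n + 2) = 0 at h2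
  linarith

theorem Mo_eq : ∃ c : ℝ, ∀ n, Mo n = c * Iv n := by
  refine ⟨(Real.sqrt (2 * Real.pi * 2))⁻¹, fun n => ?_⟩
  unfold Mo g1 Iv
  rw [integral_gaussianReal_eq_integral_smul (by norm_num), ← integral_const_mul]
  refine integral_congr_ae (Filter.Eventually.of_forall fun x => ?_)
  simp only [gaussianPDFReal, smul_eq_mul, NNReal.coe_ofNat, sub_zero]
  have e1 : -x ^ 2 / (2 * 2) = -(1 / 4) * x ^ 2 := by ring
  rw [e1]
  ring

theorem Mo_rec (n : ℕ) : Mo (n + 1) = 2 * (n : ℝ) * Mo (n - 1) := by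
  obtain ⟨c, hc⟩ := Mo_eq
  cases n with
  | zero =>
    have h1 : Mo 1 = 0 := by
      unfold Mo g1
      simp only [pow_one]
      exact integral_id_gaussianReal
    rw [zero_add, h1]
    simp
  | succ n =>
    rw [hc, Nat.add_sub_cancel, hc, Iv_rec]
    push_cast
    ring

section
variable {K : Type} [Fintype K]

/-- the product measure -/
noncomputable def gK (K : Type) [Fintype K] : Measure (K → ℝ) := Measure.pi (fun _ : K => g1)

instance gK_prob : IsProbabilityMeasure (gK K) := by
  unfold gK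
  infer_instance

theorem eval_mon (x : K → ℝ) (α : K →₀ ℕ) (c : ℝ) :
    eval x (monomial α c) = c * ∏ j, x j ^ α j := by
  rw [eval_monomial, Finsupp.prod_fintype _ _ (fun i => pow_zero _)]

theorem int_poly (s : MvPolynomial K ℝ) : Integrable (fun x => eval x s) (gK K) := by
  induction s using MvPolynomial.induction_on' with
  | monomial α c =>
    simp only [eval_mon]
    refine Integrable.const_mul ?_ c
    exact Integrable.fintype_prod (f := fun (j : K) (y : ℝ) => y ^ α j) (fun j => int1 (α j))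
  | add p q hp hq =>
    simp only [map_add]
    exact hp.add hq

/-- the mean -/
noncomputable def Lm : MvPolynomial K ℝ →ₗ[ℝ] ℝ where
  toFun s := ∫ x, eval x s ∂(gK K)
  map_add' s t := by
    simp only [map_add]
    exact integral_add (int_poly s) (int_poly t)
  map_smul' c s := by
    simp only [smul_eval, RingHom.id_apply, smul_eq_mul]
    exact integral_const_mul c _

theorem Lm_mon (α : K →₀ ℕ) (c : ℝ) : Lm (monomial α c) = c * ∏ j, Mo (α j) := by
  show ∫ x, eval x (monomial α c) ∂(gK K) = _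
  simp only [eval_mon]
  rw [integral_const_mul]
  congr 1
  exact integral_fintype_prod_eq_prod (fun (j : K) (y : ℝ) => y ^ α j)

theorem stein (j : K) (q : MvPolynomial K ℝ) : Lm (X j * q) = 2 * Lm (pderiv j q) := by
  classical
  induction q using MvPolynomial.induction_on' with
  | monomial α c =>
    have e1 : (X j : MvPolynomial K ℝ) * monomial α c = monomial (Finsupp.single j 1 + α) c := by
      rw [X, monomial_mul, one_mul]
    rw [e1, pderiv_monomial, Lm_mon, Lm_mon]
    rw [← Finset.mul_prod_erase Finset.univ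
        (fun i => Mo ((Finsupp.single j 1 + α : K →₀ ℕ) i)) (Finset.mem_univ j),
      ← Finset.mul_prod_erase Finset.univ
        (fun i => Mo ((α - Finsupp.single j 1 : K →₀ ℕ) i)) (Finset.mem_univ j)]
    have e2 : ∏ i ∈ Finset.univ.erase j, Mo ((Finsupp.single j 1 + α : K →₀ ℕ) i) =
        ∏ i ∈ Finset.univ.erase j, Mo ((α - Finsupp.single j 1 : K →₀ ℕ) i) := by
      refine Finset.prod_congr rfl fun i hi => ?_
      have hij : j ≠ i := (Finset.ne_of_mem_erase hi).symm
      rw [Finsupp.add_apply, Finsupp.tsub_apply, Finsupp.single_eq_of_ne (Ne.symm hij), zero_add,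
        Nat.sub_zero]
    have e3 : Mo ((Finsupp.single j 1 + α : K →₀ ℕ) j) =
        2 * (α j : ℝ) * Mo ((α - Finsupp.single j 1 : K →₀ ℕ) j) := by
      rw [Finsupp.add_apply, Finsupp.tsub_apply, Finsupp.single_eq_same, add_comm, Mo_rec]
    rw [e2, e3]
    ring
  | add p q hp hq =>
    rw [mul_add, map_add, map_add, map_add, hp, hq]
    ring

theorem lap_hom {s : MvPolynomial K ℝ} {n : ℕ} (h : s.IsHomogeneous n) :
    (lap (fun _ => 1) s).IsHomogeneous (n - 1 - 1) := by
  unfold lap dd
  refine IsHomogeneous.sum _ _ _ fun k _ => ?_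
  rw [C_1, one_mul]
  exact h.pderiv.pderiv

theorem Lm_lap {s : MvPolynomial K ℝ} {n : ℕ} (h : s.IsHomogeneous n) :
    (n : ℝ) * Lm s = 2 * Lm (lap (fun _ => 1) s) := by
  have h1 := congrArg Lm h.sum_X_mul_pderiv
  rw [map_sum, map_nsmul, nsmul_eq_mul] at h1
  rw [← h1]
  unfold lap dd
  rw [map_sum, Finset.mul_sum]
  refine Finset.sum_congr rfl fun j _ => ?_
  rw [stein, C_1, one_mul]

theorem main (k : ℕ) : ∀ s : MvPolynomial K ℝ, s.IsHomogeneous (2 * k) →
    (k.factorial : ℝ) * Lm s = eval 0 ((lap fun _ => 1)^[k] s) := by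
  induction k with
  | zero =>
    intro s hs
    have h1 : s.totalDegree = 0 := Nat.le_zero.1 hs.totalDegree_le
    rw [totalDegree_eq_zero_iff_eq_C] at h1
    rw [Function.iterate_zero_apply, Nat.factorial_zero, Nat.cast_one, one_mul, h1, eval_C]
    show ∫ x, eval x (C (coeff 0 s)) ∂(gK K) = _
    simp only [eval_C, integral_const, probReal_univ, one_smul]
  | succ k ih =>
    intro s hs
    have h1 := lap_hom hs
    have e1 : 2 * (k + 1) - 1 - 1 = 2 * k := by omega
    rw [e1] at h1
    have h2 := ih _ h1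
    rw [Function.iterate_succ_apply, ← h2]
    have h3 := Lm_lap hs
    rw [Nat.factorial_succ]
    push_cast at h3 ⊢
    have h4 : Lm (lap (fun _ => 1) s) = ((k : ℝ) + 1) * Lm s := by linarith
    rw [h4]
    ring

end

end Heat4L

open Heat4L in
theorem heat4 : S4_Heat := by
  intro K _
  refine ⟨Lm, fun s hs => ?_, fun k s hs => main k s hs⟩
  exact integral_nonneg hs

end Pool.Agent.H783.HL
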