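import Pool.Agent.H783.HL.Stm

/-!
# Project HL: degree, top component and homogeneity of the flow
-/

set_option autoImplicit false

namespace Pool.Agent.H783.HL

open MvPolynomial

namespace FlowAux

variable {σ : Type}

/-- homogeneous of degree `d - 2 j`, or zero if this number is negative -/
def Hd (p : MvPolynomial σ ℝ) (d j : ℕ) : Prop :=
  (2 * j ≤ d → p.IsHomogeneous (d - 2 * j)) ∧ (d < 2 * j → p = 0)

theorem pderiv_zero_of_hom {p : MvPolynomial σ ℝ} (h : p.IsHomogeneous 0) (k : σ) :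
    pderiv k p = 0 := by
  have h1 := (totalDegree_zero_iff_isHomogeneous σ).2 h
  rw [totalDegree_eq_zero_iff_eq_C] at h1
  rw [h1, pderiv_C]

theorem Hd.dd {p : MvPolynomial σ ℝ} {d j : ℕ} (h : Hd p d j) (k : σ) : Hd (dd k p) d (j + 1) := by
  obtain ⟨h1, h2⟩ := h
  constructor
  · intro hj
    have h3 := ((h1 (by omega)).pderiv (i := k)).pderiv (i := k)
    have e : d - 2 * j - 1 - 1 = d - 2 * (j + 1) := by omega
    rw [e] at h3
    exact h3
  · intro hj
    unfold HL.dd
    rcases lt_or_ge d (2 * j) with h3 | h3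
    · rw [h2 h3, map_zero, map_zero]
    · have h4 := h1 h3
      rcases Nat.eq_zero_or_pos (d - 2 * j) with h5 | h5
      · rw [h5] at h4
        rw [pderiv_zero_of_hom h4, map_zero]
      · have h6 : d - 2 * j = 1 := by omega
        rw [h6] at h4
        have h7 := h4.pderiv (i := k)
        exact pderiv_zero_of_hom h7 k

theorem Hd.box {K : Type} [Fintype K] {p : MvPolynomial (Option K) ℝ} {d j : ℕ} (h : Hd p d j) :
    Hd (box p) d (j + 1) := by
  have h0 := h.dd none
  have h1 := fun b : K => h.dd (some b)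
  constructor
  · intro hj
    exact (h0.1 hj).sub (IsHomogeneous.sum _ _ _ fun b _ => (h1 b).1 hj)
  · intro hj
    unfold HL.box
    rw [h0.2 hj, Finset.sum_eq_zero fun b _ => (h1 b).2 hj, sub_zero]

theorem Hd.iter_dd {p : MvPolynomial σ ℝ} {d j : ℕ} (h : Hd p d j) (a : σ) (k : ℕ) :
    Hd ((HL.dd a)^[k] p) d (j + k) := by
  induction k with
  | zero => exact h
  | succ k ih =>
    rw [Function.iterate_succ_apply']
    exact ih.dd a

theorem Hd.iter_box {K : Type} [Fintype K] {p : MvPolynomial (Option K) ℝ} {d j : ℕ} (h : Hd p d j)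
    (i : ℕ) : Hd (HL.box^[i] p) d (j + i) := by
  induction i with
  | zero => exact h
  | succ i ih =>
    rw [Function.iterate_succ_apply']
    exact ih.box

theorem gg_hd {K : Type} [Fintype K] {p : MvPolynomial (Option K) ℝ} {d : ℕ}
    (h : p.IsHomogeneous d) (i k : ℕ) : Hd (gg p i k) d (i + k) := by
  have h0 : Hd p d 0 := ⟨fun _ => h, fun h => absurd h (Nat.not_lt_zero _)⟩
  have h1 := (h0.iter_dd none k).iter_box i
  have e : 0 + k + i = i + k := by omega
  rw [e] at h1
  exact h1

/-- scaling of the variables -/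
theorem aeval_scale [Fintype σ] {p : MvPolynomial σ ℝ} {m : ℕ} (h : p.IsHomogeneous m) (l : ℂ)
    (z : σ → ℂ) : aeval (fun k => l * z k) p = l ^ m * aeval z p := by
  rw [aeval_def, aeval_def, eval₂_eq', eval₂_eq', Finset.mul_sum]
  refine Finset.sum_congr rfl fun d hd => ?_
  have h1 : ∑ i, d i = m := by
    have h2 := h (mem_support_iff.1 hd)
    have h3 : Finsupp.degree d = m := by
      rw [Finsupp.degree_eq_weight_one]
      exact h2
    rw [← h3, Finsupp.degree_eq_sum]
  have h4 : ∏ i, (l * z i) ^ d i = l ^ m * ∏ i, z i ^ d i := by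
    simp only [mul_pow]
    rw [Finset.prod_mul_distrib, Finset.prod_pow_eq_pow_sum, h1]
  rw [h4]
  ring

end FlowAux

open FlowAux in
theorem flowTop : S_FlowTop := by
  intro K _ p n a b τ hp
  constructor
  · unfold flow
    refine totalDegree_finsetSum_le fun i _ => totalDegree_finsetSum_le fun k _ => ?_
    obtain ⟨h1, h2⟩ := gg_hd hp i k
    rcases lt_or_ge n (2 * (i + k)) with h3 | h3
    · rw [h2 h3, mul_zero, totalDegree_zero]
      exact Nat.zero_le _
    · exact ((h1 h3).C_mul _).totalDegree_le.trans (Nat.sub_le _ _)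
  · unfold flow
    have hz : ∀ i k : ℕ, ¬ (i = 0 ∧ k = 0) → homogeneousComponent n
        (C ((-τ ^ 2) ^ (i + k) * (b ^ i * a ^ k / (i.factorial * k.factorial))) * gg p i k) = 0 := by
      intro i k hik
      obtain ⟨h1, h2⟩ := gg_hd hp i k
      rcases lt_or_ge n (2 * (i + k)) with h3 | h3
      · rw [h2 h3, mul_zero, map_zero]
      · rw [homogeneousComponent_of_mem ((mem_homogeneousSubmodule _ _).2 ((h1 h3).C_mul _))]
        rw [if_neg (by omega)]
    rw [map_sum, Finset.sum_eq_single 0]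
    · rw [map_sum, Finset.sum_eq_single 0]
      · have h1 : (-τ ^ 2) ^ (0 + 0) * (b ^ 0 * a ^ 0 / ((Nat.factorial 0 : ℕ) * (Nat.factorial 0 : ℕ) : ℝ)) = 1 := by
          simp
        rw [h1, C_1, one_mul]
        have h2 : gg p 0 0 = p := rfl
        rw [h2, homogeneousComponent_of_mem ((mem_homogeneousSubmodule _ _).2 hp), if_pos rfl]
      · intro k _ hk
        exact hz 0 k (fun h => hk h.2)
      · intro h
        exact absurd (Finset.mem_range.2 (Nat.succ_pos n)) h
    · intro i _ hi
      rw [map_sum]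
      exact Finset.sum_eq_zero fun k _ => hz i k (fun h => hi h.1)
    · intro h
      exact absurd (Finset.mem_range.2 (Nat.succ_pos n)) h

open FlowAux in
theorem flowHom : S_FlowHom := by
  intro K _ p n d a b τ l z hp
  unfold flow
  rw [map_sum, map_sum, Finset.mul_sum]
  refine Finset.sum_congr rfl fun i _ => ?_
  rw [map_sum, map_sum, Finset.mul_sum]
  refine Finset.sum_congr rfl fun k _ => ?_
  rw [map_mul (aeval fun k => (l : ℂ) * z k), map_mul (aeval z)]
  obtain ⟨h1, h2⟩ := gg_hd hp i k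
  rcases lt_or_ge d (2 * (i + k)) with h3 | h3
  · rw [h2 h3, map_zero, map_zero, mul_zero, mul_zero, mul_zero]
  · rw [aeval_scale (h1 h3), aeval_C, aeval_C]
    have e1 : (-(l * τ) ^ 2) ^ (i + k) = (l ^ 2) ^ (i + k) * (-τ ^ 2) ^ (i + k) := by
      rw [← mul_pow]
      congr 1
      ring
    have e2 : (l : ℂ) ^ d = (l : ℂ) ^ (d - 2 * (i + k)) * ((l : ℂ) ^ 2) ^ (i + k) := by
      rw [← pow_mul, ← pow_add]
      congr 1
      omega
    rw [e1, e2, mul_assoc ((l ^ 2) ^ (i + k)), map_mul (algebraMap ℝ ℂ) ((l ^ 2) ^ (i + k))]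
    have e3 : algebraMap ℝ ℂ ((l ^ 2) ^ (i + k)) = ((l : ℂ) ^ 2) ^ (i + k) := by
      rw [map_pow, map_pow]
      rfl
    rw [e3]
    ring

end Pool.Agent.H783.HL
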