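import Pool.Agent.H783.HL.Stm2
import Pool.Agent.H783.HL.Flow

/-!
# Project HL2: degree, top component and homogeneity of the general flow
-/

set_option autoImplicit false

namespace Pool.Agent.H783.HL

open MvPolynomial

namespace FlowAux

variable {σ : Type} [Fintype σ]

theorem de_zero2 (e : σ → ℝ) : de e (0 : MvPolynomial σ ℝ) = 0 := by
  unfold de
  exact Finset.sum_eq_zero fun k _ => by rw [map_zero, mul_zero]

theorem de_hom2 {p : MvPolynomial σ ℝ} {d : ℕ} (h : p.IsHomogeneous d) (e : σ → ℝ) :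
    (de e p).IsHomogeneous (d - 1) :=
  IsHomogeneous.sum _ _ _ fun _ _ => (h.pderiv).C_mul _

theorem de_of_hom_zero2 {p : MvPolynomial σ ℝ} (h : p.IsHomogeneous 0) (e : σ → ℝ) :
    de e p = 0 := by
  unfold de
  exact Finset.sum_eq_zero fun k _ => by rw [pderiv_zero_of_hom h, mul_zero]

theorem Hd.dde2 {p : MvPolynomial σ ℝ} {d j : ℕ} (h : Hd p d j) (e : σ → ℝ) :
    Hd (dde e p) d (j + 1) := by
  obtain ⟨h1, h2⟩ := h
  constructor
  · intro hj
    have h3 := de_hom2 (de_hom2 (h1 (by omega)) e) e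
    have e1 : d - 2 * j - 1 - 1 = d - 2 * (j + 1) := by omega
    rw [e1] at h3
    exact h3
  · intro hj
    unfold dde
    rcases lt_or_ge d (2 * j) with h3 | h3
    · rw [h2 h3, de_zero2, de_zero2]
    · have h4 := h1 h3
      rcases Nat.eq_zero_or_pos (d - 2 * j) with h5 | h5
      · rw [h5] at h4
        rw [de_of_hom_zero2 h4, de_zero2]
      · have h6 : d - 2 * j = 1 := by omega
        rw [h6] at h4
        exact de_of_hom_zero2 (de_hom2 h4 e) e

theorem Hd.lap2 {p : MvPolynomial σ ℝ} {d j : ℕ} (h : Hd p d j) (w : σ → ℝ) :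
    Hd (lap w p) d (j + 1) := by
  have h1 := fun k : σ => h.dd k
  constructor
  · intro hj
    exact IsHomogeneous.sum _ _ _ fun k _ => ((h1 k).1 hj).C_mul _
  · intro hj
    unfold HL.lap
    exact Finset.sum_eq_zero fun k _ => by rw [(h1 k).2 hj, mul_zero]

theorem Hd.iter_dde2 {p : MvPolynomial σ ℝ} {d j : ℕ} (h : Hd p d j) (e : σ → ℝ) (k : ℕ) :
    Hd ((dde e)^[k] p) d (j + k) := by
  induction k with
  | zero => exact h
  | succ k ih =>
    rw [Function.iterate_succ_apply']
    exact ih.dde2 e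

theorem Hd.iter_lap2 {p : MvPolynomial σ ℝ} {d j : ℕ} (h : Hd p d j) (w : σ → ℝ) (i : ℕ) :
    Hd ((lap w)^[i] p) d (j + i) := by
  induction i with
  | zero => exact h
  | succ i ih =>
    rw [Function.iterate_succ_apply']
    exact ih.lap2 w

/-- `g2 e w p i k` is homogeneous of degree `d - 2 (i + k)`, and `0` if `2 (i + k) > d` -/
theorem g2_hd {p : MvPolynomial σ ℝ} {d : ℕ} (e w : σ → ℝ) (h : p.IsHomogeneous d) (i k : ℕ) :
    Hd (g2 e w p i k) d (i + k) := by
  have h0 : Hd p d 0 := ⟨fun _ => h, fun h => absurd h (Nat.not_lt_zero _)⟩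
  have h1 := (h0.iter_dde2 e k).iter_lap2 w i
  have e : 0 + k + i = i + k := by omega
  rw [e] at h1
  exact h1

end FlowAux

open FlowAux in
theorem flowTop2 : S2_FlowTop := by
  intro σ _ e w p n a b τ hp
  constructor
  · unfold flow2
    refine totalDegree_finsetSum_le fun i _ => totalDegree_finsetSum_le fun k _ => ?_
    obtain ⟨h1, h2⟩ := g2_hd e w hp i k
    rcases lt_or_ge n (2 * (i + k)) with h3 | h3
    · rw [h2 h3, mul_zero, totalDegree_zero]
      exact Nat.zero_le _
    · exact ((h1 h3).C_mul _).totalDegree_le.trans (Nat.sub_le _ _)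
  · unfold flow2
    have hz : ∀ i k : ℕ, ¬ (i = 0 ∧ k = 0) → homogeneousComponent n
        (C ((-τ ^ 2) ^ (i + k) * (b ^ i * a ^ k / (i.factorial * k.factorial))) *
          g2 e w p i k) = 0 := by
      intro i k hik
      obtain ⟨h1, h2⟩ := g2_hd e w hp i k
      rcases lt_or_ge n (2 * (i + k)) with h3 | h3
      · rw [h2 h3, mul_zero, map_zero]
      · rw [homogeneousComponent_of_mem ((mem_homogeneousSubmodule _ _).2 ((h1 h3).C_mul _))]
        rw [if_neg (by omega)]
    rw [map_sum, Finset.sum_eq_single 0]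
    · rw [map_sum, Finset.sum_eq_single 0]
      · have h1 : (-τ ^ 2) ^ (0 + 0) * (b ^ 0 * a ^ 0 /
            ((Nat.factorial 0 : ℕ) * (Nat.factorial 0 : ℕ) : ℝ)) = 1 := by
          simp
        rw [h1, C_1, one_mul]
        have h2 : g2 e w p 0 0 = p := rfl
        rw [h2, homogeneousComponent_of_mem ((mem_homogeneousSubmodule _ _).2 hp), if_pos rfl]
      · intro k _ hk
        exact hz 0 k (fun h => hk h.2)
      · intro h
        exact absurd (Finset.mem_range.2 (Nat.succ_pos n)) h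
    · intro i _ hi
      rw [map_sum]
      exact Finset.sum_eq_zero fun k _ => hz i k (fun h => hi h.1)
    · intro h
      exact absurd (Finset.mem_range.2 (Nat.succ_pos n)) h

open FlowAux in
theorem flowHom2 : S2_FlowHom := by
  intro σ _ e w p n d a b τ l z hp
  unfold flow2
  rw [map_sum, map_sum, Finset.mul_sum]
  refine Finset.sum_congr rfl fun i _ => ?_
  rw [map_sum, map_sum, Finset.mul_sum]
  refine Finset.sum_congr rfl fun k _ => ?_
  rw [map_mul (aeval fun k => (l : ℂ) * z k), map_mul (aeval z)]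
  obtain ⟨h1, h2⟩ := g2_hd e w hp i k
  rcases lt_or_ge d (2 * (i + k)) with h3 | h3
  · rw [h2 h3, map_zero, map_zero, mul_zero, mul_zero, mul_zero]
  · rw [aeval_scale (h1 h3), aeval_C, aeval_C]
    have e1 : (-(l * τ) ^ 2) ^ (i + k) = (l ^ 2) ^ (i + k) * (-τ ^ 2) ^ (i + k) := by
      rw [← mul_pow]
      congr 1
      ring
    have e2 : (l : ℂ) ^ d = (l : ℂ) ^ (d - 2 * (i + k)) * ((l : ℂ) ^ 2) ^ (i + k) := by
      rw [← pow_mul, ← pow_add]
      congr 1
      omega
    rw [e1, e2, mul_assoc ((l ^ 2) ^ (i + k)), map_mul (algebraMap ℝ ℂ) ((l ^ 2) ^ (i + k))]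
    have e3 : algebraMap ℝ ℂ ((l ^ 2) ^ (i + k)) = ((l : ℂ) ^ 2) ^ (i + k) := by
      rw [map_pow, map_pow]
      rfl
    rw [e3]
    ring

end Pool.Agent.H783.HL
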