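import Pool.Agent.H783.HL.Stm2

/-!
# Adding a nonpositive curvature operator: statements

`R` is a real polynomial in two groups of variables `x : κ`, `t : K`, even in `t`; `q (x, t)` is
`R (x, i t)`.
-/

set_option autoImplicit false

namespace Pool.Agent.H783.HL

open MvPolynomial

/-- `exp (- lap w) p` for `p` homogeneous of degree `2 m` -/
noncomputable def expl {σ : Type} [Fintype σ] (w : σ → ℝ) (m : ℕ) (p : MvPolynomial σ ℝ) :
    MvPolynomial σ ℝ :=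
  ∑ i ∈ Finset.range (m + 1), C ((-1 : ℝ) ^ i / i.factorial) * (lap w)^[i] p

/-- the cone around the product of light cones in more variables -/
def PCx (ι K L : Type) [Fintype ι] [Fintype K] (c : ℝ) : Set ((ι × Option K) ⊕ L → ℝ) :=
  {v | (fun o => v (Sum.inl o)) ∈ PC ι K ∧
    ∀ l, |v (Sum.inr l)| < c * ∑ j, v (Sum.inl (j, none))}

/-- D1. The quantitative theorem on `exp (- lap w)`. -/
def S4_Param : Prop :=
  ∀ (σ : Type) [Fintype σ] (Ω : Set (σ → ℝ)) (e w : σ → ℝ) (p : MvPolynomial σ ℝ) (m : ℕ),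
    OCone Ω → e ∈ Ω → (0 : σ → ℝ) ∉ Ω → Star Ω e w → p.IsHomogeneous (2 * m) → Stab p e →
    (∀ v ∈ closure Ω, v ≠ 0 → 0 < eval v p) →
    ∀ (x : σ → ℝ) (s : ℝ), 0 < s →
      s ^ (2 * m) * eval e p ≤ ‖aeval (cp x fun k => s * e k) (expl w m p)‖

/-- D2. Rotation of the second group of variables. -/
def S4_Sub : Prop :=
  ∀ (κ K : Type) [Fintype κ] [Fintype K] (R : MvPolynomial (κ ⊕ K) ℝ) (n : ℕ),
    R.IsHomogeneous n →
    (∀ (x : κ → ℝ) (t : K → ℝ), eval (Sum.elim x fun k => - t k) R = eval (Sum.elim x t) R) →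
    ∃ q : MvPolynomial (κ ⊕ K) ℝ, q.IsHomogeneous n ∧
      ∀ (w : κ → ℝ) (i : ℕ) (z : κ → ℂ) (y : K → ℂ),
        aeval (Sum.elim z y) ((lap (Sum.elim w fun _ => 0))^[i] q) =
          aeval (Sum.elim z fun k => Complex.I * y k) ((lap (Sum.elim w fun _ => 0))^[i] R)

/-- D3. The extended cone. -/
def S4_Cone : Prop :=
  ∀ (ι K L : Type) [Fintype ι] [Nonempty ι] [Fintype K] [Fintype L] (c : ℝ), 0 < c →
    OCone (PCx ι K L c) ∧ (Sum.elim pe fun _ => 0) ∈ PCx ι K L c ∧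
      (0 : (ι × Option K) ⊕ L → ℝ) ∉ PCx ι K L c ∧
      Star (PCx ι K L c) (Sum.elim pe fun _ => 0) (Sum.elim pw fun _ => 0)

/-- D4. The Gaussian mean of polynomials. -/
def S4_Heat : Prop :=
  ∀ (K : Type) [Fintype K], ∃ G : MvPolynomial K ℝ →ₗ[ℝ] ℝ,
    (∀ s, (∀ x, 0 ≤ eval x s) → 0 ≤ G s) ∧
    ∀ (k : ℕ) (s : MvPolynomial K ℝ), s.IsHomogeneous (2 * k) →
      (k.factorial : ℝ) * G s = eval 0 ((lap fun _ => 1)^[k] s)

/-- D5. Splitting of the Laplacian. -/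
def S4_Split : Prop :=
  ∀ (κ K : Type) [Fintype κ] [Fintype K] (w : κ → ℝ) (R : MvPolynomial (κ ⊕ K) ℝ) (m : ℕ),
    R.IsHomogeneous (2 * m) →
    (∀ τ : K → ℝ, 0 ≤ ∑ i ∈ Finset.range (m + 1), 1 / (i.factorial : ℝ) *
      eval (Sum.elim (fun _ => 0) τ) ((lap (Sum.elim w fun _ => 0))^[i] R)) →
    0 ≤ eval 0 ((lap (Sum.elim w fun _ => 1))^[m] R)

/-- D6. The sign of the constant term in the first group of variables. -/
def S4_Sign : Prop :=
  ∀ (κ K : Type) [Fintype κ] [Fintype K] (e w : κ → ℝ) (R q : MvPolynomial (κ ⊕ K) ℝ) (m : ℕ),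
    R.IsHomogeneous (2 * m) → 0 < eval (Sum.elim e fun _ => 0) R →
    (∀ (i : ℕ) (z : κ → ℂ) (y : K → ℂ),
        aeval (Sum.elim z y) ((lap (Sum.elim w fun _ => 0))^[i] q) =
          aeval (Sum.elim z fun k => Complex.I * y k) ((lap (Sum.elim w fun _ => 0))^[i] R)) →
    (∀ (x : κ ⊕ K → ℝ) (s : ℝ), 0 < s →
      aeval (cp x fun k => s * Sum.elim e (fun _ => 0) k)
        (expl (Sum.elim w fun _ => 0) m q) ≠ 0) →
    ∀ τ : K → ℝ, 0 ≤ ∑ i ∈ Finset.range (m + 1), 1 / (i.factorial : ℝ) *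
      eval (Sum.elim (fun _ => 0) τ) ((lap (Sum.elim w fun _ => 0))^[i] R)

end Pool.Agent.H783.HL
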