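import Pool.Agent.H783.HL.Box2
import Pool.Agent.H783.HL.Flow2
import Pool.Agent.H783.HL.Stm4

/-!
# The quantitative theorem on `exp (- lap w)`
-/

set_option autoImplicit false
set_option linter.unusedSectionVars false

namespace Pool.Agent.H783.HL

open MvPolynomial Filter Topology

variable {σ : Type} [Fintype σ]

open FlowAux in
/-- the flow without the regularizing part -/
theorem flow_expl (e w : σ → ℝ) {p : MvPolynomial σ ℝ} {m : ℕ} (hp : p.IsHomogeneous (2 * m)) :
    flow2 e w (2 * m) 0 1 1 p = expl w m p := by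
  unfold flow2 expl
  have h1 : ∀ i, ∑ k ∈ Finset.range (2 * m + 1),
      C ((-(1 : ℝ) ^ 2) ^ (i + k) * ((1 : ℝ) ^ i * 0 ^ k / (i.factorial * k.factorial))) *
        g2 e w p i k = C ((-1 : ℝ) ^ i / i.factorial) * (lap w)^[i] p := by
    intro i
    rw [Finset.sum_eq_single 0]
    · have h2 : g2 e w p i 0 = (lap w)^[i] p := rfl
      rw [h2]
      congr 2
      simp
      ring
    · intro k _ hk
      rw [zero_pow hk]
      simp
    · simp
  rw [Finset.sum_congr rfl fun i _ => h1 i]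
  symm
  refine Finset.sum_subset (Finset.range_mono (by omega)) ?_
  intro i _ hi
  rw [Finset.mem_range, not_lt] at hi
  have h2 := (g2_hd e w hp i 0).2 (by omega)
  have h3 : g2 e w p i 0 = (lap w)^[i] p := rfl
  rw [h3] at h2
  rw [h2, mul_zero]

/-- evaluation of the flow at a complex point, real part -/
noncomputable def evre (z : σ → ℂ) : MvPolynomial σ ℝ →ₗ[ℝ] ℝ :=
  Complex.reLm ∘ₗ (aeval z : MvPolynomial σ ℝ →ₐ[ℝ] ℂ).toLinearMap

/-- imaginary part -/
noncomputable def evim (z : σ → ℂ) : MvPolynomial σ ℝ →ₗ[ℝ] ℝ :=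
  Complex.imLm ∘ₗ (aeval z : MvPolynomial σ ℝ →ₐ[ℝ] ℂ).toLinearMap

theorem de_add' (e : σ → ℝ) (p q : MvPolynomial σ ℝ) : de e (p + q) = de e p + de e q := by
  unfold de
  simp only [map_add, mul_add, Finset.sum_add_distrib]

theorem de_smul' (e : σ → ℝ) (c : ℝ) (p : MvPolynomial σ ℝ) : de e (c • p) = c • de e p := by
  rw [smul_eq_C_mul, de_C_mul, smul_eq_C_mul]

/-- the second directional derivative as a linear map -/
noncomputable def ddeL (e : σ → ℝ) : MvPolynomial σ ℝ →ₗ[ℝ] MvPolynomial σ ℝ where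
  toFun := dde e
  map_add' p q := by
    unfold dde
    rw [de_add', de_add']
  map_smul' c p := by
    unfold dde
    rw [de_smul', de_smul', RingHom.id_apply]

theorem ddeL_pow (e : σ → ℝ) (m : ℕ) (p : MvPolynomial σ ℝ) :
    (ddeL e ^ m) p = (dde e)^[m] p := by
  rw [Module.End.pow_apply]
  rfl

/-- the flow as a linear map -/
noncomputable def flowL (e w : σ → ℝ) (n : ℕ) (a b τ : ℝ) :
    MvPolynomial σ ℝ →ₗ[ℝ] MvPolynomial σ ℝ :=
  ∑ i ∈ Finset.range (n + 1), ∑ k ∈ Finset.range (n + 1),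
    ((-τ ^ 2) ^ (i + k) * (b ^ i * a ^ k / (i.factorial * k.factorial))) •
      ((lapL w ^ i) ∘ₗ (ddeL e ^ k))

theorem flowL_apply (e w : σ → ℝ) (n : ℕ) (a b τ : ℝ) (p : MvPolynomial σ ℝ) :
    flowL e w n a b τ p = flow2 e w n a b τ p := by
  unfold flowL flow2 g2
  rw [LinearMap.sum_apply]
  refine Finset.sum_congr rfl fun i _ => ?_
  rw [LinearMap.sum_apply]
  refine Finset.sum_congr rfl fun k _ => ?_
  rw [LinearMap.smul_apply, LinearMap.comp_apply, ddeL_pow, lapL_pow, smul_eq_C_mul]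

/-- **The quantitative theorem.** -/
theorem param4 (hMain : S2_Main) (hReg : S2_Reg) (hRC : S2_RegCont) (hTop : S2_FlowTop)
    (hU : S_UniLower) (hL : S_Line) : S4_Param := by
  intro σ _ Ω e w p m hΩ he h0Ω hstar hp hst hpos x s hs
  have hene : ∃ k, e k ≠ 0 := by
    by_contra hcon
    push Not at hcon
    apply h0Ω
    have : e = 0 := funext hcon
    rw [← this]
    exact he
  obtain ⟨hR1, hR2, hR4, hR3⟩ := hReg σ e w p (2 * m) hene hp hst
  obtain ⟨hC1, hC2⟩ := hRC σ e p (2 * m)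
  have hcpt : IsCompact (closure Ω ∩ Metric.sphere (0 : σ → ℝ) 1) :=
    (isCompact_sphere 0 1).inter_left isClosed_closure
  have hev : ∀ᶠ δ : ℝ in 𝓝 0, ∀ v ∈ closure Ω ∩ Metric.sphere (0 : σ → ℝ) 1,
      0 < eval v (reg e (2 * m) δ p) := by
    refine hcpt.eventually_forall_of_forall_eventually
      (P := fun δ v => 0 < eval v (reg e (2 * m) δ p)) ?_
    intro v hv
    have h1 : 0 < eval v (reg e (2 * m) 0 p) := by
      rw [reg_zero]
      refine hpos v hv.1 ?_
      rintro rfl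
      simpa using hv.2
    exact hC2.continuousAt.eventually (lt_mem_nhds h1)
  have hposΩ : ∀ᶠ δ : ℝ in 𝓝 0, ∀ v ∈ Ω, 0 < eval v (reg e (2 * m) δ p) := by
    filter_upwards [hev] with δ hδ v hv
    have hv0 : v ≠ 0 := by
      rintro rfl
      exact h0Ω hv
    have hn : 0 < ‖v‖ := norm_pos_iff.2 hv0
    have h1 := hδ (fun k => ‖v‖⁻¹ * v k) ⟨subset_closure (hΩ.cone _ (inv_pos.2 hn) v hv), ?_⟩
    · have h2 := eval_scale (hR1 δ) ‖v‖ (fun k => ‖v‖⁻¹ * v k)
      have h3 : (fun k => ‖v‖ * (‖v‖⁻¹ * v k)) = v := by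
        funext k
        field_simp
      rw [h3] at h2
      rw [h2]
      positivity
    · have h2 : (fun k => ‖v‖⁻¹ * v k) = ‖v‖⁻¹ • v := rfl
      rw [h2, mem_sphere_zero_iff_norm, norm_smul, norm_inv, norm_norm]
      exact inv_mul_cancel₀ hn.ne'
  set z : σ → ℂ := cp x fun k => s * e k with hz
  -- the bound for small positive parameters, after the limit `a → 0`
  have hbd : ∀ᶠ δ : ℝ in 𝓝[>] 0, eval e p * s ^ (2 * m) ≤
      ‖aeval z (flow2 e w (2 * m) 0 1 1 (reg e (2 * m) δ p))‖ := by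
    filter_upwards [hposΩ.filter_mono nhdsWithin_le_nhds, self_mem_nhdsWithin] with δ hδ hδ0
    have hδ0' : (0 : ℝ) < δ := hδ0
    have hb : ∀ a : ℝ, 0 < a → eval e p * s ^ (2 * m) ≤
        ‖aeval z (flow2 e w (2 * m) a 1 1 (reg e (2 * m) δ p))‖ := by
      intro a ha
      have h1 := hMain σ Ω e w _ (2 * m) a hΩ he hstar ha (hR1 δ) hδ (hR4 δ hδ0')
        (fun τ => hR3 δ a τ hδ0'.le ha.le) 1 zero_le_one 1
      obtain ⟨h2, h3⟩ := hTop σ e w (reg e (2 * m) δ p) (2 * m) a 1 1 (hR1 δ)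
      have h4 := stab_bound hU hL h2 h3 (hδ e he) h1 x s hs
      rwa [hR2] at h4
    have hc : Continuous fun a : ℝ =>
        ‖aeval z (flow2 e w (2 * m) a 1 1 (reg e (2 * m) δ p))‖ := by
      unfold flow2
      simp only [map_sum, map_mul, aeval_C]
      refine Continuous.norm ?_
      refine continuous_finset_sum _ fun i _ => continuous_finset_sum _ fun k _ => ?_
      refine Continuous.mul ?_ continuous_const
      have : Continuous fun a : ℝ =>
          (((1 : ℝ) ^ i * a ^ k / (i.factorial * k.factorial) : ℝ) : ℂ) :=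
        Complex.continuous_ofReal.comp (by fun_prop)
      exact continuous_const.mul this
    exact ge_of_tendsto ((hc.tendsto 0).mono_left (nhdsWithin_le_nhds (s := Set.Ioi 0)))
      (eventually_nhdsWithin_of_forall fun a ha => hb a ha)
  -- the limit `δ → 0`
  have hcont : Continuous fun δ : ℝ =>
      aeval z (flow2 e w (2 * m) 0 1 1 (reg e (2 * m) δ p)) := by
    have h1 := hC1 (evre z ∘ₗ flowL e w (2 * m) 0 1 1)
    have h2 := hC1 (evim z ∘ₗ flowL e w (2 * m) 0 1 1)
    have h3 : (fun δ : ℝ => aeval z (flow2 e w (2 * m) 0 1 1 (reg e (2 * m) δ p))) =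
        fun δ : ℝ => (((evre z ∘ₗ flowL e w (2 * m) 0 1 1) (reg e (2 * m) δ p) : ℝ) : ℂ) +
          (((evim z ∘ₗ flowL e w (2 * m) 0 1 1) (reg e (2 * m) δ p) : ℝ) : ℂ) * Complex.I := by
      funext δ
      rw [LinearMap.comp_apply, LinearMap.comp_apply, flowL_apply]
      unfold evre evim
      rw [LinearMap.comp_apply, LinearMap.comp_apply, AlgHom.toLinearMap_apply]
      exact (Complex.re_add_im _).symm
    rw [h3]
    exact (Complex.continuous_ofReal.comp h1).add
      ((Complex.continuous_ofReal.comp h2).mul continuous_const)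
  have hlim : Tendsto (fun δ : ℝ =>
      ‖aeval z (flow2 e w (2 * m) 0 1 1 (reg e (2 * m) δ p))‖) (𝓝[>] 0)
      (𝓝 ‖aeval z (flow2 e w (2 * m) 0 1 1 (reg e (2 * m) 0 p))‖) :=
    (hcont.norm.tendsto 0).mono_left nhdsWithin_le_nhds
  rw [reg_zero, flow_expl e w hp] at hlim
  rw [mul_comm]
  exact ge_of_tendsto hlim hbd

end Pool.Agent.H783.HL
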