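import Pool.Agent.H783.HL.Stm4

/-!
# `S4_Sign`: the sign of the constant term in the first group of variables
-/

set_option autoImplicit false

namespace Pool.Agent.H783.HL

open MvPolynomial

namespace Sign4

theorem lap_hom {σ : Type} [Fintype σ] (w : σ → ℝ) {p : MvPolynomial σ ℝ} {n : ℕ}
    (hp : p.IsHomogeneous n) : (lap w p).IsHomogeneous (n - 2) := by
  unfold lap dd
  apply IsHomogeneous.sum
  intro k _
  have := ((hp.pderiv (i := k)).pderiv (i := k)).C_mul (w k)
  rwa [Nat.sub_sub] at this

theorem lap_iter_hom {σ : Type} [Fintype σ] (w : σ → ℝ) {p : MvPolynomial σ ℝ} {n : ℕ}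
    (hp : p.IsHomogeneous n) (i : ℕ) : ((lap w)^[i] p).IsHomogeneous (n - 2 * i) := by
  induction i with
  | zero => simpa using hp
  | succ i ih =>
    rw [Function.iterate_succ_apply']
    have := lap_hom w ih
    rwa [Nat.sub_sub, ← Nat.mul_succ] at this

theorem aeval_scale {σ A : Type} [CommRing A] [Algebra ℝ A] {p : MvPolynomial σ ℝ} {n : ℕ}
    (hp : p.IsHomogeneous n) (c : A) (z : σ → A) :
    aeval (fun k => c * z k) p = c ^ n * aeval z p := by
  rw [aeval_def, aeval_def, eval₂_eq, eval₂_eq, Finset.mul_sum]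
  refine Finset.sum_congr rfl fun d hd => ?_
  have hdeg : ∑ i ∈ d.support, d i = n := by
    have := hp (mem_support_iff.1 hd)
    rw [← this, Finsupp.weight_apply, Finsupp.sum]
    simp
  have : ∏ i ∈ d.support, (c * z i) ^ d i = c ^ n * ∏ i ∈ d.support, z i ^ d i := by
    rw [← hdeg, ← Finset.prod_pow_eq_pow_sum, ← Finset.prod_mul_distrib]
    exact Finset.prod_congr rfl fun i _ => mul_pow _ _ _
  rw [this]
  ring

theorem aeval_real {σ : Type} (p : MvPolynomial σ ℝ) (x : σ → ℝ) :
    aeval (fun k => (x k : ℂ)) p = ((eval x p : ℝ) : ℂ) := by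
  have := MvPolynomial.aeval_algebraMap_apply (A := ℝ) ℂ x p
  rw [← MvPolynomial.coe_aeval_eq_eval]
  exact this

end Sign4

theorem sign4 : S4_Sign := by
  intro κ K _ _ e w R q m hR hpos hq hne τ
  set W : κ ⊕ K → ℝ := Sum.elim w fun _ => 0 with hW
  set h : ℝ → ℝ := fun s => ∑ i ∈ Finset.range (m + 1), 1 / (i.factorial : ℝ) *
      eval (Sum.elim (fun k => s * e k) τ) ((lap W)^[i] R) with hh
  have hcont : ∀ f : ℝ → κ ⊕ K → ℝ, Continuous f → ∀ P : MvPolynomial (κ ⊕ K) ℝ,
      Continuous fun s => eval (f s) P := fun f hf P =>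
    (MvPolynomial.continuous_eval P).comp hf
  have hc : Continuous h := by
    refine continuous_finsetSum _ fun i _ => continuous_const.mul (hcont _ ?_ _)
    refine continuous_pi fun k => ?_
    rcases k with k | k
    · exact continuous_id.mul continuous_const
    · exact continuous_const
  -- `h` does not vanish
  have hn0 : ∀ s : ℝ, 0 < s → h s ≠ 0 := by
    intro s hs h0
    apply hne (Sum.elim (fun _ => 0) τ) s hs
    have h1 : ∀ i ∈ Finset.range (m + 1),
        aeval (cp (Sum.elim (fun _ => 0) τ) fun k => s * Sum.elim e (fun _ => 0) k)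
          ((lap W)^[i] q) =
        (-1 : ℂ) ^ (m - i) * ((eval (Sum.elim (fun k => s * e k) τ) ((lap W)^[i] R) : ℝ) : ℂ) := by
      intro i hi
      have hi' : i ≤ m := Nat.lt_succ_iff.1 (Finset.mem_range.1 hi)
      have e1 : (cp (Sum.elim (fun _ => 0) τ) fun k => s * Sum.elim e (fun _ => 0) k :
          κ ⊕ K → ℂ) = Sum.elim (fun k => Complex.I * ((s * e k : ℝ) : ℂ))
            (fun k => (τ k : ℂ)) := by
        funext k
        rcases k with k | k
        · simp [cp]
          ring
        · simp [cp]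
      rw [e1, hq i]
      have e2 : (Sum.elim (fun k => Complex.I * ((s * e k : ℝ) : ℂ))
            (fun k => Complex.I * (τ k : ℂ)) : κ ⊕ K → ℂ) =
          fun k => Complex.I * ((Sum.elim (fun k => s * e k) τ k : ℝ) : ℂ) := by
        funext k
        rcases k with k | k <;> rfl
      rw [e2, Sign4.aeval_scale (Sign4.lap_iter_hom W hR i) Complex.I, Sign4.aeval_real]
      congr 1
      rw [← Nat.mul_sub, pow_mul, Complex.I_sq]
    have h2 : aeval (cp (Sum.elim (fun _ => 0) τ) fun k => s * Sum.elim e (fun _ => 0) k)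
        (expl W m q) = (-1 : ℂ) ^ m * ((h s : ℝ) : ℂ) := by
      rw [hh]
      unfold expl
      rw [map_sum]
      push_cast
      rw [Finset.mul_sum]
      refine Finset.sum_congr rfl fun i hi => ?_
      have hi' : i ≤ m := Nat.lt_succ_iff.1 (Finset.mem_range.1 hi)
      rw [map_mul, h1 i hi, aeval_C]
      have e3 : (-1 : ℂ) ^ m = (-1) ^ i * (-1) ^ (m - i) := by
        rw [← pow_add, Nat.add_sub_cancel' hi']
      rw [e3]
      simp only [Complex.coe_algebraMap]
      push_cast
      ring
    rw [h2, h0]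
    simp
  -- `h` is positive somewhere
  have hp : ∃ s : ℝ, 0 < s ∧ 0 < h s := by
    set k : ℝ → ℝ := fun θ => ∑ i ∈ Finset.range (m + 1), θ ^ (2 * i) * (1 / (i.factorial : ℝ)) *
      eval (Sum.elim e fun j => θ * τ j) ((lap W)^[i] R) with hk
    have hkc : Continuous k := by
      refine continuous_finsetSum _ fun i _ =>
        ((continuous_id.pow _).mul continuous_const).mul (hcont _ ?_ _)
      refine continuous_pi fun k => ?_
      rcases k with k | k
      · exact continuous_const
      · exact continuous_id.mul continuous_const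
    have hk0 : 0 < k 0 := by
      have : k 0 = eval (Sum.elim e fun _ => 0) R := by
        rw [hk]
        simp only
        rw [Finset.sum_range_succ']
        simp
      rw [this]
      exact hpos
    have hev : ∀ᶠ θ in nhds (0 : ℝ), 0 < k θ := (hkc.tendsto 0).eventually (lt_mem_nhds hk0)
    obtain ⟨ε, hε, hball⟩ := Metric.eventually_nhds_iff.1 hev
    set θ := ε / 2 with hθ
    have hθ0 : 0 < θ := by positivity
    have hkθ : 0 < k θ := hball (by
      rw [Real.dist_eq, sub_zero, abs_of_pos hθ0, hθ]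
      linarith)
    refine ⟨1 / θ, by positivity, ?_⟩
    have e1 : θ ^ (2 * m) * h (1 / θ) = k θ := by
      rw [hh, hk]
      simp only
      rw [Finset.mul_sum]
      refine Finset.sum_congr rfl fun i hi => ?_
      have hi' : i ≤ m := Nat.lt_succ_iff.1 (Finset.mem_range.1 hi)
      have e2 : (Sum.elim e fun j => θ * τ j : κ ⊕ K → ℝ) =
          fun k => θ * Sum.elim (fun k => 1 / θ * e k) τ k := by
        funext k
        rcases k with k | k
        · simp only [Sum.elim_inl]
          field_simp
        · rfl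
      have e3 : eval (fun k => θ * Sum.elim (fun k => 1 / θ * e k) τ k) ((lap W)^[i] R) =
          θ ^ (2 * m - 2 * i) * eval (Sum.elim (fun k => 1 / θ * e k) τ) ((lap W)^[i] R) :=
        Sign4.aeval_scale (Sign4.lap_iter_hom W hR i) θ (Sum.elim (fun k => 1 / θ * e k) τ)
      rw [← e2] at e3
      rw [e3]
      have e4 : θ ^ (2 * m) = θ ^ (2 * i) * θ ^ (2 * m - 2 * i) := by
        rw [← pow_add]
        congr 1
        omega
      rw [e4]
      ring
    have : 0 < θ ^ (2 * m) * h (1 / θ) := by rw [e1]; exact hkθ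
    exact (mul_pos_iff_of_pos_left (by positivity)).1 this
  obtain ⟨s, hs, hhs⟩ := hp
  have h0 : h 0 = ∑ i ∈ Finset.range (m + 1), 1 / (i.factorial : ℝ) *
      eval (Sum.elim (fun _ => 0) τ) ((lap W)^[i] R) := by
    rw [hh]
    simp
  rw [← h0]
  by_contra hlt
  push Not at hlt
  obtain ⟨t, ht, ht0⟩ := intermediate_value_Ioo hs.le hc.continuousOn ⟨hlt, hhs⟩
  exact hn0 t ht.1 ht0

end Pool.Agent.H783.HL
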