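import Pool.Agent.H783.HL.Stm4

/-! # HL4-5 splitting of the Laplacian (by helper790) -/

set_option autoImplicit false

namespace Pool.Agent.H783.HL

open MvPolynomial

namespace Split4

section one

variable {σ : Type}

theorem pd_comm (i j : σ) (p : MvPolynomial σ ℝ) :
    pderiv i (pderiv j p) = pderiv j (pderiv i p) := by
  classical
  induction p using MvPolynomial.induction_on with
  | C a => simp
  | add p q hp hq => simp only [map_add, hp, hq]
  | mul_X p k hp =>
    have h0 : ∀ a b : σ, pderiv a (pderiv b (X k : MvPolynomial σ ℝ)) = 0 := by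
      intro a b
      rw [pderiv_X]
      by_cases h : k = b
      · subst h
        rw [Pi.single_eq_same, pderiv_one]
      · rw [Pi.single_eq_of_ne h, map_zero]
    simp only [pderiv_mul, map_add, h0, hp, mul_zero, add_zero]
    ring

variable [Fintype σ]

/-- the Laplacian as a linear map -/
noncomputable def lapL (w : σ → ℝ) : Module.End ℝ (MvPolynomial σ ℝ) :=
  ∑ k, (w k) • ((pderiv k).toLinearMap * (pderiv k).toLinearMap)

theorem lapL_apply (w : σ → ℝ) (p : MvPolynomial σ ℝ) : lapL w p = lap w p := by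
  unfold lapL lap dd
  rw [LinearMap.sum_apply]
  refine Finset.sum_congr rfl fun k _ => ?_
  rw [LinearMap.smul_apply, MvPolynomial.smul_eq_C_mul]
  rfl

theorem lapL_pow (w : σ → ℝ) (n : ℕ) (p : MvPolynomial σ ℝ) :
    ((lapL w) ^ n) p = (lap w)^[n] p := by
  rw [Module.End.pow_apply]
  have h : (⇑(lapL w) : MvPolynomial σ ℝ → MvPolynomial σ ℝ) = lap w := by
    funext q
    exact lapL_apply w q
  rw [h]

theorem lapL_add (w w' : σ → ℝ) : lapL (w + w') = lapL w + lapL w' := by
  unfold lapL
  rw [← Finset.sum_add_distrib]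
  refine Finset.sum_congr rfl fun k _ => ?_
  rw [Pi.add_apply, add_smul]

theorem lapL_comm (w w' : σ → ℝ) : Commute (lapL w) (lapL w') := by
  unfold lapL
  refine Commute.sum_left _ _ _ fun i _ => Commute.sum_right _ _ _ fun j _ => ?_
  have h1 : Commute ((pderiv i).toLinearMap : Module.End ℝ (MvPolynomial σ ℝ))
      (pderiv j).toLinearMap := by
    apply LinearMap.ext
    intro p
    exact pd_comm i j p
  have h2 : Commute (((pderiv i).toLinearMap : Module.End ℝ (MvPolynomial σ ℝ)) *
      (pderiv i).toLinearMap) ((pderiv j).toLinearMap * (pderiv j).toLinearMap) :=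
    (h1.mul_left h1).mul_right (h1.mul_left h1)
  exact (h2.smul_left _).smul_right _

theorem lap_hom (w : σ → ℝ) (p : MvPolynomial σ ℝ) (n : ℕ) (hp : p.IsHomogeneous n) :
    (lap w p).IsHomogeneous (n - 2) := by
  unfold lap dd
  refine IsHomogeneous.sum _ _ _ fun k _ => ?_
  have h := (hp.pderiv (i := k)).pderiv (i := k)
  have e : n - 1 - 1 = n - 2 := by omega
  rw [e] at h
  exact h.C_mul _

theorem lap_iter_hom (w : σ → ℝ) (p : MvPolynomial σ ℝ) (n i : ℕ) (hp : p.IsHomogeneous n) :
    ((lap w)^[i] p).IsHomogeneous (n - 2 * i) := by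
  induction i with
  | zero => exact hp
  | succ i ih =>
    rw [Function.iterate_succ_apply']
    have h := lap_hom w _ _ ih
    have e : n - 2 * i - 2 = n - 2 * (i + 1) := by omega
    rw [e] at h
    exact h

end one

section two

variable {κ K : Type} [Fintype κ] [Fintype K]

/-- restriction to `x = 0` -/
noncomputable def res : MvPolynomial (κ ⊕ K) ℝ →ₐ[ℝ] MvPolynomial K ℝ :=
  aeval (Sum.elim (fun _ => 0) X)

theorem res_hom (p : MvPolynomial (κ ⊕ K) ℝ) (n : ℕ) (hp : p.IsHomogeneous n) :
    (res p).IsHomogeneous n := by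
  have h := hp.aeval (S := ℝ) (Sum.elim (fun _ => (0 : MvPolynomial K ℝ)) X) (n := 1) ?_
  · rw [one_mul] at h
    exact h
  · rintro (i | i)
    · exact isHomogeneous_zero _ _ _
    · exact isHomogeneous_X _ _

theorem eval_res (τ : K → ℝ) (p : MvPolynomial (κ ⊕ K) ℝ) :
    eval τ (res p) = eval (Sum.elim (fun _ => 0) τ) p := by
  induction p using MvPolynomial.induction_on with
  | C a => simp [res]
  | add p q hp hq => rw [map_add, map_add, map_add, hp, hq]
  | mul_X p k hp =>
    rw [map_mul, map_mul, map_mul, hp]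
    rcases k with k | k <;> simp [res]

theorem res_pderiv (k : K) (p : MvPolynomial (κ ⊕ K) ℝ) :
    res (pderiv (Sum.inr k) p) = pderiv k (res p) := by
  classical
  induction p using MvPolynomial.induction_on with
  | C a => simp [res]
  | add p q hp hq => rw [map_add, map_add, map_add, hp, hq, map_add]
  | mul_X p j hp =>
    rw [pderiv_mul, map_add, map_mul, map_mul, hp, map_mul, pderiv_mul]
    congr 2
    rcases j with j | j
    · rw [pderiv_X, Pi.single_eq_of_ne (by simp)]
      simp [res]
    · by_cases h : j = k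
      · subst h
        rw [pderiv_X, Pi.single_eq_same]
        simp [res]
      · rw [pderiv_X, Pi.single_eq_of_ne (by simpa using h)]
        simp [res, pderiv_X, Pi.single_eq_of_ne h]

theorem res_lap (p : MvPolynomial (κ ⊕ K) ℝ) :
    res (lap (Sum.elim (fun _ => 0) fun _ => 1) p) = lap (fun _ => 1) (res p) := by
  unfold lap dd
  rw [map_sum, Fintype.sum_sum_type]
  have h1 : ∑ x : κ, res (C (Sum.elim (fun _ : κ => (0 : ℝ)) (fun _ : K => 1) (Sum.inl x)) *
      (pderiv (Sum.inl x)) ((pderiv (Sum.inl x)) p)) = 0 := by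
    refine Finset.sum_eq_zero fun x _ => ?_
    rw [Sum.elim_inl, C_0, zero_mul, map_zero]
  rw [h1, zero_add]
  refine Finset.sum_congr rfl fun k _ => ?_
  rw [Sum.elim_inr, map_mul, res_pderiv, res_pderiv]
  simp [res]

theorem res_lap_iter (n : ℕ) (p : MvPolynomial (κ ⊕ K) ℝ) :
    res ((lap (Sum.elim (fun _ => 0) fun _ => 1))^[n] p) = (lap fun _ => 1)^[n] (res p) := by
  induction n with
  | zero => rfl
  | succ n ih => rw [Function.iterate_succ_apply', Function.iterate_succ_apply', res_lap, ih]

end two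

end Split4

open Split4

theorem split4 (hH : S4_Heat) : S4_Split := by
  intro κ K _ _ w R m hR hpos
  obtain ⟨G, hG, hGk⟩ := hH K
  obtain ⟨A, hA⟩ : ∃ A : Module.End ℝ (MvPolynomial (κ ⊕ K) ℝ),
    A = lapL (Sum.elim w fun _ => 0) := ⟨_, rfl⟩
  obtain ⟨D, hD⟩ : ∃ D : Module.End ℝ (MvPolynomial (κ ⊕ K) ℝ),
    D = lapL (Sum.elim (fun _ => 0) fun _ => 1) := ⟨_, rfl⟩
  have hAD : lapL (Sum.elim w fun _ => 1) = A + D := by
    rw [hA, hD, ← lapL_add]
    congr 1
    funext k
    rcases k with k | k <;> simp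
  have hc : Commute A D := by
    rw [hA, hD]
    exact lapL_comm _ _
  have hAi : ∀ i p, (A ^ i) p = (lap (Sum.elim w fun _ => 0))^[i] p := by
    intro i p
    rw [hA, lapL_pow]
  have hDi : ∀ i p, (D ^ i) p = (lap (Sum.elim (fun _ => 0) fun _ => 1))^[i] p := by
    intro i p
    rw [hD, lapL_pow]
  -- the polynomial f
  have h1 : 0 ≤ G (∑ i ∈ Finset.range (m + 1), (1 / (i.factorial : ℝ)) • res ((A ^ i) R)) := by
    apply hG
    intro τ
    have h2 := hpos τ
    have e : eval τ (∑ i ∈ Finset.range (m + 1), (1 / (i.factorial : ℝ)) • res ((A ^ i) R)) =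
        ∑ i ∈ Finset.range (m + 1), 1 / (i.factorial : ℝ) *
          eval (Sum.elim (fun _ => 0) τ) ((lap (Sum.elim w fun _ => 0))^[i] R) := by
      rw [map_sum]
      refine Finset.sum_congr rfl fun i _ => ?_
      rw [smul_eval, eval_res, hAi]
    rw [e]
    exact h2
  have h3 : ∀ i ∈ Finset.range (m + 1), (((m - i).factorial : ℕ) : ℝ) * G (res ((A ^ i) R)) =
      eval 0 ((D ^ (m - i)) ((A ^ i) R)) := by
    intro i hi
    have him : i ≤ m := by
      rw [Finset.mem_range] at hi
      omega
    have h4 : (res ((A ^ i) R)).IsHomogeneous (2 * (m - i)) := by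
      apply res_hom
      rw [hAi]
      have h5 := lap_iter_hom (Sum.elim w fun _ => 0) R (2 * m) i hR
      have e : 2 * m - 2 * i = 2 * (m - i) := by omega
      rwa [e] at h5
    rw [hGk _ _ h4, ← res_lap_iter, eval_res, hDi]
    congr 1
    congr 1
    funext k
    rcases k with k | k <;> rfl
  have h6 : (m.factorial : ℝ) * G (∑ i ∈ Finset.range (m + 1),
      (1 / (i.factorial : ℝ)) • res ((A ^ i) R)) =
      eval 0 ((lap (Sum.elim w fun _ => 1))^[m] R) := by
    rw [← lapL_pow, hAD, hc.add_pow, LinearMap.sum_apply, map_sum, map_sum, Finset.mul_sum]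
    refine Finset.sum_congr rfl fun i hi => ?_
    have him : i ≤ m := by
      rw [Finset.mem_range] at hi
      omega
    rw [map_smul, smul_eq_mul, (hc.pow_pow i (m - i)).eq]
    have e1 : (D ^ (m - i) * A ^ i * ((m.choose i : ℕ) : Module.End ℝ (MvPolynomial (κ ⊕ K) ℝ))) R =
        ((m.choose i : ℕ) : ℝ) • ((D ^ (m - i)) ((A ^ i) R)) := by
      rw [Module.End.mul_apply, Module.End.natCast_apply, map_nsmul, Module.End.mul_apply,
        Nat.cast_smul_eq_nsmul]
    rw [e1, smul_eval, ← h3 i hi]
    have e2 : (m.choose i : ℝ) * ((i.factorial : ℝ) * ((m - i).factorial : ℝ)) =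
        (m.factorial : ℝ) := by
      rw [← mul_assoc]
      exact_mod_cast Nat.choose_mul_factorial_mul_factorial him
    have e3 : (i.factorial : ℝ) ≠ 0 := by exact_mod_cast i.factorial_ne_zero
    rw [← e2]
    field_simp
  have h7 : 0 ≤ (m.factorial : ℝ) := Nat.cast_nonneg _
  rw [← h6]
  exact mul_nonneg h7 h1

end Pool.Agent.H783.HL
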