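import Pool.Agent.H783.HL.Stm4

/-!
# Rotation of the second group of variables (S4_Sub), by helper261
-/

set_option autoImplicit false

namespace Pool.Agent.H783.HL

open MvPolynomial

namespace Sub4

variable {κ K : Type} [Fintype κ] [Fintype K]

/-- The degree in the second group of variables. -/
def T (d : κ ⊕ K →₀ ℕ) : ℕ := ∑ k : K, d (Sum.inr k)

/-- `monomial d c ↦ monomial d (c * ε (T d))`. -/
noncomputable def Ph (ε : ℕ → ℝ) : MvPolynomial (κ ⊕ K) ℝ →ₗ[ℝ] MvPolynomial (κ ⊕ K) ℝ :=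
  (basisMonomials (κ ⊕ K) ℝ).constr ℝ fun d => monomial d (ε (T d))

omit [Fintype κ] in
theorem Ph_monomial (ε : ℕ → ℝ) (d : κ ⊕ K →₀ ℕ) (c : ℝ) :
    Ph ε (monomial d c) = monomial d (c * ε (T d)) := by
  have h : monomial d c = c • (basisMonomials (κ ⊕ K) ℝ) d := by
    rw [coe_basisMonomials, smul_monomial, smul_eq_mul, mul_one]
  rw [h, map_smul, Ph, Module.Basis.constr_basis, smul_monomial, smul_eq_mul]

omit [Fintype κ] in
theorem coeff_Ph (ε : ℕ → ℝ) (p : MvPolynomial (κ ⊕ K) ℝ) (d : κ ⊕ K →₀ ℕ) :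
    coeff d (Ph ε p) = coeff d p * ε (T d) := by
  classical
  induction p using MvPolynomial.induction_on' with
  | monomial u a =>
    rw [Ph_monomial, coeff_monomial, coeff_monomial]
    split_ifs with h
    · rw [h]
    · rw [zero_mul]
  | add p q hp hq => rw [map_add, coeff_add, coeff_add, hp, hq, add_mul]

omit [Fintype κ] in
theorem Ph_pderiv (ε : ℕ → ℝ) (j : κ) (p : MvPolynomial (κ ⊕ K) ℝ) :
    pderiv (Sum.inl j) (Ph ε p) = Ph ε (pderiv (Sum.inl j) p) := by
  classical
  induction p using MvPolynomial.induction_on' with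
  | monomial u a =>
    rw [Ph_monomial, pderiv_monomial, pderiv_monomial, Ph_monomial]
    have h : T (u - Finsupp.single (Sum.inl j) 1) = T u := by
      refine Finset.sum_congr rfl fun k _ => ?_
      rw [Finsupp.tsub_apply, Finsupp.single_apply, if_neg (by simp), Nat.sub_zero]
    rw [h]
    congr 1
    ring
  | add p q hp hq => rw [map_add, map_add, map_add, map_add, hp, hq]

theorem Ph_lap (ε : ℕ → ℝ) (w : κ → ℝ) (p : MvPolynomial (κ ⊕ K) ℝ) :
    lap (Sum.elim w fun _ => 0) (Ph ε p) = Ph ε (lap (Sum.elim w fun _ => 0) p) := by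
  rw [lap, lap, Fintype.sum_sum_type, Fintype.sum_sum_type]
  simp only [Sum.elim_inl, Sum.elim_inr, C_0, zero_mul, Finset.sum_const_zero, add_zero]
  rw [map_sum]
  refine Finset.sum_congr rfl fun j _ => ?_
  rw [dd, dd, Ph_pderiv, Ph_pderiv, C_mul', C_mul', map_smul]

theorem Ph_iter (ε : ℕ → ℝ) (w : κ → ℝ) (i : ℕ) (p : MvPolynomial (κ ⊕ K) ℝ) :
    (lap (Sum.elim w fun _ => 0))^[i] (Ph ε p) = Ph ε ((lap (Sum.elim w fun _ => 0))^[i] p) := by
  induction i with
  | zero => rfl
  | succ i ih => rw [Function.iterate_succ_apply', Function.iterate_succ_apply', ih, Ph_lap]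

/-- Evaluation of a monomial. -/
theorem aeval_mon {A : Type} [CommRing A] [Algebra ℝ A] (z : κ → A) (y : K → A)
    (d : κ ⊕ K →₀ ℕ) (c : ℝ) : aeval (Sum.elim z y) (monomial d c) =
      algebraMap ℝ A c * ((∏ i, z i ^ d (Sum.inl i)) * ∏ k, y k ^ d (Sum.inr k)) := by
  rw [aeval_monomial, Finsupp.prod_fintype _ _ (fun i => pow_zero _), Fintype.prod_sum_type]
  rfl

theorem aeval_scale {A : Type} [CommRing A] [Algebra ℝ A] (z : κ → A) (y : K → A) (s : A)
    (d : κ ⊕ K →₀ ℕ) (c : ℝ) : aeval (Sum.elim z fun k => s * y k) (monomial d c) =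
      s ^ T d * aeval (Sum.elim z y) (monomial d c) := by
  rw [aeval_mon, aeval_mon]
  have h : ∏ k, (s * y k) ^ d (Sum.inr k) = s ^ T d * ∏ k, y k ^ d (Sum.inr k) := by
    rw [T, ← Finset.prod_pow_eq_pow_sum, ← Finset.prod_mul_distrib]
    exact Finset.prod_congr rfl fun k _ => mul_pow _ _ _
  rw [h]
  ring

/-- The parity operator. -/
theorem eval_par (x : κ → ℝ) (t : K → ℝ) (p : MvPolynomial (κ ⊕ K) ℝ) :
    eval (Sum.elim x t) (Ph (fun n => (-1) ^ n) p) = eval (Sum.elim x fun k => - t k) p := by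
  induction p using MvPolynomial.induction_on' with
  | monomial u a =>
    have e1 : (fun k => - t k) = fun k => (-1) * t k := by funext k; ring
    have e2 : ∀ (f : κ ⊕ K → ℝ) (p : MvPolynomial (κ ⊕ K) ℝ), eval f p = aeval f p :=
      fun f p => by rw [aeval_eq_eval]
    rw [Ph_monomial, e1, e2, e2, aeval_scale, aeval_mon, aeval_mon, Algebra.algebraMap_self,
      RingHom.id_apply, RingHom.id_apply]
    ring
  | add p q hp hq => rw [map_add, map_add, map_add, hp, hq]

/-- The rotation. -/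
theorem aeval_rot (z : κ → ℂ) (y : K → ℂ) (p : MvPolynomial (κ ⊕ K) ℝ)
    (hp : Ph (fun n => (-1) ^ n) p = p) :
    aeval (Sum.elim z y) (Ph (fun n => (-1) ^ (n / 2)) p) =
      aeval (Sum.elim z fun k => Complex.I * y k) p := by
  have hcoe : ∀ d ∈ p.support, Even (T d) := by
    intro d hd
    rw [mem_support_iff] at hd
    by_contra hodd
    rw [Nat.not_even_iff_odd] at hodd
    have h1 := coeff_Ph (fun n => (-1) ^ n) p d
    rw [hp, hodd.neg_one_pow] at h1
    apply hd
    linarith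
  conv_lhs => rw [← support_sum_monomial_coeff p]
  conv_rhs => rw [← support_sum_monomial_coeff p]
  rw [map_sum, map_sum, map_sum]
  refine Finset.sum_congr rfl fun d hd => ?_
  obtain ⟨m, hm⟩ := hcoe d hd
  rw [Ph_monomial, aeval_scale, hm, ← two_mul, Nat.mul_div_cancel_left m (by norm_num), pow_mul,
    Complex.I_sq, aeval_mon, aeval_mon]
  simp only [map_mul, map_pow, map_neg, map_one]
  ring

end Sub4

open Sub4 in
theorem sub4 : S4_Sub := by
  classical
  intro κ K _ _ R n hR heven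
  have hpar : Ph (fun n => (-1) ^ n) R = R := by
    refine MvPolynomial.funext fun u => ?_
    have h1 := eval_par (fun i => u (Sum.inl i)) (fun k => u (Sum.inr k)) R
    rw [heven] at h1
    have h2 : Sum.elim (fun i => u (Sum.inl i)) (fun k => u (Sum.inr k)) = u := by
      funext s
      cases s <;> rfl
    rwa [h2] at h1
  refine ⟨Ph (fun n => (-1) ^ (n / 2)) R, ?_, ?_⟩
  · intro d hd
    rw [coeff_Ph] at hd
    exact hR (left_ne_zero_of_mul hd)
  · intro w i z y
    rw [Ph_iter]
    refine aeval_rot z y _ ?_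
    rw [← Ph_iter, hpar]

end Pool.Agent.H783.HL
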