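import Pool.Agent.H783.HL.Mixed
import Pool.Agent.H783.HL.Param4
import Pool.Agent.H783.HL.Sub4
import Pool.Agent.H783.HL.Cone4
import Pool.Agent.H783.HL.Heat4
import Pool.Agent.H783.HL.Split4
import Pool.Agent.H783.HL.Sign4

/-!
# Causal families and an arbitrary family of skew forms, II
-/

set_option autoImplicit false
set_option linter.unusedSectionVars false

namespace Pool.Agent.H783.HL

open MvPolynomial Filter Topology
open Pool.Agent.H783.Hopf (qf)
open Pool.Agent.W666.GB (sn MD Yf)

theorem hl_param : S4_Param :=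
  param4 hl_main (reg2 slice2 rrSub rrSimple (rrExp rrSub uniLower)) regCont2 flowTop2 uniLower line

section mixed

variable {ι K L : Type} [Fintype ι] [Fintype K] [DecidableEq ι] [DecidableEq K]
  [Fintype L] [DecidableEq L] {m : ℕ}

theorem Dfam_sum (B : ι × Option K → Fin m × Bool → Fin m × Bool → ℝ)
    (ω : L → Fin m × Bool → Fin m × Bool → ℝ) (a b c d : Fin m × Bool) :
    ∑ k, (Sum.elim pw fun _ => (1 : ℝ)) k * (Dfam B ω k a b * Dfam B ω k c d) =
      (∑ o, pw o * (B o a b * B o c d)) + ∑ l, ω l a b * ω l c d := by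
  rw [Fintype.sum_sum_type]
  simp only [Sum.elim_inl, Sum.elim_inr, Dfam, one_mul]

theorem Yf_mixed_cont (B : ι × Option K → Fin m × Bool → Fin m × Bool → ℝ)
    (ω : L → Fin m × Bool → Fin m × Bool → ℝ) :
    Continuous fun ε : ℝ => Yf (fun a b c d =>
      (∑ o, pw o * (shiftB B ε o a b * shiftB B ε o c d)) + ∑ l, ω l a b * ω l c d) := by
  unfold Yf shiftB
  fun_prop

/-- **The double alternating form of a sum of causal families and a sum of squares of skew forms is
nonnegative.** -/
theorem Yf_mixed [Nonempty ι] (B : ι × Option K → Fin m × Bool → Fin m × Bool → ℝ)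
    (ω : L → Fin m × Bool → Fin m × Bool → ℝ)
    (hs : ∀ o i j, B o i j = B o j i) (hω : ∀ l i j, ω l i j = - ω l j i)
    (hc : ∀ (j : ι) (y : EuclideanSpace ℝ (Fin m × Bool)),
      0 ≤ qf (B (j, none)) y ∧ ∑ b, qf (B (j, some b)) y ^ 2 ≤ qf (B (j, none)) y ^ 2) :
    0 ≤ Yf (fun a b c d => (∑ o, pw o * (B o a b * B o c d)) + ∑ l, ω l a b * ω l c d) := by
  have h1 : ∀ ε : ℝ, 0 < ε →
      0 ≤ Yf (fun a b c d => (∑ o, pw o * (shiftB B ε o a b * shiftB B ε o c d)) +
        ∑ l, ω l a b * ω l c d) := by
    intro ε hε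
    have h0 := Yf_mixed_strict hl_param sub4 (cone4 hl_star) (split4 heat4) sign4 (shiftB B ε) ω
      ?_ hω hε ?_
    · simp only [Dfam_sum] at h0
      exact h0
    · intro o i j
      unfold shiftB
      rw [hs]
      obtain ⟨a, o⟩ := o
      cases o with
      | none => simp only [Option.elim_none, eq_comm]
      | some b => rfl
    · intro j y
      have h2 : shiftB B ε (j, none) = fun i k => B (j, none) i k + ε * (if i = k then 1 else 0) :=
        rfl
      have h3 : ∀ b, shiftB B ε (j, some b) = B (j, some b) := by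
        intro b
        funext i k
        show B (j, some b) i k + ε * 0 = B (j, some b) i k
        ring
      simp only [h2, h3, qf_add_diag]
      obtain ⟨h4, h5⟩ := hc j y
      have h6 := Real.sqrt_le_sqrt h5
      rw [Real.sqrt_sq h4] at h6
      linarith
  have h2 := (Yf_mixed_cont B ω).tendsto 0
  have h3 : shiftB B 0 = B := by
    funext o i j
    unfold shiftB
    rw [zero_mul, add_zero]
  rw [h3] at h2
  exact ge_of_tendsto (h2.mono_left nhdsWithin_le_nhds)
    (eventually_nhdsWithin_of_forall (s := Set.Ioi 0) fun ε hε => h1 ε hε)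

end mixed

end Pool.Agent.H783.HL
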