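import Pool.Agent.H783.HL.Second
import Pool.Agent.H783.HL.Core4

/-!
# Causal Gauss tensors and nonpositive curvature operators
-/

set_option autoImplicit false
set_option linter.unusedSectionVars false
set_option linter.unusedVariables false

namespace Pool.Agent.H783.HL

open Finset Filter Topology
open Pool.Agent.W666.GB Pool.Agent.W669.HD Pool.Agent.Y519.HB
open Pool.Agent.H783.Hopf (qf gbc_of_forms vec exists_root)

variable {V : Type} [NormedAddCommGroup V] [InnerProductSpace ℝ V]

theorem op_forms {J : Type} [Fintype J] [DecidableEq J] {S : V → V → V → V → ℝ}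
    (hS : OpNonpos S) (f : J → V) :
    ∃ ω : J × J → J → J → ℝ, (∀ q i j, ω q i j = - ω q j i) ∧
      ∀ i j k l, S (f i) (f j) (f k) (f l) =
        -((∑ q, ω q i k * ω q j l) - ∑ q, ω q i l * ω q j k) := by
  obtain ⟨hc, hS⟩ := hS
  set K : Matrix (J × J) (J × J) ℝ :=
    Matrix.of fun p q => - S (f p.1) (f p.2) (f q.1) (f q.2) with hK
  have hpsd : K.PosSemidef := by
    refine Matrix.PosSemidef.of_dotProduct_mulVec_nonneg ?_ ?_
    · ext p q
      simp only [hK, Matrix.conjTranspose_apply, Matrix.of_apply, star_trivial]
      rw [hc.pair]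
    · intro y
      have h1 := hS (J × J) y (fun p => f p.1) (fun p => f p.2)
      have h2 : star y ⬝ᵥ K.mulVec y =
          - ∑ p, ∑ q, y p * y q * S (f p.1) (f p.2) (f q.1) (f q.2) := by
        simp only [dotProduct, Matrix.mulVec, hK, Matrix.of_apply, Pi.star_apply, star_trivial,
          Finset.mul_sum]
        rw [← Finset.sum_neg_distrib]
        refine Finset.sum_congr rfl fun p _ => ?_
        rw [← Finset.sum_neg_distrib]
        refine Finset.sum_congr rfl fun q _ => ?_
        ring
      rw [h2]
      linarith
  obtain ⟨P, hP⟩ := exists_root hpsd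
  have hent : ∀ p q, - S (f p.1) (f p.2) (f q.1) (f q.2) = ∑ r, P r p * P r q := by
    intro p q
    have h1 := congrFun (congrFun hP p) q
    rw [Matrix.mul_apply] at h1
    simp only [Matrix.transpose_apply, hK, Matrix.of_apply] at h1
    exact h1
  refine ⟨fun q i j => P q (i, j), ?_, ?_⟩
  · intro q i j
    have h1 : ∑ r, (P r (i, j) + P r (j, i)) ^ 2 = 0 := by
      have h2 : ∑ r, (P r (i, j) + P r (j, i)) ^ 2 = ∑ r, P r (i, j) * P r (i, j) +
          ∑ r, P r (i, j) * P r (j, i) + ∑ r, P r (j, i) * P r (i, j) +
            ∑ r, P r (j, i) * P r (j, i) := by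
        rw [← Finset.sum_add_distrib, ← Finset.sum_add_distrib, ← Finset.sum_add_distrib]
        exact Finset.sum_congr rfl fun r _ => by ring
      rw [h2, ← hent, ← hent, ← hent, ← hent]
      show - S (f i) (f j) (f i) (f j) + - S (f i) (f j) (f j) (f i) +
        - S (f j) (f i) (f i) (f j) + - S (f j) (f i) (f j) (f i) = 0
      rw [hc.anti (f i) (f j) (f i) (f j), hc.anti (f i) (f j) (f j) (f i)]
      ring
    have h2 := (Finset.sum_eq_zero_iff_of_nonneg fun r _ =>
      sq_nonneg (P r (i, j) + P r (j, i))).1 h1 q (Finset.mem_univ q)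
    have h3 : P q (i, j) + P q (j, i) = 0 := by simpa using h2
    show P q (i, j) = - P q (j, i)
    linarith
  · intro i j k l
    have h1 := hc.bianchi (f i) (f j) (f k) (f l)
    have h2 := hent (j, k) (i, l)
    have h3 := hent (k, i) (j, l)
    have h4 : ∑ r, P r (k, i) * P r (j, l) = - ∑ r, P r (i, k) * P r (j, l) := by
      have h5 := hent (i, k) (j, l)
      rw [← h3, ← h5]
      show - S (f k) (f i) (f j) (f l) = - - S (f i) (f k) (f j) (f l)
      rw [hc.anti (f i) (f k)]
    show S (f i) (f j) (f k) (f l) =
      -((∑ q, P q (i, k) * P q (j, l)) - ∑ q, P q (i, l) * P q (j, k))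
    have h6 : ∑ q, P q (i, l) * P q (j, k) = ∑ r, P r (j, k) * P r (i, l) :=
      Finset.sum_congr rfl fun r _ => mul_comm _ _
    rw [h6, ← h2]
    rw [h4] at h3
    have h7 : - S (f k) (f i) (f j) (f l) = - ∑ r, P r (i, k) * P r (j, l) := h3
    show S (f i) (f j) (f k) (f l) =
      -((∑ q, P q (i, k) * P q (j, l)) - - S (f j) (f k) (f i) (f l))
    linarith

variable {m : ℕ}

/-- the sign for causal Gauss tensors and a nonpositive curvature operator -/
theorem causal_op_sum (e : OrthonormalBasis (Fin m × Bool) ℝ V) {r : ℕ} {N : Fin r → ℕ}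
    {S : Fin r → V → V → V → V → ℝ} (hS : ∀ i, CausalT (N i) (S i)) {Q : V → V → V → V → ℝ}
    (hQ : OpNonpos Q) :
    0 ≤ (-1) ^ m * gbc e (fun x y z w => (∑ i, S i x y z w) + Q x y z w) := by
  classical
  choose b β hb hβ hc hSe using hS
  obtain ⟨ω, hω, hQe⟩ := op_forms hQ (fun i => e i)
  have hY := Yf_mixed (famB (fun _ _ => (0 : ℝ)) (fun _ _ _ => 0)
    (fun a i j => b a (e i) (e j)) (fun a p i j => β a p (e i) (e j))) ω ?_ hω ?_
  · rw [gbc_of_forms e _ _ (fun i j k l => ?_)]
    · exact mul_nonneg (by positivity) hY
    · rw [famB_sum, famB_sum]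
      have h2 : ∀ a, S a (e i) (e j) (e k) (e l) =
          -((b a (e i) (e k) * b a (e j) (e l) - ∑ p, β a p (e i) (e k) * β a p (e j) (e l)) -
            (b a (e i) (e l) * b a (e j) (e k) - ∑ p, β a p (e i) (e l) * β a p (e j) (e k))) := by
        intro a
        rw [hSe, Finset.sum_sub_distrib]
        ring
      have h3 : ∑ a, S a (e i) (e j) (e k) (e l) =
          -(∑ a, (b a (e i) (e k) * b a (e j) (e l) -
              ∑ p, β a p (e i) (e k) * β a p (e j) (e l)) -
            ∑ a, (b a (e i) (e l) * b a (e j) (e k) -
              ∑ p, β a p (e i) (e l) * β a p (e j) (e k))) := by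
        rw [← Finset.sum_sub_distrib, ← Finset.sum_neg_distrib]
        exact Finset.sum_congr rfl fun a _ => h2 a
      rw [h3, hQe i j k l]
      simp only [mul_zero, Finset.sum_const_zero]
      ring
  · rintro ⟨a, o⟩ i j
    cases a with
    | none =>
      cases o with
      | none => rfl
      | some p =>
        cases p with
        | inl p => rfl
        | inr q => rfl
    | some a =>
      cases o with
      | none => exact (hb a).symm _ _
      | some p =>
        cases p with
        | inl p =>
          show (if p.1 = a then β p.1 p.2 (e i) (e j) else 0) =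
            if p.1 = a then β p.1 p.2 (e j) (e i) else 0
          rw [(hβ p.1 p.2).symm]
        | inr q => rfl
  · intro a y
    cases a with
    | none =>
      have h1 : ∀ o, famB (fun _ _ => (0 : ℝ)) (fun _ _ _ => 0)
          (fun a i j => b a (e i) (e j)) (fun a p i j => β a p (e i) (e j)) (none, o) =
          fun _ _ => 0 := by
        intro o
        cases o with
        | none => rfl
        | some p =>
          cases p with
          | inl p => rfl
          | inr q => rfl
      simp only [h1, qf_zero']
      simp
    | some a =>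
      have h0 : qf (famB (fun _ _ => (0 : ℝ)) (fun _ _ _ => 0)
            (fun a i j => b a (e i) (e j)) (fun a p i j => β a p (e i) (e j))
            (some a, none)) y = b a (vec e y) (vec e y) := qf_bform (hb a) e y
      rw [h0]
      refine ⟨(hc a _).1, ?_⟩
      rw [Fintype.sum_sum_type]
      have h1 : ∀ q : (Fin m × Bool) × (Fin m × Bool), qf (famB (fun _ _ => (0 : ℝ))
          (fun _ _ _ => 0) (fun a i j => b a (e i) (e j)) (fun a p i j => β a p (e i) (e j))
          (some a, some (Sum.inr q))) y ^ 2 = 0 := by
        intro p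
        show qf (fun _ _ => (0 : ℝ)) y ^ 2 = 0
        rw [qf_zero']
        ring
      simp only [h1, Finset.sum_const_zero, add_zero]
      rw [sum_sigma_one a]
      · refine le_trans (le_of_eq ?_) (hc a (vec e y)).2
        refine Finset.sum_congr rfl fun k _ => ?_
        rw [← qf_bform (hβ a k) e y]
        congr 2
        funext i j
        show (if a = a then β a k (e i) (e j) else 0) = _
        rw [if_pos rfl]
      · intro p hp
        have h2 : famB (fun _ _ => (0 : ℝ)) (fun _ _ _ => 0)
          (fun a i j => b a (e i) (e j)) (fun a p i j => β a p (e i) (e j))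
          (some a, some (Sum.inl p)) = fun _ _ => 0 := by
          funext i j
          show (if p.1 = a then β p.1 p.2 (e i) (e j) else 0) = 0
          rw [if_neg hp]
        rw [h2, qf_zero']
        ring

end Pool.Agent.H783.HL
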