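import Pool.Agent.H783.HL.Stm

/-!
# S3: restriction of a polynomial to a complex line (helper870)
-/

set_option autoImplicit false

namespace Pool.Agent.H783.HL

open MvPolynomial

namespace LineX

theorem lin_nd (w v : ℂ) : (Polynomial.C w + Polynomial.C v * Polynomial.X).natDegree ≤ 1 := by
  refine (Polynomial.natDegree_add_le _ _).trans (max_le ?_ ?_)
  · simp
  · exact (Polynomial.natDegree_C_mul_le _ _).trans Polynomial.natDegree_X_le

theorem lin_coeff (w v : ℂ) :
    (Polynomial.C w + Polynomial.C v * Polynomial.X).coeff 1 = v := by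
  simp [Polynomial.coeff_C]

theorem prod_nd {σ : Type} (w v : σ → ℂ) (m : σ → ℕ) (s : Finset σ) :
    (∏ k ∈ s, (Polynomial.C (w k) + Polynomial.C (v k) * Polynomial.X) ^ m k).natDegree ≤
      ∑ k ∈ s, m k ∧
    (∏ k ∈ s, (Polynomial.C (w k) + Polynomial.C (v k) * Polynomial.X) ^ m k).coeff (∑ k ∈ s, m k) =
      ∏ k ∈ s, v k ^ m k := by
  classical
  induction s using Finset.induction_on with
  | empty => simp
  | insert a s ha ih =>
    have h1 : ((Polynomial.C (w a) + Polynomial.C (v a) * Polynomial.X) ^ m a).natDegree ≤ m a := by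
      refine Polynomial.natDegree_pow_le.trans ?_
      have := Nat.mul_le_mul_left (m a) (lin_nd (w a) (v a))
      simpa using this
    have h2 : ((Polynomial.C (w a) + Polynomial.C (v a) * Polynomial.X) ^ m a).coeff (m a) =
        v a ^ m a := by
      have := Polynomial.coeff_pow_of_natDegree_le (m := m a) (lin_nd (w a) (v a))
      rw [mul_one, lin_coeff] at this
      exact this
    rw [Finset.prod_insert ha, Finset.sum_insert ha, Finset.prod_insert ha]
    refine ⟨Polynomial.natDegree_mul_le.trans (Nat.add_le_add h1 ih.1), ?_⟩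
    rw [Polynomial.coeff_mul_add_eq_of_natDegree_le h1 ih.1, h2, ih.2]

theorem deg_eq {σ : Type} [Fintype σ] (d : σ →₀ ℕ) : d.degree = ∑ k, d k := by
  rw [Finsupp.degree_eq_sum]

theorem deg_le {σ : Type} [Fintype σ] (p : MvPolynomial σ ℝ) (n : ℕ) (hp : p.totalDegree ≤ n)
    (d : σ →₀ ℕ) (hd : d ∈ p.support) : ∑ k, d k ≤ n := by
  have h1 := MvPolynomial.le_totalDegree hd
  rw [Finsupp.sum_fintype _ _ (fun _ => rfl)] at h1
  exact h1.trans hp

theorem alg_eq (c : ℝ) : algebraMap ℝ (Polynomial ℂ) c = Polynomial.C (c : ℂ) := rfl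

end LineX

open LineX in
theorem line : S_Line := by
  intro σ _ p n hp w v
  have hf : aeval (fun k => Polynomial.C (w k) + Polynomial.C (v k) * Polynomial.X) p =
      ∑ d ∈ p.support, Polynomial.C ((p.coeff d : ℝ) : ℂ) *
        ∏ k, (Polynomial.C (w k) + Polynomial.C (v k) * Polynomial.X) ^ d k := by
    rw [MvPolynomial.aeval_def, MvPolynomial.eval₂_eq']
    rfl
  refine ⟨aeval (fun k => Polynomial.C (w k) + Polynomial.C (v k) * Polynomial.X) p, ?_, ?_, ?_⟩
  · rw [hf]
    refine Polynomial.natDegree_sum_le_of_forall_le _ _ ?_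
    intro d hd
    refine (Polynomial.natDegree_C_mul_le _ _).trans ?_
    exact (prod_nd w v d Finset.univ).1.trans (deg_le p n hp d hd)
  · rw [hf, Polynomial.finsetSum_coeff, homogeneousComponent_apply, map_sum, Finset.sum_filter]
    refine Finset.sum_congr rfl fun d hd => ?_
    rw [Polynomial.coeff_C_mul, aeval_monomial, Finsupp.prod_fintype _ _ (fun _ => pow_zero _)]
    have h1 := prod_nd w v d Finset.univ
    split_ifs with h
    · rw [deg_eq] at h
      rw [← h, h1.2]
      rfl
    · rw [deg_eq] at h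
      rw [Polynomial.coeff_eq_zero_of_natDegree_lt, mul_zero]
      exact lt_of_le_of_lt h1.1 (lt_of_le_of_ne (deg_le p n hp d hd) h)
  · intro t
    have h1 := MvPolynomial.comp_aeval_apply (R := ℝ)
      (fun k => Polynomial.C (w k) + Polynomial.C (v k) * Polynomial.X)
      ((Polynomial.aeval t : Polynomial ℂ →ₐ[ℂ] ℂ).restrictScalars ℝ) p
    have h2 : ((Polynomial.aeval t : Polynomial ℂ →ₐ[ℂ] ℂ).restrictScalars ℝ)
        (aeval (fun k => Polynomial.C (w k) + Polynomial.C (v k) * Polynomial.X) p) =
        (aeval (fun k => Polynomial.C (w k) + Polynomial.C (v k) * Polynomial.X) p).eval t := by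
      rw [AlgHom.restrictScalars_apply, Polynomial.coe_aeval_eq_eval]
    rw [← h2, h1]
    congr 1
    congr 1
    funext k
    rw [AlgHom.restrictScalars_apply, Polynomial.coe_aeval_eq_eval]
    simp only [Polynomial.eval_add, Polynomial.eval_C, Polynomial.eval_mul, Polynomial.eval_X]
    ring

end Pool.Agent.H783.HL
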