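import Pool.Agent.H783.HL.Stm2
import Pool.Agent.H783.HL.Line

/-!
# G6: derivatives of stable homogeneous polynomials (helper721)
-/

set_option autoImplicit false

namespace Pool.Agent.H783.HL

open MvPolynomial

namespace DerivX2

/-- the chain rule for the restriction to a complex line -/
theorem deriv_line {σ : Type} [Fintype σ] (w : σ → ℂ) (e : σ → ℝ) (q : MvPolynomial σ ℝ) :
    Polynomial.derivative (aeval (fun k => Polynomial.C (w k) +
      Polynomial.C ((e k : ℝ) : ℂ) * Polynomial.X) q) =
    aeval (fun k => Polynomial.C (w k) + Polynomial.C ((e k : ℝ) : ℂ) * Polynomial.X) (de e q) := by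
  classical
  unfold de
  induction q using MvPolynomial.induction_on with
  | C a =>
    have h : (aeval (fun k => Polynomial.C (w k) + Polynomial.C ((e k : ℝ) : ℂ) * Polynomial.X)
        (C a : MvPolynomial σ ℝ)) = Polynomial.C (a : ℂ) := by
      rw [MvPolynomial.algHom_C]
      rfl
    rw [h, Polynomial.derivative_C]
    simp
  | add p q hp hq =>
    rw [map_add, map_add, hp, hq, ← map_add, ← Finset.sum_add_distrib]
    congr 1
    refine Finset.sum_congr rfl fun k _ => ?_
    rw [map_add]
    ring
  | mul_X p i hp =>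
    rw [map_mul, Polynomial.derivative_mul, hp, aeval_X]
    have h1 : (∑ k, C (e k) * pderiv k (p * X i) : MvPolynomial σ ℝ) =
        (∑ k, C (e k) * pderiv k p) * X i + p * C (e i) := by
      rw [Finset.sum_mul]
      have h2 : ∀ k ∈ Finset.univ, (C (e k) * pderiv k (p * X i) : MvPolynomial σ ℝ) =
          C (e k) * pderiv k p * X i + (if k = i then p * C (e i) else 0) := by
        intro k _
        rw [pderiv_mul]
        by_cases hk : k = i
        · rw [if_pos hk, hk, pderiv_X_self]
          ring
        · rw [if_neg hk, pderiv_X_of_ne (fun h => hk h.symm)]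
          ring
      rw [Finset.sum_congr rfl h2, Finset.sum_add_distrib, Finset.sum_ite_eq' Finset.univ i]
      simp
    have h5 : Polynomial.derivative (Polynomial.C (w i) +
        Polynomial.C ((e i : ℝ) : ℂ) * Polynomial.X) = Polynomial.C ((e i : ℝ) : ℂ) := by simp
    rw [h5, h1, map_add, map_mul, map_mul, aeval_X]
    have h3 : (aeval (fun k => Polynomial.C (w k) + Polynomial.C ((e k : ℝ) : ℂ) * Polynomial.X)
        (C (e i) : MvPolynomial σ ℝ)) = Polynomial.C ((e i : ℝ) : ℂ) := by
      rw [MvPolynomial.algHom_C]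
      rfl
    rw [h3]

theorem eval_line {σ : Type} [Fintype σ] (w : σ → ℂ) (e : σ → ℝ) (q : MvPolynomial σ ℝ) (t : ℂ) :
    (aeval (fun k => Polynomial.C (w k) + Polynomial.C ((e k : ℝ) : ℂ) * Polynomial.X) q).eval t =
      aeval (fun k => w k + t * e k) q := by
  have h1 := MvPolynomial.comp_aeval_apply (R := ℝ)
      (fun k => Polynomial.C (w k) + Polynomial.C ((e k : ℝ) : ℂ) * Polynomial.X)
      ((Polynomial.aeval t : Polynomial ℂ →ₐ[ℂ] ℂ).restrictScalars ℝ) q
  have h2 : ((Polynomial.aeval t : Polynomial ℂ →ₐ[ℂ] ℂ).restrictScalars ℝ)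
      (aeval (fun k => Polynomial.C (w k) + Polynomial.C ((e k : ℝ) : ℂ) * Polynomial.X) q) =
      (aeval (fun k => Polynomial.C (w k) + Polynomial.C ((e k : ℝ) : ℂ) *
        Polynomial.X) q).eval t := by
    rw [AlgHom.restrictScalars_apply, Polynomial.coe_aeval_eq_eval]
  rw [← h2, h1]
  congr 1
  congr 1
  funext k
  rw [AlgHom.restrictScalars_apply, Polynomial.coe_aeval_eq_eval]
  simp only [Polynomial.eval_add, Polynomial.eval_C, Polynomial.eval_mul, Polynomial.eval_X]
  ring

theorem hom_eval {σ : Type} [Fintype σ] (q : MvPolynomial σ ℝ) (m : ℕ) (hq : q.IsHomogeneous m)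
    (c : ℂ) (z : σ → ℂ) : aeval (fun k => c * z k) q = c ^ m * aeval z q := by
  rw [MvPolynomial.aeval_def, MvPolynomial.eval₂_eq', MvPolynomial.aeval_def,
    MvPolynomial.eval₂_eq', Finset.mul_sum]
  refine Finset.sum_congr rfl fun d hd => ?_
  have h1 : ∑ k, d k = m := by
    have h2 := hq (MvPolynomial.mem_support_iff.1 hd)
    rw [← h2, Finsupp.weight_apply, Finsupp.sum_fintype _ _ (fun _ => by simp)]
    simp
  have h3 : ∏ k, (c * z k) ^ d k = c ^ m * ∏ k, z k ^ d k := by
    rw [← h1, ← Finset.prod_pow_eq_pow_sum, ← Finset.prod_mul_distrib]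
    exact Finset.prod_congr rfl fun k _ => mul_pow _ _ _
  rw [h3]
  ring

theorem cone_add {σ : Type} {Ω : Set (σ → ℝ)} (hΩ : OCone Ω) {v e : σ → ℝ} (hv : v ∈ Ω)
    (he : e ∈ Ω) {s : ℝ} (hs : 0 ≤ s) : (fun k => v k + s * e k) ∈ Ω := by
  rcases hs.eq_or_lt with h | h
  · rw [← h]
    simpa using hv
  · have h1 := hΩ.cone s h e he
    have h2 := hΩ.convex hv h1 (a := 1 / 2) (b := 1 / 2) (by norm_num) (by norm_num) (by norm_num)
    have h3 := hΩ.cone 2 (by norm_num) _ h2
    have h4 : (fun k => 2 * (((1 / 2 : ℝ) • v + (1 / 2 : ℝ) • fun k => s * e k) k)) =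
        fun k => v k + s * e k := by
      funext k
      simp only [Pi.add_apply, Pi.smul_apply, smul_eq_mul]
      ring
    rwa [h4] at h3

/-- the logarithmic derivative at `0` -/
theorem log_deriv {f : Polynomial ℂ} {m : ℕ} (hm : 1 ≤ m) (hd : f.natDegree ≤ m)
    (hc : f.coeff m ≠ 0) (hz : ∀ t : ℂ, 0 ≤ t.im → f.eval t ≠ 0) :
    (Polynomial.derivative f).eval 0 ≠ 0 := by
  have hdeg : f.natDegree = m := le_antisymm hd (Polynomial.le_natDegree_of_ne_zero hc)
  have hsp : f.Splits := IsAlgClosed.splits f
  have h0 : f.eval 0 ≠ 0 := hz 0 (by simp)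
  have hf0 : f ≠ 0 := by
    intro h
    rw [h] at h0
    simp at h0
  intro hder
  have h1 := hsp.eval_derivative_div_eval_of_ne_zero h0
  rw [hder, zero_div] at h1
  have hroot : ∀ r ∈ f.roots, (1 / (0 - r) : ℂ).im < 0 := by
    intro r hr
    have h2 : f.eval r = 0 := (Polynomial.mem_roots hf0).1 hr
    have h3 : r.im < 0 := by
      by_contra h
      exact hz r (not_lt.1 h) h2
    have hr0 : r ≠ 0 := by
      intro h
      rw [h] at h3
      simp at h3
    have h4 : (1 / (0 - r) : ℂ).im = r.im / Complex.normSq r := by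
      rw [zero_sub, one_div, Complex.inv_im, Complex.neg_im, Complex.normSq_neg]
      ring
    rw [h4]
    exact div_neg_of_neg_of_pos h3 (Complex.normSq_pos.2 hr0)
  have hne : f.roots ≠ 0 := by
    intro h
    have h5 : Multiset.card f.roots = f.natDegree := hsp.natDegree_eq_card_roots.symm
    rw [h, Multiset.card_zero, hdeg] at h5
    omega
  have hsum : ∀ s : Multiset ℂ, s ≠ 0 → (∀ r ∈ s, (1 / (0 - r) : ℂ).im < 0) →
      ((s.map fun z => 1 / (0 - z)).sum).im < 0 := by
    intro s
    induction s using Multiset.induction_on with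
    | empty => intro h; exact absurd rfl h
    | cons a s ih =>
      intro _ hs
      rw [Multiset.map_cons, Multiset.sum_cons, Complex.add_im]
      have ha := hs a (Multiset.mem_cons_self a s)
      by_cases hs0 : s = 0
      · rw [hs0]
        simpa using ha
      · have := ih hs0 (fun r hr => hs r (Multiset.mem_cons_of_mem hr))
        linarith
  have h6 := hsum f.roots hne hroot
  rw [← h1] at h6
  simp at h6

end DerivX2

open DerivX2 in
theorem deriv2 : S2_Deriv := by
  classical
  intro σ _ Ω e q m hΩ he hm hq hst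
  refine ⟨?_, ?_, ?_⟩
  · intro x v hv
    -- the leading coefficient
    have hlead : aeval (fun k => ((e k : ℝ) : ℂ)) q ≠ 0 := by
      intro h
      have h1 := hst (fun _ => 0) e he
      apply h1
      have h2 : cp (fun _ => 0) e = fun k => Complex.I * ((e k : ℝ) : ℂ) := by
        funext k
        unfold cp
        simp
        ring
      rw [h2, hom_eval q m hq, h, mul_zero]
    set f : Polynomial ℂ := aeval (fun k => Polynomial.C (cp x v k) +
      Polynomial.C ((e k : ℝ) : ℂ) * Polynomial.X) q with hf
    obtain ⟨g, hg1, hg2, hg3⟩ := line σ q m hq.totalDegree_le (cp x v) (fun k => ((e k : ℝ) : ℂ))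
    have hgf : g = f := by
      apply Polynomial.funext
      intro t
      rw [hg3, hf, eval_line]
    rw [hgf] at hg1 hg2
    have hcomp : homogeneousComponent m q = q := by
      rw [homogeneousComponent_of_mem (MvPolynomial.mem_homogeneousSubmodule m q |>.2 hq)]
      simp
    rw [hcomp] at hg2
    have key := log_deriv hm hg1 (by rw [hg2]; exact hlead) (by
      intro t ht
      rw [hf, eval_line]
      have h1 := hst (fun k => x k + t.re * e k) _ (cone_add hΩ hv he ht)
      have h2 : cp (fun k => x k + t.re * e k) (fun k => v k + t.im * e k) =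
          fun k => cp x v k + t * e k := by
        funext k
        unfold cp
        have h3 : t = (t.re : ℂ) + (t.im : ℂ) * Complex.I := (Complex.re_add_im t).symm
        have h4 : t * (e k : ℂ) = ((t.re : ℂ) + (t.im : ℂ) * Complex.I) * (e k : ℂ) := by
          rw [← h3]
        rw [h4]
        push_cast
        ring
      rw [h2] at h1
      exact h1)
    rw [hf, deriv_line, eval_line] at key
    intro h
    apply key
    have h5 : (fun k => cp x v k + 0 * ((e k : ℝ) : ℂ)) = cp x v := by
      funext k
      ring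
    rw [h5]
    exact h
  · unfold de
    apply IsHomogeneous.sum
    intro k _
    exact (hq.pderiv).C_mul (e k)
  · unfold de
    have h := hq.sum_X_mul_pderiv
    have h1 := congrArg (eval e) h
    rw [map_sum] at h1 ⊢
    simp only [map_mul, eval_X, eval_C] at h1 ⊢
    rw [h1, nsmul_eq_mul, map_mul, map_natCast]

end Pool.Agent.H783.HL
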