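import Pool.Agent.H783.HL.Stm2

set_option autoImplicit false

namespace Pool.Agent.H783.HL

open MvPolynomial

namespace ExtractN2

/-- evaluation of homogeneous polynomials at complex multiples of real points -/
theorem hom_aeval2 {σ : Type} [Fintype σ] (q : MvPolynomial σ ℝ) (d : ℕ) (hq : q.IsHomogeneous d)
    (c : ℂ) (x : σ → ℝ) : aeval (fun k => c * (x k : ℂ)) q = c ^ d * ((eval x q : ℝ) : ℂ) := by
  rw [aeval_def, eval₂_eq', eval_eq', Complex.ofReal_sum, Finset.mul_sum]
  refine Finset.sum_congr rfl fun e he => ?_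
  have h1 : ∑ i, e i = d := by
    have h2 := hq (mem_support_iff.mp he)
    rw [← h2, Finsupp.weight_apply, Finsupp.sum_fintype _ _ (by simp)]
    simp
  have h3 : ∏ i, (c * (x i : ℂ)) ^ e i = c ^ d * ∏ i, (x i : ℂ) ^ e i := by
    rw [← h1, ← Finset.prod_pow_eq_pow_sum, ← Finset.prod_mul_distrib]
    refine Finset.prod_congr rfl fun i _ => ?_
    rw [mul_pow]
  rw [h3]
  push_cast
  have h4 : (algebraMap ℝ ℂ) (coeff e q) = ((coeff e q : ℝ) : ℂ) := rfl
  rw [h4]
  ring

theorem hom_de2 {σ : Type} [Fintype σ] (e : σ → ℝ) {q : MvPolynomial σ ℝ} {d : ℕ}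
    (hq : q.IsHomogeneous d) : (de e q).IsHomogeneous (d - 1) := by
  unfold de
  refine IsHomogeneous.sum _ _ _ fun k _ => ?_
  exact (hq.pderiv (i := k)).C_mul (e k)

theorem de_zero2 {σ : Type} [Fintype σ] (e : σ → ℝ) {q : MvPolynomial σ ℝ}
    (hq : q.IsHomogeneous 0) : de e q = 0 := by
  unfold de
  have h3 : q = C (coeff 0 q) := totalDegree_eq_zero_iff_eq_C.mp (Nat.le_zero.mp hq.totalDegree_le)
  refine Finset.sum_eq_zero fun k _ => ?_
  rw [h3, pderiv_C, mul_zero]

theorem hom_dde2 {σ : Type} [Fintype σ] (e : σ → ℝ) {q : MvPolynomial σ ℝ} {d : ℕ}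
    (hq : q.IsHomogeneous d) : (dde e q).IsHomogeneous (d - 2) := by
  unfold dde
  have h1 := hom_de2 e (hom_de2 e hq)
  have h2 : d - 1 - 1 = d - 2 := by omega
  rw [h2] at h1
  exact h1

theorem dde_zero2 {σ : Type} [Fintype σ] (e : σ → ℝ) {q : MvPolynomial σ ℝ} {d : ℕ}
    (hq : q.IsHomogeneous d) (hd : d ≤ 1) : dde e q = 0 := by
  unfold dde
  apply de_zero2
  have h1 := hom_de2 e hq
  have h2 : d - 1 = 0 := by omega
  rw [h2] at h1
  exact h1

theorem hom_dd2 {σ : Type} (k : σ) {q : MvPolynomial σ ℝ} {d : ℕ} (hq : q.IsHomogeneous d) :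
    (dd k q).IsHomogeneous (d - 2) := by
  unfold dd
  have h1 := (hq.pderiv (i := k)).pderiv (i := k)
  have h2 : d - 1 - 1 = d - 2 := by omega
  rw [h2] at h1
  exact h1

theorem dd_zero2 {σ : Type} (k : σ) {q : MvPolynomial σ ℝ} {d : ℕ} (hq : q.IsHomogeneous d)
    (hd : d ≤ 1) : dd k q = 0 := by
  unfold dd
  have h1 : (pderiv k q).IsHomogeneous 0 := by
    have := hq.pderiv (i := k)
    have h2 : d - 1 = 0 := by omega
    rw [h2] at this
    exact this
  have h3 : pderiv k q = C (coeff 0 (pderiv k q)) := by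
    exact totalDegree_eq_zero_iff_eq_C.mp (Nat.le_zero.mp h1.totalDegree_le)
  rw [h3, pderiv_C]

theorem hom_lap2 {σ : Type} [Fintype σ] (w : σ → ℝ) {q : MvPolynomial σ ℝ} {d : ℕ}
    (hq : q.IsHomogeneous d) : (lap w q).IsHomogeneous (d - 2) := by
  unfold lap
  exact IsHomogeneous.sum _ _ _ fun k _ => (hom_dd2 k hq).C_mul (w k)

theorem lap_zero2 {σ : Type} [Fintype σ] (w : σ → ℝ) {q : MvPolynomial σ ℝ} {d : ℕ}
    (hq : q.IsHomogeneous d) (hd : d ≤ 1) : lap w q = 0 := by
  unfold lap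
  refine Finset.sum_eq_zero fun k _ => ?_
  rw [dd_zero2 k hq hd, mul_zero]

theorem hom_ddek2 {σ : Type} [Fintype σ] (e : σ → ℝ) {q : MvPolynomial σ ℝ} {d : ℕ}
    (hq : q.IsHomogeneous d) (k : ℕ) : ((dde e)^[k] q).IsHomogeneous (d - 2 * k) ∧
      (d < 2 * k → (dde e)^[k] q = 0) := by
  induction k with
  | zero => exact ⟨by simpa using hq, fun h => absurd h (by omega)⟩
  | succ k ih =>
    rw [Function.iterate_succ_apply']
    refine ⟨?_, ?_⟩
    · have := hom_dde2 e ih.1
      have h2 : d - 2 * k - 2 = d - 2 * (k + 1) := by omega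
      rw [h2] at this
      exact this
    · intro h
      exact dde_zero2 e ih.1 (by omega)

theorem hom_gg2 {σ : Type} [Fintype σ] (e w : σ → ℝ) {p : MvPolynomial σ ℝ} {d : ℕ}
    (hp : p.IsHomogeneous d) (i k : ℕ) : (g2 e w p i k).IsHomogeneous (d - 2 * (i + k)) ∧
      (d < 2 * (i + k) → g2 e w p i k = 0) := by
  unfold g2
  induction i with
  | zero =>
    have := hom_ddek2 e hp k
    simpa using this
  | succ i ih =>
    rw [Function.iterate_succ_apply']
    refine ⟨?_, ?_⟩
    · have := hom_lap2 w ih.1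
      have h2 : d - 2 * (i + k) - 2 = d - 2 * (i + 1 + k) := by omega
      rw [h2] at this
      exact this
    · intro h
      exact lap_zero2 w ih.1 (by omega)

/-- the real function `g` -/
noncomputable def gf2 (m : ℕ) (a : ℝ) (G : ℕ → ℕ → ℝ) (s : ℝ) : ℝ :=
  ∑ i ∈ Finset.range (2 * m + 1), ∑ k ∈ Finset.range (2 * m + 1),
    if i + k ≤ m then a ^ k / (i.factorial * k.factorial) * s ^ (2 * (m - (i + k))) * G i k else 0

/-- the function `t^(2m) g (1/t)` -/
noncomputable def gh2 (m : ℕ) (a : ℝ) (G : ℕ → ℕ → ℝ) (t : ℝ) : ℝ :=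
  ∑ i ∈ Finset.range (2 * m + 1), ∑ k ∈ Finset.range (2 * m + 1),
    if i + k ≤ m then a ^ k / (i.factorial * k.factorial) * t ^ (2 * (i + k)) * G i k else 0

theorem gf_cont2 (m : ℕ) (a : ℝ) (G : ℕ → ℕ → ℝ) : Continuous (gf2 m a G) := by
  unfold gf2
  refine continuous_finsetSum _ fun i _ => continuous_finsetSum _ fun k _ => ?_
  split_ifs
  · fun_prop
  · fun_prop

theorem gh_cont2 (m : ℕ) (a : ℝ) (G : ℕ → ℕ → ℝ) : Continuous (gh2 m a G) := by
  unfold gh2
  refine continuous_finsetSum _ fun i _ => continuous_finsetSum _ fun k _ => ?_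
  split_ifs
  · fun_prop
  · fun_prop

theorem gh_eq2 (m : ℕ) (a : ℝ) (G : ℕ → ℕ → ℝ) {t : ℝ} (ht : 0 < t) :
    gh2 m a G t = t ^ (2 * m) * gf2 m a G t⁻¹ := by
  unfold gh2 gf2
  rw [Finset.mul_sum]
  refine Finset.sum_congr rfl fun i _ => ?_
  rw [Finset.mul_sum]
  refine Finset.sum_congr rfl fun k _ => ?_
  split_ifs with h
  · have h1 : t ^ (2 * m) = t ^ (2 * (i + k)) * t ^ (2 * (m - (i + k))) := by
      rw [← pow_add]
      congr 1
      omega
    rw [h1, inv_pow]
    field_simp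
  · simp

theorem gh_zero2 (m : ℕ) (a : ℝ) (G : ℕ → ℕ → ℝ) : gh2 m a G 0 = G 0 0 := by
  unfold gh2
  rw [Finset.sum_eq_single 0, Finset.sum_eq_single 0]
  · simp
  · intro k _ hk
    split_ifs with h
    · rw [zero_pow (by omega)]
      ring
    · rfl
  · intro h
    exact absurd (Finset.mem_range.mpr (by omega)) h
  · intro i _ hi
    refine Finset.sum_eq_zero fun k _ => ?_
    split_ifs with h
    · rw [zero_pow (by omega)]
      ring
    · rfl
  · intro h
    exact absurd (Finset.mem_range.mpr (by omega)) h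

theorem gf_zero2 (m : ℕ) (a : ℝ) (G : ℕ → ℕ → ℝ) : gf2 m a G 0 =
    ∑ k ∈ Finset.range (m + 1), a ^ k / ((m - k).factorial * k.factorial) * G (m - k) k := by
  unfold gf2
  rw [Finset.sum_comm]
  have h1 : ∀ k ∈ Finset.range (2 * m + 1), (∑ i ∈ Finset.range (2 * m + 1),
      if i + k ≤ m then a ^ k / (i.factorial * k.factorial) * (0 : ℝ) ^ (2 * (m - (i + k))) * G i k
        else 0) =
      if k < m + 1 then a ^ k / ((m - k).factorial * k.factorial) * G (m - k) k else 0 := by
    intro k _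
    split_ifs with hk
    · rw [Finset.sum_eq_single (m - k)]
      · rw [if_pos (by omega)]
        have h2 : 2 * (m - (m - k + k)) = 0 := by omega
        rw [h2, pow_zero, mul_one]
      · intro i _ hi
        split_ifs with h
        · rw [zero_pow (by omega)]
          ring
        · rfl
      · intro h
        exact absurd (Finset.mem_range.mpr (by omega)) h
    · refine Finset.sum_eq_zero fun i _ => ?_
      rw [if_neg (by omega)]
  rw [Finset.sum_congr rfl h1, ← Finset.sum_filter]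
  refine Finset.sum_congr ?_ fun _ _ => rfl
  ext k
  simp only [Finset.mem_filter, Finset.mem_range]
  omega

end ExtractN2

open ExtractN2 in
theorem extract2 : S2_Extract := by
  intro σ _ e w p m a _ha hp hpos hstab
  set G : ℕ → ℕ → ℝ := fun i k => eval e (g2 e w p i k) with hG
  -- the value of the flow at `i s e`
  have hval : ∀ s : ℝ, aeval (cp 0 fun k => s * (e k : ℝ)) (flow2 e w (2 * m) a 1 1 p) =
      (-1 : ℂ) ^ m * ((gf2 m a G s : ℝ) : ℂ) := by
    intro s
    have hcp : (cp 0 fun k => s * (e k : ℝ) : σ → ℂ) =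
        fun k => (s * Complex.I) * ((e k : ℝ) : ℂ) := by
      funext k
      simp only [cp, Pi.zero_apply]
      push_cast
      ring
    rw [hcp]
    unfold flow2 gf2
    rw [map_sum, Complex.ofReal_sum, Finset.mul_sum]
    refine Finset.sum_congr rfl fun i _ => ?_
    rw [map_sum, Complex.ofReal_sum, Finset.mul_sum]
    refine Finset.sum_congr rfl fun k _ => ?_
    obtain ⟨h1, h2⟩ := hom_gg2 e w hp i k
    rw [map_mul, aeval_C]
    split_ifs with h
    · rw [hom_aeval2 _ _ h1]
      have h3 : 2 * m - 2 * (i + k) = 2 * (m - (i + k)) := by omega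
      rw [h3, mul_pow, pow_mul Complex.I, Complex.I_sq]
      have h4 : (-1 : ℂ) ^ m = (-1) ^ (i + k) * (-1) ^ (m - (i + k)) := by
        rw [← pow_add]
        congr 1
        omega
      rw [h4]
      have h5 : ∀ r : ℝ, (algebraMap ℝ ℂ) r = (r : ℂ) := fun r => rfl
      rw [h5]
      push_cast
      ring
    · rw [h2 (by omega)]
      simp
  have hne : ∀ s : ℝ, 0 < s → gf2 m a G s ≠ 0 := by
    intro s hs h0
    apply hstab 0 s hs
    rw [hval, h0]
    simp
  have hG0 : 0 < G 0 0 := hpos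
  -- positivity for large arguments
  obtain ⟨s1, hs1, hg1⟩ : ∃ s1 : ℝ, 0 < s1 ∧ 0 < gf2 m a G s1 := by
    have h1 : ∀ᶠ t in nhds (0 : ℝ), 0 < gh2 m a G t := by
      apply (gh_cont2 m a G).continuousAt.eventually
      rw [gh_zero2]
      exact lt_mem_nhds hG0
    obtain ⟨ε, hε, h2⟩ := Metric.eventually_nhds_iff.mp h1
    have h3 : 0 < gh2 m a G (ε / 2) := by
      apply h2
      rw [Real.dist_eq, sub_zero, abs_of_pos (by positivity)]
      linarith
    rw [gh_eq2 m a G (by positivity : (0 : ℝ) < ε / 2)] at h3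
    refine ⟨(ε / 2)⁻¹, by positivity, ?_⟩
    exact (mul_pos_iff_of_pos_left (by positivity)).mp h3
  have hfin : 0 ≤ gf2 m a G 0 := by
    by_contra hcon
    push Not at hcon
    have h1 := intermediate_value_Icc hs1.le (gf_cont2 m a G).continuousOn
    obtain ⟨s, hs, hs0⟩ := h1 ⟨hcon.le, hg1.le⟩
    have hs' : s ≠ 0 := by
      rintro rfl
      rw [hs0] at hcon
      exact lt_irrefl _ hcon
    exact hne s (lt_of_le_of_ne hs.1 (Ne.symm hs')) hs0
  rw [gf_zero2] at hfin
  exact hfin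

end Pool.Agent.H783.HL
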