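import Pool.Agent.H783.HL.Stm

/-!
# Gårding's lemma (helper230)
-/

set_option autoImplicit false

namespace Pool.Agent.H783.HL

open MvPolynomial

namespace GardingL

variable {σ : Type}

/-- Restriction to a line, as a polynomial. -/
noncomputable def fl (P : MvPolynomial σ ℝ) (w u : σ → ℂ) : Polynomial ℂ :=
  aeval (fun k => Polynomial.C (w k) + Polynomial.X * Polynomial.C (u k)) P

theorem fl_eval (P : MvPolynomial σ ℝ) (w u : σ → ℂ) (t : ℂ) :
    (fl P w u).eval t = aeval (fun k => w k + t * u k) P := by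
  unfold fl
  induction P using MvPolynomial.induction_on with
  | C a =>
    rw [MvPolynomial.algHom_C, MvPolynomial.algHom_C, Polynomial.algebraMap_apply,
      Polynomial.eval_C]
  | add p q hp hq => rw [map_add, map_add, Polynomial.eval_add, hp, hq]
  | mul_X p k hp =>
    rw [map_mul, map_mul, Polynomial.eval_mul, hp, aeval_X, aeval_X, Polynomial.eval_add,
      Polynomial.eval_mul, Polynomial.eval_C, Polynomial.eval_C, Polynomial.eval_X]

theorem fl_cont (P : MvPolynomial σ ℝ) (w : σ → ℂ) (u : ℝ → σ → ℂ)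
    (hu : ∀ k, Continuous fun θ => u θ k) (j : ℕ) :
    Continuous fun θ => (fl P w (u θ)).coeff j := by
  unfold fl
  induction P using MvPolynomial.induction_on generalizing j with
  | C a =>
    simp only [MvPolynomial.algHom_C]
    exact continuous_const
  | add p q hp hq =>
    simp only [map_add, Polynomial.coeff_add]
    exact (hp j).add (hq j)
  | mul_X p k hp =>
    simp only [map_mul, aeval_X, mul_add, Polynomial.coeff_add, Polynomial.coeff_mul_C,
      ← mul_assoc]
    refine ((hp j).mul continuous_const).add (Continuous.mul ?_ (hu k))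
    cases j with
    | zero =>
      simp only [Polynomial.mul_coeff_zero, Polynomial.coeff_X_zero, mul_zero]
      exact continuous_const
    | succ j =>
      simp only [Polynomial.coeff_mul_X]
      exact hp j

theorem aeval_cont {X : Type} [TopologicalSpace X] (P : MvPolynomial σ ℝ) (g : X → σ → ℂ)
    (hg : ∀ k, Continuous fun x => g x k) : Continuous fun x => aeval (g x) P := by
  induction P using MvPolynomial.induction_on with
  | C a =>
    simp only [MvPolynomial.algHom_C]
    exact continuous_const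
  | add p q hp hq =>
    simp only [map_add]
    exact hp.add hq
  | mul_X p k hp =>
    simp only [map_mul, aeval_X]
    exact hp.mul (hg k)

theorem aeval_real (q : MvPolynomial σ ℝ) (r : σ → ℝ) :
    aeval (fun k => ((r k : ℝ) : ℂ)) q = ((eval r q : ℝ) : ℂ) := by
  induction q using MvPolynomial.induction_on with
  | C a =>
    rw [MvPolynomial.algHom_C, eval_C]
    rfl
  | add p q hp hq => rw [map_add, map_add, hp, hq, Complex.ofReal_add]
  | mul_X p k hp => rw [map_mul, map_mul, hp, aeval_X, eval_X, Complex.ofReal_mul]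

/-- Bound for the roots. -/
theorem root_bound (f : Polynomial ℂ) (n : ℕ) (hn : f.natDegree ≤ n) (c A : ℝ) (hc : 0 < c)
    (h1 : c ≤ ‖f.coeff n‖) (h2 : ∑ j ∈ Finset.range n, ‖f.coeff j‖ ≤ A) (t : ℂ)
    (ht : f.eval t = 0) : ‖t‖ ≤ max 1 (A / c) := by
  by_contra hlt
  push Not at hlt
  have ht1 : 1 < ‖t‖ := (le_max_left _ _).trans_lt hlt
  have ht2 : A / c < ‖t‖ := (le_max_right _ _).trans_lt hlt
  rw [Polynomial.eval_eq_sum_range' (Nat.lt_succ_of_le hn), Finset.sum_range_succ] at ht
  have h3 : f.coeff n * t ^ n = -∑ j ∈ Finset.range n, f.coeff j * t ^ j := by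
    linear_combination ht
  have h4 : ‖f.coeff n‖ * ‖t‖ ^ n ≤ ∑ j ∈ Finset.range n, ‖f.coeff j‖ * ‖t‖ ^ j := by
    rw [← norm_pow, ← norm_mul, h3, norm_neg]
    refine (norm_sum_le _ _).trans (Finset.sum_le_sum fun j _ => ?_)
    rw [norm_mul, norm_pow]
  rcases Nat.eq_zero_or_pos n with hn0 | hn0
  · subst hn0
    simp only [pow_zero, mul_one, Finset.range_zero, Finset.sum_empty] at h4
    linarith
  · have h5 : ∑ j ∈ Finset.range n, ‖f.coeff j‖ * ‖t‖ ^ j ≤ A * ‖t‖ ^ (n - 1) := by
      refine le_trans ?_ (mul_le_mul_of_nonneg_right h2 (by positivity))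
      rw [Finset.sum_mul]
      refine Finset.sum_le_sum fun j hj => ?_
      apply mul_le_mul_of_nonneg_left _ (norm_nonneg _)
      exact pow_le_pow_right₀ ht1.le (by have := Finset.mem_range.1 hj; omega)
    have h6 : ‖t‖ ^ n = ‖t‖ * ‖t‖ ^ (n - 1) := by
      rw [← pow_succ', Nat.sub_add_cancel hn0]
    have h7 : 0 < ‖t‖ ^ (n - 1) := by positivity
    have h8 : c * ‖t‖ ^ n ≤ ‖f.coeff n‖ * ‖t‖ ^ n :=
      mul_le_mul_of_nonneg_right h1 (by positivity)
    have h9 : (c * ‖t‖) * ‖t‖ ^ (n - 1) ≤ A * ‖t‖ ^ (n - 1) := by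
      calc (c * ‖t‖) * ‖t‖ ^ (n - 1) = c * ‖t‖ ^ n := by rw [h6]; ring
        _ ≤ A * ‖t‖ ^ (n - 1) := h8.trans (h4.trans h5)
    have h10 : c * ‖t‖ ≤ A := le_of_mul_le_mul_right h9 h7
    rw [div_lt_iff₀ hc] at ht2
    linarith

/-- The homotopy. -/
theorem homotopy (hU : S_UniLower) (f : ℝ → Polynomial ℂ) (n : ℕ) (c : ℝ) (hc : 0 < c)
    (hdeg : ∀ θ ∈ Set.Icc (0 : ℝ) 1, (f θ).natDegree ≤ n)
    (hcn : ∀ θ ∈ Set.Icc (0 : ℝ) 1, c ≤ ‖(f θ).coeff n‖)
    (hco : ∀ j, Continuous fun θ => (f θ).coeff j)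
    (hev : Continuous fun p : ℝ × ℂ => (f p.1).eval p.2)
    (hreal : ∀ θ ∈ Set.Icc (0 : ℝ) 1, ∀ t : ℝ, (f θ).eval (t : ℂ) ≠ 0)
    (h0 : ∀ t : ℂ, 0 < t.im → (f 0).eval t ≠ 0) (t : ℂ) (ht : 0 < t.im) :
    c * t.im ^ n ≤ ‖(f 1).eval t‖ := by
  -- uniform bound for the coefficients
  obtain ⟨A, hA⟩ : ∃ A : ℝ, ∀ θ ∈ Set.Icc (0 : ℝ) 1,
      ∑ j ∈ Finset.range n, ‖(f θ).coeff j‖ ≤ A := by
    have hcont : Continuous fun θ => ∑ j ∈ Finset.range n, ‖(f θ).coeff j‖ :=
      continuous_finsetSum _ fun j _ => (hco j).norm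
    obtain ⟨θ₀, _, h⟩ := isCompact_Icc.exists_isMaxOn (Set.nonempty_Icc.2 zero_le_one)
      hcont.continuousOn
    exact ⟨_, fun θ hθ => h hθ⟩
  obtain ⟨R, hR⟩ : ∃ R : ℝ, R = max 1 (A / c) := ⟨_, rfl⟩
  -- the bad set
  let Z : Set (ℝ × ℂ) := (Set.Icc (0 : ℝ) 1 ×ˢ Metric.closedBall (0 : ℂ) R) ∩
    ({p : ℝ × ℂ | 0 ≤ p.2.im} ∩ {p : ℝ × ℂ | (f p.1).eval p.2 = 0})
  have hZ : IsCompact Z := by
    refine (isCompact_Icc.prod (isCompact_closedBall _ _)).inter_right ?_
    refine (isClosed_le continuous_const (Complex.continuous_im.comp continuous_snd)).inter ?_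
    exact isClosed_eq hev continuous_const
  have hB : IsClosed (Prod.fst '' Z) := (hZ.image continuous_fst).isClosed
  -- the good set
  let G : Set ℝ := {θ | ∀ t : ℂ, 0 < t.im → c * t.im ^ n ≤ ‖(f θ).eval t‖}
  have hG : IsClosed G := by
    have : G = ⋂ (t : ℂ) (_ : 0 < t.im), {θ : ℝ | c * t.im ^ n ≤ ‖(f θ).eval t‖} := by
      ext θ
      simp only [G, Set.mem_ofPred_eq, Set.mem_iInter]
    rw [this]
    refine isClosed_iInter fun t => isClosed_iInter fun _ => ?_
    refine isClosed_le continuous_const ?_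
    exact (hev.comp (continuous_id.prodMk continuous_const)).norm
  have good : ∀ θ ∈ Set.Icc (0 : ℝ) 1, (∀ t : ℂ, 0 < t.im → (f θ).eval t ≠ 0) → θ ∈ G := by
    intro θ hθ h t ht
    have hne : (f θ).coeff n ≠ 0 := by
      intro h'
      have := hcn θ hθ
      rw [h', norm_zero] at this
      linarith
    have hd : (f θ).natDegree = n := le_antisymm (hdeg θ hθ) (Polynomial.le_natDegree_of_ne_zero hne)
    have h2 := hU (f θ) h t ht
    rw [Polynomial.leadingCoeff, hd] at h2
    exact (mul_le_mul_of_nonneg_right (hcn θ hθ) (by positivity)).trans h2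
  have bad : ∀ θ ∈ Set.Icc (0 : ℝ) 1, (¬ ∀ t : ℂ, 0 < t.im → (f θ).eval t ≠ 0) →
      θ ∈ Prod.fst '' Z := by
    intro θ hθ h
    push Not at h
    obtain ⟨t, ht, h⟩ := h
    refine ⟨(θ, t), ⟨⟨hθ, ?_⟩, ht.le, h⟩, rfl⟩
    rw [mem_closedBall_zero_iff, hR]
    exact root_bound (f θ) n (hdeg θ hθ) c A hc (hcn θ hθ) (hA θ hθ) t h
  have disj : ∀ θ, θ ∈ G → θ ∈ Prod.fst '' Z → False := by
    rintro θ hg ⟨⟨θ', t⟩, ⟨⟨hθ, _⟩, ht, h⟩, rfl⟩
    have ht' : 0 ≤ t.im := ht
    have h' : (f θ').eval t = 0 := h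
    have hθ' : θ' ∈ Set.Icc (0 : ℝ) 1 := hθ
    rcases ht'.eq_or_lt with h0 | h0
    · refine hreal θ' hθ' t.re ?_
      have : ((t.re : ℝ) : ℂ) = t := by
        apply Complex.ext
        · simp
        · simp [← h0]
      rw [this]
      exact h'
    · have h2 := hg t h0
      rw [show (f (θ', t).1).eval t = 0 from h', norm_zero] at h2
      have : 0 < c * t.im ^ n := by positivity
      linarith
  have hcover : Set.Icc (0 : ℝ) 1 ⊆ G ∪ Prod.fst '' Z := by
    intro θ hθ
    by_cases h : ∀ t : ℂ, 0 < t.im → (f θ).eval t ≠ 0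
    · exact Or.inl (good θ hθ h)
    · exact Or.inr (bad θ hθ h)
  have hpre := isPreconnected_closed_iff.1 (isPreconnected_Icc (a := (0 : ℝ)) (b := 1)) G
    (Prod.fst '' Z) hG hB hcover
    ⟨0, Set.left_mem_Icc.2 zero_le_one, good 0 (Set.left_mem_Icc.2 zero_le_one) h0⟩
  have h1 : (1 : ℝ) ∈ G := by
    rcases hcover (Set.right_mem_Icc.2 zero_le_one) with h | h
    · exact h
    · exfalso
      obtain ⟨θ, _, hg, hb⟩ := hpre ⟨1, Set.right_mem_Icc.2 zero_le_one, h⟩
      exact disj θ hg hb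
  exact h1 t ht

end GardingL

open GardingL in
theorem garding (hU : S_UniLower) (hL : S_Line) : S_Garding := by
  intro σ _ P n e v hP hS hq x
  -- the minimum of the top component
  have hqc : Continuous fun θ : ℝ =>
      eval (fun k => (1 - θ) * e k + θ * v k) (homogeneousComponent n P) := by
    have h1 : Continuous fun θ : ℝ => (fun k => (1 - θ) * e k + θ * v k : σ → ℝ) := by
      fun_prop
    exact (MvPolynomial.continuous_eval (homogeneousComponent n P)).comp h1
  obtain ⟨θ₀, hθ₀, hmin⟩ := isCompact_Icc.exists_isMinOn (Set.nonempty_Icc.2 (zero_le_one (α := ℝ)))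
    hqc.abs.continuousOn
  obtain ⟨c, hcdef⟩ : ∃ c : ℝ, c =
      |eval (fun k => (1 - θ₀) * e k + θ₀ * v k) (homogeneousComponent n P)| := ⟨_, rfl⟩
  have hc : 0 < c := by
    rw [hcdef]
    exact abs_pos.2 (hq θ₀ hθ₀.1 hθ₀.2)
  -- the estimate for `s > 0`
  have key : ∀ s : ℝ, 0 < s →
      c ≤ ‖aeval (fun k => cp x (fun k => s * e k) k + Complex.I * ((v k : ℝ) : ℂ)) P‖ := by
    intro s hs
    let u : ℝ → σ → ℂ := fun θ k => (((1 - θ) * e k + θ * v k : ℝ) : ℂ)
    have hu : ∀ k, Continuous fun θ => u θ k := by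
      intro k
      show Continuous fun θ : ℝ => (((1 - θ) * e k + θ * v k : ℝ) : ℂ)
      fun_prop
    let w : σ → ℂ := cp x fun k => s * e k
    have hline : ∀ θ, (fl P w (u θ)).natDegree ≤ n ∧
        (fl P w (u θ)).coeff n = ((eval (fun k => (1 - θ) * e k + θ * v k)
          (homogeneousComponent n P) : ℝ) : ℂ) := by
      intro θ
      obtain ⟨g, hg1, hg2, hg3⟩ := hL σ P n hP w (u θ)
      have hg : fl P w (u θ) = g := by
        apply Polynomial.funext
        intro t
        rw [fl_eval, hg3]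
      rw [hg]
      refine ⟨hg1, ?_⟩
      rw [hg2]
      exact aeval_real _ _
    have h := homotopy hU (fun θ => fl P w (u θ)) n c hc (fun θ _ => (hline θ).1) ?_
      (fun j => fl_cont P w u hu j) ?_ ?_ ?_ Complex.I (by simp)
    · rw [Complex.I_im, one_pow, mul_one, fl_eval] at h
      have h2 : ∀ k, u 1 k = ((v k : ℝ) : ℂ) := by
        intro k
        show (((1 - 1) * e k + 1 * v k : ℝ) : ℂ) = _
        rw [sub_self, zero_mul, zero_add, one_mul]
      simp only [h2] at h
      exact h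
    · intro θ hθ
      rw [(hline θ).2, Complex.norm_real, Real.norm_eq_abs, hcdef]
      exact hmin hθ
    · simp only [fl_eval]
      refine aeval_cont P _ fun k => ?_
      exact continuous_const.add (continuous_snd.mul ((hu k).comp continuous_fst))
    · intro θ _ t
      rw [fl_eval]
      have h2 : (fun k => w k + (t : ℂ) * u θ k) =
          cp (fun k => x k + t * ((1 - θ) * e k + θ * v k)) (fun k => s * e k) := by
        funext k
        show cp x (fun k => s * e k) k + (t : ℂ) * (((1 - θ) * e k + θ * v k : ℝ) : ℂ) = _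
        unfold cp
        push_cast
        ring
      rw [h2]
      exact hS _ s hs
    · intro t ht
      rw [fl_eval]
      have h2 : (fun k => w k + t * u 0 k) =
          cp (fun k => x k + t.re * e k) (fun k => (s + t.im) * e k) := by
        funext k
        show cp x (fun k => s * e k) k + t * (((1 - 0) * e k + 0 * v k : ℝ) : ℂ) = _
        unfold cp
        have h3 : t = (t.re : ℂ) + (t.im : ℂ) * Complex.I := (Complex.re_add_im t).symm
        rw [h3]
        push_cast
        simp only [Complex.add_re, Complex.ofReal_re, Complex.mul_re, Complex.I_re, mul_zero,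
          Complex.ofReal_im, Complex.I_im, mul_one, sub_self, add_zero, Complex.add_im,
          Complex.mul_im, zero_add]
        ring
      rw [h2]
      exact hS _ _ (by linarith)
  -- the limit `s → 0`
  have hcont : Continuous fun s : ℝ =>
      ‖aeval (fun k => cp x (fun k => s * e k) k + Complex.I * ((v k : ℝ) : ℂ)) P‖ := by
    refine (aeval_cont P _ fun k => ?_).norm
    unfold cp
    fun_prop
  have hlim : c ≤ ‖aeval (fun k => cp x (fun k => (0 : ℝ) * e k) k +
      Complex.I * ((v k : ℝ) : ℂ)) P‖ := by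
    have h1 : Filter.Tendsto (fun s : ℝ =>
        ‖aeval (fun k => cp x (fun k => s * e k) k + Complex.I * ((v k : ℝ) : ℂ)) P‖)
        (nhdsWithin 0 (Set.Ioi 0)) (nhds (‖aeval (fun k => cp x (fun k => (0 : ℝ) * e k) k +
          Complex.I * ((v k : ℝ) : ℂ)) P‖)) :=
      (hcont.tendsto 0).mono_left nhdsWithin_le_nhds
    exact ge_of_tendsto h1 (Filter.eventually_of_mem self_mem_nhdsWithin fun s hs => key s hs)
  intro h0
  have h1 : (fun k => cp x (fun k => (0 : ℝ) * e k) k + Complex.I * ((v k : ℝ) : ℂ)) =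
      cp x v := by
    funext k
    unfold cp
    push_cast
    ring
  rw [h1, h0, norm_zero] at hlim
  linarith

end Pool.Agent.H783.HL
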