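import Pool.Agent.H783.HL.Stm

set_option autoImplicit false

namespace Pool.Agent.H783.HL

open MvPolynomial

private theorem imPart_core {σ : Type} [Fintype σ] (e : σ → ℝ) (p : MvPolynomial σ ℝ) :
    ∃ g h : (σ → ℝ) × ℝ → ℝ, Continuous g ∧ Continuous h ∧
      (∀ x s, aeval (cp x fun k => s * e k) p =
        ((g (x, s) : ℝ) : ℂ) + ((s * h (x, s) : ℝ) : ℂ) * Complex.I) ∧
      (∀ x, g (x, 0) = eval x p) ∧
      (∀ x, h (x, 0) = ∑ k, e k * eval x (pderiv k p)) := by
  classical
  induction p using MvPolynomial.induction_on with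
  | C a =>
    refine ⟨fun _ => a, fun _ => 0, continuous_const, continuous_const, ?_, ?_, ?_⟩
    · intro x s
      rw [aeval_C]
      simp
    · intro x
      simp
    · intro x
      simp
  | add p q hp hq =>
    obtain ⟨g1, h1, cg1, ch1, a1, b1, c1⟩ := hp
    obtain ⟨g2, h2, cg2, ch2, a2, b2, c2⟩ := hq
    refine ⟨fun y => g1 y + g2 y, fun y => h1 y + h2 y, cg1.add cg2, ch1.add ch2, ?_, ?_, ?_⟩
    · intro x s
      rw [map_add, a1, a2]
      push_cast
      ring
    · intro x
      simp only [map_add, b1, b2]
    · intro x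
      simp only [map_add, c1, c2, mul_add, Finset.sum_add_distrib]
  | mul_X p k hp =>
    obtain ⟨g, h, cg, ch, a, b, c⟩ := hp
    have cx : Continuous (fun y : (σ → ℝ) × ℝ => y.1 k) := (continuous_apply k).comp continuous_fst
    refine ⟨fun y => g y * y.1 k - y.2 ^ 2 * h y * e k, fun y => h y * y.1 k + g y * e k,
      (cg.mul cx).sub (((continuous_snd.pow 2).mul ch).mul continuous_const),
      (ch.mul cx).add (cg.mul continuous_const), ?_, ?_, ?_⟩
    · intro x s
      rw [map_mul, a, aeval_X]
      simp only [cp]
      push_cast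
      linear_combination ((s : ℂ) ^ 2 * (h (x, s) : ℂ) * (e k : ℂ)) * Complex.I_sq
    · intro x
      simp only [map_mul, b, eval_X]
      ring
    · intro x
      have h1 : ∀ j, e j * eval x (pderiv j (p * X k)) =
          (e j * eval x (pderiv j p)) * x k + (if j = k then eval x p * e j else 0) := by
        intro j
        rw [pderiv_mul, pderiv_X, map_add, map_mul, map_mul, eval_X]
        by_cases hjk : j = k
        · subst hjk
          simp only [Pi.single_eq_same, map_one, if_true]
          ring
        · rw [Pi.single_eq_of_ne' hjk, if_neg hjk, map_zero]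
          ring
      rw [Finset.sum_congr rfl (fun j _ => h1 j), Finset.sum_add_distrib, ← Finset.sum_mul,
        Finset.sum_ite_eq' Finset.univ k, if_pos (Finset.mem_univ k)]
      simp only [c, b]

theorem imPart : S_ImPart := by
  intro σ _ p e
  obtain ⟨g, h, _, ch, a, _, c⟩ := imPart_core e p
  refine ⟨h, ch, ?_, c⟩
  intro x s
  rw [a]
  simp

end Pool.Agent.H783.HL
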