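import Pool.Agent.H783.HL.Stm

set_option autoImplicit false

namespace Pool.Agent.H783.HL

open MvPolynomial

namespace Local

theorem aeval_tr {σ : Type} (x₀ : σ → ℝ) (P : MvPolynomial σ ℝ) (z : σ → ℂ) :
    aeval z (tr x₀ P) = aeval (fun k => (x₀ k : ℂ) + z k) P := by
  unfold tr
  rw [comp_aeval_apply]
  refine congrArg (fun f => aeval f P) ?_
  funext k
  simp [add_comm]

theorem aeval_smul_hom {σ : Type} [Fintype σ] (q : MvPolynomial σ ℝ) (n : ℕ)
    (hq : q.IsHomogeneous n) (r : ℂ) (z : σ → ℂ) :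
    aeval (fun k => r * z k) q = r ^ n * aeval z q := by
  rw [aeval_def, aeval_def, eval₂_eq', eval₂_eq', Finset.mul_sum]
  refine Finset.sum_congr rfl fun d hd => ?_
  have hdeg : ∑ i, d i = n := by
    by_contra h
    have h1 : d.degree ≠ n := by
      rw [Finsupp.degree_eq_sum]
      exact h
    exact (MvPolynomial.mem_support_iff.1 hd) (hq.coeff_eq_zero h1)
  simp only [mul_pow]
  rw [Finset.prod_mul_distrib, Finset.prod_pow_eq_pow_sum, hdeg]
  ring

theorem aeval_expand {σ : Type} [Fintype σ] (R : MvPolynomial σ ℝ) (m : ℕ)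
    (hlow : ∀ j < m, homogeneousComponent j R = 0) (r : ℂ) (z : σ → ℂ) :
    aeval (fun k => r * z k) R = r ^ m * ∑ j ∈ Finset.range (R.totalDegree + 1),
      r ^ (j - m) * aeval z (homogeneousComponent j R) := by
  have h : aeval (fun k => r * z k) R =
      ∑ j ∈ Finset.range (R.totalDegree + 1), r ^ j * aeval z (homogeneousComponent j R) := by
    have h1 := congrArg (aeval (fun k => r * z k)) (sum_homogeneousComponent R)
    rw [← h1, map_sum]
    refine Finset.sum_congr rfl fun j _ => ?_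
    exact aeval_smul_hom _ j (homogeneousComponent_isHomogeneous j R) r z
  rw [h, Finset.mul_sum]
  refine Finset.sum_congr rfl fun j _ => ?_
  rcases lt_or_ge j m with hj | hj
  · rw [hlow j hj]
    simp
  · rw [← mul_assoc, ← pow_add, Nat.add_sub_cancel' hj]

theorem aeval_expand_zero {σ : Type} [Fintype σ] (R : MvPolynomial σ ℝ) (m : ℕ)
    (hlow : ∀ j < m, homogeneousComponent j R = 0) (z : σ → ℂ) :
    ∑ j ∈ Finset.range (R.totalDegree + 1),
      (0 : ℂ) ^ (j - m) * aeval z (homogeneousComponent j R) =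
        aeval z (homogeneousComponent m R) := by
  rw [Finset.sum_eq_single m]
  · simp
  · intro j _ hj
    rcases lt_or_gt_of_ne hj with h | h
    · rw [hlow j h]
      simp
    · have h1 : j - m ≠ 0 := by omega
      rw [zero_pow h1, zero_mul]
  · intro hm
    rw [homogeneousComponent_eq_zero m R (by
      simp only [Finset.mem_range, not_lt] at hm
      omega)]
    simp

end Local

open Local in
/-- S5. The lowest homogeneous component of a stable polynomial at a real point is stable. -/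
theorem local_stable (hH : S_Harnack) (hL : S_Line) : S_Local := by
  intro σ _ P Ω x₀ m hΩ hcone hst hlow hne x v hv hz
  refine hne (MvPolynomial.funext fun y => ?_)
  -- a disc of parameters
  let w1 : σ → ℂ := fun k => (y k : ℂ)
  let w0 : σ → ℂ := cp x v
  let g : ℂ → σ → ℝ := fun ζ k => (w0 k + ζ * (w1 k - w0 k)).im
  have hg : Continuous g := by
    refine continuous_pi fun k => ?_
    exact Complex.continuous_im.comp (by fun_prop)
  have hg0 : g 0 = v := by
    funext k
    simp [g, w0, cp]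
  have hnhds : g ⁻¹' Ω ∈ nhds (0 : ℂ) :=
    (hΩ.preimage hg).mem_nhds (by rw [Set.mem_preimage, hg0]; exact hv)
  obtain ⟨d, hd, hball⟩ := Metric.mem_nhds_iff.1 hnhds
  -- the Harnack inequality
  have hmain : ∀ ρ : ℝ, 0 < ρ →
      ‖aeval (fun k => (ρ : ℂ) * w1 k) (tr x₀ P)‖ ≤
        (1 + 1 / d) ^ P.totalDegree * ‖aeval (fun k => (ρ : ℂ) * w0 k) (tr x₀ P)‖ := by
    intro ρ hρ
    obtain ⟨f, hfd, -, hf⟩ := hL σ P P.totalDegree le_rfl (fun k => (x₀ k : ℂ) + ρ * w0 k)
      (fun k => ρ * (w1 k - w0 k))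
    have h1 := hH f P.totalDegree d hfd hd (fun t ht => by
      rw [hf]
      have h2 : (fun k => (x₀ k : ℂ) + ρ * w0 k + t * (ρ * (w1 k - w0 k))) =
          cp (fun k => x₀ k + ρ * (w0 k + t * (w1 k - w0 k)).re) (fun k => ρ * g t k) := by
        funext k
        apply Complex.ext
        · simp [cp]
          ring
        · simp [cp, g]
          ring
      rw [h2]
      refine hst _ _ (hcone ρ hρ _ ?_)
      have : t ∈ Metric.ball (0 : ℂ) d := by simpa using ht
      exact hball this)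
    rw [hf, hf] at h1
    have e1 : (fun k => (x₀ k : ℂ) + ρ * w0 k + 1 * (ρ * (w1 k - w0 k))) =
        fun k => (x₀ k : ℂ) + ρ * w1 k := by
      funext k
      ring
    have e0' : (fun k => (x₀ k : ℂ) + ρ * w0 k + 0 * (ρ * (w1 k - w0 k))) =
        fun k => (x₀ k : ℂ) + ρ * w0 k := by
      funext k
      ring
    rw [e1, e0'] at h1
    rw [aeval_tr, aeval_tr]
    exact h1
  -- the limit
  let S : (σ → ℂ) → ℝ → ℂ := fun z ρ => ∑ j ∈ Finset.range ((tr x₀ P).totalDegree + 1),
    (ρ : ℂ) ^ (j - m) * aeval z (homogeneousComponent j (tr x₀ P))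
  have hS : ∀ z, Continuous (S z) := by
    intro z
    refine continuous_finsetSum _ fun j _ => ?_
    exact ((Complex.continuous_ofReal.pow _).mul continuous_const)
  have hle : ∀ ρ : ℝ, 0 < ρ → ‖S w1 ρ‖ ≤ (1 + 1 / d) ^ P.totalDegree * ‖S w0 ρ‖ := by
    intro ρ hρ
    have h1 := hmain ρ hρ
    rw [aeval_expand _ m hlow, aeval_expand _ m hlow, norm_mul, norm_mul] at h1
    have h2 : 0 < ‖(ρ : ℂ) ^ m‖ := by
      rw [norm_pos_iff]
      exact pow_ne_zero _ (by exact_mod_cast hρ.ne')
    have h3 : ‖(ρ : ℂ) ^ m‖ * ‖S w1 ρ‖ ≤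
        ‖(ρ : ℂ) ^ m‖ * ((1 + 1 / d) ^ P.totalDegree * ‖S w0 ρ‖) := by
      refine h1.trans (le_of_eq ?_)
      ring
    exact le_of_mul_le_mul_left h3 h2
  have hle0 : ‖S w1 0‖ ≤ (1 + 1 / d) ^ P.totalDegree * ‖S w0 0‖ := by
    have hcl : IsClosed {ρ : ℝ | ‖S w1 ρ‖ ≤ (1 + 1 / d) ^ P.totalDegree * ‖S w0 ρ‖} :=
      isClosed_le (hS w1).norm (continuous_const.mul (hS w0).norm)
    have hsub : closure (Set.Ioi (0 : ℝ)) ⊆
        {ρ : ℝ | ‖S w1 ρ‖ ≤ (1 + 1 / d) ^ P.totalDegree * ‖S w0 ρ‖} :=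
      closure_minimal (fun ρ hρ => hle ρ hρ) hcl
    have h0 : (0 : ℝ) ∈ closure (Set.Ioi (0 : ℝ)) := by
      rw [closure_Ioi]
      exact Set.self_mem_Ici
    exact hsub h0
  have hS0 : ∀ z, S z 0 = aeval z (homogeneousComponent m (tr x₀ P)) := by
    intro z
    simp only [S, Complex.ofReal_zero]
    exact aeval_expand_zero _ m hlow z
  rw [hS0, hS0] at hle0
  have hz' : aeval w0 (homogeneousComponent m (tr x₀ P)) = 0 := hz
  rw [hz', norm_zero, mul_zero] at hle0
  have h5 : aeval w1 (homogeneousComponent m (tr x₀ P)) = 0 :=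
    norm_le_zero_iff.1 hle0
  have h6 : aeval w1 (homogeneousComponent m (tr x₀ P)) =
      ((eval y (homogeneousComponent m (tr x₀ P)) : ℝ) : ℂ) := by
    have := MvPolynomial.aeval_algebraMap_apply (B := ℂ) y (homogeneousComponent m (tr x₀ P))
    simpa [w1, MvPolynomial.aeval_eq_eval, Function.comp_def] using this
  rw [h6] at h5
  rw [map_zero]
  exact_mod_cast h5

end Pool.Agent.H783.HL

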