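import Pool.Agent.H783.HL.Stm

/-!
# The lowest component of a solution of the Hermite equation
-/

set_option autoImplicit false

namespace Pool.Agent.H783.HL

namespace LowestAux

open MvPolynomial

variable {σ : Type}

theorem pderiv_tr (x : σ → ℝ) (k : σ) (P : MvPolynomial σ ℝ) :
    pderiv k (tr x P) = tr x (pderiv k P) := by
  classical
  unfold tr
  induction P using MvPolynomial.induction_on with
  | C a => simp
  | add p q hp hq => simp only [map_add, hp, hq]
  | mul_X p n hp =>
    simp only [map_mul, Derivation.leibniz, smul_eq_mul, aeval_X, map_add, hp, pderiv_C, add_zero]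
    congr 2
    rw [pderiv_X]
    by_cases h : n = k
    · rw [h]
      simp
    · rw [Pi.single_eq_of_ne h]
      simp

theorem dd_tr (x : σ → ℝ) (k : σ) (P : MvPolynomial σ ℝ) : dd k (tr x P) = tr x (dd k P) := by
  unfold dd
  rw [pderiv_tr, pderiv_tr]

theorem hc_pderiv (j : ℕ) (k : σ) (P : MvPolynomial σ ℝ) :
    homogeneousComponent j (pderiv k P) = pderiv k (homogeneousComponent (j + 1) P) := by
  ext d
  rw [coeff_homogeneousComponent, coeff_pderiv, coeff_pderiv, coeff_homogeneousComponent,
    map_add, Finsupp.degree_single]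
  by_cases h : d.degree = j
  · rw [if_pos h, if_pos (by rw [h])]
  · rw [if_neg h, if_neg (by omega), zero_mul]

theorem hc_dd (j : ℕ) (k : σ) (P : MvPolynomial σ ℝ) :
    homogeneousComponent j (dd k P) = dd k (homogeneousComponent (j + 2) P) := by
  unfold dd
  rw [hc_pderiv, hc_pderiv]

theorem hc_box {K : Type} [Fintype K] (j : ℕ) (P : MvPolynomial (Option K) ℝ) :
    homogeneousComponent j (box P) = box (homogeneousComponent (j + 2) P) := by
  unfold box
  rw [map_sub, map_sum, hc_dd]
  congr 1
  exact Finset.sum_congr rfl fun b _ => hc_dd j (some b) P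

theorem box_tr {K : Type} [Fintype K] (x : Option K → ℝ) (P : MvPolynomial (Option K) ℝ) :
    box (tr x P) = tr x (box P) := by
  unfold box
  rw [dd_tr, Finset.sum_congr rfl fun b _ => dd_tr x (some b) P]
  unfold tr
  rw [map_sub, map_sum]

end LowestAux

open MvPolynomial LowestAux

theorem lowest : S_Lowest := by
  classical
  intro K _ P c a b x m hm heq hlow
  obtain ⟨R, hR⟩ : ∃ R, R = tr x P := ⟨_, rfl⟩
  rw [← hR] at hlow ⊢
  have hco : ∀ d : Option K →₀ ℕ, d.degree < m → coeff d R = 0 := by
    intro d hd
    have h1 := congrArg (coeff d) (hlow _ hd)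
    rw [coeff_homogeneousComponent, if_pos rfl, coeff_zero] at h1
    exact h1
  have heq2 : (∑ k, (X k + C (x k)) * pderiv k R) - C c * R =
      C 2 * (C a * dd none R + C b * box R) := by
    have h1 := congrArg (tr x) heq
    rw [hR, dd_tr, box_tr]
    simp only [pderiv_tr]
    unfold tr at h1 ⊢
    simp only [map_sub, map_add, map_mul, map_sum, aeval_X, aeval_C] at h1
    exact h1
  obtain ⟨j, rfl⟩ : ∃ j, m = j + 2 := ⟨m - 2, by omega⟩
  rw [← hc_dd, ← hc_box, ← homogeneousComponent_C_mul, ← homogeneousComponent_C_mul, ← map_add]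
  ext d
  rw [coeff_homogeneousComponent, coeff_zero]
  by_cases hd : d.degree = j
  · rw [if_pos hd]
    have h1 := congrArg (coeff d) heq2
    have h2 : coeff d ((∑ k, (X k + C (x k)) * pderiv k R) - C c * R) = 0 := by
      rw [coeff_sub, coeff_C_mul, hco d (by omega), mul_zero, sub_zero, coeff_sum]
      refine Finset.sum_eq_zero fun k _ => ?_
      rw [add_mul, coeff_add, coeff_C_mul, coeff_pderiv, coeff_X_mul', hco, zero_mul, mul_zero,
        add_zero]
      · split_ifs with hk
        · rw [coeff_pderiv, hco, zero_mul]
          rw [map_add, Finsupp.degree_single]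
          have h3 : (d - Finsupp.single k 1).degree ≤ d.degree := by
            refine Finsupp.degree_mono ?_
            exact tsub_le_self
          omega
        · rfl
      · rw [map_add, Finsupp.degree_single]
        omega
    rw [h2, coeff_C_mul] at h1
    linarith
  · rw [if_neg hd]

end Pool.Agent.H783.HL
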