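import Pool.Agent.H783.HL.Stm2
import Pool.Agent.H783.HL.Lowest

/-!
# The lowest component of a solution of the Hermite equation, general version
-/

set_option autoImplicit false

namespace Pool.Agent.H783.HL

namespace LowestAux2

open MvPolynomial LowestAux

variable {σ : Type} [Fintype σ]

theorem hc_de2 (j : ℕ) (e : σ → ℝ) (P : MvPolynomial σ ℝ) :
    homogeneousComponent j (de e P) = de e (homogeneousComponent (j + 1) P) := by
  unfold de
  rw [map_sum]
  refine Finset.sum_congr rfl fun k _ => ?_
  rw [homogeneousComponent_C_mul, hc_pderiv]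

theorem hc_dde2 (j : ℕ) (e : σ → ℝ) (P : MvPolynomial σ ℝ) :
    homogeneousComponent j (dde e P) = dde e (homogeneousComponent (j + 2) P) := by
  unfold dde
  rw [hc_de2, hc_de2]

theorem hc_lap2 (j : ℕ) (w : σ → ℝ) (P : MvPolynomial σ ℝ) :
    homogeneousComponent j (lap w P) = lap w (homogeneousComponent (j + 2) P) := by
  unfold lap
  rw [map_sum]
  refine Finset.sum_congr rfl fun k _ => ?_
  rw [homogeneousComponent_C_mul, hc_dd]

omit [Fintype σ] in
theorem tr_C_mul2 (x : σ → ℝ) (c : ℝ) (P : MvPolynomial σ ℝ) : tr x (C c * P) = C c * tr x P := by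
  unfold tr
  rw [map_mul, aeval_C]
  rfl

omit [Fintype σ] in
theorem tr_sum2 {ι : Type} (s : Finset ι) (x : σ → ℝ) (f : ι → MvPolynomial σ ℝ) :
    tr x (∑ i ∈ s, f i) = ∑ i ∈ s, tr x (f i) := by
  unfold tr
  rw [map_sum]

theorem de_tr2 (x e : σ → ℝ) (P : MvPolynomial σ ℝ) : de e (tr x P) = tr x (de e P) := by
  unfold de
  rw [tr_sum2]
  refine Finset.sum_congr rfl fun k _ => ?_
  rw [tr_C_mul2, pderiv_tr]

theorem dde_tr2 (x e : σ → ℝ) (P : MvPolynomial σ ℝ) : dde e (tr x P) = tr x (dde e P) := by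
  unfold dde
  rw [de_tr2, de_tr2]

theorem lap_tr2 (x w : σ → ℝ) (P : MvPolynomial σ ℝ) : lap w (tr x P) = tr x (lap w P) := by
  unfold lap
  rw [tr_sum2]
  refine Finset.sum_congr rfl fun k _ => ?_
  rw [tr_C_mul2, dd_tr]

end LowestAux2

open MvPolynomial LowestAux LowestAux2

theorem lowest2 : S2_Lowest := by
  classical
  intro σ _ e w P c a b x m hm heq hlow
  obtain ⟨R, hR⟩ : ∃ R, R = tr x P := ⟨_, rfl⟩
  rw [← hR] at hlow ⊢
  have hco : ∀ d : σ →₀ ℕ, d.degree < m → coeff d R = 0 := by
    intro d hd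
    have h1 := congrArg (coeff d) (hlow _ hd)
    rw [coeff_homogeneousComponent, if_pos rfl, coeff_zero] at h1
    exact h1
  have heq2 : (∑ k, (X k + C (x k)) * pderiv k R) - C c * R =
      C 2 * (C a * dde e R + C b * lap w R) := by
    have h1 := congrArg (tr x) heq
    rw [hR, dde_tr2, lap_tr2]
    simp only [pderiv_tr]
    unfold tr at h1 ⊢
    simp only [map_sub, map_add, map_mul, map_sum, aeval_X, aeval_C] at h1
    exact h1
  obtain ⟨j, rfl⟩ : ∃ j, m = j + 2 := ⟨m - 2, by omega⟩
  rw [← hc_dde2, ← hc_lap2, ← homogeneousComponent_C_mul, ← homogeneousComponent_C_mul, ← map_add]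
  ext d
  rw [coeff_homogeneousComponent, coeff_zero]
  by_cases hd : d.degree = j
  · rw [if_pos hd]
    have h1 := congrArg (coeff d) heq2
    have h2 : coeff d ((∑ k, (X k + C (x k)) * pderiv k R) - C c * R) = 0 := by
      rw [coeff_sub, coeff_C_mul, hco d (by omega), mul_zero, sub_zero, coeff_sum]
      refine Finset.sum_eq_zero fun k _ => ?_
      rw [add_mul, coeff_add, coeff_C_mul, coeff_pderiv, coeff_X_mul', hco, zero_mul, mul_zero,
        add_zero]
      · split_ifs with hk
        · rw [coeff_pderiv, hco, zero_mul]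
          rw [map_add, Finsupp.degree_single]
          have h3 : (d - Finsupp.single k 1).degree ≤ d.degree := by
            refine Finsupp.degree_mono ?_
            exact tsub_le_self
          omega
        · rfl
      · rw [map_add, Finsupp.degree_single]
        omega
    rw [h2, coeff_C_mul] at h1
    linarith
  · rw [if_neg hd]

end Pool.Agent.H783.HL
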