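import Pool.Agent.H783.HL.Stm2

/-!
# The Hermite equation of the flow (general form)

By helper274, adapting the module of helper588 for the Lorentz cone.
-/

set_option autoImplicit false

namespace Pool.Agent.H783.HL

open MvPolynomial

namespace PDEL2

theorem pcomm2 {σ : Type} (i j : σ) (p : MvPolynomial σ ℝ) :
    pderiv i (pderiv j p) = pderiv j (pderiv i p) := by
  classical
  have h : ⁅(pderiv i : Derivation ℝ (MvPolynomial σ ℝ) (MvPolynomial σ ℝ)),
      (pderiv j : Derivation ℝ (MvPolynomial σ ℝ) (MvPolynomial σ ℝ))⁆ = 0 := by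
    refine MvPolynomial.derivation_ext fun k => ?_
    rw [Derivation.commutator_apply, pderiv_X, pderiv_X]
    have h1 : ∀ a b : σ, pderiv a
        ((Pi.single b (1 : MvPolynomial σ ℝ) : σ → MvPolynomial σ ℝ) k) = 0 := by
      intro a b
      by_cases hk : k = b
      · subst hk
        rw [Pi.single_eq_same, pderiv_one]
      · rw [Pi.single_eq_of_ne hk, map_zero]
    rw [h1, h1, sub_zero]
    rfl
  have h2 := congrArg (fun D : Derivation ℝ (MvPolynomial σ ℝ) (MvPolynomial σ ℝ) => D p) h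
  simp only [Derivation.commutator_apply] at h2
  exact sub_eq_zero.1 h2

theorem dd_add2 {σ : Type} (k : σ) (p q : MvPolynomial σ ℝ) :
    dd k (p + q) = dd k p + dd k q := by
  unfold dd
  rw [map_add, map_add]

theorem dd_C_mul2 {σ : Type} (k : σ) (c : ℝ) (p : MvPolynomial σ ℝ) :
    dd k (C c * p) = C c * dd k p := by
  unfold dd
  rw [pderiv_C_mul, pderiv_C_mul]

/-- second derivatives of homogeneous polynomials -/
theorem dd_hom2 {σ : Type} {p : MvPolynomial σ ℝ} {n : ℕ} (h : p.IsHomogeneous n) (k : σ) :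
    (dd k p).IsHomogeneous (n - 2) := by
  have h1 := (h.pderiv (i := k)).pderiv (i := k)
  rw [Nat.sub_sub] at h1
  exact h1

theorem pd_zero2 {σ : Type} {p : MvPolynomial σ ℝ} (h : p.IsHomogeneous 0) (k : σ) :
    pderiv k p = 0 := by
  have h4 : p.totalDegree = 0 := Nat.le_zero.1 h.totalDegree_le
  rw [totalDegree_eq_zero_iff_eq_C.1 h4, pderiv_C]

theorem dd_zero2 {σ : Type} {p : MvPolynomial σ ℝ} {n : ℕ} (h : p.IsHomogeneous n) (hn : n < 2)
    (k : σ) : dd k p = 0 := by
  have h1 : (pderiv k p).IsHomogeneous 0 := by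
    have h2 := h.pderiv (i := k)
    have h3 : n - 1 = 0 := by omega
    rwa [h3] at h2
  unfold dd
  exact pd_zero2 h1 k

variable {σ : Type} [Fintype σ]

/-! ### The directional derivative -/

theorem de_add (e : σ → ℝ) (p q : MvPolynomial σ ℝ) : de e (p + q) = de e p + de e q := by
  unfold de
  simp only [map_add, mul_add, Finset.sum_add_distrib]

theorem de_C_mul (e : σ → ℝ) (c : ℝ) (p : MvPolynomial σ ℝ) :
    de e (C c * p) = C c * de e p := by
  unfold de
  rw [Finset.mul_sum]
  refine Finset.sum_congr rfl fun k _ => ?_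
  rw [pderiv_C_mul]
  ring

theorem de_zero (e : σ → ℝ) : de e (0 : MvPolynomial σ ℝ) = 0 := by
  unfold de
  simp only [map_zero, mul_zero, Finset.sum_const_zero]

theorem de_pd (e : σ → ℝ) (k : σ) (p : MvPolynomial σ ℝ) :
    pderiv k (de e p) = de e (pderiv k p) := by
  unfold de
  rw [map_sum]
  refine Finset.sum_congr rfl fun j _ => ?_
  rw [pderiv_C_mul, pcomm2 k j]

theorem de_hom {e : σ → ℝ} {p : MvPolynomial σ ℝ} {n : ℕ} (h : p.IsHomogeneous n) :
    (de e p).IsHomogeneous (n - 1) := by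
  refine IsHomogeneous.sum _ _ _ fun k _ => ?_
  have h1 := (isHomogeneous_C σ (e k)).mul (h.pderiv (i := k))
  rwa [zero_add] at h1

theorem de_zero' {e : σ → ℝ} {p : MvPolynomial σ ℝ} (h : p.IsHomogeneous 0) : de e p = 0 := by
  unfold de
  refine Finset.sum_eq_zero fun k _ => ?_
  rw [pd_zero2 h k, mul_zero]

theorem dde_add (e : σ → ℝ) (p q : MvPolynomial σ ℝ) : dde e (p + q) = dde e p + dde e q := by
  unfold dde
  rw [de_add, de_add]

theorem dde_C_mul (e : σ → ℝ) (c : ℝ) (p : MvPolynomial σ ℝ) :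
    dde e (C c * p) = C c * dde e p := by
  unfold dde
  rw [de_C_mul, de_C_mul]

theorem dde_zero (e : σ → ℝ) : dde e (0 : MvPolynomial σ ℝ) = 0 := by
  unfold dde
  rw [de_zero, de_zero]

theorem dde_sum {ι : Type} (e : σ → ℝ) (s : Finset ι) (f : ι → MvPolynomial σ ℝ) :
    dde e (∑ i ∈ s, f i) = ∑ i ∈ s, dde e (f i) := by
  classical
  induction s using Finset.induction_on with
  | empty => rw [Finset.sum_empty, Finset.sum_empty, dde_zero]
  | insert a s ha ih => rw [Finset.sum_insert ha, Finset.sum_insert ha, dde_add, ih]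

theorem dde_hom {e : σ → ℝ} {p : MvPolynomial σ ℝ} {n : ℕ} (h : p.IsHomogeneous n) :
    (dde e p).IsHomogeneous (n - 2) := by
  have h1 := de_hom (e := e) (de_hom (e := e) h)
  rw [Nat.sub_sub] at h1
  exact h1

theorem dde_zero' {e : σ → ℝ} {p : MvPolynomial σ ℝ} {n : ℕ} (h : p.IsHomogeneous n)
    (hn : n < 2) : dde e p = 0 := by
  have h1 : (de e p).IsHomogeneous 0 := by
    have h2 := de_hom (e := e) h
    have h3 : n - 1 = 0 := by omega
    rwa [h3] at h2
  unfold dde
  exact de_zero' h1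

/-! ### The weighted Laplacian -/

theorem lap_add (w : σ → ℝ) (p q : MvPolynomial σ ℝ) : lap w (p + q) = lap w p + lap w q := by
  unfold lap
  simp only [dd_add2, mul_add, Finset.sum_add_distrib]

theorem lap_C_mul (w : σ → ℝ) (c : ℝ) (p : MvPolynomial σ ℝ) :
    lap w (C c * p) = C c * lap w p := by
  unfold lap
  rw [Finset.mul_sum]
  refine Finset.sum_congr rfl fun k _ => ?_
  rw [dd_C_mul2]
  ring

theorem lap_zero (w : σ → ℝ) : lap w (0 : MvPolynomial σ ℝ) = 0 := by
  have h := lap_C_mul w 0 (0 : MvPolynomial σ ℝ)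
  rw [mul_zero, map_zero, zero_mul] at h
  exact h

theorem lap_sum {ι : Type} (w : σ → ℝ) (s : Finset ι) (f : ι → MvPolynomial σ ℝ) :
    lap w (∑ i ∈ s, f i) = ∑ i ∈ s, lap w (f i) := by
  classical
  induction s using Finset.induction_on with
  | empty => rw [Finset.sum_empty, Finset.sum_empty, lap_zero]
  | insert a s ha ih => rw [Finset.sum_insert ha, Finset.sum_insert ha, lap_add, ih]

theorem lap_pd (w : σ → ℝ) (k : σ) (p : MvPolynomial σ ℝ) :
    pderiv k (lap w p) = lap w (pderiv k p) := by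
  unfold lap
  rw [map_sum]
  refine Finset.sum_congr rfl fun j _ => ?_
  unfold dd
  rw [pderiv_C_mul, pcomm2 k j, pcomm2 k j]

theorem de_lap (e w : σ → ℝ) (p : MvPolynomial σ ℝ) : de e (lap w p) = lap w (de e p) := by
  have h1 : de e p = ∑ k, C (e k) * pderiv k p := rfl
  have h2 : de e (lap w p) = ∑ k, C (e k) * pderiv k (lap w p) := rfl
  rw [h1, h2, lap_sum]
  refine Finset.sum_congr rfl fun k _ => ?_
  rw [lap_C_mul, lap_pd]

theorem dde_lap (e w : σ → ℝ) (p : MvPolynomial σ ℝ) : dde e (lap w p) = lap w (dde e p) := by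
  unfold dde
  rw [de_lap, de_lap]

theorem lap_hom {w : σ → ℝ} {p : MvPolynomial σ ℝ} {n : ℕ} (h : p.IsHomogeneous n) :
    (lap w p).IsHomogeneous (n - 2) := by
  refine IsHomogeneous.sum _ _ _ fun k _ => ?_
  have h1 := (isHomogeneous_C σ (w k)).mul (dd_hom2 h k)
  rwa [zero_add] at h1

theorem lap_zero' {w : σ → ℝ} {p : MvPolynomial σ ℝ} {n : ℕ} (h : p.IsHomogeneous n)
    (hn : n < 2) : lap w p = 0 := by
  unfold lap
  refine Finset.sum_eq_zero fun k _ => ?_
  rw [dd_zero2 h hn k, mul_zero]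

/-! ### The derivatives in the flow -/

theorem g2_lap (e w : σ → ℝ) (p : MvPolynomial σ ℝ) (i k : ℕ) :
    lap w (g2 e w p i k) = g2 e w p (i + 1) k := by
  unfold g2
  rw [Function.iterate_succ_apply']

theorem g2_dde (e w : σ → ℝ) (p : MvPolynomial σ ℝ) (i k : ℕ) :
    dde e (g2 e w p i k) = g2 e w p i (k + 1) := by
  unfold g2
  rw [Function.iterate_succ_apply']
  have h1 : Function.Commute (dde e) (lap w) := fun q => dde_lap e w q
  exact (h1.iterate_right i) _

/-- the derivatives in the flow are homogeneous, and vanish beyond the degree -/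
theorem g2_hom {e w : σ → ℝ} {p : MvPolynomial σ ℝ} {n : ℕ} (h : p.IsHomogeneous n) (i k : ℕ) :
    (g2 e w p i k).IsHomogeneous (n - 2 * (i + k)) ∧ (n < 2 * (i + k) → g2 e w p i k = 0) := by
  induction i with
  | zero =>
    induction k with
    | zero => exact ⟨h, fun h0 => absurd h0 (by omega)⟩
    | succ k ih =>
      rw [← g2_dde]
      refine ⟨?_, fun h0 => ?_⟩
      · have h1 := dde_hom (e := e) ih.1
        have h2 : n - 2 * (0 + k) - 2 = n - 2 * (0 + (k + 1)) := by omega
        rwa [h2] at h1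
      · by_cases h3 : n < 2 * (0 + k)
        · rw [ih.2 h3, dde_zero]
        · exact dde_zero' ih.1 (by omega)
  | succ i ih =>
    rw [← g2_lap]
    refine ⟨?_, fun h0 => ?_⟩
    · have h1 := lap_hom (w := w) ih.1
      have h2 : n - 2 * (i + k) - 2 = n - 2 * (i + 1 + k) := by omega
      rwa [h2] at h1
    · by_cases h3 : n < 2 * (i + k)
      · rw [ih.2 h3, lap_zero]
      · exact lap_zero' ih.1 (by omega)

theorem euler2 {e w : σ → ℝ} {p : MvPolynomial σ ℝ} {n : ℕ} (h : p.IsHomogeneous n) (i k : ℕ) :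
    (∑ l, X l * pderiv l (g2 e w p i k)) - C (n : ℝ) * g2 e w p i k =
      -(C (2 * ((i : ℝ) + k)) * g2 e w p i k) := by
  obtain ⟨h1, h2⟩ := g2_hom (e := e) (w := w) h i k
  by_cases h3 : n < 2 * (i + k)
  · rw [h2 h3]
    simp
  · rw [h1.sum_X_mul_pderiv, nsmul_eq_mul]
    have h4 : (((n - 2 * (i + k) : ℕ) : MvPolynomial σ ℝ)) =
        C ((n : ℝ) - 2 * ((i : ℝ) + k)) := by
      rw [← map_natCast (C : ℝ →+* MvPolynomial σ ℝ), Nat.cast_sub (by omega)]
      push_cast
      rfl
    rw [h4, map_sub]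
    ring

end PDEL2

open PDEL2 in
theorem pde2 : S2_PDE := by
  intro σ _ e w p n a b hp
  obtain ⟨c, hc⟩ : ∃ c : ℕ → ℕ → ℝ, c = fun i k =>
    (-1 : ℝ) ^ (i + k) * (b ^ i * a ^ k / (i.factorial * k.factorial)) := ⟨_, rfl⟩
  have hfl : flow2 e w n a b 1 p = ∑ i ∈ Finset.range (n + 1), ∑ k ∈ Finset.range (n + 1),
      C (c i k) * g2 e w p i k := by
    unfold flow2
    rw [hc]
    simp only [one_pow]
  have hca : ∀ i k, a * c i k = -(((k : ℝ) + 1) * c i (k + 1)) := by
    intro i k
    have h1 : (k.factorial : ℝ) ≠ 0 := by exact_mod_cast k.factorial_ne_zero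
    have h2 : (i.factorial : ℝ) ≠ 0 := by exact_mod_cast i.factorial_ne_zero
    have h3 : (k : ℝ) + 1 ≠ 0 := by positivity
    rw [hc]
    simp only [Nat.factorial_succ]
    push_cast
    field_simp
    ring
  have hcb : ∀ i k, b * c i k = -(((i : ℝ) + 1) * c (i + 1) k) := by
    intro i k
    have h1 : (k.factorial : ℝ) ≠ 0 := by exact_mod_cast k.factorial_ne_zero
    have h2 : (i.factorial : ℝ) ≠ 0 := by exact_mod_cast i.factorial_ne_zero
    have h3 : (i : ℝ) + 1 ≠ 0 := by positivity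
    rw [hc]
    simp only [Nat.factorial_succ]
    push_cast
    field_simp
    ring
  -- the left side
  have hL : (∑ k, X k * pderiv k (flow2 e w n a b 1 p)) - C (n : ℝ) * flow2 e w n a b 1 p =
      ∑ i ∈ Finset.range (n + 1), ∑ k ∈ Finset.range (n + 1),
        -(C (2 * ((i : ℝ) + k) * c i k) * g2 e w p i k) := by
    have h1 : ∑ l, X l * pderiv l (flow2 e w n a b 1 p) =
        ∑ i ∈ Finset.range (n + 1), ∑ k ∈ Finset.range (n + 1),
          C (c i k) * ∑ l, X l * pderiv l (g2 e w p i k) := by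
      rw [hfl]
      simp only [map_sum, pderiv_C_mul, Finset.mul_sum]
      rw [Finset.sum_comm]
      refine Finset.sum_congr rfl fun i _ => ?_
      rw [Finset.sum_comm]
      refine Finset.sum_congr rfl fun k _ => Finset.sum_congr rfl fun l _ => ?_
      ring
    rw [h1, hfl, Finset.mul_sum, ← Finset.sum_sub_distrib]
    refine Finset.sum_congr rfl fun i _ => ?_
    rw [Finset.mul_sum, ← Finset.sum_sub_distrib]
    refine Finset.sum_congr rfl fun k _ => ?_
    have h2 := euler2 (e := e) (w := w) hp i k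
    have h3 : C (c i k) * ∑ l, X l * pderiv l (g2 e w p i k) -
          C (n : ℝ) * (C (c i k) * g2 e w p i k) =
        C (c i k) * ((∑ l, X l * pderiv l (g2 e w p i k)) - C (n : ℝ) * g2 e w p i k) := by
      ring
    rw [h3, h2, map_mul C (2 * ((i : ℝ) + k))]
    ring
  have hD : C a * dde e (flow2 e w n a b 1 p) =
      ∑ i ∈ Finset.range (n + 1), ∑ k ∈ Finset.range (n + 1),
        -(C ((k : ℝ) * c i k) * g2 e w p i k) := by
    rw [hfl, dde_sum, Finset.mul_sum]
    refine Finset.sum_congr rfl fun i _ => ?_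
    rw [dde_sum, Finset.mul_sum]
    have h1 : ∀ k, C a * dde e (C (c i k) * g2 e w p i k) =
        -(C (((k + 1 : ℕ) : ℝ) * c i (k + 1)) * g2 e w p i (k + 1)) := by
      intro k
      rw [dde_C_mul, g2_dde, ← mul_assoc, ← map_mul, hca, map_neg]
      push_cast
      ring
    simp only [h1]
    have h2 := Finset.sum_range_succ'
      (fun k : ℕ => -(C ((k : ℝ) * c i k) * g2 e w p i k)) (n + 1)
    rw [Finset.sum_range_succ] at h2
    have h3 : g2 e w p i (n + 1) = 0 := (g2_hom hp i (n + 1)).2 (by omega)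
    rw [h3, Nat.cast_zero, zero_mul, map_zero, zero_mul, mul_zero, neg_zero, add_zero,
      add_zero] at h2
    exact h2.symm
  have hB : C b * lap w (flow2 e w n a b 1 p) =
      ∑ i ∈ Finset.range (n + 1), ∑ k ∈ Finset.range (n + 1),
        -(C ((i : ℝ) * c i k) * g2 e w p i k) := by
    rw [hfl, lap_sum, Finset.mul_sum]
    have h1 : ∀ i, C b * lap w (∑ k ∈ Finset.range (n + 1), C (c i k) * g2 e w p i k) =
        ∑ k ∈ Finset.range (n + 1),
          -(C (((i + 1 : ℕ) : ℝ) * c (i + 1) k) * g2 e w p (i + 1) k) := by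
      intro i
      rw [lap_sum, Finset.mul_sum]
      refine Finset.sum_congr rfl fun k _ => ?_
      rw [lap_C_mul, g2_lap, ← mul_assoc, ← map_mul, hcb, map_neg]
      push_cast
      ring
    simp only [h1]
    have h2 := Finset.sum_range_succ' (fun i : ℕ => ∑ k ∈ Finset.range (n + 1),
      -(C ((i : ℝ) * c i k) * g2 e w p i k)) (n + 1)
    rw [Finset.sum_range_succ] at h2
    have h3 : ∑ k ∈ Finset.range (n + 1),
        -(C (((n + 1 : ℕ) : ℝ) * c (n + 1) k) * g2 e w p (n + 1) k) = 0 := by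
      refine Finset.sum_eq_zero fun k _ => ?_
      rw [(g2_hom hp (n + 1) k).2 (by omega), mul_zero, neg_zero]
    have h4 : ∑ k ∈ Finset.range (n + 1), -(C (((0 : ℕ) : ℝ) * c 0 k) * g2 e w p 0 k) = 0 := by
      refine Finset.sum_eq_zero fun k _ => ?_
      rw [Nat.cast_zero, zero_mul, map_zero, zero_mul, neg_zero]
    rw [h3, h4, add_zero, add_zero] at h2
    exact h2.symm
  rw [hL, hD, hB, ← Finset.sum_add_distrib, Finset.mul_sum]
  refine Finset.sum_congr rfl fun i _ => ?_
  rw [← Finset.sum_add_distrib, Finset.mul_sum]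
  refine Finset.sum_congr rfl fun k _ => ?_
  rw [map_mul, map_mul, map_mul, map_mul, map_add]
  ring

end Pool.Agent.H783.HL
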