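import Pool.Agent.H783.HL.Stm

/-! # Real-rooted univariate polynomials: `S_RRsub` and `S_RRsimple` -/

set_option autoImplicit false

namespace Pool.Agent.H783.HL

open Polynomial ComplexConjugate

theorem RR.ne_zero {f : Polynomial ℝ} (hf : RR f) : f ≠ 0 := by
  intro h
  apply hf Complex.I (by simp)
  simp [h]

theorem RR.of_mul_left {g q : Polynomial ℝ} (hf : RR (g * q)) : RR q := by
  intro z hz h
  apply hf z hz
  simp [h]

theorem rr_root {f : Polynomial ℝ} (hf : RR f) (hd : f.natDegree ≠ 0) :
    ∃ (r : ℝ) (q : Polynomial ℝ), f = (X - C r) * q := by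
  have hdeg : f.degree ≠ 0 := by
    intro h
    exact hd (natDegree_eq_of_degree_eq_some h)
  obtain ⟨z, hz⟩ := IsAlgClosed.exists_aeval_eq_zero ℂ f hdeg
  have hzi : z.im = 0 := by
    by_contra h
    exact hf z h hz
  have hzr : z = ((z.re : ℝ) : ℂ) := by
    apply Complex.ext <;> simp [hzi]
  have hr : f.IsRoot z.re := by
    have h1 : aeval ((z.re : ℝ) : ℂ) f = 0 := by rw [← hzr]; exact hz
    have h2 : aeval (algebraMap ℝ ℂ z.re) f = 0 := h1
    rw [Polynomial.aeval_algebraMap_apply] at h2
    have h3 : (aeval z.re f : ℝ) = 0 := by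
      have := (map_eq_zero_iff (algebraMap ℝ ℂ) (algebraMap ℝ ℂ).injective).mp h2
      exact this
    simpa [Polynomial.IsRoot, Polynomial.coe_aeval_eq_eval] using h3
  obtain ⟨q, hq⟩ := Polynomial.dvd_iff_isRoot.mpr hr
  exact ⟨z.re, q, hq⟩

theorem rr_induction {P : Polynomial ℝ → Prop} (hC : ∀ l : ℝ, l ≠ 0 → P (C l))
    (hX : ∀ (r : ℝ) (q : Polynomial ℝ), RR q → RR ((X - C r) * q) → P q → P ((X - C r) * q)) :
    ∀ f, RR f → P f := by
  have key : ∀ n : ℕ, ∀ f : Polynomial ℝ, f.natDegree = n → RR f → P f := by
    intro n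
    induction n with
    | zero =>
      intro f hn hf
      rw [Polynomial.natDegree_eq_zero] at hn
      obtain ⟨l, rfl⟩ := hn
      apply hC
      intro h
      apply hf.ne_zero
      simp [h]
    | succ n ih =>
      intro f hn hf
      obtain ⟨r, q, hq⟩ := rr_root hf (by omega)
      have hqR : RR q := by
        rw [hq] at hf
        exact hf.of_mul_left
      have hdq : q.natDegree = n := by
        have h1 : f.natDegree = (X - C r).natDegree + q.natDegree := by
          rw [hq]
          exact Polynomial.natDegree_mul (X_sub_C_ne_zero r) hqR.ne_zero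
        rw [Polynomial.natDegree_X_sub_C] at h1
        omega
      rw [hq]
      exact hX r q hqR (hq ▸ hf) (ih q hdq hqR)
  intro f hf
  exact key _ f rfl hf

/-- the sign of the logarithmic derivative -/
theorem rr_logder : ∀ f : Polynomial ℝ, RR f → ∀ z : ℂ, z.im ≠ 0 →
    (z.im * (aeval z (derivative f) * conj (aeval z f)).im ≤ 0 ∧
      ((∃ l : ℝ, l ≠ 0 ∧ f = C l) ∨
        z.im * (aeval z (derivative f) * conj (aeval z f)).im < 0)) := by
  intro f hf z hz
  refine rr_induction (P := fun f => (z.im * (aeval z (derivative f) * conj (aeval z f)).im ≤ 0 ∧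
      ((∃ l : ℝ, l ≠ 0 ∧ f = C l) ∨
        z.im * (aeval z (derivative f) * conj (aeval z f)).im < 0))) ?_ ?_ f hf
  · intro l hl
    constructor
    · simp
    · exact Or.inl ⟨l, hl, rfl⟩
  · intro r q hq _ ih
    have hlt : z.im * (aeval z (derivative ((X - C r) * q)) *
        conj (aeval z ((X - C r) * q))).im < 0 := by
      have e1 : aeval z (derivative ((X - C r) * q)) =
          aeval z q + (z - (r : ℂ)) * aeval z (derivative q) := by
        simp [Polynomial.derivative_mul]
      have e2 : aeval z ((X - C r) * q) = (z - (r : ℂ)) * aeval z q := by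
        simp
      rw [e1, e2]
      have hQ : aeval z q ≠ 0 := hq z hz
      have ih1 := ih.1
      have e3 : ((aeval z q + (z - (r : ℂ)) * aeval z (derivative q)) *
          conj ((z - (r : ℂ)) * aeval z q)).im =
          - Complex.normSq (aeval z q) * z.im + Complex.normSq (z - (r : ℂ)) *
            (aeval z (derivative q) * conj (aeval z q)).im := by
        simp only [Complex.normSq_apply, Complex.mul_im, Complex.mul_re, Complex.add_re,
          Complex.add_im, Complex.conj_re, Complex.conj_im, Complex.sub_re, Complex.sub_im,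
          Complex.ofReal_re, Complex.ofReal_im]
        ring
      rw [e3]
      have h4 : 0 < Complex.normSq (aeval z q) := Complex.normSq_pos.mpr hQ
      have h5 : 0 ≤ Complex.normSq (z - (r : ℂ)) := Complex.normSq_nonneg _
      have h6 : 0 < z.im ^ 2 := by positivity
      have h7 : 0 < Complex.normSq (aeval z q) * z.im ^ 2 := mul_pos h4 h6
      have h8 : Complex.normSq (z - (r : ℂ)) *
          (z.im * (aeval z (derivative q) * conj (aeval z q)).im) ≤ 0 :=
        mul_nonpos_of_nonneg_of_nonpos h5 ih1
      nlinarith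
    exact ⟨hlt.le, Or.inr hlt⟩

/-- `f - a f'` -/
noncomputable def one1 (a : ℝ) (f : Polynomial ℝ) : Polynomial ℝ := f - C a * derivative f

theorem rr_one1 {f : Polynomial ℝ} (hf : RR f) (a : ℝ) : RR (one1 a f) := by
  intro z hz h
  have h0 : aeval z f = (a : ℂ) * aeval z (derivative f) := by
    have : aeval z (one1 a f) = aeval z f - (a : ℂ) * aeval z (derivative f) := by
      simp [one1]
    rw [this] at h
    exact sub_eq_zero.mp h
  obtain ⟨-, hl | hlt⟩ := rr_logder f hf z hz
  · obtain ⟨l, hl, rfl⟩ := hl
    apply hf z hz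
    rw [h0]
    simp
  · have : (aeval z (derivative f) * conj (aeval z f)).im = 0 := by
      rw [h0, map_mul, Complex.conj_ofReal]
      simp only [Complex.mul_im, Complex.mul_re, Complex.conj_re, Complex.conj_im,
        Complex.ofReal_re, Complex.ofReal_im]
      ring
    rw [this, mul_zero] at hlt
    exact lt_irrefl _ hlt

theorem ustep_eq (c : ℝ) (hc : 0 ≤ c) (f : Polynomial ℝ) :
    ustep c f = one1 (-(Real.sqrt c)) (one1 (Real.sqrt c) f) := by
  unfold ustep one1
  have h : (C c : Polynomial ℝ) = C (Real.sqrt c) * C (Real.sqrt c) := by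
    rw [← C_mul, Real.mul_self_sqrt hc]
  rw [h]
  simp only [derivative_sub, derivative_mul, derivative_C, C_neg]
  ring

theorem rr_ustep {f : Polynomial ℝ} {c : ℝ} (hc : 0 ≤ c) (hf : RR f) : RR (ustep c f) := by
  rw [ustep_eq c hc]
  exact rr_one1 (rr_one1 hf _) _

theorem rrSub : S_RRsub := fun _ _ hc hf => rr_ustep hc hf

/-- Laguerre's inequality -/
theorem rr_laguerre : ∀ f : Polynomial ℝ, RR f → ∀ x : ℝ,
    (0 ≤ (derivative f).eval x ^ 2 - f.eval x * (derivative (derivative f)).eval x ∧
      ((∃ l : ℝ, l ≠ 0 ∧ f = C l) ∨ (f.eval x ≠ 0 →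
        0 < (derivative f).eval x ^ 2 - f.eval x * (derivative (derivative f)).eval x))) := by
  intro f hf x
  refine rr_induction (P := fun f =>
    (0 ≤ (derivative f).eval x ^ 2 - f.eval x * (derivative (derivative f)).eval x ∧
      ((∃ l : ℝ, l ≠ 0 ∧ f = C l) ∨ (f.eval x ≠ 0 →
        0 < (derivative f).eval x ^ 2 - f.eval x * (derivative (derivative f)).eval x)))) ?_ ?_ f hf
  · intro l hl
    constructor
    · simp
    · exact Or.inl ⟨l, hl, rfl⟩
  · intro r q hq _ ih
    have e : (derivative ((X - C r) * q)).eval x ^ 2 -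
        ((X - C r) * q).eval x * (derivative (derivative ((X - C r) * q))).eval x =
        q.eval x ^ 2 + (x - r) ^ 2 *
          ((derivative q).eval x ^ 2 - q.eval x * (derivative (derivative q)).eval x) := by
      simp only [derivative_mul, derivative_add, derivative_sub, derivative_X, derivative_C,
        eval_add, eval_mul, eval_sub, eval_X, eval_C, sub_zero, one_mul]
      ring
    constructor
    · rw [e]
      have := ih.1
      positivity
    · right
      intro hne
      rw [e]
      have h1 : q.eval x ≠ 0 := by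
        intro h
        apply hne
        rw [eval_mul, h, mul_zero]
      have := ih.1
      positivity

theorem rr_mult_one {f : Polynomial ℝ} (hf : RR f) {a : ℝ} (t : ℝ)
    (ht : f.eval t ≠ 0) : (one1 a f).rootMultiplicity t ≤ 1 := by
  by_contra hcon
  have h1 : 1 < (one1 a f).rootMultiplicity t := by omega
  rw [Polynomial.one_lt_rootMultiplicity_iff_isRoot (rr_one1 hf a).ne_zero] at h1
  obtain ⟨h2, h3⟩ := h1
  have e1 : f.eval t = a * (derivative f).eval t := by
    have : (one1 a f).eval t = f.eval t - a * (derivative f).eval t := by simp [one1]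
    rw [Polynomial.IsRoot, this] at h2
    linarith
  have e2 : (derivative f).eval t = a * (derivative (derivative f)).eval t := by
    have : (derivative (one1 a f)).eval t =
        (derivative f).eval t - a * (derivative (derivative f)).eval t := by simp [one1]
    rw [Polynomial.IsRoot, this] at h3
    linarith
  obtain ⟨-, hl | hlt⟩ := rr_laguerre f hf t
  · obtain ⟨l, hl, rfl⟩ := hl
    apply ht
    rw [e1]
    simp
  · have h4 := hlt ht
    have h5 : (derivative f).eval t ^ 2 - f.eval t * (derivative (derivative f)).eval t = 0 := by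
      rw [e1]
      calc (derivative f).eval t ^ 2 -
            a * (derivative f).eval t * (derivative (derivative f)).eval t
          = (derivative f).eval t * ((derivative f).eval t -
              a * (derivative (derivative f)).eval t) := by ring
        _ = 0 := by rw [← e2]; ring
    rw [h5] at h4
    exact lt_irrefl _ h4

theorem rr_mult_step {f : Polynomial ℝ} (hf : RR f) {a : ℝ} (ha : a ≠ 0) {m : ℕ}
    (hm : ∀ t, f.rootMultiplicity t ≤ m) (t : ℝ) :
    (one1 a f).rootMultiplicity t ≤ max 1 (m - 1) := by
  by_cases ht : f.eval t = 0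
  · have hroot : f.IsRoot t := ht
    have hd := Polynomial.derivative_rootMultiplicity_of_root hroot
    have hpos : 0 < f.rootMultiplicity t :=
      (Polynomial.rootMultiplicity_pos hf.ne_zero).mpr hroot
    have hd0 : derivative f ≠ 0 := by
      intro h
      have h1 := Polynomial.derivative_eq_zero.mp h
      rw [Polynomial.natDegree_eq_zero] at h1
      obtain ⟨l, rfl⟩ := h1
      apply hf.ne_zero
      have : l = 0 := by simpa using ht
      simp [this]
    have hle : (one1 a f).rootMultiplicity t ≤ f.rootMultiplicity t - 1 := by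
      by_contra hcon
      have h1 : f.rootMultiplicity t ≤ (one1 a f).rootMultiplicity t := by omega
      rw [Polynomial.le_rootMultiplicity_iff (rr_one1 hf a).ne_zero] at h1
      have h2 : (X - C t) ^ f.rootMultiplicity t ∣ f := Polynomial.pow_rootMultiplicity_dvd f t
      have h3 : (X - C t) ^ f.rootMultiplicity t ∣ C a * derivative f := by
        have : C a * derivative f = f - one1 a f := by unfold one1; ring
        rw [this]
        exact dvd_sub h2 h1
      have h4 : (X - C t) ^ f.rootMultiplicity t ∣ derivative f := by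
        have h5 : derivative f = C a⁻¹ * (C a * derivative f) := by
          rw [← mul_assoc, ← C_mul, inv_mul_cancel₀ ha, C_1, one_mul]
        rw [h5]
        exact Dvd.dvd.mul_left h3 _
      rw [← Polynomial.le_rootMultiplicity_iff hd0, hd] at h4
      omega
    have := hm t
    omega
  · have := rr_mult_one (a := a) hf t ht
    omega

theorem rr_mult_ustep {f : Polynomial ℝ} (hf : RR f) {c : ℝ} (hc : 0 < c) {m : ℕ}
    (hm : ∀ t, f.rootMultiplicity t ≤ m) (t : ℝ) :
    (ustep c f).rootMultiplicity t ≤ max 1 (m - 1) := by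
  rw [ustep_eq c hc.le]
  have hs : Real.sqrt c ≠ 0 := (Real.sqrt_pos.mpr hc).ne'
  have h1 := rr_mult_step hf hs hm
  have h2 := rr_mult_step (rr_one1 hf _) (neg_ne_zero.mpr hs) h1 t
  omega

theorem rr_iter {f : Polynomial ℝ} (hf : RR f) {c : ℝ} (hc : 0 < c) {n : ℕ}
    (hn : f.natDegree ≤ n) (k : ℕ) :
    RR ((ustep c)^[k] f) ∧ ∀ t, ((ustep c)^[k] f).rootMultiplicity t ≤ max 1 (n - k) := by
  induction k with
  | zero =>
    refine ⟨hf, fun t => ?_⟩
    have h1 : f.rootMultiplicity t ≤ f.natDegree := by
      have h2 : (X - C t) ^ f.rootMultiplicity t ∣ f := Polynomial.pow_rootMultiplicity_dvd f t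
      have h3 := Polynomial.natDegree_le_of_dvd h2 hf.ne_zero
      rwa [Polynomial.natDegree_pow, Polynomial.natDegree_X_sub_C, mul_one] at h3
    simp only [Function.iterate_zero, id_eq]
    omega
  | succ k ih =>
    rw [Function.iterate_succ_apply']
    refine ⟨rr_ustep hc.le ih.1, fun t => ?_⟩
    have := rr_mult_ustep ih.1 hc ih.2 t
    omega

theorem rrSimple : S_RRsimple := by
  intro f n c hc hn hf t ht hd
  obtain ⟨h1, h2⟩ := rr_iter hf hc hn n
  have h3 := h2 t
  have h4 : 1 < ((ustep c)^[n] f).rootMultiplicity t := by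
    rw [Polynomial.one_lt_rootMultiplicity_iff_isRoot h1.ne_zero]
    exact ⟨ht, hd⟩
  omega

end Pool.Agent.H783.HL
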