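import Pool.Agent.H783.HL.Stm

/-! # `exp (-c ∂²)` preserves real-rootedness: `S_RRexp` -/

set_option autoImplicit false

namespace Pool.Agent.H783.HL

open Polynomial ComplexConjugate Filter Topology

theorem rx_coeff (f : Polynomial ℝ) (c : ℝ) {m : ℕ} (hm : f.natDegree ≤ m) :
    (ustep c f).coeff m = f.coeff m := by
  unfold ustep
  rw [coeff_sub, coeff_C_mul, coeff_derivative, coeff_derivative,
    coeff_eq_zero_of_natDegree_lt (show f.natDegree < m + 1 + 1 by omega)]
  ring

theorem rx_natDegree_le (f : Polynomial ℝ) (c : ℝ) : (ustep c f).natDegree ≤ f.natDegree := by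
  rw [natDegree_le_iff_coeff_eq_zero]
  intro m hm
  rw [rx_coeff f c hm.le, coeff_eq_zero_of_natDegree_lt hm]

theorem rx_natDegree (f : Polynomial ℝ) (c : ℝ) (hf : f ≠ 0) :
    (ustep c f).natDegree = f.natDegree := by
  apply le_antisymm (rx_natDegree_le f c)
  apply le_natDegree_of_ne_zero
  rw [rx_coeff f c le_rfl]
  exact leadingCoeff_ne_zero.mpr hf

theorem rx_iter (hs : S_RRsub) {f : Polynomial ℝ} {c : ℝ} (hc : 0 ≤ c) (hf : RR f)
    (hf0 : f ≠ 0) (k : ℕ) :
    RR ((ustep c)^[k] f) ∧ ((ustep c)^[k] f).natDegree = f.natDegree ∧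
      ((ustep c)^[k] f).leadingCoeff = f.leadingCoeff := by
  induction k with
  | zero => exact ⟨hf, rfl, rfl⟩
  | succ k ih =>
    obtain ⟨h1, h2, h3⟩ := ih
    rw [Function.iterate_succ_apply']
    have hne : (ustep c)^[k] f ≠ 0 := by
      intro h
      rw [h, leadingCoeff_zero] at h3
      exact (leadingCoeff_ne_zero.mpr hf0) h3.symm
    refine ⟨hs _ _ hc h1, ?_, ?_⟩
    · rw [rx_natDegree _ _ hne, h2]
    · rw [← h3, leadingCoeff, leadingCoeff, rx_natDegree _ _ hne, rx_coeff _ _ le_rfl]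

theorem rx_deriv_zero (f : Polynomial ℝ) {m : ℕ} (hm : f.natDegree < m) :
    (derivative^[m]) f = 0 := iterate_derivative_eq_zero hm

/-- the binomial formula for the iterates -/
theorem rx_formula (c : ℝ) (N : ℕ) (k : ℕ) : ∀ (f : Polynomial ℝ), f.natDegree ≤ N →
    (ustep c)^[k] f = ∑ j ∈ Finset.range (N + 1),
      C ((k.choose j : ℝ) * (-c) ^ j) * (derivative^[2 * j]) f := by
  induction k with
  | zero =>
    intro f _
    rw [Finset.sum_eq_single 0]
    · simp
    · intro j _ hj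
      rw [Nat.choose_eq_zero_of_lt (Nat.pos_of_ne_zero hj)]
      simp
    · simp
  | succ k ih =>
    intro f hN
    rw [Function.iterate_succ_apply', ih f hN]
    set D : ℕ → Polynomial ℝ := fun j => (derivative^[2 * j]) f with hD
    have hDs : ∀ j, derivative (derivative (D j)) = D (j + 1) := by
      intro j
      rw [hD]
      change derivative (derivative ((derivative^[2 * j]) f)) = (derivative^[2 * (j + 1)]) f
      rw [show 2 * (j + 1) = (2 * j + 1) + 1 by ring, Function.iterate_succ_apply',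
        Function.iterate_succ_apply']
    have hDl : D (N + 1) = 0 := rx_deriv_zero f (by omega)
    change ustep c (∑ j ∈ Finset.range (N + 1), C ((k.choose j : ℝ) * (-c) ^ j) * D j) =
      ∑ j ∈ Finset.range (N + 1), C (((k + 1).choose j : ℝ) * (-c) ^ j) * D j
    have e1 : ustep c (∑ j ∈ Finset.range (N + 1), C ((k.choose j : ℝ) * (-c) ^ j) * D j) =
        (∑ j ∈ Finset.range (N + 1), C ((k.choose j : ℝ) * (-c) ^ j) * D j) +
        ∑ j ∈ Finset.range (N + 1), C ((k.choose j : ℝ) * (-c) ^ (j + 1)) * D (j + 1) := by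
      unfold ustep
      rw [derivative_sum, derivative_sum, sub_eq_add_neg, Finset.mul_sum, ← Finset.sum_neg_distrib]
      congr 1
      apply Finset.sum_congr rfl
      intro j _
      rw [derivative_C_mul, derivative_C_mul, hDs]
      simp only [C_mul, C_pow, C_neg]
      ring
    rw [e1, Finset.sum_range_succ' (fun j => C ((k.choose j : ℝ) * (-c) ^ j) * D j),
      Finset.sum_range_succ (fun j => C ((k.choose j : ℝ) * (-c) ^ (j + 1)) * D (j + 1)),
      Finset.sum_range_succ' (fun j => C (((k + 1).choose j : ℝ) * (-c) ^ j) * D j), hDl]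
    have e2 : ∑ j ∈ Finset.range N, C (((k + 1).choose (j + 1) : ℝ) * (-c) ^ (j + 1)) * D (j + 1) =
        (∑ j ∈ Finset.range N, C ((k.choose (j + 1) : ℝ) * (-c) ^ (j + 1)) * D (j + 1)) +
        ∑ j ∈ Finset.range N, C ((k.choose j : ℝ) * (-c) ^ (j + 1)) * D (j + 1) := by
      rw [← Finset.sum_add_distrib]
      apply Finset.sum_congr rfl
      intro j _
      rw [Nat.choose_succ_succ]
      push_cast
      simp only [C_mul, C_pow, C_neg, C_add]
      ring
    rw [e2]
    simp only [Nat.choose_zero_right]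
    ring

theorem rx_choose (j : ℕ) : Tendsto (fun k : ℕ => (k.choose j : ℝ) * (1 / (k : ℝ)) ^ j) atTop
    (𝓝 (1 / (j.factorial : ℝ))) := by
  have h1 := isEquivalent_choose j
  have h2 : Asymptotics.IsEquivalent atTop (fun k : ℕ => (k.choose j : ℝ) * (1 / (k : ℝ)) ^ j)
      (fun k : ℕ => ((k : ℝ) ^ j / j.factorial) * (1 / (k : ℝ)) ^ j) :=
    h1.mul Asymptotics.IsEquivalent.refl
  have h3 : Tendsto (fun k : ℕ => ((k : ℝ) ^ j / j.factorial) * (1 / (k : ℝ)) ^ j) atTop
      (𝓝 (1 / (j.factorial : ℝ))) := by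
    apply tendsto_const_nhds.congr'
    filter_upwards [eventually_ge_atTop 1] with k hk
    have hk' : (k : ℝ) ≠ 0 := by positivity
    have hk2 : (k : ℝ) ^ j * (1 / (k : ℝ)) ^ j = 1 := by
      rw [← mul_pow, mul_one_div_cancel hk', one_pow]
    calc 1 / (j.factorial : ℝ) = ((k : ℝ) ^ j * (1 / (k : ℝ)) ^ j) / j.factorial := by rw [hk2]
      _ = ((k : ℝ) ^ j / j.factorial) * (1 / (k : ℝ)) ^ j := by ring
  exact h2.symm.tendsto_nhds h3

/-- the exponential -/
noncomputable def rxE (f : Polynomial ℝ) (n : ℕ) (c : ℝ) : Polynomial ℝ :=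
  ∑ k ∈ Finset.range (n + 1), C ((-c) ^ k / k.factorial) * (derivative^[2 * k]) f

theorem rx_tendsto (f : Polynomial ℝ) (n : ℕ) (c : ℝ) (hn : f.natDegree ≤ n) (z : ℂ) :
    Tendsto (fun k : ℕ => aeval z ((ustep (c / k))^[k] f)) atTop (𝓝 (aeval z (rxE f n c))) := by
  have e1 : ∀ k : ℕ, aeval z ((ustep (c / k))^[k] f) = ∑ j ∈ Finset.range (n + 1),
      (((((k.choose j : ℝ) * (1 / (k : ℝ)) ^ j) * (-c) ^ j : ℝ)) : ℂ) *
        aeval z ((derivative^[2 * j]) f) := by
    intro k
    rw [rx_formula (c / k) n k f hn, map_sum]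
    apply Finset.sum_congr rfl
    intro j _
    rw [map_mul, aeval_C]
    congr 1
    change (((k.choose j : ℝ) * (-(c / k)) ^ j : ℝ) : ℂ) = _
    congr 1
    rw [show -(c / (k : ℝ)) = (1 / (k : ℝ)) * (-c) by ring, mul_pow]
    ring
  have e2 : aeval z (rxE f n c) = ∑ j ∈ Finset.range (n + 1),
      (((1 / (j.factorial : ℝ)) * (-c) ^ j : ℝ) : ℂ) * aeval z ((derivative^[2 * j]) f) := by
    unfold rxE
    rw [map_sum]
    apply Finset.sum_congr rfl
    intro j _
    rw [map_mul, aeval_C]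
    congr 1
    change (((-c) ^ j / (j.factorial : ℝ) : ℝ) : ℂ) = _
    congr 1
    ring
  rw [e2]
  simp_rw [e1]
  apply tendsto_finsetSum
  intro j _
  apply Tendsto.mul_const
  exact (Complex.continuous_ofReal.tendsto _).comp ((rx_choose j).mul_const _)

theorem rx_upper (hs : S_RRsub) (hU : S_UniLower) (f : Polynomial ℝ) (n : ℕ) (c : ℝ) (hc : 0 ≤ c)
    (hn : f.natDegree ≤ n) (hf : RR f) (z : ℂ) (hz : 0 < z.im) : aeval z (rxE f n c) ≠ 0 := by
  have hf0 : f ≠ 0 := by
    intro h
    apply hf Complex.I (by simp)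
    simp [h]
  have hlow : ∀ k : ℕ, |f.leadingCoeff| * z.im ^ f.natDegree ≤
      ‖aeval z ((ustep (c / k))^[k] f)‖ := by
    intro k
    obtain ⟨h1, h2, h3⟩ := rx_iter hs (show 0 ≤ c / (k : ℝ) by positivity) hf hf0 k
    have h4 := hU (((ustep (c / k))^[k] f).map (algebraMap ℝ ℂ)) (by
      intro t ht
      rw [eval_map_algebraMap]
      exact h1 t ht.ne') z hz
    rw [eval_map_algebraMap, natDegree_map, leadingCoeff_map, h2, h3] at h4
    have h5 : ‖(algebraMap ℝ ℂ) f.leadingCoeff‖ = |f.leadingCoeff| := by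
      change ‖((f.leadingCoeff : ℝ) : ℂ)‖ = _
      rw [Complex.norm_real, Real.norm_eq_abs]
    rw [h5] at h4
    exact h4
  have h6 := ge_of_tendsto (rx_tendsto f n c hn z).norm (Eventually.of_forall hlow)
  intro h
  rw [h, norm_zero] at h6
  have h7 : 0 < |f.leadingCoeff| * z.im ^ f.natDegree := by
    have : 0 < |f.leadingCoeff| := abs_pos.mpr (leadingCoeff_ne_zero.mpr hf0)
    positivity
  linarith

theorem rx_conj (p : Polynomial ℝ) (z : ℂ) : aeval (conj z) p = conj (aeval z p) := by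
  have := Polynomial.aeval_algHom_apply (Complex.conjAe.toAlgHom) z p
  exact this

theorem rrExp (hs : S_RRsub) (hU : S_UniLower) : S_RRexp := by
  intro f n c hc hn hf z hz h
  change aeval z (rxE f n c) = 0 at h
  rcases lt_or_gt_of_ne hz with h1 | h1
  · have h2 : 0 < (conj z).im := by
      rw [Complex.conj_im]
      linarith
    apply rx_upper hs hU f n c hc hn hf (conj z) h2
    rw [rx_conj, h, map_zero]
  · exact rx_upper hs hU f n c hc hn hf z h1 h

end Pool.Agent.H783.HL
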