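import Pool.Agent.H783.HL.Stm2

set_option autoImplicit false

namespace Pool.Agent.H783.HL

open MvPolynomial

/-- polynomial dependence on the parameter -/
lemma reg_poly2 {σ : Type} [Fintype σ] (e : σ → ℝ) (p : MvPolynomial σ ℝ) (n : ℕ) :
    ∃ (N : ℕ) (w : ℕ → MvPolynomial σ ℝ), ∀ d : ℝ,
      reg e n d p = ∑ j ∈ Finset.range N, d ^ j • w j := by
  induction n with
  | zero =>
    refine ⟨1, fun _ => p, fun d => ?_⟩
    simp [reg]
  | succ n ih =>
    obtain ⟨N, w, hw⟩ := ih
    let R : MvPolynomial σ ℝ →ₗ[ℝ] MvPolynomial σ ℝ :=
      { toFun := fun q => rho e * dde e q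
        map_add' := by
          intro x y
          simp only [dde, de, map_add, mul_add, Finset.sum_add_distrib]
        map_smul' := by
          intro c x
          simp only [dde, de, Derivation.map_smul, mul_smul_comm, ← Finset.smul_sum,
            RingHom.id_apply] }
    have hR : ∀ (d : ℝ) (q : MvPolynomial σ ℝ), rstep e d q = q - d • R q := by
      intro d q
      show q - C d * (rho e * dde e q) = q - d • (rho e * dde e q)
      rw [MvPolynomial.C_mul']
    refine ⟨N + 1, fun j => (if j < N then w j else 0) - (if j = 0 then 0 else R (w (j - 1))),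
      fun d => ?_⟩
    have h1 : reg e (n + 1) d p = rstep e d (reg e n d p) := by
      unfold reg
      rw [Function.iterate_succ_apply']
    rw [h1, hR, hw d]
    simp only [smul_sub]
    rw [Finset.sum_sub_distrib]
    congr 1
    · rw [Finset.sum_range_succ]
      simp only [lt_irrefl, if_false, smul_zero, add_zero]
      apply Finset.sum_congr rfl
      intro j hj
      rw [if_pos (Finset.mem_range.1 hj)]
    · rw [Finset.sum_range_succ']
      simp only [Nat.add_eq_zero_iff, one_ne_zero, and_false, if_false, if_true, smul_zero,
        add_zero, Nat.add_sub_cancel]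
      rw [map_sum, Finset.smul_sum]
      apply Finset.sum_congr rfl
      intro j _
      rw [map_smul, smul_smul, pow_succ, mul_comm]

/-- G11. Continuity of the regularization. -/
theorem regCont2 : S2_RegCont := by
  intro σ _ e p n
  obtain ⟨N, w, hw⟩ := reg_poly2 e p n
  constructor
  · intro L
    have h : (fun δ : ℝ => L (reg e n δ p)) =
        fun δ : ℝ => ∑ j ∈ Finset.range N, δ ^ j * L (w j) := by
      funext δ
      rw [hw, map_sum]
      apply Finset.sum_congr rfl
      intro j _
      rw [map_smul, smul_eq_mul]
    rw [h]
    fun_prop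
  · have h : (fun y : ℝ × (σ → ℝ) => eval y.2 (reg e n y.1 p)) =
        fun y : ℝ × (σ → ℝ) => ∑ j ∈ Finset.range N, y.1 ^ j * eval y.2 (w j) := by
      funext y
      rw [hw, map_sum]
      apply Finset.sum_congr rfl
      intro j _
      rw [MvPolynomial.smul_eval]
    rw [h]
    refine continuous_finsetSum _ fun j _ => ?_
    exact (continuous_fst.pow j).mul ((MvPolynomial.continuous_eval (w j)).comp continuous_snd)

end Pool.Agent.H783.HL
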