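import Pool.Agent.H783.HL.Stm2

/-!
# Restriction to real lines (statement `S2_Slice`)
-/

set_option autoImplicit false

namespace Pool.Agent.H783.HL

open MvPolynomial

namespace Slice2N

variable {σ : Type} [Fintype σ]

theorem de_add (e : σ → ℝ) (p q : MvPolynomial σ ℝ) : de e (p + q) = de e p + de e q := by
  unfold de
  rw [← Finset.sum_add_distrib]
  refine Finset.sum_congr rfl fun k _ => ?_
  rw [map_add, mul_add]

theorem de_mul (e : σ → ℝ) (p q : MvPolynomial σ ℝ) :
    de e (p * q) = de e p * q + p * de e q := by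
  unfold de
  rw [Finset.sum_mul, Finset.mul_sum, ← Finset.sum_add_distrib]
  refine Finset.sum_congr rfl fun k _ => ?_
  rw [pderiv_mul]
  ring

theorem de_C (e : σ → ℝ) (a : ℝ) : de e (C a) = 0 := by
  unfold de
  refine Finset.sum_eq_zero fun k _ => ?_
  rw [pderiv_C, mul_zero]

theorem de_X (e : σ → ℝ) (n : σ) : de e (X n) = C (e n) := by
  classical
  unfold de
  rw [Finset.sum_eq_single n]
  · rw [pderiv_X_self, mul_one]
  · intro k _ hk
    rw [pderiv_X_of_ne hk.symm, mul_zero]
  · intro h
    exact absurd (Finset.mem_univ n) h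

omit [Fintype σ] in
theorem slice_add (e x : σ → ℝ) (p q : MvPolynomial σ ℝ) :
    slice e x (p + q) = slice e x p + slice e x q := map_add _ _ _

omit [Fintype σ] in
theorem slice_mul (e x : σ → ℝ) (p q : MvPolynomial σ ℝ) :
    slice e x (p * q) = slice e x p * slice e x q := map_mul _ _ _

omit [Fintype σ] in
theorem slice_C (e x : σ → ℝ) (a : ℝ) : slice e x (C a) = Polynomial.C a := by
  unfold slice
  rw [aeval_C]
  rfl

omit [Fintype σ] in
theorem slice_X (e x : σ → ℝ) (n : σ) :
    slice e x (X n) = Polynomial.C (x n) + Polynomial.C (e n) * Polynomial.X := by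
  unfold slice
  rw [aeval_X]

theorem slice_deriv (e x : σ → ℝ) (q : MvPolynomial σ ℝ) :
    Polynomial.derivative (slice e x q) = slice e x (de e q) := by
  induction q using MvPolynomial.induction_on with
  | C a => rw [slice_C, de_C, Polynomial.derivative_C]; exact (map_zero _).symm
  | add p q hp hq => rw [slice_add, Polynomial.derivative_add, hp, hq, de_add, slice_add]
  | mul_X p n hp =>
    rw [slice_mul, Polynomial.derivative_mul, hp, de_mul, slice_add, slice_mul, slice_mul, slice_X,
      de_X, slice_C]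
    congr 2
    simp

theorem slice_eval (e x : σ → ℝ) (q : MvPolynomial σ ℝ) (t : ℝ) :
    (slice e x q).eval t = eval (fun k => x k + t * e k) q := by
  induction q using MvPolynomial.induction_on with
  | C a => rw [slice_C, Polynomial.eval_C, eval_C]
  | add p q hp hq => rw [slice_add, Polynomial.eval_add, hp, hq, map_add]
  | mul_X p n hp =>
    rw [slice_mul, Polynomial.eval_mul, hp, map_mul, slice_X, eval_X, Polynomial.eval_add,
      Polynomial.eval_C, Polynomial.eval_mul, Polynomial.eval_C, Polynomial.eval_X,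
      mul_comm (e n) t]

theorem slice_aeval (e x : σ → ℝ) (q : MvPolynomial σ ℝ) (z : ℂ) :
    Polynomial.aeval z (slice e x q) = aeval (fun k => (x k : ℂ) + z * e k) q := by
  induction q using MvPolynomial.induction_on with
  | C a => rw [slice_C, Polynomial.aeval_C, aeval_C]
  | add p q hp hq => rw [slice_add, map_add, hp, hq, map_add]
  | mul_X p n hp =>
    rw [slice_mul, map_mul, hp, map_mul, slice_X, aeval_X, map_add, map_mul, Polynomial.aeval_C,
      Polynomial.aeval_C, Polynomial.aeval_X]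
    show _ * ((x n : ℂ) + (e n : ℂ) * z) = _
    rw [mul_comm (e n : ℂ) z]

theorem slice_natDegree (e x : σ → ℝ) (q : MvPolynomial σ ℝ) :
    (slice e x q).natDegree ≤ q.totalDegree := by
  unfold slice
  rw [aeval_def, eval₂_eq']
  refine Polynomial.natDegree_sum_le_of_forall_le _ _ fun d hd => ?_
  refine (Polynomial.natDegree_C_mul_le _ _).trans ?_
  refine (Polynomial.natDegree_prod_le _ _).trans ?_
  refine le_trans ?_ (le_totalDegree hd)
  rw [Finsupp.sum_fintype _ _ fun _ => rfl]
  refine Finset.sum_le_sum fun i _ => ?_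
  refine (Polynomial.natDegree_pow_le).trans ?_
  have h1 : (Polynomial.C (x i) + Polynomial.C (e i) * Polynomial.X).natDegree ≤ 1 := by
    refine (Polynomial.natDegree_add_le _ _).trans (max_le ?_ ?_)
    · rw [Polynomial.natDegree_C]; exact Nat.zero_le _
    · exact (Polynomial.natDegree_C_mul_le _ _).trans Polynomial.natDegree_X_le
  calc d i * (Polynomial.C (x i) + Polynomial.C (e i) * Polynomial.X).natDegree ≤ d i * 1 :=
        Nat.mul_le_mul_left _ h1
    _ = d i := mul_one _

theorem eval_rho (e x : σ → ℝ) :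
    eval x (rho e) = (∑ k, e k ^ 2) * (∑ k, x k ^ 2) - (∑ k, e k * x k) ^ 2 := by
  unfold rho
  simp

theorem slice_rho (e x : σ → ℝ) : slice e x (rho e) = Polynomial.C (eval x (rho e)) := by
  have h1 : slice e x (rho e) = Polynomial.C (∑ k, e k ^ 2) *
      (∑ k, (Polynomial.C (x k) + Polynomial.C (e k) * Polynomial.X) ^ 2) -
      (∑ k, Polynomial.C (e k) * (Polynomial.C (x k) + Polynomial.C (e k) * Polynomial.X)) ^ 2 := by
    unfold rho slice
    simp only [map_sub, map_mul, map_sum, map_pow, aeval_X, aeval_C]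
    rfl
  have h2 : ∑ k, (Polynomial.C (x k) + Polynomial.C (e k) * Polynomial.X) ^ 2 =
      Polynomial.C (∑ k, x k ^ 2) + 2 * Polynomial.C (∑ k, e k * x k) * Polynomial.X +
        Polynomial.C (∑ k, e k ^ 2) * Polynomial.X ^ 2 := by
    rw [map_sum, map_sum, map_sum, Finset.mul_sum, Finset.sum_mul, Finset.sum_mul,
      ← Finset.sum_add_distrib, ← Finset.sum_add_distrib]
    refine Finset.sum_congr rfl fun k _ => ?_
    rw [map_pow, map_mul, map_pow]
    ring
  have h3 : ∑ k, Polynomial.C (e k) * (Polynomial.C (x k) + Polynomial.C (e k) * Polynomial.X) =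
      Polynomial.C (∑ k, e k * x k) + Polynomial.C (∑ k, e k ^ 2) * Polynomial.X := by
    rw [map_sum, map_sum, Finset.sum_mul, ← Finset.sum_add_distrib]
    refine Finset.sum_congr rfl fun k _ => ?_
    rw [map_pow, map_mul]
    ring
  rw [h1, h2, h3, eval_rho, map_sub, map_mul, map_pow]
  ring

theorem rho_nonneg (e x : σ → ℝ) : 0 ≤ eval x (rho e) := by
  rw [eval_rho]
  have := Finset.sum_mul_sq_le_sq_mul_sq Finset.univ e x
  linarith

theorem rho_eq_zero (e x : σ → ℝ) (he : ∃ k, e k ≠ 0) (h : eval x (rho e) = 0) :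
    ∃ t : ℝ, x = fun k => t * e k := by
  rw [eval_rho] at h
  obtain ⟨k0, hk0⟩ := he
  obtain ⟨E, hE⟩ : ∃ E, E = ∑ k, e k ^ 2 := ⟨_, rfl⟩
  obtain ⟨D, hD⟩ : ∃ D, D = ∑ k, e k * x k := ⟨_, rfl⟩
  obtain ⟨Q, hQ⟩ : ∃ Q, Q = ∑ k, x k ^ 2 := ⟨_, rfl⟩
  rw [← hE, ← hD, ← hQ] at h
  have hE0 : 0 < E := by
    rw [hE]
    refine lt_of_lt_of_le (pow_pos (abs_pos.mpr hk0) 2) ?_
    rw [sq_abs]
    exact Finset.single_le_sum (f := fun k => e k ^ 2) (fun i _ => sq_nonneg _)
      (Finset.mem_univ k0)
  have hz : ∑ k, (x k - D / E * e k) ^ 2 = 0 := by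
    have h1 : ∑ k, (x k - D / E * e k) ^ 2 = Q - 2 * (D / E) * D + (D / E) ^ 2 * E := by
      rw [hQ, show (2 * (D / E) * D) = 2 * (D / E) * ∑ k, e k * x k by rw [← hD],
        show ((D / E) ^ 2 * E) = (D / E) ^ 2 * ∑ k, e k ^ 2 by rw [← hE], Finset.mul_sum,
        Finset.mul_sum, ← Finset.sum_sub_distrib, ← Finset.sum_add_distrib]
      refine Finset.sum_congr rfl fun k _ => ?_
      ring
    rw [h1]
    field_simp
    linarith
  refine ⟨D / E, ?_⟩
  funext k
  have h2 := (Finset.sum_eq_zero_iff_of_nonneg (fun i _ => sq_nonneg (x i - D / E * e i))).mp hz k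
    (Finset.mem_univ k)
  have h3 : x k - D / E * e k = 0 := by
    rwa [sq_eq_zero_iff] at h2
  linarith

end Slice2N

open Slice2N

theorem slice2 : S2_Slice := by
  intro σ _ e x q
  exact ⟨slice_deriv e x q, slice_eval e x q, slice_aeval e x q, slice_natDegree e x q,
    slice_rho e x, rho_nonneg e x, rho_eq_zero e x⟩

end Pool.Agent.H783.HL
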