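import Pool.Agent.H783.HL.Stm2

/-!
# HL2-6: the Lorentz trace inequality for quadratic forms stable on a product of light cones

`starQuad : S2_StarQuad` (helper353 for helper783).
-/

set_option autoImplicit false

namespace Pool.Agent.H783.HL

open MvPolynomial

/-- a one-sided limit -/
theorem sqLim2 (a b c : ℝ) (h : ∀ ε : ℝ, 0 < ε → 0 ≤ a + ε * b + ε ^ 2 * c) : 0 ≤ a := by
  by_contra ha
  push Not at ha
  have hM : 0 < 2 * (|b| + |c| + 1) := by positivity
  obtain ⟨ε, hε⟩ : ∃ ε : ℝ, ε = min 1 (-a / (2 * (|b| + |c| + 1))) := ⟨_, rfl⟩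
  have h1 : 0 < ε := by
    rw [hε]
    exact lt_min one_pos (div_pos (by linarith) hM)
  have h2 : ε ≤ 1 := by
    rw [hε]
    exact min_le_left _ _
  have h3 : ε * (2 * (|b| + |c| + 1)) ≤ -a := by
    rw [← le_div_iff₀ hM, hε]
    exact min_le_right _ _
  have h4 := h ε h1
  have h5 : ε * b ≤ ε * |b| := mul_le_mul_of_nonneg_left (le_abs_self b) h1.le
  have h6 : ε ^ 2 * c ≤ ε * |c| := by
    calc ε ^ 2 * c ≤ ε ^ 2 * |c| := mul_le_mul_of_nonneg_left (le_abs_self c) (sq_nonneg _)
      _ ≤ ε * |c| := mul_le_mul_of_nonneg_right (by nlinarith) (abs_nonneg c)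
  nlinarith

theorem sqSmul2 {ι K : Type} [Fintype K] {v : ι × Option K → ℝ} (hv : v ∈ PC ι K) {s : ℝ}
    (hs : 0 < s) : s • v ∈ PC ι K := by
  intro j
  obtain ⟨h0, h1⟩ := hv j
  refine ⟨by simpa using mul_pos hs h0, ?_⟩
  simp only [Pi.smul_apply, smul_eq_mul, mul_pow]
  rw [← Finset.mul_sum]
  exact mul_lt_mul_of_pos_left h1 (by positivity)

theorem sqAdd2 {ι K : Type} [Fintype K] {v w : ι × Option K → ℝ} (hv : v ∈ PC ι K)
    (hw : w ∈ PC ι K) : v + w ∈ PC ι K := by
  intro j
  obtain ⟨hv0, hv1⟩ := hv j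
  obtain ⟨hw0, hw1⟩ := hw j
  refine ⟨add_pos hv0 hw0, ?_⟩
  have hcs := Finset.sum_mul_sq_le_sq_mul_sq Finset.univ (fun b => v (j, some b))
    (fun b => w (j, some b))
  have hlt : (∑ b, v (j, some b) ^ 2) * (∑ b, w (j, some b) ^ 2) <
      v (j, none) ^ 2 * w (j, none) ^ 2 :=
    mul_lt_mul'' hv1 hw1 (Finset.sum_nonneg fun _ _ => sq_nonneg _)
      (Finset.sum_nonneg fun _ _ => sq_nonneg _)
  have hd : ∑ b, v (j, some b) * w (j, some b) < v (j, none) * w (j, none) := by
    apply lt_of_pow_lt_pow_left₀ 2 (mul_pos hv0 hw0).le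
    rw [mul_pow]
    exact lt_of_le_of_lt hcs hlt
  have he : ∑ b, (v + w) (j, some b) ^ 2 = ∑ b, v (j, some b) ^ 2 +
      2 * ∑ b, v (j, some b) * w (j, some b) + ∑ b, w (j, some b) ^ 2 := by
    rw [Finset.mul_sum, ← Finset.sum_add_distrib, ← Finset.sum_add_distrib]
    exact Finset.sum_congr rfl fun b _ => by simp only [Pi.add_apply]; ring
  rw [he]
  simp only [Pi.add_apply]
  nlinarith

theorem sqPe2 {ι K : Type} [Fintype K] : (pe : ι × Option K → ℝ) ∈ PC ι K := by
  intro j
  simp [pe]

/-- the core: a Lorentzian bilinear form on the product cone -/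
theorem sqCore2 {ι K : Type} [Fintype ι] [Fintype K] [DecidableEq ι] [DecidableEq K]
    (B : (ι × Option K → ℝ) →ₗ[ℝ] (ι × Option K → ℝ) →ₗ[ℝ] ℝ)
    (hs : ∀ v w, B v w = B w v)
    (H : ∀ x, ∀ v ∈ PC ι K, ¬ (B x x = B v v ∧ B x v = 0))
    (hp : 0 < B pe pe) (j : ι) :
    0 ≤ B (Pi.single (j, none) 1) (Pi.single (j, none) 1) -
      ∑ b : K, B (Pi.single (j, some b) 1) (Pi.single (j, some b) 1) := by
  -- nonvanishing
  have hne : ∀ v ∈ PC ι K, B v v ≠ 0 := by
    intro v hv h0
    exact H 0 v hv ⟨by simp [h0], by simp⟩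
  -- positivity on the cone
  have hpos : ∀ v ∈ PC ι K, 0 < B v v := by
    intro v hv
    by_contra hcon
    have hneg : B v v < 0 := lt_of_le_of_ne (not_lt.1 hcon) (hne v hv)
    have hcont : ContinuousOn (fun t : ℝ => (1 - t) ^ 2 * B pe pe + 2 * (t * (1 - t)) * B pe v +
        t ^ 2 * B v v) (Set.Icc 0 1) := by
      apply Continuous.continuousOn
      fun_prop
    have h0 : (0 : ℝ) ∈ Set.Icc ((fun t : ℝ => (1 - t) ^ 2 * B pe pe +
        2 * (t * (1 - t)) * B pe v + t ^ 2 * B v v) 1) ((fun t : ℝ => (1 - t) ^ 2 * B pe pe +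
        2 * (t * (1 - t)) * B pe v + t ^ 2 * B v v) 0) := by
      constructor
      · simp only
        nlinarith
      · simp only
        nlinarith
    obtain ⟨t, ht, h⟩ := intermediate_value_Icc' (zero_le_one : (0 : ℝ) ≤ 1) hcont h0
    simp only at h
    rcases eq_or_lt_of_le ht.1 with h1 | h1
    · rw [← h1] at h
      apply absurd h
      nlinarith
    rcases eq_or_lt_of_le ht.2 with h2 | h2
    · rw [h2] at h
      apply absurd h
      nlinarith
    have hm : (1 - t) • pe + t • v ∈ PC ι K :=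
      sqAdd2 (sqSmul2 sqPe2 (by linarith)) (sqSmul2 hv h1)
    apply hne _ hm
    simp only [map_add, map_smul, LinearMap.add_apply, LinearMap.smul_apply, smul_eq_mul]
    rw [hs v pe]
    linarith
  -- reversed Cauchy-Schwarz
  have hcs : ∀ v ∈ PC ι K, ∀ w, B w w * B v v ≤ B w v ^ 2 := by
    intro v hv w
    by_contra hcon
    push Not at hcon
    have hv0 := hpos v hv
    have hx1 : B (w - (B w v / B v v) • v) v = 0 := by
      simp only [map_sub, map_smul, LinearMap.sub_apply, LinearMap.smul_apply, smul_eq_mul]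
      field_simp
      ring
    have hx2 : B (w - (B w v / B v v) • v) (w - (B w v / B v v) • v) =
        (B w w * B v v - B w v ^ 2) / B v v := by
      simp only [map_sub, map_smul, LinearMap.sub_apply, LinearMap.smul_apply, smul_eq_mul]
      rw [hs v w]
      field_simp
      ring
    have hq : 0 < (B w w * B v v - B w v ^ 2) / B v v / B v v :=
      div_pos (div_pos (by linarith) hv0) hv0
    apply H (w - (B w v / B v v) • v) (Real.sqrt ((B w w * B v v - B w v ^ 2) / B v v / B v v) • v)
      (sqSmul2 hv (Real.sqrt_pos.2 hq))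
    constructor
    · rw [hx2]
      simp only [map_smul, LinearMap.smul_apply, smul_eq_mul]
      rw [← mul_assoc, Real.mul_self_sqrt hq.le]
      field_simp
    · rw [map_smul, hx1, smul_zero]
  -- positivity of the pairing
  have hpp : ∀ v ∈ PC ι K, ∀ w ∈ PC ι K, 0 < B v w := by
    intro v hv w hw
    have h1 := hpos v hv
    have h2 := hpos w hw
    have h4 : ∀ z ∈ PC ι K, B v z ≠ 0 := by
      intro z hz h0
      have h3 := hcs v hv z
      rw [hs z v, h0] at h3
      have := mul_pos (hpos z hz) h1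
      nlinarith
    by_contra hcon
    have h5 : B v w < 0 := lt_of_le_of_ne (not_lt.1 hcon) (h4 w hw)
    apply h4 ((-B v w) • v + (B v v) • w) (sqAdd2 (sqSmul2 hv (by linarith)) (sqSmul2 hw h1))
    simp only [map_add, map_smul, smul_eq_mul]
    ring
  -- the closed version
  have hcl : ∀ v ∈ PC ι K, ∀ z : ι × Option K → ℝ, (∀ δ : ℝ, 0 < δ → z + δ • pe ∈ PC ι K) →
      0 ≤ B v z := by
    intro v hv z hz
    apply sqLim2 (B v z) (B v pe) 0
    intro δ hδ
    have := hpp v hv _ (hz δ hδ)
    simp only [map_add, map_smul, smul_eq_mul] at this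
    linarith
  -- the vectors
  have hE : ∀ u : K → ℝ, ∑ b, u b ^ 2 ≤ 1 → ∀ δ : ℝ, 0 < δ →
      (Pi.single (j, none) 1 + ∑ b, u b • Pi.single (j, some b) 1) + δ • pe ∈ PC ι K := by
    intro u hu δ hδ i
    have e1 : (Pi.single (j, none) 1 + ∑ b, u b • Pi.single (j, some b) 1 + δ • pe :
        ι × Option K → ℝ) (i, none) = (if i = j then 1 else 0) + δ := by
      simp only [Pi.add_apply, Pi.smul_apply, Finset.sum_apply, smul_eq_mul, pe]
      rw [Finset.sum_eq_zero]
      · by_cases hij : i = j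
        · subst hij
          simp
        · simp [hij]
      · intro b _
        simp
    have e2 : ∀ c : K, (Pi.single (j, none) 1 + ∑ b, u b • Pi.single (j, some b) 1 + δ • pe :
        ι × Option K → ℝ) (i, some c) = if i = j then u c else 0 := by
      intro c
      simp only [Pi.add_apply, Pi.smul_apply, Finset.sum_apply, smul_eq_mul, pe]
      by_cases hij : i = j
      · subst hij
        rw [Finset.sum_eq_single c]
        · simp
        · intro b _ hb
          simp [Ne.symm hb]
        · intro h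
          exact absurd (Finset.mem_univ c) h
      · rw [Finset.sum_eq_zero]
        · simp [hij]
        · intro b _
          simp [hij]
    rw [e1]
    simp only [e2]
    by_cases hij : i = j
    · simp only [hij, if_true]
      refine ⟨by linarith, ?_⟩
      nlinarith
    · simp only [hij, if_false]
      refine ⟨by linarith, ?_⟩
      simp
      positivity
  have hE0 : ∀ δ : ℝ, 0 < δ → (Pi.single (j, none) 1 + δ • pe : ι × Option K → ℝ) ∈ PC ι K := by
    intro δ hδ
    have := hE (fun _ => 0) (by simp) δ hδ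
    simpa using this
  -- the space part is dominated by the time part
  have hdom : ∀ v ∈ PC ι K, ∑ b : K, B v (Pi.single (j, some b) 1) ^ 2 ≤
      B v (Pi.single (j, none) 1) ^ 2 := by
    intro v hv
    have hR0 : 0 ≤ ∑ b : K, B v (Pi.single (j, some b) 1) ^ 2 :=
      Finset.sum_nonneg fun _ _ => sq_nonneg _
    obtain ⟨R, hR⟩ : ∃ R : ℝ, R = Real.sqrt (∑ b : K, B v (Pi.single (j, some b) 1) ^ 2) :=
      ⟨_, rfl⟩
    have hRs : R ^ 2 = ∑ b : K, B v (Pi.single (j, some b) 1) ^ 2 := by
      rw [hR, Real.sq_sqrt hR0]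
    have hRn : 0 ≤ R := by
      rw [hR]
      exact Real.sqrt_nonneg _
    rcases eq_or_lt_of_le hRn with h0 | h0
    · rw [← hRs, ← h0]
      simp only [ne_eq, OfNat.ofNat_ne_zero, not_false_eq_true, zero_pow]
      exact sq_nonneg _
    · have h1 : ∑ b : K, (-(B v (Pi.single (j, some b) 1)) / R) ^ 2 ≤ 1 := by
        simp only [div_pow, neg_sq]
        rw [← Finset.sum_div, ← hRs, div_self (by positivity)]
      have h2 := hcl v hv _ (hE _ h1)
      simp only [map_add, map_sum, map_smul, smul_eq_mul] at h2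
      have h3 : ∑ b : K, -(B v (Pi.single (j, some b) 1)) / R * B v (Pi.single (j, some b) 1) =
          -R := by
        have h4 : ∀ b : K, -(B v (Pi.single (j, some b) 1)) / R * B v (Pi.single (j, some b) 1) =
            B v (Pi.single (j, some b) 1) ^ 2 * (-(1 / R)) := by
          intro b
          ring
        simp only [h4]
        rw [← Finset.sum_mul, ← hRs]
        field_simp
      rw [h3] at h2
      rw [← hRs]
      exact pow_le_pow_left₀ hRn (by linarith) 2
  -- the estimate with `v = E + ε pe`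
  obtain ⟨A, hA⟩ : ∃ A : ℝ, A = B (Pi.single (j, none) 1) (Pi.single (j, none) 1) := ⟨_, rfl⟩
  obtain ⟨P, hP⟩ : ∃ P : ℝ, P = B (Pi.single (j, none) 1) pe := ⟨_, rfl⟩
  obtain ⟨D, hD⟩ : ∃ D : ℝ, D = B pe pe := ⟨_, rfl⟩
  obtain ⟨S, hS⟩ : ∃ S : ℝ, S = ∑ b : K, B (Pi.single (j, some b) 1) (Pi.single (j, some b) 1) :=
    ⟨_, rfl⟩
  rw [← hA, ← hS]
  have hkey : ∀ ε : ℝ, 0 < ε → ε ^ 2 * (A * D - P ^ 2) ≤
      (A - S) * (A + 2 * ε * P + ε ^ 2 * D) := by
    intro ε hε
    have hv := hE0 ε hε
    have hb : B (Pi.single (j, none) 1 + ε • pe) (Pi.single (j, none) 1 + ε • pe) =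
        A + 2 * ε * P + ε ^ 2 * D := by
      simp only [map_add, map_smul, LinearMap.add_apply, LinearMap.smul_apply, smul_eq_mul]
      rw [hs pe (Pi.single (j, none) 1), ← hA, ← hP, ← hD]
      ring
    have hb2 : B (Pi.single (j, none) 1 + ε • pe) (Pi.single (j, none) 1) = A + ε * P := by
      simp only [map_add, map_smul, LinearMap.add_apply, LinearMap.smul_apply, smul_eq_mul]
      rw [hs pe (Pi.single (j, none) 1), ← hA, ← hP]
    have h1 : S * (A + 2 * ε * P + ε ^ 2 * D) ≤ (A + ε * P) ^ 2 := by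
      rw [← hb, ← hb2, hS, Finset.sum_mul]
      refine le_trans (Finset.sum_le_sum fun b _ => ?_) (hdom _ hv)
      rw [hs (Pi.single (j, none) 1 + ε • pe) (Pi.single (j, some b) 1)]
      exact hcs _ hv _
    nlinarith
  have hP0 : 0 ≤ P := by
    rw [hP, hs]
    exact hcl pe sqPe2 _ hE0
  have hA0 : 0 ≤ A := by
    apply sqLim2 A (2 * P) D
    intro ε hε
    have := hpos _ (hE0 ε hε)
    simp only [map_add, map_smul, LinearMap.add_apply, LinearMap.smul_apply, smul_eq_mul] at this
    rw [hs pe (Pi.single (j, none) 1), ← hA, ← hP, ← hD] at this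
    nlinarith
  rw [← hD] at hp
  rcases eq_or_lt_of_le hA0 with h0 | h0
  · rcases eq_or_lt_of_le hP0 with h1 | h1
    · have := hkey 1 one_pos
      rw [← h0, ← h1] at this
      rw [← h0]
      nlinarith
    · have h2 : 0 ≤ (A - S) * (2 * P) := by
        apply sqLim2 _ ((A - S) * D + P ^ 2) 0
        intro ε hε
        have := hkey ε hε
        rw [← h0] at this ⊢
        have h3 : 0 ≤ ε * ((0 - S) * (2 * P) + ε * ((0 - S) * D + P ^ 2) + ε ^ 2 * 0) := by
          nlinarith
        exact nonneg_of_mul_nonneg_right h3 hε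
      exact nonneg_of_mul_nonneg_left h2 (by linarith)
  · have h2 : 0 ≤ (A - S) * A := by
      apply sqLim2 _ ((A - S) * (2 * P)) ((A - S) * D - (A * D - P ^ 2))
      intro ε hε
      have := hkey ε hε
      nlinarith
    exact nonneg_of_mul_nonneg_left h2 h0

/-- partial derivatives commute -/
theorem sqComm2 {σ : Type} (q : MvPolynomial σ ℝ) (k l : σ) :
    pderiv l (pderiv k q) = pderiv k (pderiv l q) := by
  classical
  have h : ⁅(pderiv l : Derivation ℝ (MvPolynomial σ ℝ) (MvPolynomial σ ℝ)),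
      (pderiv k : Derivation ℝ (MvPolynomial σ ℝ) (MvPolynomial σ ℝ))⁆ = 0 := by
    apply derivation_ext
    intro i
    simp only [Derivation.commutator_apply, pderiv_X, Pi.single_apply]
    split_ifs <;> simp
  have h2 := congrArg (fun D : Derivation ℝ (MvPolynomial σ ℝ) (MvPolynomial σ ℝ) => D q) h
  simp only [Derivation.commutator_apply, Derivation.coe_zero, Pi.zero_apply] at h2
  exact sub_eq_zero.1 h2

/-- a quadratic form is given by its matrix of second derivatives -/
theorem sqMat2 {σ : Type} [Fintype σ] (q : MvPolynomial σ ℝ) (hq : q.IsHomogeneous 2) :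
    ∃ M : σ → σ → ℝ, (∀ k l, M k l = M l k) ∧ (∀ k l, pderiv l (pderiv k q) = C (M k l)) ∧
      2 • q = ∑ k, X k * ∑ l, X l * C (M k l) := by
  have h1 : ∀ k l, ∃ c : ℝ, pderiv l (pderiv k q) = C c := by
    intro k l
    have h : (pderiv l (pderiv k q)).IsHomogeneous 0 := by
      have h2 : (pderiv k q).IsHomogeneous 1 := hq.pderiv
      exact h2.pderiv
    rw [← totalDegree_zero_iff_isHomogeneous, totalDegree_eq_zero_iff_eq_C] at h
    exact ⟨_, h⟩
  choose M hM using h1
  refine ⟨M, ?_, hM, ?_⟩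
  · intro k l
    have h2 : (C (M k l) : MvPolynomial σ ℝ) = C (M l k) := by
      rw [← hM, ← hM]
      exact sqComm2 q k l
    exact C_injective _ _ h2
  · rw [← hq.sum_X_mul_pderiv]
    refine Finset.sum_congr rfl fun k _ => ?_
    have h2 : (pderiv k q).IsHomogeneous 1 := hq.pderiv
    have h3 := h2.sum_X_mul_pderiv
    rw [one_smul] at h3
    rw [← h3]
    simp only [hM]

/-- **HL2-6.** -/
theorem starQuad : S2_StarQuad := by
  classical
  intro ι K _ _ q hq hst
  obtain ⟨M, hM1, hM2, hM3⟩ := sqMat2 q hq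
  have hB : ∀ v w : ι × Option K → ℝ, Matrix.toBilin' (Matrix.of M) v w =
      ∑ k, ∑ l, v k * M k l * w l := by
    intro v w
    rw [Matrix.toBilin'_apply]
    rfl
  have hsymm : ∀ v w, Matrix.toBilin' (Matrix.of M) v w = Matrix.toBilin' (Matrix.of M) w v := by
    intro v w
    rw [hB, hB, Finset.sum_comm]
    refine Finset.sum_congr rfl fun k _ => Finset.sum_congr rfl fun l _ => ?_
    rw [hM1 l k]
    ring
  have hev : ∀ v, 2 * eval v q = Matrix.toBilin' (Matrix.of M) v v := by
    intro v
    have h := congrArg (eval v) hM3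
    simp only [map_sum, map_mul, eval_X, eval_C, nsmul_eq_mul, Nat.cast_ofNat, map_ofNat] at h
    rw [h, hB]
    refine Finset.sum_congr rfl fun k _ => ?_
    rw [Finset.mul_sum]
    refine Finset.sum_congr rfl fun l _ => ?_
    ring
  have haev : ∀ x v, 2 * aeval (cp x v) q =
      ((Matrix.toBilin' (Matrix.of M) x x - Matrix.toBilin' (Matrix.of M) v v : ℝ) : ℂ) +
      ((Matrix.toBilin' (Matrix.of M) x v + Matrix.toBilin' (Matrix.of M) v x : ℝ) : ℂ) *
        Complex.I := by
    intro x v
    have h := congrArg (aeval (cp x v)) hM3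
    simp only [map_sum, map_mul, aeval_X, aeval_C, nsmul_eq_mul, Nat.cast_ofNat, map_ofNat,
      Complex.coe_algebraMap] at h
    rw [h]
    simp only [hB, ← Finset.sum_sub_distrib, ← Finset.sum_add_distrib, Complex.ofReal_sum,
      Finset.sum_mul, Finset.mul_sum]
    refine Finset.sum_congr rfl fun k _ => Finset.sum_congr rfl fun l _ => ?_
    simp only [cp, Complex.ofReal_add, Complex.ofReal_sub, Complex.ofReal_mul]
    linear_combination ((v k : ℂ) * v l * M k l) * Complex.I_sq
  have hH : ∀ x, ∀ v ∈ PC ι K, ¬ (Matrix.toBilin' (Matrix.of M) x x =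
      Matrix.toBilin' (Matrix.of M) v v ∧ Matrix.toBilin' (Matrix.of M) x v = 0) := by
    rintro x v hv ⟨h1, h2⟩
    apply hst x v hv
    have h3 := haev x v
    rw [hsymm v x, h1, h2] at h3
    simpa using h3
  have hdiag : ∀ k, Matrix.toBilin' (Matrix.of M) (Pi.single k 1) (Pi.single k 1) = M k k := by
    intro k
    rw [Matrix.toBilin'_single]
    rfl
  have hlap : eval pe (lap pw q) = ∑ j : ι, (M (j, none) (j, none) -
      ∑ b : K, M (j, some b) (j, some b)) := by
    simp only [lap, dd, hM2, map_sum, map_mul, eval_C]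
    rw [Fintype.sum_prod_type]
    refine Finset.sum_congr rfl fun j _ => ?_
    rw [Fintype.sum_option]
    simp [pw, Finset.sum_neg_distrib, sub_eq_add_neg]
  have h0 : Matrix.toBilin' (Matrix.of M) pe pe ≠ 0 := by
    intro h
    exact hH 0 pe sqPe2 ⟨by simp [h], by simp⟩
  rw [hlap]
  rcases lt_or_gt_of_ne h0 with hneg | hpos
  · have h1 : ∑ j : ι, (M (j, none) (j, none) - ∑ b : K, M (j, some b) (j, some b)) ≤ 0 := by
      apply Finset.sum_nonpos
      intro j _
      have h2 := sqCore2 (-(Matrix.toBilin' (Matrix.of M))) (by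
          intro v w
          simp only [LinearMap.neg_apply]
          rw [hsymm]) (by
          rintro x v hv ⟨h3, h4⟩
          simp only [LinearMap.neg_apply, neg_inj, neg_eq_zero] at h3 h4
          exact hH x v hv ⟨h3, h4⟩) (by
          simp only [LinearMap.neg_apply]
          linarith) j
      simp only [LinearMap.neg_apply, hdiag, Finset.sum_neg_distrib] at h2
      linarith
    have h3 : eval pe q ≤ 0 := by
      have := hev pe
      linarith
    exact mul_nonneg_of_nonpos_of_nonpos h3 h1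
  · have h1 : 0 ≤ ∑ j : ι, (M (j, none) (j, none) - ∑ b : K, M (j, some b) (j, some b)) := by
      apply Finset.sum_nonneg
      intro j _
      have h2 := sqCore2 (Matrix.toBilin' (Matrix.of M)) hsymm hH hpos j
      simp only [hdiag] at h2
      exact h2
    have h3 : 0 ≤ eval pe q := by
      have := hev pe
      linarith
    exact mul_nonneg h3 h1

end Pool.Agent.H783.HL
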