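import Pool.Agent.H783.HL.Stm

/-!
# Univariate bounds from the product over the roots
-/

set_option autoImplicit false

namespace Pool.Agent.H783.HL

theorem harn_norm_prod (s : Multiset ℂ) (t : ℂ) :
    ‖(s.map fun a => t - a).prod‖ = (s.map fun a => ‖t - a‖).prod := by
  induction s using Multiset.induction_on with
  | empty => simp
  | cons a s ih => rw [Multiset.map_cons, Multiset.prod_cons, norm_mul, ih, Multiset.map_cons,
      Multiset.prod_cons]

theorem harn_norm_eval (f : Polynomial ℂ) (t : ℂ) :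
    ‖f.eval t‖ = ‖f.leadingCoeff‖ * (f.roots.map fun a => ‖t - a‖).prod := by
  rw [(IsAlgClosed.splits f).eval_eq_prod_roots t, norm_mul, harn_norm_prod]

theorem harn_lower (t : ℂ) (ht : 0 < t.im) (s : Multiset ℂ) (hs : ∀ a ∈ s, a.im ≤ 0) :
    t.im ^ Multiset.card s ≤ (s.map fun a => ‖t - a‖).prod := by
  induction s using Multiset.induction_on with
  | empty => simp
  | cons a s ih =>
    rw [Multiset.card_cons, Multiset.map_cons, Multiset.prod_cons, pow_succ']
    have h1 : t.im ≤ ‖t - a‖ := by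
      have h2 : |(t - a).im| ≤ ‖t - a‖ := Complex.abs_im_le_norm _
      have h3 : (t - a).im ≤ |(t - a).im| := le_abs_self _
      have h4 := hs a (Multiset.mem_cons_self a s)
      rw [Complex.sub_im] at h2 h3
      linarith
    exact mul_le_mul h1 (ih fun b hb => hs b (Multiset.mem_cons_of_mem hb)) (by positivity)
      (norm_nonneg _)

theorem harn_upper (d : ℝ) (hd : 0 < d) (s : Multiset ℂ) (hs : ∀ a ∈ s, d ≤ ‖a‖) :
    (s.map fun a => ‖1 - a‖).prod ≤
      (1 + 1 / d) ^ Multiset.card s * (s.map fun a => ‖0 - a‖).prod ∧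
    0 ≤ (s.map fun a => ‖1 - a‖).prod := by
  induction s using Multiset.induction_on with
  | empty => simp
  | cons a s ih =>
    obtain ⟨ih1, ih2⟩ := ih fun b hb => hs b (Multiset.mem_cons_of_mem hb)
    rw [Multiset.card_cons, Multiset.map_cons, Multiset.prod_cons, Multiset.map_cons,
      Multiset.prod_cons, pow_succ']
    have h1 : ‖1 - a‖ ≤ (1 + 1 / d) * ‖0 - a‖ := by
      have h2 : ‖(1 : ℂ) - a‖ ≤ ‖(1 : ℂ)‖ + ‖a‖ := norm_sub_le _ _
      have h3 : ‖(0 : ℂ) - a‖ = ‖a‖ := by rw [zero_sub, norm_neg]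
      have h4 := hs a (Multiset.mem_cons_self a s)
      have h5 : 1 ≤ 1 / d * ‖a‖ := by
        rw [one_div, ← div_eq_inv_mul, le_div_iff₀ hd]
        linarith
      rw [norm_one] at h2
      rw [h3]
      linarith
    refine ⟨?_, mul_nonneg (norm_nonneg _) ih2⟩
    calc ‖1 - a‖ * (s.map fun a => ‖1 - a‖).prod ≤ ((1 + 1 / d) * ‖0 - a‖) *
        ((1 + 1 / d) ^ Multiset.card s * (s.map fun a => ‖0 - a‖).prod) :=
          mul_le_mul h1 ih1 ih2 (by positivity)
      _ = (1 + 1 / d) * (1 + 1 / d) ^ Multiset.card s *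
        (‖0 - a‖ * (s.map fun a => ‖0 - a‖).prod) := by ring

theorem uniLower : S_UniLower := by
  intro f hf t ht
  have hf0 : f ≠ 0 := by
    intro h
    apply hf t ht
    rw [h, Polynomial.eval_zero]
  have hroot : ∀ a ∈ f.roots, a.im ≤ 0 := by
    intro a ha
    by_contra hc
    exact hf a (not_le.1 hc) ((Polynomial.mem_roots hf0).1 ha)
  rw [harn_norm_eval f t, (IsAlgClosed.splits f).natDegree_eq_card_roots]
  exact mul_le_mul_of_nonneg_left (harn_lower t ht f.roots hroot) (norm_nonneg _)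

theorem harnack : S_Harnack := by
  intro f n d hn hd hf
  have hf0 : f ≠ 0 := by
    intro h
    apply hf 0 (by rw [norm_zero]; exact hd)
    rw [h, Polynomial.eval_zero]
  have hroot : ∀ a ∈ f.roots, d ≤ ‖a‖ := by
    intro a ha
    by_contra hc
    exact hf a (not_le.1 hc) ((Polynomial.mem_roots hf0).1 ha)
  obtain ⟨h1, h2⟩ := harn_upper d hd f.roots hroot
  have hone : (1 : ℝ) ≤ 1 + 1 / d := by
    have : 0 < 1 / d := by positivity
    linarith
  have h3 : (1 + 1 / d) ^ Multiset.card f.roots ≤ (1 + 1 / d) ^ n := by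
    apply pow_le_pow_right₀ hone
    rw [← (IsAlgClosed.splits f).natDegree_eq_card_roots]
    exact hn
  have h0 : ‖f.eval 0‖ = ‖f.leadingCoeff‖ * (f.roots.map fun a => ‖0 - a‖).prod :=
    harn_norm_eval f 0
  have h4 : 0 ≤ (f.roots.map fun a => ‖0 - a‖).prod := by
    apply Multiset.prod_nonneg
    intro x hx
    obtain ⟨a, _, rfl⟩ := Multiset.mem_map.1 hx
    exact norm_nonneg _
  rw [harn_norm_eval f 1, h0]
  calc ‖f.leadingCoeff‖ * (f.roots.map fun a => ‖1 - a‖).prod ≤
      ‖f.leadingCoeff‖ * ((1 + 1 / d) ^ Multiset.card f.roots *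
        (f.roots.map fun a => ‖0 - a‖).prod) := mul_le_mul_of_nonneg_left h1 (norm_nonneg _)
    _ ≤ ‖f.leadingCoeff‖ * ((1 + 1 / d) ^ n * (f.roots.map fun a => ‖0 - a‖).prod) :=
      mul_le_mul_of_nonneg_left (mul_le_mul_of_nonneg_right h3 h4) (norm_nonneg _)
    _ = (1 + 1 / d) ^ n * (‖f.leadingCoeff‖ * (f.roots.map fun a => ‖0 - a‖).prod) := by ring

end Pool.Agent.H783.HL
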