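import Pool.Agent.H783.HL.Star2
import Pool.Agent.H783.HL.Box2
import Pool.Agent.H783.HL.UniHarn
import Pool.Agent.H783.HL.Line
import Pool.Agent.H783.HL.Garding
import Pool.Agent.H783.HL.Local
import Pool.Agent.H783.HL.ImPart
import Pool.Agent.H783.HL.RR1
import Pool.Agent.H783.HL.RRexp
import Pool.Agent.H783.HL.PDE2
import Pool.Agent.H783.HL.Lowest2
import Pool.Agent.H783.HL.Flow2
import Pool.Agent.H783.HL.Extract2
import Pool.Agent.H783.HL.Deriv2
import Pool.Agent.H783.HL.StarQuad
import Pool.Agent.H783.HL.Slice2
import Pool.Agent.H783.HL.Reg2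
import Pool.Agent.H783.HL.RegCont2

/-!
# The theorem on iterated Laplacians of stable polynomials
-/

set_option autoImplicit false

namespace Pool.Agent.H783.HL

theorem hl_static : S2_Static :=
  static2 pde2 lowest2 flowTop2 (garding uniLower line) (local_stable harnack line) deriv2

theorem hl_main : S2_Main := main2 uniLower line imPart flowTop2 flowHom2 hl_static

theorem hl_box : S2_Box :=
  box2 hl_main (reg2 slice2 rrSub rrSimple (rrExp rrSub uniLower)) regCont2 extract2

theorem hl_star : S2_Star := star2 deriv2 starQuad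

end Pool.Agent.H783.HL
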