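import Pool.Agent.H783.HL.Stm

/-!
# The deformation argument
-/

set_option autoImplicit false
set_option linter.unusedSectionVars false

namespace Pool.Agent.H783.HL

open MvPolynomial Filter Topology

section deform

variable {σ I : Type} [Fintype σ]

/-- evaluation at a complex point is continuous -/
theorem cont_aeval (p : MvPolynomial σ ℝ) : Continuous fun z : σ → ℂ => aeval z p := by
  induction p using MvPolynomial.induction_on with
  | C a => simpa using continuous_const
  | add p q hp hq =>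
    simp only [map_add]
    exact hp.add hq
  | mul_X p k hp =>
    simp only [map_mul, aeval_X]
    exact hp.mul (continuous_apply k)

theorem cont_cp (e : σ → ℝ) : Continuous fun y : (σ → ℝ) × ℝ × ℝ => cp y.1 fun k => y.2.2 * e k := by
  unfold cp
  fun_prop

theorem cont_eval (p : MvPolynomial σ ℝ) : Continuous fun x : σ → ℝ => eval x p :=
  MvPolynomial.continuous_eval p

/-- a family of polynomials with coefficients depending on two parameters -/
noncomputable def fam (s : Finset I) (c : I → ℝ → ℝ → ℝ) (G : I → MvPolynomial σ ℝ) (b τ : ℝ) :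
    MvPolynomial σ ℝ :=
  ∑ i ∈ s, C (c i b τ) * G i

theorem fam_aeval (s : Finset I) (c : I → ℝ → ℝ → ℝ) (G : I → MvPolynomial σ ℝ) (b τ : ℝ)
    (z : σ → ℂ) : aeval z (fam s c G b τ) = ∑ i ∈ s, (c i b τ : ℂ) * aeval z (G i) := by
  unfold fam
  rw [map_sum]
  refine Finset.sum_congr rfl fun i _ => ?_
  rw [map_mul, aeval_C]
  rfl

theorem fam_cont (s : Finset I) (c : I → ℝ → ℝ → ℝ)
    (hc : ∀ i, Continuous fun y : ℝ × ℝ => c i y.1 y.2) (G : I → MvPolynomial σ ℝ) (e : σ → ℝ) :
    Continuous fun y : ℝ × (σ → ℝ) × ℝ × ℝ =>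
      aeval (cp y.2.1 fun k => y.2.2.2 * e k) (fam s c G y.1 y.2.2.1) := by
  simp only [fam_aeval]
  refine continuous_finsetSum _ fun i _ => ?_
  refine Continuous.mul ?_ ?_
  · have h1 : Continuous fun y : ℝ × (σ → ℝ) × ℝ × ℝ => (y.1, y.2.2.1) := by fun_prop
    exact Complex.continuous_ofReal.comp ((hc i).comp h1)
  · have h1 : Continuous fun y : ℝ × (σ → ℝ) × ℝ × ℝ => y.2 := by fun_prop
    exact (cont_aeval (G i)).comp ((cont_cp e).comp h1)

/-- the imaginary part of a family -/
theorem fam_im (hI : S_ImPart) (s : Finset I) (c : I → ℝ → ℝ → ℝ)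
    (hc : ∀ i, Continuous fun y : ℝ × ℝ => c i y.1 y.2) (G : I → MvPolynomial σ ℝ) (e : σ → ℝ) :
    ∃ H : ℝ × (σ → ℝ) × ℝ × ℝ → ℝ, Continuous H ∧
      (∀ b x τ t, (aeval (cp x fun k => t * e k) (fam s c G b τ)).im = t * H (b, x, τ, t)) ∧
      ∀ b x τ, H (b, x, τ, 0) = ∑ k, e k * eval x (pderiv k (fam s c G b τ)) := by
  choose h hcont him h0 using fun i => hI σ (G i) e
  refine ⟨fun y => ∑ i ∈ s, c i y.1 y.2.2.1 * h i (y.2.1, y.2.2.2), ?_, ?_, ?_⟩
  · refine continuous_finsetSum _ fun i _ => ?_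
    refine Continuous.mul ?_ ?_
    · have h1 : Continuous fun y : ℝ × (σ → ℝ) × ℝ × ℝ => (y.1, y.2.2.1) := by fun_prop
      exact (hc i).comp h1
    · have h1 : Continuous fun y : ℝ × (σ → ℝ) × ℝ × ℝ => (y.2.1, y.2.2.2) := by fun_prop
      exact (hcont i).comp h1
  · intro b x τ t
    rw [fam_aeval, Complex.im_sum, Finset.mul_sum]
    refine Finset.sum_congr rfl fun i _ => ?_
    rw [Complex.im_ofReal_mul, him]
    ring
  · intro b x τ
    have h1 : ∀ k, eval x (pderiv k (fam s c G b τ)) =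
        ∑ i ∈ s, c i b τ * eval x (pderiv k (G i)) := by
      intro k
      unfold fam
      rw [map_sum, map_sum]
      refine Finset.sum_congr rfl fun i _ => ?_
      rw [pderiv_C_mul, map_mul, eval_C]
    simp only [h1, h0, Finset.mul_sum]
    rw [Finset.sum_comm]
    refine Finset.sum_congr rfl fun k _ => Finset.sum_congr rfl fun i _ => ?_
    ring

/-- **The deformation argument.** -/
theorem deform (hI : S_ImPart) (s : Finset I) (c : I → ℝ → ℝ → ℝ)
    (hc : ∀ i, Continuous fun y : ℝ × ℝ => c i y.1 y.2) (G : I → MvPolynomial σ ℝ) (e : σ → ℝ)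
    (n : ℕ) (c₀ : ℝ) (hc₀ : 0 < c₀)
    (h0 : ∀ τ, Stab (fam s c G 0 τ) e)
    (hbound : ∀ b τ, Stab (fam s c G b τ) e → ∀ (x : σ → ℝ) (t : ℝ), 0 < t →
      c₀ * t ^ n ≤ ‖aeval (cp x fun k => t * e k) (fam s c G b τ)‖)
    (hhom : ∀ (b τ l : ℝ) (z : σ → ℂ), 0 < l → aeval (fun k => (l : ℂ) * z k)
      (fam s c G b (l * τ)) = (l : ℂ) ^ n * aeval z (fam s c G b τ))
    (hstatic : ∀ b, 0 ≤ b → (∀ τ, Stab (fam s c G b τ) e) → ∀ (x : σ → ℝ) (τ : ℝ),
      (x ≠ 0 ∨ τ ≠ 0) → eval x (fam s c G b τ) = 0 →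
      ∑ k, e k * eval x (pderiv k (fam s c G b τ)) ≠ 0) :
    ∀ b, 0 ≤ b → ∀ τ, Stab (fam s c G b τ) e := by
  have hΦ := fam_cont s c hc G e
  obtain ⟨H, hH, him, hH0⟩ := fam_im hI s c hc G e
  set Good : Set ℝ := {b | ∀ τ, Stab (fam s c G b τ) e} with hGood
  have hGood' : Good = {b | ∀ (τ : ℝ) (x : σ → ℝ) (t : ℝ), 0 < t →
      c₀ * t ^ n ≤ ‖aeval (cp x fun k => t * e k) (fam s c G b τ)‖} := by
    ext b
    constructor
    · intro h τ x t ht
      exact hbound b τ (h τ) x t ht
    · intro h τ x t ht h1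
      have h2 := h τ x t ht
      rw [h1, norm_zero] at h2
      have h3 : 0 < c₀ * t ^ n := by positivity
      linarith
  have hclosed : IsClosed Good := by
    rw [hGood']
    simp only [Set.ofPred_forall]
    refine isClosed_iInter fun τ => isClosed_iInter fun x => isClosed_iInter fun t =>
      isClosed_iInter fun _ => ?_
    refine isClosed_le continuous_const ?_
    have h1 : Continuous fun b : ℝ => (b, x, τ, t) := by fun_prop
    exact (hΦ.comp h1).norm
  have hopen : ∀ b, 0 ≤ b → b ∈ Good → Good ∈ 𝓝 b := by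
    intro b hb hg
    set Q : Set ((σ → ℝ) × ℝ × ℝ) := Metric.sphere 0 1 ∩ {y | 0 ≤ y.2.2} with hQ
    have hQc : IsCompact Q := by
      refine (isCompact_sphere 0 1).inter_right ?_
      exact isClosed_le continuous_const (by fun_prop)
    have hloc : ∀ y ∈ Q, ∀ᶠ z : ℝ × ((σ → ℝ) × ℝ × ℝ) in 𝓝 (b, y),
        ¬(aeval (cp z.2.1 fun k => z.2.2.2 * e k) (fam s c G z.1 z.2.2.1) = 0 ∧
          0 < z.2.2.2) := by
      intro y hy
      by_cases h1 : aeval (cp y.1 fun k => y.2.2 * e k) (fam s c G b y.2.1) = 0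
      · have h2 : y.2.2 = 0 := by
          by_contra hne
          have h3 : 0 < y.2.2 := lt_of_le_of_ne hy.2 (Ne.symm hne)
          exact hg y.2.1 y.1 y.2.2 h3 h1
        have h3 : y.1 ≠ 0 ∨ y.2.1 ≠ 0 := by
          by_contra hcon
          push Not at hcon
          have h4 : y = 0 := by
            ext1
            · exact hcon.1
            · ext1
              · exact hcon.2
              · exact h2
          have h5 := hy.1
          rw [h4] at h5
          simp at h5
        have h4 : eval y.1 (fam s c G b y.2.1) = 0 := by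
          have h5 : cp y.1 (fun k => y.2.2 * e k) = fun k => ((y.1 k : ℝ) : ℂ) := by
            funext k
            simp [cp, h2]
          rw [h5] at h1
          have h6 : aeval (fun k => ((y.1 k : ℝ) : ℂ)) (fam s c G b y.2.1) =
              ((eval y.1 (fam s c G b y.2.1) : ℝ) : ℂ) := by
            have := MvPolynomial.eval₂_comp_left (algebraMap ℝ ℂ) (RingHom.id ℝ) y.1
              (fam s c G b y.2.1)
            rw [aeval_def]
            simp only [RingHom.comp_id] at this
            exact this.symm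
          rw [h6] at h1
          exact_mod_cast h1
        have h5 : H (b, y.1, y.2.1, y.2.2) ≠ 0 := by
          rw [h2, hH0]
          exact hstatic b hb hg y.1 y.2.1 h3 h4
        have h6 : ∀ᶠ z : ℝ × ((σ → ℝ) × ℝ × ℝ) in 𝓝 (b, y), H z ≠ 0 :=
          hH.continuousAt.eventually_ne h5
        filter_upwards [h6] with z hz hcon
        obtain ⟨hz1, hz2⟩ := hcon
        have h7 := him z.1 z.2.1 z.2.2.1 z.2.2.2
        rw [hz1, Complex.zero_im] at h7
        rcases mul_eq_zero.1 h7.symm with h8 | h8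
        · exact absurd h8 hz2.ne'
        · exact hz h8
      · have h2 : ∀ᶠ z : ℝ × ((σ → ℝ) × ℝ × ℝ) in 𝓝 (b, y),
            aeval (cp z.2.1 fun k => z.2.2.2 * e k) (fam s c G z.1 z.2.2.1) ≠ 0 :=
          hΦ.continuousAt.eventually_ne h1
        filter_upwards [h2] with z hz hcon
        exact hz hcon.1
    have hev : ∀ᶠ b' in 𝓝 b, ∀ y ∈ Q,
        ¬(aeval (cp y.1 fun k => y.2.2 * e k) (fam s c G b' y.2.1) = 0 ∧ 0 < y.2.2) :=
      hQc.eventually_forall_of_forall_eventually
        (P := fun b' y => ¬(aeval (cp y.1 fun k => y.2.2 * e k) (fam s c G b' y.2.1) = 0 ∧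
          0 < y.2.2)) hloc
    filter_upwards [hev] with b' hb' τ x t ht hzero
    set N := ‖((x, τ, t) : (σ → ℝ) × ℝ × ℝ)‖ with hN
    have hNpos : 0 < N := by
      rw [hN, norm_pos_iff]
      intro hcon
      have : t = 0 := congrArg (fun y : (σ → ℝ) × ℝ × ℝ => y.2.2) hcon
      exact ht.ne' this
    have h1 := hb' (N⁻¹ • ((x, τ, t) : (σ → ℝ) × ℝ × ℝ)) ⟨?_, ?_⟩
    · apply h1
      constructor
      · have h2 := hhom b' (N⁻¹ * τ) N (cp (N⁻¹ • x) fun k => (N⁻¹ * t) * e k) hNpos
        have h3 : N * (N⁻¹ * τ) = τ := by field_simp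
        have h4 : (fun k => (N : ℂ) * cp (N⁻¹ • x) (fun k => (N⁻¹ * t) * e k) k) =
            cp x fun k => t * e k := by
          funext k
          simp only [cp, Pi.smul_apply, smul_eq_mul]
          push_cast
          have hN' : (N : ℂ) ≠ 0 := by exact_mod_cast hNpos.ne'
          field_simp
        rw [h3, h4, hzero] at h2
        have h5 : (N : ℂ) ^ n ≠ 0 := pow_ne_zero _ (by exact_mod_cast hNpos.ne')
        have h6 := (mul_eq_zero.1 h2.symm).resolve_left h5
        exact h6
      · show 0 < N⁻¹ * t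
        positivity
    · rw [mem_sphere_zero_iff_norm, norm_smul, norm_inv, Real.norm_of_nonneg hNpos.le, ← hN]
      exact inv_mul_cancel₀ hNpos.ne'
    · show 0 ≤ N⁻¹ * t
      positivity
  intro β hβ
  have hall : Set.Icc 0 β ⊆ Good := by
    refine IsClosed.Icc_subset_of_forall_mem_nhdsWithin (hclosed.inter isClosed_Icc) h0 ?_
    intro b hb
    exact mem_nhdsWithin_of_mem_nhds (hopen b hb.2.1 hb.1)
  exact hall ⟨hβ, le_rfl⟩

end deform

end Pool.Agent.H783.HL
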