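import Pool.Agent.H783.Hopf.Tensor
import Pool.Graph.R_pool_sql_team_seeded_63374d34.N565.LZ.Fin

/-!
# Classes of curvature tensors
-/

set_option autoImplicit false

namespace Pool.Agent.H783.HL

open Finset
open Pool.Agent.W666.GB Pool.Agent.W669.HD

variable {V : Type} [NormedAddCommGroup V] [InnerProductSpace ℝ V]

/-- Symmetric bilinear forms on `V`. -/
structure BForm (h : V → V → ℝ) : Prop where
  symm : ∀ x y, h x y = h y x
  add : ∀ x x' y, h (x + x') y = h x y + h x' y
  smul : ∀ (t : ℝ) (x y : V), h (t • x) y = t * h x y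

/-- Second fundamental forms: symmetric bilinear maps with values in the normal space `W`. -/
structure SecondFF {W : Type} [NormedAddCommGroup W] [InnerProductSpace ℝ W] (β : V → V → W) :
    Prop where
  symm : ∀ x y, β x y = β y x
  add : ∀ x x' y, β (x + x') y = β x y + β x' y
  smul : ∀ (t : ℝ) (x y : V), β (t • x) y = t • β x y

/-- `S` is the curvature tensor which the Gauss equation gives for a causal form in codimension
`N + 1`: `b, β_1, …, β_N` are symmetric bilinear forms such that `(b(x,x), β_1(x,x), …, β_N(x,x))`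
lies in the closed forward light cone for all `x`, and
`S(x,y,z,w) = ∑ (β_k(x,z) β_k(y,w) - β_k(x,w) β_k(y,z)) - (b(x,z) b(y,w) - b(x,w) b(y,z))`. -/
def CausalT (N : ℕ) (S : V → V → V → V → ℝ) : Prop :=
  ∃ (b : V → V → ℝ) (β : Fin N → V → V → ℝ), BForm b ∧ (∀ k, BForm (β k)) ∧
    (∀ x, 0 ≤ b x x ∧ ∑ k, β k x x ^ 2 ≤ b x x ^ 2) ∧
    ∀ x y z w, S x y z w = (∑ k, (β k x z * β k y w - β k x w * β k y z)) -
      (b x z * b y w - b x w * b y z)

/-- `T` is an algebraic curvature tensor which lives on the subspace `U`, and on `U` its curvature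
operator of the second kind is nonpositive on the symmetric tensors which are traceless with respect
to some inner product `h` (not necessarily the metric): for `A = ∑ t_i x_i ⊗ x_i` with `x_i ∈ U` and
`tr_h A = ∑ t_i h(x_i, x_i) = 0` one has `∑ t_i t_j T(x_i, x_j, x_i, x_j) ≥ 0` (this sum is
`|A|² - (tr A)²` for constant curvature `-1`). -/
def SecondOn (U : Submodule ℝ V) (T : V → V → V → V → ℝ) : Prop :=
  AlgCurv T ∧ LivesOn U T ∧ ∃ h : V → V → ℝ, BForm h ∧ (∀ x ∈ U, x ≠ 0 → 0 < h x x) ∧
    ∀ (I : Type) [Fintype I] (t : I → ℝ) (x : I → V), (∀ i, x i ∈ U) →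
      ∑ i, t i * h (x i) (x i) = 0 → 0 ≤ ∑ i, ∑ j, t i * t j * T (x i) (x j) (x i) (x j)

/-- Nonpositive curvature operator (of the first kind): `∑ t_i t_j S(x_i, y_i, x_j, y_j) ≤ 0`, that
is, the quadratic form of `S` on the two-vectors `∑ t_i x_i ∧ y_i` is nonpositive. -/
def OpNonpos (S : V → V → V → V → ℝ) : Prop :=
  AlgCurv S ∧ ∀ (I : Type) [Fintype I] (t : I → ℝ) (x y : I → V),
    ∑ i, ∑ j, t i * t j * S (x i) (y i) (x j) (y j) ≤ 0

/-- `R + δ (constant curvature one)` lies in the convex cone generated by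
* the Gauss tensors of causal forms (of all codimensions),
* the tensors with nonpositive curvature operator of the second kind (in the sense of `SecondOn`, on
  any subspace and with respect to any inner product),
* the tensors with nonpositive curvature operator. -/
def HopfCone (δ : ℝ) (R : V → V → V → V → ℝ) : Prop :=
  ∃ (r : ℕ) (S : Fin r → V → V → V → V → ℝ),
    (∀ i, (∃ N, CausalT N (S i)) ∨ (∃ U, SecondOn U (S i)) ∨ OpNonpos (S i)) ∧
    ∀ x y z w, R x y z w = (∑ i, S i x y z w) - δ * unitT x y z w

theorem CausalT.curv {N : ℕ} {S : V → V → V → V → ℝ} (h : CausalT N S) : AlgCurv S := by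
  obtain ⟨b, β, hb, hβ, -, hS⟩ := h
  constructor
  · intro x x' y z w
    simp only [hS, hb.add, fun k => (hβ k).add]
    have : ∑ k, ((β k x z + β k x' z) * β k y w - (β k x w + β k x' w) * β k y z) =
        ∑ k, (β k x z * β k y w - β k x w * β k y z) +
          ∑ k, (β k x' z * β k y w - β k x' w * β k y z) := by
      rw [← Finset.sum_add_distrib]
      exact Finset.sum_congr rfl fun k _ => by ring
    rw [this]
    ring
  · intro t x y z w
    simp only [hS, hb.smul, fun k => (hβ k).smul]
    have : ∑ k, (t * β k x z * β k y w - t * β k x w * β k y z) =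
        t * ∑ k, (β k x z * β k y w - β k x w * β k y z) := by
      rw [Finset.mul_sum]
      exact Finset.sum_congr rfl fun k _ => by ring
    rw [this]
    ring
  · intro x y z w
    simp only [hS]
    have : ∑ k, (β k y z * β k x w - β k y w * β k x z) =
        - ∑ k, (β k x z * β k y w - β k x w * β k y z) := by
      rw [← Finset.sum_neg_distrib]
      exact Finset.sum_congr rfl fun k _ => by ring
    rw [this]
    ring
  · intro x y z w
    simp only [hS]
    have : ∑ k, (β k z x * β k w y - β k z y * β k w x) =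
        ∑ k, (β k x z * β k y w - β k x w * β k y z) := by
      refine Finset.sum_congr rfl fun k _ => ?_
      rw [(hβ k).symm z x, (hβ k).symm w y, (hβ k).symm z y, (hβ k).symm w x]
      ring
    rw [this, hb.symm z x, hb.symm w y, hb.symm z y, hb.symm w x]
    ring
  · intro x y z w
    simp only [hS]
    have : ∑ k, (β k x z * β k y w - β k x w * β k y z) +
        ∑ k, (β k y x * β k z w - β k y w * β k z x) +
          ∑ k, (β k z y * β k x w - β k z w * β k x y) = 0 := by
      rw [← Finset.sum_add_distrib, ← Finset.sum_add_distrib]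
      refine Finset.sum_eq_zero fun k _ => ?_
      rw [(hβ k).symm y x, (hβ k).symm z x, (hβ k).symm z y]
      ring
    rw [hb.symm y x, hb.symm z x, hb.symm z y]
    linarith

theorem BForm.sub {h : V → V → ℝ} (hh : BForm h) (E : Submodule ℝ V) :
    BForm (fun x y : E => h x y) :=
  ⟨fun x y => hh.symm _ _, fun x x' y => hh.add _ _ _, fun t x y => hh.smul _ _ _⟩

theorem CausalT.sub {N : ℕ} {S : V → V → V → V → ℝ} (h : CausalT N S) (E : Submodule ℝ V) :
    CausalT N (fun x y z w : E => S x y z w) := by
  obtain ⟨b, β, hb, hβ, hc, hS⟩ := h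
  exact ⟨fun x y => b x y, fun k x y => β k x y, hb.sub E, fun k => (hβ k).sub E,
    fun x => hc x, fun x y z w => hS x y z w⟩

theorem curv_sub {T : V → V → V → V → ℝ} (h : AlgCurv T) (E : Submodule ℝ V) :
    AlgCurv (fun x y z w : E => T x y z w) where
  add x x' y z w := h.add _ _ _ _ _
  smul t x y z w := h.smul _ _ _ _ _
  anti x y z w := h.anti _ _ _ _
  pair x y z w := h.pair _ _ _ _
  bianchi x y z w := h.bianchi _ _ _ _

theorem OpNonpos.sub {S : V → V → V → V → ℝ} (h : OpNonpos S) (E : Submodule ℝ V) :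
    OpNonpos (fun x y z w : E => S x y z w) :=
  ⟨curv_sub h.1 E, fun I _ t x y => h.2 I t (fun i => x i) (fun i => y i)⟩

end Pool.Agent.H783.HL
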