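import Pool.Agent.H783.HL.Defs

/-!
# Limits of causal Gauss tensors; expansions in coordinates
-/

set_option autoImplicit false

namespace Pool.Agent.H783.HL

open Finset
open Pool.Agent.W666.GB Pool.Agent.W669.HD

variable {V : Type} [NormedAddCommGroup V] [InnerProductSpace ℝ V]

/-- tensors which are limits of causal Gauss tensors in a special way -/
def Approx (S : V → V → V → V → ℝ) : Prop :=
  ∃ h : V → V → ℝ, BForm h ∧ ∀ ε : ℝ, 0 < ε → ∃ N,
    CausalT N (fun x y z w => S x y z w - ε * (h x z * h y w - h x w * h y z))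

theorem BForm.zero : BForm (fun _ _ : V => (0 : ℝ)) :=
  ⟨fun _ _ => rfl, fun _ _ _ => by simp, fun _ _ _ => by simp⟩

theorem CausalT.approx {N : ℕ} {S : V → V → V → V → ℝ} (h : CausalT N S) : Approx S := by
  refine ⟨fun _ _ => 0, BForm.zero, fun ε _ => ⟨N, ?_⟩⟩
  have h1 : (fun x y z w : V => S x y z w - ε * ((0 : ℝ) * 0 - 0 * 0)) = S := by
    funext x y z w
    ring
  rw [h1]
  exact h

theorem Approx.sub {S : V → V → V → V → ℝ} (h : Approx S) (E : Submodule ℝ V) :
    Approx (fun x y z w : E => S x y z w) := by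
  obtain ⟨g, hg, h1⟩ := h
  refine ⟨fun x y => g x y, hg.sub E, fun ε hε => ?_⟩
  obtain ⟨N, h2⟩ := h1 ε hε
  exact ⟨N, h2.sub E⟩

section expand

variable {n : ℕ}

/-- expansion of a function of four indices -/
noncomputable def EE (f : Fin n → V) (c : Fin n → Fin n → Fin n → Fin n → ℝ) (x y z w : V) : ℝ :=
  ∑ i, ∑ j, ∑ k, ∑ l, c i j k l *
    (inner ℝ (f i) x * inner ℝ (f j) y * inner ℝ (f k) z * inner ℝ (f l) w)

/-- expansion of a matrix -/
noncomputable def FM (f : Fin n → V) (M : Fin n → Fin n → ℝ) (x y : V) : ℝ :=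
  ∑ i, ∑ j, M i j * (inner ℝ (f i) x * inner ℝ (f j) y)

theorem FM_bform (f : Fin n → V) {M : Fin n → Fin n → ℝ} (hM : ∀ i j, M i j = M j i) :
    BForm (FM f M) where
  symm x y := by
    unfold FM
    rw [Finset.sum_comm]
    refine Finset.sum_congr rfl fun i _ => Finset.sum_congr rfl fun j _ => ?_
    rw [hM]
    ring
  add x x' y := by
    unfold FM
    rw [← Finset.sum_add_distrib]
    refine Finset.sum_congr rfl fun i _ => ?_
    rw [← Finset.sum_add_distrib]
    refine Finset.sum_congr rfl fun j _ => ?_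
    rw [inner_add_right]
    ring
  smul t x y := by
    unfold FM
    rw [Finset.mul_sum]
    refine Finset.sum_congr rfl fun i _ => ?_
    rw [Finset.mul_sum]
    refine Finset.sum_congr rfl fun j _ => ?_
    rw [inner_smul_right]
    ring

theorem EE_FM (f : Fin n → V) (M M' : Fin n → Fin n → ℝ) (x y z w : V) :
    EE f (fun i j k l => M i k * M' j l) x y z w = FM f M x z * FM f M' y w := by
  unfold EE FM
  calc ∑ i, ∑ j, ∑ k, ∑ l, M i k * M' j l *
        (inner ℝ (f i) x * inner ℝ (f j) y * inner ℝ (f k) z * inner ℝ (f l) w)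
      = ∑ i, ∑ k, ∑ j, ∑ l, M i k * M' j l *
        (inner ℝ (f i) x * inner ℝ (f j) y * inner ℝ (f k) z * inner ℝ (f l) w) :=
        Finset.sum_congr rfl fun i _ => Finset.sum_comm
    _ = _ := by
        rw [Finset.sum_mul]
        refine Finset.sum_congr rfl fun i _ => ?_
        rw [Finset.sum_mul]
        refine Finset.sum_congr rfl fun k _ => ?_
        rw [Finset.mul_sum]
        refine Finset.sum_congr rfl fun j _ => ?_
        rw [Finset.mul_sum]
        refine Finset.sum_congr rfl fun l _ => ?_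
        ring

theorem EE_FM' (f : Fin n → V) (M M' : Fin n → Fin n → ℝ) (x y z w : V) :
    EE f (fun i j k l => M i l * M' j k) x y z w = FM f M x w * FM f M' y z := by
  rw [← EE_FM]
  unfold EE
  refine Finset.sum_congr rfl fun i _ => Finset.sum_congr rfl fun j _ => ?_
  rw [Finset.sum_comm]
  refine Finset.sum_congr rfl fun k _ => Finset.sum_congr rfl fun l _ => ?_
  ring

theorem EE_sub (f : Fin n → V) (c d : Fin n → Fin n → Fin n → Fin n → ℝ) (x y z w : V) :
    EE f (fun i j k l => c i j k l - d i j k l) x y z w = EE f c x y z w - EE f d x y z w := by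
  unfold EE
  simp only [sub_mul, Finset.sum_sub_distrib]

theorem EE_smul (f : Fin n → V) (t : ℝ) (c : Fin n → Fin n → Fin n → Fin n → ℝ) (x y z w : V) :
    EE f (fun i j k l => t * c i j k l) x y z w = t * EE f c x y z w := by
  unfold EE
  simp only [Finset.mul_sum, mul_assoc]

theorem EE_sum {K : Type} [Fintype K] (f : Fin n → V)
    (c : K → Fin n → Fin n → Fin n → Fin n → ℝ) (x y z w : V) :
    EE f (fun i j k l => ∑ q, c q i j k l) x y z w = ∑ q, EE f (c q) x y z w := by
  unfold EE
  simp only [Finset.sum_mul]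
  refine Eq.trans ?_ Finset.sum_comm
  refine Finset.sum_congr rfl fun i _ => ?_
  refine Eq.trans ?_ Finset.sum_comm
  refine Finset.sum_congr rfl fun j _ => ?_
  refine Eq.trans ?_ Finset.sum_comm
  refine Finset.sum_congr rfl fun k _ => ?_
  exact Finset.sum_comm

end expand

end Pool.Agent.H783.HL
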