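import Pool.Agent.H783.HL.Class4

/-!
# The convex cone: sign and sharp bound
-/

set_option autoImplicit false
set_option linter.unusedSectionVars false
set_option linter.unusedVariables false

namespace Pool.Agent.H783.HL

open Finset Filter Topology
open Pool.Agent.W666.GB Pool.Agent.W669.HD Pool.Agent.Y519.HB
open Pool.Agent.N565.LZ (gaussT)

section signs

variable {V : Type} [NormedAddCommGroup V] [InnerProductSpace ℝ V] {m : ℕ}

theorem zero_curv : AlgCurv (fun _ _ _ _ : V => (0 : ℝ)) where
  add x x' y z w := by simp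
  smul t x y z w := by simp
  anti x y z w := by simp
  pair x y z w := rfl
  bianchi x y z w := by simp

theorem zero_op : OpNonpos (fun _ _ _ _ : V => (0 : ℝ)) :=
  ⟨zero_curv, fun I _ t x y => by simp⟩

theorem zero_approx : Approx (fun _ _ _ _ : V => (0 : ℝ)) := by
  refine ⟨fun _ _ => 0, BForm.zero, fun ε _ => ⟨0, fun _ _ => 0, fun k => k.elim0, BForm.zero,
    fun k => k.elim0, fun x => ⟨le_rfl, by simp⟩, fun x y z w => by simp⟩⟩

theorem sum_op {r : ℕ} {Q : Fin r → V → V → V → V → ℝ} (hQ : ∀ i, OpNonpos (Q i)) :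
    OpNonpos (fun x y z w => ∑ i, Q i x y z w) := by
  refine ⟨sum_curv fun i => (hQ i).1, fun I _ t x y => ?_⟩
  have h1 : ∑ i, ∑ j, t i * t j * ∑ k, Q k (x i) (y i) (x j) (y j) =
      ∑ k, ∑ i, ∑ j, t i * t j * Q k (x i) (y i) (x j) (y j) := by
    simp only [Finset.mul_sum]
    refine Eq.trans ?_ Finset.sum_comm
    refine Finset.sum_congr rfl fun i _ => ?_
    exact Finset.sum_comm
  rw [h1]
  exact Finset.sum_nonpos fun k _ => (hQ k).2 I t x y

/-- the sign for sums of limits and a nonpositive curvature operator -/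
theorem approx_sum (e : OrthonormalBasis (Fin m × Bool) ℝ V) {r : ℕ}
    {S : Fin r → V → V → V → V → ℝ} (hS : ∀ i, Approx (S i)) {Q : V → V → V → V → ℝ}
    (hQ : OpNonpos Q) :
    0 ≤ (-1) ^ m * gbc e (fun x y z w => (∑ i, S i x y z w) + Q x y z w) := by
  choose h hh hN using hS
  have hpos : ∀ ε : ℝ, 0 < ε → 0 ≤ (-1 : ℝ) ^ m * gbc e (fun x y z w =>
      (∑ i, (S i x y z w - ε * (h i x z * h i y w - h i x w * h i y z))) + Q x y z w) := by
    intro ε hε
    choose N hC using fun i => hN i ε hε
    exact causal_op_sum e hC hQ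
  have hcont : Continuous fun ε : ℝ => (-1 : ℝ) ^ m * gbc e (fun x y z w =>
      (∑ i, (S i x y z w - ε * (h i x z * h i y w - h i x w * h i y z))) + Q x y z w) := by
    unfold gbc
    fun_prop
  have hlim := (hcont.tendsto 0).mono_left (nhdsWithin_le_nhds (s := Set.Ioi 0))
  simp only [zero_mul, sub_zero] at hlim
  exact ge_of_tendsto hlim (eventually_nhdsWithin_of_forall fun ε hε => hpos ε hε)

/-- the bound for sums of limits and a nonpositive curvature operator -/
theorem approx_bound (e : OrthonormalBasis (Fin m × Bool) ℝ V) {δ : ℝ} (hδ : 0 ≤ δ) {r : ℕ}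
    {S : Fin r → V → V → V → V → ℝ} (hS : ∀ i, Approx (S i)) (hc : ∀ i, AlgCurv (S i))
    {Q : V → V → V → V → ℝ} (hQ : OpNonpos Q) {R : V → V → V → V → ℝ}
    (hR : ∀ x y z w, R x y z w = (∑ i, S i x y z w) + Q x y z w - δ * unitT x y z w) :
    roundGB m δ ≤ (-1) ^ m * gbc e R := by
  have hfin : FiniteDimensional ℝ V := Module.Finite.of_basis e.toBasis
  have hcurv : AlgCurv (fun x y z w => (∑ i, S i x y z w) + Q x y z w) := by
    have h1 := sum_curv hc
    have h2 := hQ.1
    exact
      { add := fun x x' y z w => by rw [h1.add, h2.add]; ring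
        smul := fun t x y z w => by rw [h1.smul, h2.smul]; ring
        anti := fun x y z w => by rw [h1.anti, h2.anti]; ring
        pair := fun x y z w => by rw [h1.pair, h2.pair]
        bianchi := fun x y z w => by
          have h3 := h1.bianchi x y z w
          have h4 := h2.bianchi x y z w
          linarith }
  refine cls_bound e hδ (Or.inl ⟨1, fun _ => ⊤, fun _ => fun x y z w =>
    (∑ i, S i x y z w) + Q x y z w, 0,
    fun k => k.elim0, fun k => k.elim0, fun _ => 0, fun _ => 0, ⟨?_, ?_⟩, ?_, ?_, ?_,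
    fun k => k.elim0, fun k => k.elim0, ?_⟩)
  · intro i j hij
    exact absurd (Subsingleton.elim i j) hij
  · exact ciSup_const
  · intro _
    exact hcurv
  · intro _ x hx y z w
    have hx0 : x = 0 := by
      rwa [Submodule.top_orthogonal_eq_bot, Submodule.mem_bot] at hx
    have h1 := hcurv.smul 0 0 y z w
    rw [zero_smul, zero_mul] at h1
    rw [hx0]
    exact h1
  · intro _ k E _ e'
    exact approx_sum e' (fun i => (hS i).sub E) (hQ.sub E)
  · intro a b c d
    simp only [Finset.univ_unique, Finset.sum_singleton, Finset.univ_eq_empty, Finset.sum_empty,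
      sub_zero]
    exact hR a b c d

/-- the pieces of the cone are limits of causal tensors or nonpositive curvature operators -/
theorem cone_split [FiniteDimensional ℝ V] {r : ℕ} {S : Fin r → V → V → V → V → ℝ}
    (hS : ∀ i, (∃ N, CausalT N (S i)) ∨ (∃ U, SecondOn U (S i)) ∨ OpNonpos (S i)) :
    ∃ (S' : Fin r → V → V → V → V → ℝ) (Q : V → V → V → V → ℝ), (∀ i, Approx (S' i)) ∧
      (∀ i, AlgCurv (S' i)) ∧ OpNonpos Q ∧
      ∀ x y z w, (∑ i, S i x y z w) = (∑ i, S' i x y z w) + Q x y z w := by
  classical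
  refine ⟨fun i => if OpNonpos (S i) then fun _ _ _ _ => 0 else S i,
    fun x y z w => ∑ i, (if OpNonpos (S i) then S i else fun _ _ _ _ => 0) x y z w,
    fun i => ?_, fun i => ?_, sum_op fun i => ?_, fun x y z w => ?_⟩
  · beta_reduce
    split_ifs with h
    · exact zero_approx
    · rcases hS i with ⟨N, h1⟩ | ⟨U, h1⟩ | h1
      · exact h1.approx
      · exact second_approx h1
      · exact absurd h1 h
  · beta_reduce
    split_ifs with h
    · exact zero_curv
    · rcases hS i with ⟨N, h1⟩ | ⟨U, h1⟩ | h1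
      · exact h1.curv
      · exact h1.1
      · exact h1.1
  · split_ifs with h
    · exact h
    · exact zero_op
  · rw [← Finset.sum_add_distrib]
    refine Finset.sum_congr rfl fun i _ => ?_
    beta_reduce
    split_ifs
    · rw [zero_add]
    · rw [add_zero]

/-- **The sharp bound for the cone.** -/
theorem cone_bound (e : OrthonormalBasis (Fin m × Bool) ℝ V) {δ : ℝ} (hδ : 0 ≤ δ)
    {R : V → V → V → V → ℝ} (h : HopfCone δ R) : roundGB m δ ≤ (-1) ^ m * gbc e R := by
  have hfin : FiniteDimensional ℝ V := Module.Finite.of_basis e.toBasis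
  obtain ⟨r, S, hS, hR⟩ := h
  obtain ⟨S', Q, h1, h2, h3, h4⟩ := cone_split hS
  exact approx_bound e hδ h1 h2 h3 fun x y z w => by rw [hR, h4]

/-- the Gauss tensor of a bounded second fundamental form, plus a multiple of the hyperbolic
tensor, is causal -/
theorem bounded_causal {W : Type} [NormedAddCommGroup W] [InnerProductSpace ℝ W]
    [FiniteDimensional ℝ W] {β : V → V → W} (hs : SecondFF β) {c : ℝ} (hc : 0 ≤ c)
    (hβ : ∀ x, ‖β x x‖ ^ 2 ≤ c * ‖x‖ ^ 4) : CausalT (Module.finrank ℝ W) (gaussT c β) := by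
  set f := stdOrthonormalBasis ℝ W with hf
  have hpar : ∀ u v : W, ∑ k, inner ℝ (f k) u * inner ℝ (f k) v = inner ℝ u v := by
    intro u v
    rw [← f.sum_inner_mul_inner u v]
    refine Finset.sum_congr rfl fun k _ => ?_
    rw [real_inner_comm u (f k)]
  refine ⟨fun x y => Real.sqrt c * inner ℝ x y, fun k x y => inner ℝ (f k) (β x y),
    ⟨?_, ?_, ?_⟩, fun k => ⟨?_, ?_, ?_⟩, ?_, ?_⟩
  · intro x y; rw [real_inner_comm]
  · intro x x' y; rw [inner_add_left]; ring
  · intro t x y; rw [inner_smul_left, conj_trivial]; ring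
  · intro x y; beta_reduce; rw [hs.symm]
  · intro x x' y; beta_reduce; rw [hs.add, inner_add_right]
  · intro t x y; beta_reduce; rw [hs.smul, inner_smul_right]
  · intro x
    beta_reduce
    refine ⟨by rw [real_inner_self_eq_norm_sq]; positivity, ?_⟩
    have h1 : ∑ k, inner ℝ (f k) (β x x) ^ 2 = ‖β x x‖ ^ 2 := by
      rw [← real_inner_self_eq_norm_sq, ← hpar (β x x) (β x x)]
      exact Finset.sum_congr rfl fun k _ => sq _
    rw [h1, mul_pow, Real.sq_sqrt hc, real_inner_self_eq_norm_sq, ← pow_mul]
    exact hβ x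
  · intro x y z w
    beta_reduce
    rw [Finset.sum_sub_distrib, hpar, hpar]
    unfold gaussT unitT
    have h2 : Real.sqrt c * Real.sqrt c = c := Real.mul_self_sqrt hc
    linear_combination (inner ℝ x z * inner ℝ y w - inner ℝ x w * inner ℝ y z) * h2

/-- **Submanifolds of manifolds with curvature in the cone, any codimension.** -/
theorem submanifold_bound [FiniteDimensional ℝ V] {W : Type} [NormedAddCommGroup W]
    [InnerProductSpace ℝ W] [FiniteDimensional ℝ W] (E : Submodule ℝ V)
    (e : OrthonormalBasis (Fin m × Bool) ℝ E) {c δ : ℝ} (hδ : 0 ≤ δ) (hc : δ ≤ c)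
    {R : V → V → V → V → ℝ} (hR : HopfCone c R) {β : E → E → W} (hs : SecondFF β)
    (hβ : ∀ x, ‖β x x‖ ^ 2 ≤ (c - δ) * ‖x‖ ^ 4) :
    roundGB m δ ≤ (-1) ^ m * gbc e (fun x y z w : E => R x y z w +
      inner ℝ (β x z) (β y w) - inner ℝ (β x w) (β y z)) := by
  obtain ⟨r, S, hS, hR⟩ := hR
  obtain ⟨S', Q, h1, h2, h3, h4⟩ := cone_split hS
  refine approx_bound e hδ (S := Fin.cons (gaussT (c - δ) β)
    (fun i => fun x y z w : E => S' i x y z w)) ?_ ?_ (h3.sub E) ?_
  · intro i
    refine Fin.cases ?_ (fun i => ?_) i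
    · exact (bounded_causal hs (by linarith) hβ).approx
    · exact (h1 i).sub E
  · intro i
    refine Fin.cases ?_ (fun i => ?_) i
    · exact (bounded_causal hs (by linarith) hβ).curv
    · exact curv_sub (h2 i) E
  · intro x y z w
    rw [Fin.sum_univ_succ]
    simp only [Fin.cons_zero, Fin.cons_succ]
    rw [hR, h4]
    unfold gaussT unitT
    simp only [Submodule.coe_inner]
    ring

end signs

section blocks

variable {V : Type} [NormedAddCommGroup V] [InnerProductSpace ℝ V]

open Pool.Agent.N565.LZ (CausalBlocks CausalOn)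

theorem causalOn_causal {U : Submodule ℝ V} {N : ℕ} {S : V → V → V → V → ℝ}
    (h : CausalOn U N S) : CausalT N S := by
  obtain ⟨b, β, hb, hβ, hc, hS⟩ := h
  exact ⟨b, β, ⟨hb.symm, hb.add, hb.smul⟩, fun k => ⟨(hβ k).symm, (hβ k).add, (hβ k).smul⟩, hc, hS⟩

theorem neg_sq_op (u v : V) : OpNonpos (fun a b c d => - sqDec u v a b c d) := by
  have h0 := sq_curv u v
  refine ⟨?_, fun I _ t x y => ?_⟩
  · exact
      { add := fun x x' y z w => by rw [h0.add]; ring
        smul := fun t x y z w => by rw [h0.smul]; ring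
        anti := fun x y z w => by rw [h0.anti]
        pair := fun x y z w => by rw [h0.pair]
        bianchi := fun x y z w => by
          have h3 := h0.bianchi x y z w
          linarith }
  · have h1 : ∑ i, ∑ j, t i * t j * (- sqDec u v (x i) (y i) (x j) (y j)) =
        - (∑ i, t i * (inner ℝ u (x i) * inner ℝ v (y i) -
          inner ℝ u (y i) * inner ℝ v (x i))) ^ 2 := by
      rw [sq, Finset.sum_mul_sum, ← Finset.sum_neg_distrib]
      refine Finset.sum_congr rfl fun i _ => ?_
      rw [← Finset.sum_neg_distrib]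
      refine Finset.sum_congr rfl fun j _ => ?_
      unfold sqDec
      ring
    rw [h1]
    have := sq_nonneg (∑ i, t i * (inner ℝ u (x i) * inner ℝ v (y i) -
          inner ℝ u (y i) * inner ℝ v (x i)))
    linarith

/-- the cone contains the blocks with causal forms of small codimension -/
theorem blocks_cone {δ : ℝ} {R : V → V → V → V → ℝ} (h : CausalBlocks δ R) : HopfCone δ R := by
  obtain ⟨r, U, N, S, n, x, y, p, q, -, -, hS, -, -, hR⟩ := h
  refine ⟨r + n, fun i => Fin.addCases (fun i => S i)
    (fun k => fun a b c d => - sqDec (x k) (y k) a b c d) i, fun i => ?_, fun a b c d => ?_⟩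
  · refine Fin.addCases (fun i => ?_) (fun k => ?_) i
    · left
      refine ⟨N i, ?_⟩
      beta_reduce
      rw [Fin.addCases_left]
      exact causalOn_causal (hS i)
    · right
      right
      beta_reduce
      rw [Fin.addCases_right]
      exact neg_sq_op _ _
  · rw [hR, Fin.sum_univ_add]
    simp only [Fin.addCases_left, Fin.addCases_right, Finset.sum_neg_distrib]
    ring

end blocks

section integral

/-- Integrated form. -/
theorem field_cone {m : ℕ} {M : Type} [MeasurableSpace M] (μ : MeasureTheory.Measure M)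
    (K : CurvField m M) (h : ∀ p, HopfCone 0 (K.R p)) :
    0 ≤ (-1) ^ m * ∫ p, K.gb p ∂μ := by
  rw [← MeasureTheory.integral_const_mul]
  refine MeasureTheory.integral_nonneg fun p => ?_
  exact (roundGB_nonneg le_rfl).trans (cone_bound (K.e p) le_rfl (h p))

/-- Integrated form with a constant curvature part. -/
theorem field_coneδ {m : ℕ} {M : Type} [MeasurableSpace M] (μ : MeasureTheory.Measure M)
    [MeasureTheory.IsFiniteMeasure μ] (K : CurvField m M) (hi : MeasureTheory.Integrable K.gb μ)
    {δ : ℝ} (hδ : 0 ≤ δ) (h : ∀ p, HopfCone δ (K.R p)) :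
    roundGB m δ * μ.real Set.univ ≤ (-1) ^ m * ∫ p, K.gb p ∂μ := by
  rw [← MeasureTheory.integral_const_mul]
  have h1 : roundGB m δ * μ.real Set.univ = ∫ _, roundGB m δ ∂μ := by
    rw [MeasureTheory.integral_const, smul_eq_mul, mul_comm]
  rw [h1]
  refine MeasureTheory.integral_mono (MeasureTheory.integrable_const _) (hi.const_mul _) fun p => ?_
  exact cone_bound (K.e p) hδ (h p)

end integral

end Pool.Agent.H783.HL
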