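import Pool.Agent.H783.HL.Stm3

/-!
# From the second kind form to a Gauss tensor
-/

set_option autoImplicit false

namespace Pool.Agent.H783.HL

namespace Gauss3Aux

open Matrix

open scoped MatrixOrder ComplexOrder in
theorem gram {n : Type} [Fintype n] [DecidableEq n] (M : Matrix n n ℝ) (h : M.PosSemidef) :
    ∃ B : Matrix n n ℝ, M = Bᵀ * B := by
  obtain ⟨B, hB⟩ := CStarAlgebra.nonneg_iff_eq_star_mul_self.mp h.nonneg
  refine ⟨B, ?_⟩
  rw [hB, Matrix.star_eq_conjTranspose, Matrix.conjTranspose_eq_transpose_of_trivial]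

variable {J : Type} [Fintype J]

/-- fourfold sums -/
noncomputable def S4 (F : J → J → J → J → ℝ) : ℝ := ∑ i, ∑ j, ∑ k, ∑ l, F i j k l

theorem S4_add (F G : J → J → J → J → ℝ) :
    S4 (fun i j k l => F i j k l + G i j k l) = S4 F + S4 G := by
  simp only [S4, Finset.sum_add_distrib]

theorem S4_mul (c : ℝ) (F : J → J → J → J → ℝ) :
    S4 (fun i j k l => c * F i j k l) = c * S4 F := by
  simp only [S4, Finset.mul_sum]

theorem S4_congr {F G : J → J → J → J → ℝ} (h : ∀ i j k l, F i j k l = G i j k l) :
    S4 F = S4 G := by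
  have e : F = G := by
    funext i j k l
    exact h i j k l
  rw [e]

theorem S4_prod (x y : J → J → ℝ) :
    S4 (fun i j k l => x i k * y j l) = (∑ i, ∑ k, x i k) * (∑ j, ∑ l, y j l) := by
  rw [Finset.sum_mul_sum]
  unfold S4
  refine Finset.sum_congr rfl fun i _ => Finset.sum_congr rfl fun j _ => ?_
  rw [Finset.sum_mul_sum]

theorem S4_sum {ι : Type} (s : Finset ι) (F : ι → J → J → J → J → ℝ) :
    ∑ q ∈ s, S4 (F q) = S4 (fun i j k l => ∑ q ∈ s, F q i j k l) := by
  unfold S4
  rw [Finset.sum_comm]
  refine Finset.sum_congr rfl fun i _ => ?_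
  rw [Finset.sum_comm]
  refine Finset.sum_congr rfl fun j _ => ?_
  rw [Finset.sum_comm]
  refine Finset.sum_congr rfl fun k _ => ?_
  rw [Finset.sum_comm]

theorem s01 (F : J → J → J → J → ℝ) : S4 (fun i j k l => F j i k l) = S4 F :=
  Finset.sum_comm

theorem s12 (F : J → J → J → J → ℝ) : S4 (fun i j k l => F i k j l) = S4 F :=
  Finset.sum_congr rfl fun _ _ => Finset.sum_comm

theorem s23 (F : J → J → J → J → ℝ) : S4 (fun i j k l => F i j l k) = S4 F :=
  Finset.sum_congr rfl fun _ _ => Finset.sum_congr rfl fun _ _ => Finset.sum_comm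

theorem s02 (F : J → J → J → J → ℝ) : S4 (fun i j k l => F k j i l) = S4 F := by
  have h1 := s01 (fun i j k l => F k i j l)
  have h2 := s12 (fun i j k l => F j i k l)
  have h3 := s01 F
  exact h1.trans (h2.trans h3)

theorem s13 (F : J → J → J → J → ℝ) : S4 (fun i j k l => F i l k j) = S4 F := by
  have h1 := s12 (fun i j k l => F i l j k)
  have h2 := s23 (fun i j k l => F i k j l)
  have h3 := s12 F
  exact h1.trans (h2.trans h3)

/-- the tensor with the product of the form added -/
def EE (R : J → J → J → J → ℝ) (b : J → J → ℝ) (i j k l : J) : ℝ :=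
  R i j k l + (b i k * b j l - b i l * b j k)

/-- the kernel of the second kind -/
noncomputable def KK (R : J → J → J → J → ℝ) (b : J → J → ℝ) (i j k l : J) : ℝ :=
  1 / 3 * (EE R b i j k l + EE R b i l k j) +
    1 / 3 * (b i k * b j l + b i j * b k l + b i l * b j k)

section sym

variable {R : J → J → J → J → ℝ} {b : J → J → ℝ}

omit [Fintype J] in
theorem E_anti (hR : CJ R) (i j k l : J) :
    EE R b j i k l = -EE R b i j k l := by
  unfold EE
  rw [hR.anti]
  ring

omit [Fintype J] in
theorem E_pair (hR : CJ R) (hb : ∀ i j, b i j = b j i) (i j k l : J) :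
    EE R b k l i j = EE R b i j k l := by
  unfold EE
  rw [hR.pair, hb k i, hb l j, hb k j, hb l i]
  ring

omit [Fintype J] in
theorem E_anti2 (hR : CJ R) (hb : ∀ i j, b i j = b j i) (i j k l : J) :
    EE R b i j l k = -EE R b i j k l := by
  rw [← E_pair hR hb i j l k, E_anti hR, E_pair hR hb]

omit [Fintype J] in
theorem E_bianchi (hR : CJ R) (hb : ∀ i j, b i j = b j i) (i j k l : J) :
    EE R b i j k l + EE R b j k i l + EE R b k i j l = 0 := by
  have h := hR.bianchi i j k l
  unfold EE
  rw [hb j i, hb k i, hb k j]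
  linear_combination h

omit [Fintype J] in
/-- symmetry in the first pair -/
theorem K_sym1 (hR : CJ R) (hb : ∀ i j, b i j = b j i) (i j k l : J) :
    KK R b k j i l = KK R b i j k l := by
  unfold KK
  have h1 : EE R b k j i l = EE R b i l k j := E_pair hR hb i l k j
  have h2 : EE R b k l i j = EE R b i j k l := E_pair hR hb i j k l
  rw [h1, h2, hb k i, hb k j, hb j i]
  ring

omit [Fintype J] in
/-- symmetry in the second pair -/
theorem K_sym2 (hb : ∀ i j, b i j = b j i) (i j k l : J) :
    KK R b i l k j = KK R b i j k l := by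
  unfold KK
  rw [hb l j, hb k j, hb l k]
  ring

omit [Fintype J] in
/-- symmetry between the pairs -/
theorem K_sym3 (hR : CJ R) (hb : ∀ i j, b i j = b j i) (i j k l : J) :
    KK R b j i l k = KK R b i j k l := by
  unfold KK
  have h1 : EE R b j i l k = EE R b i j k l := by
    rw [E_anti hR, E_anti2 hR hb, neg_neg]
  have h2 : EE R b j k l i = EE R b i l k j := by
    rw [E_pair hR hb l i j k, E_anti hR, E_anti2 hR hb, neg_neg]
  rw [h1, h2, hb j i, hb l k]
  ring

omit [Fintype J] in
theorem K_gauss (hR : CJ R) (hb : ∀ i j, b i j = b j i) (i j k l : J) :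
    KK R b i j k l - KK R b i j l k = EE R b i j k l := by
  unfold KK
  have h1 : EE R b i j l k = -EE R b i j k l := E_anti2 hR hb i j k l
  have h2 : EE R b i l k j = -EE R b j k i l := by
    rw [← E_pair hR hb i l k j, E_anti hR]
  have h3 : EE R b i k l j = EE R b k i j l := by
    rw [E_anti hR, E_anti2 hR hb, neg_neg]
  have h4 := E_bianchi hR hb i j k l
  rw [h1, h2, h3, hb k l]
  linear_combination (-1 / 3) * h4

end sym

/-- the quadratic form on symmetric matrices -/
theorem form_sym {R : J → J → J → J → ℝ} {b : J → J → ℝ}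
    (hb : ∀ i j, b i j = b j i) (A : J → J → ℝ) (hA : ∀ i j, A i j = A j i) :
    S4 (fun i j k l => KK R b i j k l * (A i k * A j l)) =
      2 / 3 * QJ R A + pairJ b A ^ 2 := by
  let T : ℝ := S4 (fun i j k l => A i k * A j l * R i j k l)
  let S : ℝ := S4 (fun i j k l => b i l * b j k * (A i k * A j l))
  let P : ℝ := S4 (fun i j k l => (b i k * A i k) * (b j l * A j l))
  have hT : T = QJ R A := rfl
  have hP : P = pairJ b A ^ 2 := by
    have h1 := S4_prod (fun i k => b i k * A i k) (fun j l => b j l * A j l)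
    rw [pow_two]
    exact h1
  have hT2 : S4 (fun i j k l => A i k * A j l * R i l k j) = T := by
    have h := s13 (fun i j k l => A i k * A j l * R i j k l)
    rw [show T = S4 (fun i j k l => A i k * A j l * R i j k l) from rfl, ← h]
    exact S4_congr fun i j k l => by rw [hA l j]
  have hS2 : S4 (fun i j k l => b i j * b k l * (A i k * A j l)) = S := by
    have h := s13 (fun i j k l => b i l * b j k * (A i k * A j l))
    rw [show S = S4 (fun i j k l => b i l * b j k * (A i k * A j l)) from rfl, ← h]
    exact S4_congr fun i j k l => by rw [hA l j, hb l k]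
  have hS3 : S4 (fun i j k l => b i j * b l k * (A i k * A j l)) = S := by
    rw [← hS2]
    exact S4_congr fun i j k l => by rw [hb l k]
  have e : S4 (fun i j k l => KK R b i j k l * (A i k * A j l)) =
      S4 (fun i j k l => 1 / 3 * (A i k * A j l * R i j k l) +
        (1 / 3 * (A i k * A j l * R i l k j) +
        ((b i k * A i k) * (b j l * A j l) +
        (1 / 3 * (b i j * b k l * (A i k * A j l)) +
          (-(1 / 3)) * (b i j * b l k * (A i k * A j l)))))) := by
    refine S4_congr fun i j k l => ?_
    unfold KK EE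
    rw [hb l j]
    ring
  rw [e, S4_add, S4_add, S4_add, S4_add, S4_mul, S4_mul, S4_mul, S4_mul, hT2, hS2, hS3]
  have h1 : S4 (fun i j k l => A i k * A j l * R i j k l) = QJ R A := rfl
  have h2 : S4 (fun i j k l => (b i k * A i k) * (b j l * A j l)) = pairJ b A ^ 2 := hP
  rw [h1, h2, hT]
  ring

/-- the quadratic form on all matrices -/
theorem form_all {R : J → J → J → J → ℝ} {b : J → J → ℝ} (hR : CJ R)
    (hb : ∀ i j, b i j = b j i) (A : J → J → ℝ) :
    S4 (fun i j k l => KK R b i j k l * (A i k * A j l)) =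
      S4 (fun i j k l => KK R b i j k l *
        ((A i k + A k i) / 2 * ((A j l + A l j) / 2))) := by
  let Q : ℝ := S4 (fun i j k l => KK R b i j k l * (A i k * A j l))
  have h1 : S4 (fun i j k l => KK R b i j k l * (A k i * A j l)) = Q := by
    have h := s02 (fun i j k l => KK R b i j k l * (A i k * A j l))
    rw [show Q = S4 (fun i j k l => KK R b i j k l * (A i k * A j l)) from rfl, ← h]
    exact S4_congr fun i j k l => by rw [K_sym1 hR hb]
  have h2 : S4 (fun i j k l => KK R b i j k l * (A i k * A l j)) = Q := by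
    have h := s13 (fun i j k l => KK R b i j k l * (A i k * A j l))
    rw [show Q = S4 (fun i j k l => KK R b i j k l * (A i k * A j l)) from rfl, ← h]
    exact S4_congr fun i j k l => by rw [K_sym2 hb]
  have h3 : S4 (fun i j k l => KK R b i j k l * (A k i * A l j)) = Q := by
    have h := s13 (fun i j k l => KK R b i j k l * (A k i * A j l))
    rw [← h1, ← h]
    exact S4_congr fun i j k l => by rw [K_sym2 hb]
  have e : S4 (fun i j k l => KK R b i j k l *
        ((A i k + A k i) / 2 * ((A j l + A l j) / 2))) =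
      S4 (fun i j k l => 1 / 4 * (KK R b i j k l * (A i k * A j l)) +
        (1 / 4 * (KK R b i j k l * (A k i * A j l)) +
        (1 / 4 * (KK R b i j k l * (A i k * A l j)) +
          1 / 4 * (KK R b i j k l * (A k i * A l j))))) :=
    S4_congr fun i j k l => by ring
  rw [e, S4_add, S4_add, S4_add, S4_mul, S4_mul, S4_mul, S4_mul, h1, h2, h3]
  show Q = 1 / 4 * Q + (1 / 4 * Q + (1 / 4 * Q + 1 / 4 * Q))
  ring

/-- the value on squares -/
theorem form_sq {R : J → J → J → J → ℝ} {b : J → J → ℝ} (hR : CJ R) (y : J → ℝ) :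
    S4 (fun i j k l => KK R b i j k l * ((y i * y k) * (y j * y l))) =
      (∑ i, ∑ j, b i j * (y i * y j)) ^ 2 := by
  have h1 : S4 (fun i j k l => EE R b i j k l * ((y i * y k) * (y j * y l))) = 0 := by
    have h := s01 (fun i j k l => EE R b i j k l * ((y i * y k) * (y j * y l)))
    have h2 : S4 (fun i j k l => EE R b j i k l * ((y j * y k) * (y i * y l))) =
        -1 * S4 (fun i j k l => EE R b i j k l * ((y i * y k) * (y j * y l))) := by
      rw [← S4_mul]
      exact S4_congr fun i j k l => by
        rw [E_anti hR]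
        ring
    rw [h2] at h
    linarith
  have h2 : S4 (fun i j k l => EE R b i l k j * ((y i * y k) * (y j * y l))) = 0 := by
    have h := s13 (fun i j k l => EE R b i j k l * ((y i * y k) * (y j * y l)))
    rw [← h1, ← h]
    exact S4_congr fun i j k l => by ring
  let P : ℝ := S4 (fun i j k l => (b i k * (y i * y k)) * (b j l * (y j * y l)))
  have hP : P = (∑ i, ∑ j, b i j * (y i * y j)) ^ 2 := by
    have h := S4_prod (fun i k => b i k * (y i * y k)) (fun j l => b j l * (y j * y l))
    rw [pow_two]
    exact h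
  have h3 : S4 (fun i j k l => b i j * b k l * ((y i * y k) * (y j * y l))) = P := by
    have h := s12 (fun i j k l => (b i k * (y i * y k)) * (b j l * (y j * y l)))
    rw [show P = S4 (fun i j k l => (b i k * (y i * y k)) * (b j l * (y j * y l))) from rfl, ← h]
    exact S4_congr fun i j k l => by ring
  have h4 : S4 (fun i j k l => b i l * b j k * ((y i * y k) * (y j * y l))) = P := by
    have h := s23 (fun i j k l => (b i k * (y i * y k)) * (b j l * (y j * y l)))
    rw [show P = S4 (fun i j k l => (b i k * (y i * y k)) * (b j l * (y j * y l))) from rfl, ← h]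
    exact S4_congr fun i j k l => by ring
  have e : S4 (fun i j k l => KK R b i j k l * ((y i * y k) * (y j * y l))) =
      S4 (fun i j k l => 1 / 3 * (EE R b i j k l * ((y i * y k) * (y j * y l))) +
        (1 / 3 * (EE R b i l k j * ((y i * y k) * (y j * y l))) +
        (1 / 3 * ((b i k * (y i * y k)) * (b j l * (y j * y l))) +
        (1 / 3 * (b i j * b k l * ((y i * y k) * (y j * y l))) +
          1 / 3 * (b i l * b j k * ((y i * y k) * (y j * y l))))))) := by
    refine S4_congr fun i j k l => ?_
    unfold KK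
    ring
  rw [e, S4_add, S4_add, S4_add, S4_add, S4_mul, S4_mul, S4_mul, S4_mul, S4_mul, h1, h2, h3, h4,
    ← hP]
  show 1 / 3 * 0 + (1 / 3 * 0 + (1 / 3 * P + (1 / 3 * P + 1 / 3 * P))) = P
  ring

end Gauss3Aux

open Gauss3Aux in
theorem gauss3 : S3_Gauss := by
  intro J _ _ R b hR hb hpos
  let K : Matrix (J × J) (J × J) ℝ := Matrix.of fun p q => KK R b p.1 q.1 p.2 q.2
  have hK : K.PosSemidef := by
    refine Matrix.PosSemidef.of_dotProduct_mulVec_nonneg ?_ fun x => ?_
    · ext p q
      rw [Matrix.conjTranspose_apply, star_trivial]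
      exact K_sym3 hR hb p.1 q.1 p.2 q.2
    · have e : star x ⬝ᵥ (K.mulVec x) =
          S4 (fun i j k l => KK R b i j k l * (x (i, k) * x (j, l))) := by
        rw [← s12]
        unfold S4
        simp only [dotProduct, Matrix.mulVec, Fintype.sum_prod_type, star_trivial,
          Finset.mul_sum, Pi.star_apply]
        refine Finset.sum_congr rfl fun i _ => Finset.sum_congr rfl fun k _ =>
          Finset.sum_congr rfl fun j _ => Finset.sum_congr rfl fun l _ => ?_
        simp only [K, Matrix.of_apply]
        ring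
      rw [e, form_all hR hb (fun i k => x (i, k))]
      have hs : ∀ i k, (x (i, k) + x (k, i)) / 2 = (x (k, i) + x (i, k)) / 2 := fun i k => by
        ring
      have h1 := form_sym (R := R) hb (fun i k => (x (i, k) + x (k, i)) / 2) hs
      rw [h1]
      have h2 := hpos (fun i k => (x (i, k) + x (k, i)) / 2) hs
      linarith
  obtain ⟨B, hB⟩ := gram K hK
  have hBK : ∀ i j k l : J, ∑ q, B q (i, k) * B q (j, l) = KK R b i j k l := by
    intro i j k l
    have h1 : K (i, k) (j, l) = (B.transpose * B) (i, k) (j, l) := by rw [← hB]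
    rw [Matrix.mul_apply] at h1
    exact h1.symm
  refine ⟨fun q i k => B q (i, k), fun q i k => ?_, fun y => ?_, fun i j k l => ?_⟩
  · have h1 : ∑ q, (B q (i, k) - B q (k, i)) ^ 2 = 0 := by
      have h2 : ∑ q, (B q (i, k) - B q (k, i)) ^ 2 = ∑ q, B q (i, k) * B q (i, k) -
          2 * ∑ q, B q (i, k) * B q (k, i) + ∑ q, B q (k, i) * B q (k, i) := by
        rw [Finset.mul_sum, ← Finset.sum_sub_distrib, ← Finset.sum_add_distrib]
        exact Finset.sum_congr rfl fun q _ => by ring
      rw [h2, hBK, hBK, hBK]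
      have h3 : KK R b i k k i = KK R b i i k k := K_sym2 hb i i k k
      have h4 : KK R b k k i i = KK R b i k k i := K_sym1 hR hb i k k i
      rw [h4, h3]
      ring
    have h2 := (Finset.sum_eq_zero_iff_of_nonneg fun q _ => sq_nonneg _).1 h1 q (Finset.mem_univ q)
    exact sub_eq_zero.1 (pow_eq_zero_iff two_ne_zero |>.1 h2)
  · have h1 : ∀ q, (∑ i, ∑ j, B q (i, j) * (y i * y j)) ^ 2 =
        S4 (fun i j k l => (B q (i, k) * (y i * y k)) * (B q (j, l) * (y j * y l))) := by
      intro q
      rw [S4_prod (fun i k => B q (i, k) * (y i * y k)) (fun j l => B q (j, l) * (y j * y l)),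
        pow_two]
    simp only [h1]
    rw [S4_sum, ← form_sq hR y]
    refine S4_congr fun i j k l => ?_
    rw [← hBK, Finset.sum_mul]
    exact Finset.sum_congr rfl fun q _ => by ring
  · rw [Finset.sum_sub_distrib, hBK, hBK, K_gauss hR hb]
    unfold EE
    ring

end Pool.Agent.H783.HL
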