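import Pool.Agent.H783.HL.Stm3

/-!
# A1: quadratic forms nonnegative on a hyperplane (helper721)
-/

set_option autoImplicit false

namespace Pool.Agent.H783.HL

open Matrix

namespace HyperX3

variable {J : Type} [Fintype J] [DecidableEq J]

/-- the norm square of `A` with respect to `H` -/
noncomputable def NJ (H A : J → J → ℝ) : ℝ :=
  ∑ i, ∑ j, ∑ k, ∑ l, A i k * A j l * (H i l * H j k)

omit [DecidableEq J] in
theorem posDef_of (H : J → J → ℝ) (hs : ∀ i j, H i j = H j i)
    (hp : ∀ y : J → ℝ, y ≠ 0 → 0 < ∑ i, ∑ j, H i j * (y i * y j)) : (Matrix.of H).PosDef := by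
  apply Matrix.PosDef.of_dotProduct_mulVec_pos
  · ext i j
    simp only [Matrix.conjTranspose_apply, Matrix.of_apply, star_trivial]
    exact hs j i
  · intro x hx
    have h := hp x hx
    have e : star x ⬝ᵥ (Matrix.of H) *ᵥ x = ∑ i, ∑ j, H i j * (x i * x j) := by
      simp only [dotProduct, Matrix.mulVec, Matrix.of_apply, Finset.mul_sum, star_trivial]
      refine Finset.sum_congr rfl fun i _ => Finset.sum_congr rfl fun j _ => ?_
      ring
    rw [e]
    exact h

theorem NJ_pos (H A : J → J → ℝ) (hs : ∀ i j, H i j = H j i)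
    (hp : ∀ y : J → ℝ, y ≠ 0 → 0 < ∑ i, ∑ j, H i j * (y i * y j))
    (hA : ∀ i j, A i j = A j i) (h0 : A ≠ 0) : 0 < NJ H A := by
  have hpd := (posDef_of H hs hp).kronecker (posDef_of H hs hp)
  have hv : (fun p : J × J => A p.1 p.2) ≠ 0 := by
    intro h
    apply h0
    funext i j
    exact congrFun h (i, j)
  have h1 := hpd.dotProduct_mulVec_pos hv
  have e : star (fun p : J × J => A p.1 p.2) ⬝ᵥ
      (Matrix.kroneckerMap (fun x1 x2 => x1 * x2) (Matrix.of H) (Matrix.of H)) *ᵥ
        (fun p : J × J => A p.1 p.2) = NJ H A := by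
    simp only [dotProduct, Matrix.mulVec, Matrix.kroneckerMap_apply, Matrix.of_apply,
      Finset.mul_sum, star_trivial]
    unfold NJ
    rw [Fintype.sum_prod_type]
    refine Finset.sum_congr rfl fun i _ => ?_
    rw [Finset.sum_comm]
    rw [Fintype.sum_prod_type]
    rw [Finset.sum_comm]
    refine Finset.sum_congr rfl fun j _ => ?_
    rw [Finset.sum_comm]
    refine Finset.sum_congr rfl fun k _ => Finset.sum_congr rfl fun l _ => ?_
    have e2 : H k j = H j k := hs k j
    have e3 : A l j = A j l := hA l j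
    simp only [e2, e3]
    ring
  rw [← e]
  exact h1

omit [DecidableEq J] in
theorem QJ_sub (R : J → J → J → J → ℝ) (H A : J → J → ℝ) (ε : ℝ) :
    QJ (fun i j k l => R i j k l - ε * (H i k * H j l - H i l * H j k)) A =
      QJ R A - ε * pairJ H A ^ 2 + ε * NJ H A := by
  have e1 : pairJ H A ^ 2 = ∑ i, ∑ j, ∑ k, ∑ l, A i k * A j l * (H i k * H j l) := by
    unfold pairJ
    rw [sq, Finset.sum_mul_sum]
    refine Finset.sum_congr rfl fun i _ => Finset.sum_congr rfl fun j _ => ?_
    rw [Finset.sum_mul_sum]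
    refine Finset.sum_congr rfl fun k _ => Finset.sum_congr rfl fun l _ => ?_
    ring
  rw [e1]
  unfold QJ NJ
  simp only [Finset.mul_sum, ← Finset.sum_sub_distrib, ← Finset.sum_add_distrib]
  refine Finset.sum_congr rfl fun i _ => Finset.sum_congr rfl fun j _ =>
    Finset.sum_congr rfl fun k _ => Finset.sum_congr rfl fun l _ => ?_
  ring

omit [DecidableEq J] in
theorem QJ_cont (R : J → J → J → J → ℝ) : Continuous fun A : J → J → ℝ => QJ R A := by
  unfold QJ
  fun_prop

omit [DecidableEq J] in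
theorem pairJ_cont (H : J → J → ℝ) : Continuous fun A : J → J → ℝ => pairJ H A := by
  unfold pairJ
  fun_prop

omit [DecidableEq J] in
theorem QJ_smul (R : J → J → J → J → ℝ) (t : ℝ) (A : J → J → ℝ) : QJ R (t • A) = t ^ 2 * QJ R A := by
  unfold QJ
  simp only [Finset.mul_sum, Pi.smul_apply, smul_eq_mul]
  refine Finset.sum_congr rfl fun i _ => Finset.sum_congr rfl fun j _ =>
    Finset.sum_congr rfl fun k _ => Finset.sum_congr rfl fun l _ => ?_
  ring

omit [DecidableEq J] in
theorem pairJ_smul (H : J → J → ℝ) (t : ℝ) (A : J → J → ℝ) : pairJ H (t • A) = t * pairJ H A := by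
  unfold pairJ
  simp only [Finset.mul_sum, Pi.smul_apply, smul_eq_mul]
  refine Finset.sum_congr rfl fun i _ => Finset.sum_congr rfl fun j _ => ?_
  ring

end HyperX3

open HyperX3 in
theorem hyper3 : S3_Hyper := by
  intro J _ _ R H hs hp hR ε hε
  obtain ⟨T, hT⟩ : ∃ T : J → J → J → J → ℝ,
      T = fun i j k l => R i j k l - ε * (H i k * H j l - H i l * H j k) := ⟨_, rfl⟩
  rw [← hT]
  let S : Set (J → J → ℝ) := Metric.sphere 0 1 ∩ {A | ∀ i j, A i j = A j i}
  have hcl : IsClosed {A : J → J → ℝ | ∀ i j, A i j = A j i} := by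
    simp only [Set.ofPred_forall]
    refine isClosed_iInter fun i => isClosed_iInter fun j => ?_
    exact isClosed_eq (by fun_prop) (by fun_prop)
  have hS : IsCompact S := (isCompact_sphere 0 1).inter_right hcl
  let U : ℕ → Set (J → J → ℝ) := fun n => {A | 0 < QJ T A + (n : ℝ) * pairJ H A ^ 2}
  have hU : ∀ n, IsOpen (U n) := by
    intro n
    refine isOpen_lt continuous_const ?_
    exact (QJ_cont T).add (continuous_const.mul ((pairJ_cont H).pow 2))
  have hmono : Monotone U := by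
    intro n m hnm A hA
    have h1 : (n : ℝ) ≤ m := by exact_mod_cast hnm
    have h2 : 0 ≤ pairJ H A ^ 2 := sq_nonneg _
    have h3 := mul_le_mul_of_nonneg_right h1 h2
    have h4 : 0 < QJ T A + (n : ℝ) * pairJ H A ^ 2 := hA
    change 0 < QJ T A + (m : ℝ) * pairJ H A ^ 2
    linarith
  have hcov : S ⊆ ⋃ n, U n := by
    rintro A ⟨hA1, hA2⟩
    have hA0 : A ≠ 0 := by
      rintro rfl
      simp at hA1
    have hN := NJ_pos H A hs hp hA2 hA0
    rw [Set.mem_iUnion]
    by_cases hp0 : pairJ H A = 0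
    · refine ⟨0, ?_⟩
      change 0 < QJ T A + ((0 : ℕ) : ℝ) * pairJ H A ^ 2
      rw [hT, QJ_sub, hp0]
      have h1 := hR A hA2 hp0
      have h2 : 0 < ε * NJ H A := mul_pos hε hN
      simp
      linarith
    · have h1 : 0 < pairJ H A ^ 2 := by positivity
      obtain ⟨n, hn⟩ := exists_nat_gt (-(QJ T A) / pairJ H A ^ 2)
      refine ⟨n, ?_⟩
      rw [div_lt_iff₀ h1] at hn
      change 0 < QJ T A + (n : ℝ) * pairJ H A ^ 2
      linarith
  obtain ⟨n, hn⟩ := hS.elim_directed_cover U hU hcov hmono.directed_le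
  refine ⟨(n : ℝ) + 1, by positivity, ?_⟩
  intro A hA
  by_cases hA0 : A = 0
  · rw [hA0]
    unfold QJ pairJ
    simp
  · have hnorm : 0 < ‖A‖ := norm_pos_iff.2 hA0
    have hB : ‖A‖⁻¹ • A ∈ S := by
      refine ⟨?_, ?_⟩
      · rw [mem_sphere_zero_iff_norm, norm_smul, norm_inv, norm_norm,
          inv_mul_cancel₀ hnorm.ne']
      · intro i j
        simp only [Pi.smul_apply]
        rw [hA i j]
    have h1 : 0 < QJ T (‖A‖⁻¹ • A) + (n : ℝ) * pairJ H (‖A‖⁻¹ • A) ^ 2 := hn hB
    rw [QJ_smul, pairJ_smul] at h1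
    have h2 : (‖A‖⁻¹) ^ 2 * QJ T A + (n : ℝ) * (‖A‖⁻¹ * pairJ H A) ^ 2 =
        (‖A‖⁻¹) ^ 2 * (QJ T A + (n : ℝ) * pairJ H A ^ 2) := by ring
    rw [h2] at h1
    have h3 : 0 < QJ T A + (n : ℝ) * pairJ H A ^ 2 :=
      (mul_pos_iff_of_pos_left (by positivity)).1 h1
    have h4 : 0 ≤ pairJ H A ^ 2 := sq_nonneg _
    linarith

end Pool.Agent.H783.HL
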