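import Pool.Agent.H783.HL.Static2
import Pool.Agent.H783.HL.Deform

/-!
# The deformation argument for the flow
-/

set_option autoImplicit false

namespace Pool.Agent.H783.HL

open MvPolynomial Filter Topology

variable {σ : Type} [Fintype σ]

/-- the index set of the flow -/
def fidx (n : ℕ) : Finset (ℕ × ℕ) := Finset.range (n + 1) ×ˢ Finset.range (n + 1)

/-- the coefficients of the flow -/
noncomputable def fco (a : ℝ) (i : ℕ × ℕ) (b τ : ℝ) : ℝ :=
  (-τ ^ 2) ^ (i.1 + i.2) * (b ^ i.1 * a ^ i.2 / (i.1.factorial * i.2.factorial))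

theorem flow_fam (e w : σ → ℝ) (n : ℕ) (a b τ : ℝ) (p : MvPolynomial σ ℝ) :
    flow2 e w n a b τ p = fam (fidx n) (fco a) (fun i => g2 e w p i.1 i.2) b τ := by
  unfold flow2 fam fidx fco
  rw [Finset.sum_product]

theorem fco_cont (a : ℝ) (i : ℕ × ℕ) : Continuous fun y : ℝ × ℝ => fco a i y.1 y.2 := by
  unfold fco
  fun_prop

theorem stab_bound (hU : S_UniLower) (hL : S_Line) {P : MvPolynomial σ ℝ} {n : ℕ} {e : σ → ℝ}
    {p : MvPolynomial σ ℝ} (hdeg : P.totalDegree ≤ n) (htop : homogeneousComponent n P = p)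
    (hp : 0 < eval e p) (hst : Stab P e) (x : σ → ℝ) (t : ℝ) (ht : 0 < t) :
    eval e p * t ^ n ≤ ‖aeval (cp x fun k => t * e k) P‖ := by
  obtain ⟨f, hf1, hf2, hf3⟩ := hL σ P n hdeg (fun k => ((x k : ℝ) : ℂ)) (fun k => ((e k : ℝ) : ℂ))
  rw [htop, GardingL.aeval_real] at hf2
  have hc : f.coeff n ≠ 0 := by
    rw [hf2]
    exact_mod_cast hp.ne'
  have hnd : f.natDegree = n := le_antisymm hf1 (Polynomial.le_natDegree_of_ne_zero hc)
  have hlead : f.leadingCoeff = ((eval e p : ℝ) : ℂ) := by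
    rw [Polynomial.leadingCoeff, hnd, hf2]
  have hev : ∀ a s : ℝ, aeval (cp (fun k => x k + a * e k) fun k => s * e k) P =
      f.eval ((a : ℂ) + (s : ℂ) * Complex.I) := by
    intro a s
    rw [hf3]
    congr 2
    funext k
    simp only [cp]
    push_cast
    ring
  have h1 := hU f (fun z hz h0 => ?_) ((0 : ℝ) + (t : ℂ) * Complex.I) (by simpa using ht)
  · rw [hlead, hnd] at h1
    have h2 := hev 0 t
    simp only [zero_mul, add_zero] at h2
    rw [h2]
    have h3 : (((0 : ℝ) : ℂ) + (t : ℂ) * Complex.I).im = t := by simp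
    rw [h3, Complex.norm_real, Real.norm_of_nonneg hp.le] at h1
    exact h1
  · have h2 := hst (fun k => x k + z.re * e k) z.im hz
    rw [hev, Complex.re_add_im] at h2
    exact h2 h0

theorem cp_zero_dir (x : σ → ℝ) (e : σ → ℝ) : (cp x fun k => (0 : ℝ) * e k) = fun k =>
    ((x k : ℝ) : ℂ) := by
  funext k
  simp [cp]

theorem real_hom (hHom : S2_FlowHom) (e w : σ → ℝ) (p : MvPolynomial σ ℝ) (n d : ℕ)
    (a b τ l : ℝ) (x : σ → ℝ) (hp : p.IsHomogeneous d) :
    eval (fun k => l * x k) (flow2 e w n a b (l * τ) p) =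
      l ^ d * eval x (flow2 e w n a b τ p) := by
  have h1 := hHom σ e w p n d a b τ l (fun k => ((x k : ℝ) : ℂ)) hp
  have h2 : (fun k => (l : ℂ) * ((x k : ℝ) : ℂ)) = fun k => (((l * x k : ℝ)) : ℂ) := by
    funext k
    push_cast
    ring
  rw [h2, GardingL.aeval_real, GardingL.aeval_real] at h1
  exact_mod_cast h1

theorem de_C_mul (e : σ → ℝ) (c : ℝ) (p : MvPolynomial σ ℝ) : de e (C c * p) = C c * de e p := by
  unfold de
  rw [Finset.mul_sum]
  refine Finset.sum_congr rfl fun k _ => ?_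
  rw [pderiv_C_mul]
  ring

theorem de_sum {ι : Type} (e : σ → ℝ) (s : Finset ι) (f : ι → MvPolynomial σ ℝ) :
    de e (∑ i ∈ s, f i) = ∑ i ∈ s, de e (f i) := by
  unfold de
  simp only [map_sum, Finset.mul_sum]
  rw [Finset.sum_comm]

theorem pcomm2 (i j : σ) (p : MvPolynomial σ ℝ) :
    pderiv i (pderiv j p) = pderiv j (pderiv i p) := by
  classical
  ext d
  simp only [coeff_pderiv]
  by_cases h : i = j
  · subst h
    rfl
  · have h1 : (Finsupp.single i 1 : σ →₀ ℕ) j = 0 := Finsupp.single_eq_of_ne (Ne.symm h)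
    have h2 : (Finsupp.single j 1 : σ →₀ ℕ) i = 0 := Finsupp.single_eq_of_ne h
    simp only [Finsupp.add_apply, h1, h2, add_zero]
    rw [add_right_comm]
    push_cast
    ring

theorem de_pderiv (e : σ → ℝ) (k : σ) (p : MvPolynomial σ ℝ) :
    de e (pderiv k p) = pderiv k (de e p) := by
  unfold de
  rw [map_sum]
  refine Finset.sum_congr rfl fun j _ => ?_
  rw [pderiv_C_mul, pcomm2]

theorem lap_de (e w : σ → ℝ) (p : MvPolynomial σ ℝ) : de e (lap w p) = lap w (de e p) := by
  unfold lap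
  rw [de_sum]
  refine Finset.sum_congr rfl fun k _ => ?_
  rw [de_C_mul]
  unfold dd
  rw [de_pderiv, de_pderiv]

theorem g2_de (e w : σ → ℝ) (p : MvPolynomial σ ℝ) (i k : ℕ) :
    de e (g2 e w p i k) = g2 e w (de e p) i k := by
  unfold g2
  have h1 : ∀ q : MvPolynomial σ ℝ, de e ((lap w)^[i] q) = (lap w)^[i] (de e q) := by
    induction i with
    | zero => intro q; rfl
    | succ i ih =>
      intro q
      rw [Function.iterate_succ_apply, Function.iterate_succ_apply, ih, lap_de]
  have h2 : ∀ q : MvPolynomial σ ℝ, de e ((dde e)^[k] q) = (dde e)^[k] (de e q) := by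
    induction k with
    | zero => intro q; rfl
    | succ k ih =>
      intro q
      rw [Function.iterate_succ_apply, Function.iterate_succ_apply, ih]
      rfl
  rw [h1, h2]

theorem flow_de (e w : σ → ℝ) (n : ℕ) (a b τ : ℝ) (p : MvPolynomial σ ℝ) :
    de e (flow2 e w n a b τ p) = flow2 e w n a b τ (de e p) := by
  unfold flow2
  simp only [de_sum, de_C_mul, g2_de]

theorem eval_de (e x : σ → ℝ) (P : MvPolynomial σ ℝ) :
    eval x (de e P) = ∑ k, e k * eval x (pderiv k P) := by
  unfold de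
  rw [map_sum]
  refine Finset.sum_congr rfl fun k _ => ?_
  rw [map_mul, eval_C]

theorem flow_zero (e w : σ → ℝ) (n : ℕ) (a b : ℝ) (p : MvPolynomial σ ℝ) :
    flow2 e w n a b 0 p = p := by
  unfold flow2
  rw [Finset.sum_eq_single 0, Finset.sum_eq_single 0]
  · simp [g2]
  · intro k _ hk
    have : (-(0 : ℝ) ^ 2) ^ (0 + k) = 0 := by
      rw [zero_add, zero_pow two_ne_zero, neg_zero, zero_pow hk]
    rw [this, zero_mul, map_zero, zero_mul]
  · simp
  · intro i _ hi
    refine Finset.sum_eq_zero fun k _ => ?_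
    have : (-(0 : ℝ) ^ 2) ^ (i + k) = 0 := by
      rw [zero_pow two_ne_zero, neg_zero, zero_pow (by omega)]
    rw [this, zero_mul, map_zero, zero_mul]
  · simp

/-- **The deformation argument for the flow.** -/
theorem main2 (hU : S_UniLower) (hL : S_Line) (hI : S_ImPart) (hTop : S2_FlowTop)
    (hHom : S2_FlowHom) (hSt : S2_Static) : S2_Main := by
  intro σ _ Ω e w p n a hΩ he hstar ha hp hpos hsimple h0 b hb τ
  have hpe : 0 < eval e p := hpos e he
  rw [flow_fam]
  refine deform hI (fidx n) (fco a) (fco_cont a) (fun i => g2 e w p i.1 i.2) e n (eval e p) hpe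
    ?_ ?_ ?_ ?_ b hb τ
  · intro τ
    rw [← flow_fam]
    exact h0 τ
  · intro b τ hst x t ht
    rw [← flow_fam] at hst ⊢
    obtain ⟨h1, h2⟩ := hTop σ e w p n a b τ hp
    exact stab_bound hU hL h1 h2 hpe hst x t ht
  · intro b τ l z _
    rw [← flow_fam, ← flow_fam]
    exact hHom σ e w p n n a b τ l z hp
  · intro b hb hst x τ hx hzero
    rw [← flow_fam] at hzero ⊢
    rw [← eval_de]
    by_cases hτ : τ = 0
    · subst hτ
      rw [flow_zero] at hzero ⊢
      exact hsimple x (hx.resolve_right fun h => h rfl) hzero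
    · have hst1 : Stab (flow2 e w n a b 1 p) e := by
        have := hst 1
        rwa [← flow_fam] at this
      have h1 := real_hom hHom e w p n n a b 1 τ (fun k => τ⁻¹ * x k) hp
      have h2 : (fun k => τ * (τ⁻¹ * x k)) = x := by
        funext k
        field_simp
      rw [h2, mul_one, hzero] at h1
      have h3 : eval (fun k => τ⁻¹ * x k) (flow2 e w n a b 1 p) = 0 :=
        (mul_eq_zero.1 h1.symm).resolve_left (pow_ne_zero _ hτ)
      have h4 := hSt σ Ω e w p n a b hΩ he hstar ha hb hp hpos hst1 _ h3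
      rw [flow_de] at h4 ⊢
      have hdp : (de e p).IsHomogeneous (n - 1) := by
        unfold de
        refine IsHomogeneous.sum _ _ _ fun k _ => ?_
        have := (isHomogeneous_C σ (e k)).mul (hp.pderiv (i := k))
        rwa [zero_add] at this
      have h5 := real_hom hHom e w (de e p) n (n - 1) a b 1 τ (fun k => τ⁻¹ * x k) hdp
      rw [h2, mul_one] at h5
      rw [h5]
      exact mul_ne_zero (pow_ne_zero _ hτ) h4

end Pool.Agent.H783.HL
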