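import Pool.Agent.H783.HL.Causal
import Pool.Agent.H783.HL.Stm4

/-!
# Causal families and an arbitrary family of skew forms
-/

set_option autoImplicit false
set_option linter.unusedSectionVars false

namespace Pool.Agent.H783.HL

open MvPolynomial Filter Topology ComplexConjugate
open Pool.Agent.H783.Hopf (qf)
open Pool.Agent.H783.Sig (sv nq Coer sv_real nq_nonneg)
open Pool.Agent.W666.GB (sn MD Yf)

section skew

variable {J : Type} [Fintype J]

theorem sv_skew {W : J → J → ℝ} (hW : ∀ i j, W i j = - W j i) (z : J → ℂ) :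
    (sv (Matrix.of fun i j => (W i j : ℂ)) z).re = 0 ∧
      ‖sv (Matrix.of fun i j => (W i j : ℂ)) z‖ ≤ (∑ i, ∑ j, |W i j|) * nq z := by
  have h1 : sv (Matrix.of fun i j => (W i j : ℂ)) z =
      ∑ i, ∑ j, (W i j : ℂ) * (conj (z i) * z j) := by
    unfold sv
    refine Finset.sum_congr rfl fun i _ => ?_
    simp only [Matrix.mulVec, dotProduct, Matrix.of_apply, Finset.mul_sum]
    refine Finset.sum_congr rfl fun j _ => ?_
    ring
  constructor
  · have h2 : conj (sv (Matrix.of fun i j => (W i j : ℂ)) z) =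
        - sv (Matrix.of fun i j => (W i j : ℂ)) z := by
      rw [h1, map_sum, Finset.sum_comm, ← Finset.sum_neg_distrib]
      simp only [map_sum]
      rw [Finset.sum_comm]
      rw [Finset.sum_comm]
      refine Finset.sum_congr rfl fun i _ => ?_
      rw [← Finset.sum_neg_distrib]
      refine Finset.sum_congr rfl fun j _ => ?_
      rw [map_mul, map_mul, Complex.conj_conj, Complex.conj_ofReal, hW j i]
      push_cast
      ring
    have h3 := congrArg Complex.re h2
    rw [Complex.conj_re, Complex.neg_re] at h3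
    linarith
  · rw [h1]
    have h2 : ∀ i j, ‖conj (z i) * z j‖ ≤ nq z := by
      intro i j
      rw [norm_mul, RCLike.norm_conj]
      have h3 : ‖z i‖ ^ 2 ≤ nq z := Finset.single_le_sum (f := fun j => ‖z j‖ ^ 2)
        (fun _ _ => sq_nonneg _) (Finset.mem_univ i)
      have h4 : ‖z j‖ ^ 2 ≤ nq z := Finset.single_le_sum (f := fun j => ‖z j‖ ^ 2)
        (fun _ _ => sq_nonneg _) (Finset.mem_univ j)
      nlinarith [sq_nonneg (‖z i‖ - ‖z j‖)]
    rw [Finset.sum_mul]
    refine norm_sum_le_of_le _ fun i _ => ?_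
    rw [Finset.sum_mul]
    refine norm_sum_le_of_le _ fun j _ => ?_
    rw [norm_mul, Complex.norm_real]
    exact mul_le_mul_of_nonneg_left (h2 i j) (abs_nonneg _)

variable [DecidableEq J]

/-- `det (X + i A + i W) ≠ 0` for real symmetric `X`, positive definite `A` and skew `W` -/
theorem det_stab_skew {X A W : J → J → ℝ} (hX : ∀ i j, X i j = X j i)
    (hA : ∀ i j, A i j = A j i) (hW : ∀ i j, W i j = - W j i)
    {p : ℝ} (hp : 0 < p) (hq : ∀ y : EuclideanSpace ℝ J, p * ‖y‖ ^ 2 ≤ qf A y) :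
    (Matrix.of fun i j => (X i j : ℂ) + (A i j : ℂ) * Complex.I +
      (W i j : ℂ) * Complex.I).det ≠ 0 := by
  have h1 : Coer ((-Complex.I) • Matrix.of fun i j => (X i j : ℂ) + (A i j : ℂ) * Complex.I +
      (W i j : ℂ) * Complex.I) p := by
    intro z
    have h2 : (Matrix.of fun i j => (X i j : ℂ) + (A i j : ℂ) * Complex.I +
        (W i j : ℂ) * Complex.I) =
        (Matrix.of fun i j => (X i j : ℂ)) + (Complex.I • (Matrix.of fun i j => (A i j : ℂ)) +
          Complex.I • (Matrix.of fun i j => (W i j : ℂ))) := by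
      ext i j
      simp only [Matrix.of_apply, Matrix.add_apply, Matrix.smul_apply, smul_eq_mul]
      ring
    rw [sv_smul, h2, sv_add, sv_add, sv_smul, sv_smul, sv_real hX, sv_real hA, nq_parts]
    have h3 := hq (WithLp.toLp 2 fun j => (z j).re)
    have h4 := hq (WithLp.toLp 2 fun j => (z j).im)
    have h5 := (sv_skew hW z).1
    simp only [mul_add]
    rw [← mul_assoc (-Complex.I) Complex.I, ← mul_assoc (-Complex.I) Complex.I,
      neg_mul Complex.I Complex.I, Complex.I_mul_I]
    simp [h5]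
    linarith
  have h5 := h1.inj hp
  intro h0
  apply h5
  rw [Matrix.det_smul, h0, mul_zero]

/-- `det (A + i W) ≠ 0` if `A` is positive definite and dominates the skew `W` -/
theorem det_herm {A W : J → J → ℝ} (hA : ∀ i j, A i j = A j i) (hW : ∀ i j, W i j = - W j i)
    {p c : ℝ} (hc : ∑ i, ∑ j, |W i j| ≤ c) (hp : c < p)
    (hq : ∀ y : EuclideanSpace ℝ J, p * ‖y‖ ^ 2 ≤ qf A y) :
    (Matrix.of fun i j => (A i j : ℂ) + (W i j : ℂ) * Complex.I).det ≠ 0 := by
  have h1 : Coer (Matrix.of fun i j => (A i j : ℂ) + (W i j : ℂ) * Complex.I) (p - c) := by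
    intro z
    have h2 : (Matrix.of fun i j => (A i j : ℂ) + (W i j : ℂ) * Complex.I) =
        (Matrix.of fun i j => (A i j : ℂ)) + Complex.I • (Matrix.of fun i j => (W i j : ℂ)) := by
      ext i j
      simp only [Matrix.of_apply, Matrix.add_apply, Matrix.smul_apply, smul_eq_mul]
      ring
    rw [h2, sv_add, sv_smul, sv_real hA, Complex.add_re, Complex.ofReal_re]
    have h3 := hq (WithLp.toLp 2 fun j => (z j).re)
    have h4 := hq (WithLp.toLp 2 fun j => (z j).im)
    have h5 := (sv_skew hW z).2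
    have h6 := nq_parts z
    have h7 : -(c * nq z) ≤ (Complex.I * sv (Matrix.of fun i j => (W i j : ℂ)) z).re := by
      have h8 := Complex.abs_re_le_norm (Complex.I * sv (Matrix.of fun i j => (W i j : ℂ)) z)
      rw [norm_mul, Complex.norm_I, one_mul] at h8
      have h9 := (abs_le.1 (h8.trans (h5.trans (mul_le_mul_of_nonneg_right hc (nq_nonneg z))))).1
      exact h9
    have h8 : (p - c) * nq z = p * ‖(WithLp.toLp 2 fun j => (z j).re : EuclideanSpace ℝ J)‖ ^ 2 +
      p * ‖(WithLp.toLp 2 fun j => (z j).im : EuclideanSpace ℝ J)‖ ^ 2 - c * nq z := by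
      rw [sub_mul, h6]
      ring
    linarith
  exact h1.inj (by linarith)

end skew

section mixed

variable {ι K L : Type} [Fintype ι] [Fintype K] [DecidableEq ι] [DecidableEq K]
  [Fintype L] [DecidableEq L] {m : ℕ}

/-- the family `(B, ω)` -/
def Dfam (B : ι × Option K → Fin m × Bool → Fin m × Bool → ℝ)
    (ω : L → Fin m × Bool → Fin m × Bool → ℝ) :
    (ι × Option K) ⊕ L → Fin m × Bool → Fin m × Bool → ℝ := Sum.elim B ω

theorem Dfam_aeval (B : ι × Option K → Fin m × Bool → Fin m × Bool → ℝ)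
    (ω : L → Fin m × Bool → Fin m × Bool → ℝ) (z : ι × Option K → ℂ) (y : L → ℂ) :
    aeval (Sum.elim z y) (dpoly (Dfam B ω)) =
      (Matrix.of fun i j => (∑ o, z o * (B o i j : ℂ)) + ∑ l, y l * (ω l i j : ℂ)).det := by
  rw [dpoly_aeval]
  congr 1
  ext i j
  simp only [Matrix.of_apply, Fintype.sum_sum_type, Sum.elim_inl, Sum.elim_inr, Dfam]

theorem Dfam_eval (B : ι × Option K → Fin m × Bool → Fin m × Bool → ℝ)
    (ω : L → Fin m × Bool → Fin m × Bool → ℝ) (z : ι × Option K → ℝ) (y : L → ℝ) :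
    eval (Sum.elim z y) (dpoly (Dfam B ω)) =
      (Matrix.of fun i j => (∑ o, z o * B o i j) + ∑ l, y l * ω l i j).det := by
  rw [dpoly_eval]
  congr 1
  ext i j
  simp only [Matrix.of_apply, Fintype.sum_sum_type, Sum.elim_inl, Sum.elim_inr, Dfam]

/-- a point of the closure of the extended cone -/
theorem closure_PCx {c : ℝ} {v : (ι × Option K) ⊕ L → ℝ} (hv : v ∈ closure (PCx ι K L c)) :
    (∀ j, 0 ≤ v (Sum.inl (j, none)) ∧
      ∑ b : K, v (Sum.inl (j, some b)) ^ 2 ≤ v (Sum.inl (j, none)) ^ 2) ∧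
    ∀ l, |v (Sum.inr l)| ≤ c * ∑ j, v (Sum.inl (j, none)) := by
  have h1 : closure (PCx ι K L c) ⊆ {v | (∀ j, 0 ≤ v (Sum.inl (j, none)) ∧
      ∑ b : K, v (Sum.inl (j, some b)) ^ 2 ≤ v (Sum.inl (j, none)) ^ 2) ∧
      ∀ l, |v (Sum.inr l)| ≤ c * ∑ j, v (Sum.inl (j, none))} := by
    refine closure_minimal ?_ ?_
    · intro v hv
      exact ⟨fun j => ⟨(hv.1 j).1.le, (hv.1 j).2.le⟩, fun l => (hv.2 l).le⟩
    · have h2 : {v : (ι × Option K) ⊕ L → ℝ | (∀ j, 0 ≤ v (Sum.inl (j, none)) ∧
        ∑ b : K, v (Sum.inl (j, some b)) ^ 2 ≤ v (Sum.inl (j, none)) ^ 2) ∧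
        ∀ l, |v (Sum.inr l)| ≤ c * ∑ j, v (Sum.inl (j, none))} =
        (⋂ j, ({v | 0 ≤ v (Sum.inl (j, none))} ∩ {v | ∑ b : K, v (Sum.inl (j, some b)) ^ 2 ≤
          v (Sum.inl (j, none)) ^ 2})) ∩
        ⋂ l, {v | |v (Sum.inr l)| ≤ c * ∑ j, v (Sum.inl (j, none))} := by
        ext v
        simp only [Set.mem_setOf_eq, Set.mem_inter_iff, Set.mem_iInter]
      rw [h2]
      refine IsClosed.inter ?_ ?_
      · refine isClosed_iInter fun j => IsClosed.inter ?_ ?_
        · exact isClosed_le continuous_const (continuous_apply _)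
        · exact isClosed_le (by fun_prop) (by fun_prop)
      · exact isClosed_iInter fun l => isClosed_le (by fun_prop) (by fun_prop)
  exact h1 hv

/-- the strict case -/
theorem Yf_mixed_strict (hParam : S4_Param) (hSub : S4_Sub) (hCone : S4_Cone)
    (hSplit : S4_Split) (hSign : S4_Sign) [Nonempty ι]
    (B : ι × Option K → Fin m × Bool → Fin m × Bool → ℝ)
    (ω : L → Fin m × Bool → Fin m × Bool → ℝ)
    (hs : ∀ o i j, B o i j = B o j i) (hω : ∀ l i j, ω l i j = - ω l j i) {ε : ℝ} (hε : 0 < ε)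
    (hc : ∀ (j : ι) (y : EuclideanSpace ℝ (Fin m × Bool)),
      Real.sqrt (∑ b, qf (B (j, some b)) y ^ 2) + ε * ‖y‖ ^ 2 ≤ qf (B (j, none)) y) :
    0 ≤ Yf (fun a b c d => ∑ k, (Sum.elim pw fun _ => (1 : ℝ)) k *
      (Dfam B ω k a b * Dfam B ω k c d)) := by
  have hcard : Fintype.card (Fin m × Bool) = 2 * m := by
    rw [Fintype.card_prod, Fintype.card_fin, Fintype.card_bool, mul_comm]
  have hq0 : ∀ (j : ι) (y : EuclideanSpace ℝ (Fin m × Bool)), ε * ‖y‖ ^ 2 ≤ qf (B (j, none)) y := by
    intro j y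
    have := hc j y
    have h2 := Real.sqrt_nonneg (∑ b, qf (B (j, some b)) y ^ 2)
    linarith
  have hlow : ∀ (v : ι × Option K → ℝ), (∀ j, 0 ≤ v (j, none) ∧
      ∑ b : K, v (j, some b) ^ 2 ≤ v (j, none) ^ 2) → ∀ y : EuclideanSpace ℝ (Fin m × Bool),
      (ε * ∑ j, v (j, none)) * ‖y‖ ^ 2 ≤ qf (fun i j => ∑ o, v o * B o i j) y := by
    intro v hv y
    rw [qf_lin, Fintype.sum_prod_type]
    have h1 : (ε * ∑ j, v (j, none)) * ‖y‖ ^ 2 = ∑ j, v (j, none) * (ε * ‖y‖ ^ 2) := by
      rw [← Finset.sum_mul]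
      ring
    rw [h1]
    refine Finset.sum_le_sum fun j _ => ?_
    rw [Fintype.sum_option]
    obtain ⟨h2, h3⟩ := hv j
    have h4 := Finset.sum_mul_sq_le_sq_mul_sq Finset.univ (fun b : K => v (j, some b))
      (fun b : K => qf (B (j, some b)) y)
    have h5 : (∑ b : K, v (j, some b) * qf (B (j, some b)) y) ^ 2 ≤
        (v (j, none) * Real.sqrt (∑ b, qf (B (j, some b)) y ^ 2)) ^ 2 := by
      refine h4.trans ?_
      rw [mul_pow, Real.sq_sqrt (Finset.sum_nonneg fun _ _ => sq_nonneg _)]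
      exact mul_le_mul_of_nonneg_right h3 (Finset.sum_nonneg fun _ _ => sq_nonneg _)
    have h6 := (abs_le_of_sq_le_sq' h5 (by positivity)).1
    have h7 := mul_le_mul_of_nonneg_left (hc j y) h2
    linarith
  -- the polynomials
  set R := dpoly (Dfam B ω) with hR
  have hRh : R.IsHomogeneous (2 * m) := by rw [← hcard]; exact dpoly_hom _
  have hskew : ∀ (y : L → ℝ) i j, (∑ l, y l * ω l i j) = - ∑ l, y l * ω l j i := by
    intro y i j
    rw [← Finset.sum_neg_distrib]
    refine Finset.sum_congr rfl fun l _ => ?_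
    rw [hω l i j]
    ring
  have hsymm : ∀ (x : ι × Option K → ℝ) i j, (∑ o, x o * B o i j) = ∑ o, x o * B o j i := by
    intro x i j
    exact Finset.sum_congr rfl fun o _ => by rw [hs]
  have heven : ∀ (x : ι × Option K → ℝ) (t : L → ℝ),
      eval (Sum.elim x fun k => - t k) R = eval (Sum.elim x t) R := by
    intro x t
    rw [hR, Dfam_eval, Dfam_eval, ← Matrix.det_transpose]
    congr 1
    ext i j
    simp only [Matrix.transpose_apply, Matrix.of_apply]
    rw [hsymm x j i]
    congr 1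
    rw [hskew t i j, ← Finset.sum_neg_distrib]
    exact Finset.sum_congr rfl fun l _ => by ring
  obtain ⟨q, hqh, hq⟩ := hSub (ι × Option K) L R (2 * m) hRh heven
  have hq1 : ∀ (z : ι × Option K → ℂ) (y : L → ℂ), aeval (Sum.elim z y) q =
      (Matrix.of fun i j => (∑ o, z o * (B o i j : ℂ)) +
        ∑ l, (Complex.I * y l) * (ω l i j : ℂ)).det := by
    intro z y
    have h1 := hq pw 0 z y
    rw [Function.iterate_zero, id, id] at h1
    rw [h1, hR, Dfam_aeval]
  -- the constants
  set Cω : ℝ := ∑ l, ∑ i, ∑ j, |ω l i j| with hCω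
  have hCω0 : 0 ≤ Cω := Finset.sum_nonneg fun _ _ => Finset.sum_nonneg fun _ _ =>
    Finset.sum_nonneg fun _ _ => abs_nonneg _
  set c : ℝ := ε / (2 * (Cω + 1)) with hcdef
  have hc0 : 0 < c := by positivity
  have hcC : c * Cω < ε := by
    rw [hcdef, div_mul_eq_mul_div, div_lt_iff₀ (by positivity)]
    nlinarith
  obtain ⟨hΩ, hemem, h0mem, hstar⟩ := hCone ι K L c hc0
  set e : (ι × Option K) ⊕ L → ℝ := Sum.elim pe fun _ => 0 with he
  -- the Hermitian determinant on the closed cone
  have hne : ∀ v ∈ closure (PCx ι K L c), v ≠ 0 → ∀ θ : ℝ, 0 ≤ θ → θ ≤ 1 →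
      eval (Sum.elim (fun o => v (Sum.inl o)) fun l => θ * v (Sum.inr l)) q ≠ 0 := by
    intro v hv hv0 θ hθ0 hθ1 h0
    obtain ⟨hv1, hv2⟩ := closure_PCx hv
    have hsum : 0 < ∑ j, v (Sum.inl (j, none)) := by
      refine lt_of_le_of_ne (Finset.sum_nonneg fun j _ => (hv1 j).1) ?_
      intro h0
      apply hv0
      have h1 : ∀ j, v (Sum.inl (j, none)) = 0 := fun j =>
        (Finset.sum_eq_zero_iff_of_nonneg (fun j _ => (hv1 j).1)).1 h0.symm j (Finset.mem_univ j)
      funext o
      rcases o with ⟨j, o⟩ | l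
      · cases o with
        | none => exact h1 j
        | some b =>
          have h2 := (hv1 j).2
          rw [h1 j, zero_pow two_ne_zero] at h2
          have h3 : v (Sum.inl (j, some b)) ^ 2 ≤ ∑ b : K, v (Sum.inl (j, some b)) ^ 2 :=
            Finset.single_le_sum (f := fun b => v (Sum.inl (j, some b)) ^ 2)
              (fun _ _ => sq_nonneg _) (Finset.mem_univ b)
          have h4 : v (Sum.inl (j, some b)) ^ 2 = 0 := le_antisymm (h3.trans h2) (sq_nonneg _)
          simpa using pow_eq_zero_iff two_ne_zero |>.1 h4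
      · have h2 := hv2 l
        rw [← h0, mul_zero] at h2
        simpa using h2
    have h1 : aeval (Sum.elim (fun o => ((v (Sum.inl o) : ℝ) : ℂ))
        fun l => ((θ * v (Sum.inr l) : ℝ) : ℂ)) q = 0 := by
      have h2 : (Sum.elim (fun o => ((v (Sum.inl o) : ℝ) : ℂ))
          fun l => ((θ * v (Sum.inr l) : ℝ) : ℂ)) =
          fun k => ((Sum.elim (fun o => v (Sum.inl o)) (fun l => θ * v (Sum.inr l)) k : ℝ) : ℂ) := by
        funext k
        cases k <;> rfl
      rw [h2, GardingL.aeval_real, h0, Complex.ofReal_zero]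
    rw [hq1] at h1
    have h3 : (Matrix.of fun i j => (∑ o, ((v (Sum.inl o) : ℝ) : ℂ) * (B o i j : ℂ)) +
        ∑ l, (Complex.I * ((θ * v (Sum.inr l) : ℝ) : ℂ)) * (ω l i j : ℂ)) =
        Matrix.of fun i j => (((∑ o, v (Sum.inl o) * B o i j : ℝ)) : ℂ) +
          (((∑ l, (θ * v (Sum.inr l)) * ω l i j : ℝ)) : ℂ) * Complex.I := by
      ext i j
      simp only [Matrix.of_apply]
      push_cast
      rw [Finset.sum_mul]
      congr 1
      refine Finset.sum_congr rfl fun l _ => ?_
      ring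
    rw [h3] at h1
    refine det_herm (c := c * Cω * ∑ j, v (Sum.inl (j, none)))
      (p := ε * ∑ j, v (Sum.inl (j, none))) ?_ ?_ ?_ ?_ ?_ h1
    · exact fun i j => hsymm (fun o => v (Sum.inl o)) i j
    · exact fun i j => hskew (fun l => θ * v (Sum.inr l)) i j
    · have h4 : ∀ i j, |∑ l, (θ * v (Sum.inr l)) * ω l i j| ≤
          ∑ l, (c * ∑ j, v (Sum.inl (j, none))) * |ω l i j| := by
        intro i j
        refine (Finset.abs_sum_le_sum_abs _ _).trans (Finset.sum_le_sum fun l _ => ?_)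
        rw [abs_mul, abs_mul, abs_of_nonneg hθ0]
        refine mul_le_mul_of_nonneg_right ?_ (abs_nonneg _)
        calc θ * |v (Sum.inr l)| ≤ 1 * |v (Sum.inr l)| :=
              mul_le_mul_of_nonneg_right hθ1 (abs_nonneg _)
          _ = |v (Sum.inr l)| := one_mul _
          _ ≤ _ := hv2 l
      refine (Finset.sum_le_sum fun i _ => Finset.sum_le_sum fun j _ => h4 i j).trans
        (le_of_eq ?_)
      rw [hCω]
      simp only [← Finset.mul_sum]
      have h5 : ∑ i, ∑ j, ∑ l, |ω l i j| = ∑ l, ∑ i, ∑ j, |ω l i j| := by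
        have h6 : ∀ i, ∑ j, ∑ l, |ω l i j| = ∑ l, ∑ j, |ω l i j| := fun i => Finset.sum_comm
        simp only [h6]
        exact Finset.sum_comm
      rw [h5]
      ring
    · exact mul_lt_mul_of_pos_right hcC hsum
    · exact hlow (fun o => v (Sum.inl o)) hv1
  -- positivity on the closed cone
  have hpos : ∀ v ∈ closure (PCx ι K L c), v ≠ 0 → 0 < eval v q := by
    intro v hv hv0
    have hsum : 0 < ∑ j, v (Sum.inl (j, none)) ∨ ∑ j, v (Sum.inl (j, none)) ≤ 0 := lt_or_ge _ _
    have hcont : Continuous fun θ : ℝ =>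
        eval (Sum.elim (fun o => v (Sum.inl o)) fun l => θ * v (Sum.inr l)) q := by
      refine (MvPolynomial.continuous_eval q).comp ?_
      refine continuous_pi fun k => ?_
      cases k with
      | inl o => exact continuous_const
      | inr l => exact continuous_id.mul continuous_const
    have h0 : 0 < eval (Sum.elim (fun o => v (Sum.inl o)) fun l => (0 : ℝ) * v (Sum.inr l)) q := by
      have h1 := hne v hv hv0 0 le_rfl zero_le_one
      obtain ⟨hv1, hv2⟩ := closure_PCx hv
      refine lt_of_le_of_ne ?_ (Ne.symm h1)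
      -- value at `θ = 0`
      have h2 := hq1 (fun o => ((v (Sum.inl o) : ℝ) : ℂ)) (fun _ => 0)
      have h3 : (Sum.elim (fun o => ((v (Sum.inl o) : ℝ) : ℂ)) fun _ => (0 : ℂ)) =
          fun k => ((Sum.elim (fun o => v (Sum.inl o))
            (fun l : L => (0 : ℝ) * v (Sum.inr l)) k : ℝ) : ℂ) := by
        funext k
        cases k
        · rfl
        · simp
      rw [h3, GardingL.aeval_real] at h2
      have h4 : (Matrix.of fun i j => (∑ o, ((v (Sum.inl o) : ℝ) : ℂ) * (B o i j : ℂ)) +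
          ∑ l, (Complex.I * (0 : ℂ)) * (ω l i j : ℂ)) =
          (Matrix.of fun i j => ∑ o, v (Sum.inl o) * B o i j).map
            (Complex.ofRealHom : ℝ → ℂ) := by
        ext i j
        simp
      have h5 := RingHom.map_det Complex.ofRealHom
        (Matrix.of fun i j => ∑ o, v (Sum.inl o) * B o i j)
      rw [RingHom.mapMatrix_apply] at h5
      rw [h4, ← h5] at h2
      have h6 : eval (Sum.elim (fun o => v (Sum.inl o)) fun l => (0 : ℝ) * v (Sum.inr l)) q =
          (Matrix.of fun i j => ∑ o, v (Sum.inl o) * B o i j).det :=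
        Complex.ofReal_injective h2
      rw [h6]
      rcases eq_or_lt_of_le (Finset.sum_nonneg fun j (_ : j ∈ Finset.univ) => (hv1 j).1) with h7 | h7
      · exfalso
        apply hv0
        have h8 : ∀ j, v (Sum.inl (j, none)) = 0 := fun j =>
          (Finset.sum_eq_zero_iff_of_nonneg (fun j _ => (hv1 j).1)).1 h7.symm j
            (Finset.mem_univ j)
        funext o
        rcases o with ⟨j, o⟩ | l
        · cases o with
          | none => exact h8 j
          | some b =>
            have h2 := (hv1 j).2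
            rw [h8 j, zero_pow two_ne_zero] at h2
            have h3 : v (Sum.inl (j, some b)) ^ 2 ≤ ∑ b : K, v (Sum.inl (j, some b)) ^ 2 :=
              Finset.single_le_sum (f := fun b => v (Sum.inl (j, some b)) ^ 2)
                (fun _ _ => sq_nonneg _) (Finset.mem_univ b)
            have h4 : v (Sum.inl (j, some b)) ^ 2 = 0 := le_antisymm (h3.trans h2) (sq_nonneg _)
            simpa using pow_eq_zero_iff two_ne_zero |>.1 h4
        · have h2 := hv2 l
          rw [← h7, mul_zero] at h2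
          simpa using h2
      · exact (det_pos_of_qf (fun i j => hsymm (fun o => v (Sum.inl o)) i j)
          (mul_pos hε h7) (hlow (fun o => v (Sum.inl o)) hv1)).le
    have h1 : (Sum.elim (fun o => v (Sum.inl o)) fun l => (1 : ℝ) * v (Sum.inr l)) = v := by
      funext k
      cases k
      · rfl
      · simp
    by_contra hcon
    push Not at hcon
    have h2 : (0 : ℝ) ∈ (fun θ : ℝ =>
        eval (Sum.elim (fun o => v (Sum.inl o)) fun l => θ * v (Sum.inr l)) q) ''
          Set.Icc 0 1 := by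
      refine intermediate_value_Icc' zero_le_one hcont.continuousOn ⟨?_, h0.le⟩
      beta_reduce
      rw [h1]
      exact hcon
    obtain ⟨θ, hθ, hθ2⟩ := h2
    exact hne v hv hv0 θ hθ.1 hθ.2 hθ2
  -- stability
  have hst : Stab q e := by
    intro x s hs'
    have h1 : (cp x fun k => s * e k) = Sum.elim
        (fun o => ((x (Sum.inl o) : ℝ) : ℂ) + ((s * pe o : ℝ) : ℂ) * Complex.I)
        (fun l => ((x (Sum.inr l) : ℝ) : ℂ)) := by
      funext k
      cases k with
      | inl o => rfl
      | inr l => simp [cp, he]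
    rw [h1, hq1]
    have h2 : (Matrix.of fun i j => (∑ o, (((x (Sum.inl o) : ℝ) : ℂ) +
        ((s * pe o : ℝ) : ℂ) * Complex.I) * (B o i j : ℂ)) +
        ∑ l, (Complex.I * ((x (Sum.inr l) : ℝ) : ℂ)) * (ω l i j : ℂ)) =
        Matrix.of fun i j => (((∑ o, x (Sum.inl o) * B o i j : ℝ)) : ℂ) +
          (((∑ o, (s * pe o) * B o i j : ℝ)) : ℂ) * Complex.I +
          (((∑ l, x (Sum.inr l) * ω l i j : ℝ)) : ℂ) * Complex.I := by
      ext i j
      simp only [Matrix.of_apply]
      push_cast
      rw [Finset.sum_mul, Finset.sum_mul, ← Finset.sum_add_distrib]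
      congr 1
      · refine Finset.sum_congr rfl fun o _ => ?_
        ring
      · refine Finset.sum_congr rfl fun l _ => ?_
        ring
    rw [h2]
    have hpe1 : ∀ j : ι, (pe ((j, none) : ι × Option K) : ℝ) = 1 := fun _ => rfl
    have hpe2 : ∀ (j : ι) (b : K), (pe ((j, some b) : ι × Option K) : ℝ) = 0 := fun _ _ => rfl
    refine det_stab_skew (p := ε * ∑ _j : ι, s) ?_ ?_ ?_ ?_ ?_
    · exact fun i j => hsymm (fun o => x (Sum.inl o)) i j
    · exact fun i j => hsymm (fun o => s * pe o) i j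
    · exact fun i j => hskew (fun l => x (Sum.inr l)) i j
    · exact mul_pos hε (Finset.sum_pos (fun _ _ => hs') Finset.univ_nonempty)
    · intro y
      have h2 := hlow (fun o => s * pe o) (fun j => ?_) y
      · simp only [hpe1, mul_one] at h2
        exact h2
      · simp only [hpe1, hpe2, mul_one, mul_zero]
        refine ⟨hs'.le, ?_⟩
        simp
        positivity
  -- the theorem
  have hmain := hParam _ (PCx ι K L c) e (Sum.elim pw fun _ => 0) q m hΩ hemem h0mem hstar hqh hst
    hpos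
  have hepos : 0 < eval e q := hpos e (subset_closure hemem) (fun h => h0mem (h ▸ hemem))
  have hstep := hSign (ι × Option K) L pe pw R q m hRh ?_ (fun i z y => hq pw i z y) ?_
  · have hfin := hSplit (ι × Option K) L pw R m hRh hstep
    rw [hR, lap_dpoly pair] at hfin
    exact hfin
  · have h1 := hq1 (fun o => ((pe o : ℝ) : ℂ)) (fun _ => 0)
    have h2 := Dfam_eval B ω pe (fun _ => 0)
    have h3 : (Sum.elim (fun o : ι × Option K => ((pe o : ℝ) : ℂ)) fun _ : L => (0 : ℂ)) =
        fun k => ((e k : ℝ) : ℂ) := by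
      funext k
      cases k
      · rfl
      · simp [he]
    rw [h3, GardingL.aeval_real] at h1
    have h4 : (Matrix.of fun i j => (∑ o, ((pe o : ℝ) : ℂ) * (B o i j : ℂ)) +
        ∑ l, (Complex.I * (0 : ℂ)) * (ω l i j : ℂ)) =
        (Matrix.of fun i j => (∑ o, pe o * B o i j) + ∑ l, (0 : ℝ) * ω l i j).map
          (Complex.ofRealHom : ℝ → ℂ) := by
      ext i j
      simp
    have h5 := RingHom.map_det Complex.ofRealHom
      (Matrix.of fun i j => (∑ o, pe o * B o i j) + ∑ l, (0 : ℝ) * ω l i j)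
    rw [RingHom.mapMatrix_apply] at h5
    rw [h4, ← h5] at h1
    have h6 : eval e q = (Matrix.of fun i j => (∑ o, pe o * B o i j) +
        ∑ l, (0 : ℝ) * ω l i j).det := Complex.ofReal_injective h1
    rw [hR, h2, ← h6]
    exact hepos
  · intro x s hs' h0
    have h1 := hmain x s hs'
    rw [h0, norm_zero] at h1
    have h2 : 0 < s ^ (2 * m) * eval e q := by positivity
    linarith

end mixed

end Pool.Agent.H783.HL
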