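import Pool.Agent.H783.HL.Stm2

/-!
# Project HL2: the regularization
-/

set_option autoImplicit false

namespace Pool.Agent.H783.HL

open MvPolynomial

namespace Reg2Aux

variable {σ : Type}

/-- the restriction to a line as a homomorphism of algebras -/
noncomputable def sl (e x : σ → ℝ) : MvPolynomial σ ℝ →ₐ[ℝ] Polynomial ℝ :=
  aeval (fun k => Polynomial.C (x k) + Polynomial.C (e k) * Polynomial.X)

theorem slice_eq (e x : σ → ℝ) (q : MvPolynomial σ ℝ) : slice e x q = sl e x q := rfl

theorem sl_C (e x : σ → ℝ) (r : ℝ) : sl e x (C r) = Polynomial.C r :=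
  (sl e x).commutes r

/-- values of homogeneous polynomials at multiples -/
theorem aeval_scale [Fintype σ] {p : MvPolynomial σ ℝ} {n : ℕ} (h : p.IsHomogeneous n) (l : ℂ)
    (z : σ → ℂ) : aeval (fun k => l * z k) p = l ^ n * aeval z p := by
  rw [aeval_def, aeval_def, eval₂_eq', eval₂_eq', Finset.mul_sum]
  refine Finset.sum_congr rfl fun d hd => ?_
  have h1 : ∑ i, d i = n := by
    have h2 := h.degree_eq_sum_deg_support hd
    rw [h2]
    refine (Finset.sum_subset (Finset.subset_univ _) fun i _ hi => ?_).symm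
    simpa using hi
  rw [← h1]
  simp only [mul_pow, Finset.prod_mul_distrib, Finset.prod_pow_eq_pow_sum]
  ring

theorem ofReal_eval (x : σ → ℝ) (p : MvPolynomial σ ℝ) :
    aeval (fun k => (x k : ℂ)) p = ((eval x p : ℝ) : ℂ) := by
  have h := comp_aeval_apply (f := x) (Complex.ofRealAm : ℝ →ₐ[ℝ] ℂ) p
  simp only [Complex.ofRealAm_coe] at h
  rw [← h]
  rfl

theorem eval_scale [Fintype σ] {p : MvPolynomial σ ℝ} {n : ℕ} (h : p.IsHomogeneous n) (l : ℝ)
    (z : σ → ℝ) : eval (fun k => l * z k) p = l ^ n * eval z p := by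
  have h1 := aeval_scale h (l : ℂ) (fun k => (z k : ℂ))
  have h2 : (fun k => (l : ℂ) * (z k : ℂ)) = fun k => (((fun k => l * z k) k : ℝ) : ℂ) := by
    funext k
    push_cast
    rfl
  rw [h2, ofReal_eval, ofReal_eval] at h1
  exact_mod_cast h1

section hom

theorem pderiv_zero_of_hom {p : MvPolynomial σ ℝ} (h : p.IsHomogeneous 0) (k : σ) :
    pderiv k p = 0 := by
  have h1 := (totalDegree_zero_iff_isHomogeneous σ).2 h
  rw [totalDegree_eq_zero_iff_eq_C] at h1
  rw [h1, pderiv_C]

variable [Fintype σ]

theorem de_hom (e : σ → ℝ) {p : MvPolynomial σ ℝ} {n : ℕ} (h : p.IsHomogeneous n) :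
    (de e p).IsHomogeneous (n - 1) := by
  unfold de
  exact IsHomogeneous.sum _ _ _ fun k _ => (h.pderiv (i := k)).C_mul (e k)

theorem de_zero_of_hom (e : σ → ℝ) {p : MvPolynomial σ ℝ} (h : p.IsHomogeneous 0) :
    de e p = 0 := by
  unfold de
  refine Finset.sum_eq_zero fun k _ => ?_
  rw [pderiv_zero_of_hom h, mul_zero]

theorem rho_hom (e : σ → ℝ) : (rho e).IsHomogeneous 2 := by
  unfold rho
  refine IsHomogeneous.sub ?_ ?_
  · refine IsHomogeneous.C_mul ?_ _
    exact IsHomogeneous.sum _ _ _ fun k _ => isHomogeneous_X_pow k 2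
  · have h1 : (∑ k, C (e k) * X k : MvPolynomial σ ℝ).IsHomogeneous 1 :=
      IsHomogeneous.sum _ _ _ fun k _ => isHomogeneous_C_mul_X (e k) k
    exact h1.pow 2

theorem rstep_hom (e : σ → ℝ) (δ : ℝ) {q : MvPolynomial σ ℝ} {n : ℕ} (h : q.IsHomogeneous n) :
    (rstep e δ q).IsHomogeneous n := by
  unfold rstep
  refine h.sub (IsHomogeneous.C_mul ?_ δ)
  have h1 := de_hom e h
  rcases Nat.lt_or_ge n 2 with hn | hn
  · have h2 : dde e q = 0 := by
      unfold dde
      have h3 : n - 1 = 0 := by omega
      rw [h3] at h1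
      exact de_zero_of_hom e h1
    rw [h2, mul_zero]
    exact isHomogeneous_zero _ _ _
  · have h2 : (dde e q).IsHomogeneous (n - 1 - 1) := de_hom e h1
    have h3 := (rho_hom e).mul h2
    have h4 : 2 + (n - 1 - 1) = n := by omega
    rwa [h4] at h3

theorem iter_hom (e : σ → ℝ) (δ : ℝ) {q : MvPolynomial σ ℝ} {n : ℕ} (h : q.IsHomogeneous n)
    (m : ℕ) : ((rstep e δ)^[m] q).IsHomogeneous n := by
  induction m with
  | zero => exact h
  | succ m ih =>
    rw [Function.iterate_succ_apply']
    exact rstep_hom e δ ih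

theorem eval_rho_self (e : σ → ℝ) : eval e (rho e) = 0 := by
  unfold rho
  simp only [map_sub, map_mul, eval_C, map_sum, map_pow, eval_X]
  rw [Finset.sum_congr rfl fun k _ => (pow_two (e k)).symm]
  ring

theorem eval_iter (e : σ → ℝ) (δ : ℝ) (q : MvPolynomial σ ℝ) (m : ℕ) :
    eval e ((rstep e δ)^[m] q) = eval e q := by
  induction m with
  | zero => rfl
  | succ m ih =>
    rw [Function.iterate_succ_apply']
    unfold rstep at ih ⊢
    rw [map_sub, map_mul, map_mul, eval_rho_self, zero_mul, mul_zero, sub_zero]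
    exact ih

end hom

variable [Fintype σ]

theorem slice_dde (hS : S2_Slice) (e x : σ → ℝ) (q : MvPolynomial σ ℝ) :
    slice e x (dde e q) = Polynomial.derivative (Polynomial.derivative (slice e x q)) := by
  unfold dde
  rw [← (hS σ e x (de e q)).1, ← (hS σ e x q).1]

theorem slice_rstep (hS : S2_Slice) (e x : σ → ℝ) (δ : ℝ) (q : MvPolynomial σ ℝ) :
    slice e x (rstep e δ q) = ustep (δ * eval x (rho e)) (slice e x q) := by
  unfold rstep ustep
  rw [← slice_dde hS]
  have h1 : sl e x (rho e) = Polynomial.C (eval x (rho e)) := (hS σ e x q).2.2.2.2.1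
  simp only [slice_eq]
  rw [map_sub, map_mul, map_mul, sl_C, h1, Polynomial.C_mul, mul_assoc]

theorem slice_iter (hS : S2_Slice) (e x : σ → ℝ) (δ : ℝ) (q : MvPolynomial σ ℝ) (m : ℕ) :
    slice e x ((rstep e δ)^[m] q) = (ustep (δ * eval x (rho e)))^[m] (slice e x q) := by
  induction m with
  | zero => rfl
  | succ m ih =>
    rw [Function.iterate_succ_apply', Function.iterate_succ_apply', slice_rstep hS, ih]

theorem slice_dde_iter (hS : S2_Slice) (e x : σ → ℝ) (q : MvPolynomial σ ℝ) (m : ℕ) :
    slice e x ((dde e)^[m] q) = (Polynomial.derivative^[2 * m]) (slice e x q) := by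
  induction m with
  | zero => rfl
  | succ m ih =>
    have h : 2 * (m + 1) = 2 * m + 1 + 1 := by ring
    rw [Function.iterate_succ_apply', slice_dde hS, ih, h, Function.iterate_succ_apply',
      Function.iterate_succ_apply']

theorem RR_slice (hS : S2_Slice) (e x : σ → ℝ) (p : MvPolynomial σ ℝ) (hp : Stab p e) :
    RR (slice e x p) := by
  have hpos : ∀ z : ℂ, 0 < z.im → Polynomial.aeval z (slice e x p) ≠ 0 := by
    intro z hz
    rw [(hS σ e x p).2.2.1]
    have h1 := hp (fun k => x k + z.re * e k) z.im hz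
    have h2 : (cp (fun k => x k + z.re * e k) fun k => z.im * e k) =
        fun k => (x k : ℂ) + z * e k := by
      funext k
      unfold cp
      push_cast
      have h3 : z = z.re + z.im * Complex.I := (Complex.re_add_im z).symm
      calc (x k : ℂ) + z.re * e k + z.im * e k * Complex.I
          = (x k : ℂ) + (z.re + z.im * Complex.I) * e k := by ring
        _ = (x k : ℂ) + z * e k := by rw [← h3]
    rw [h2] at h1
    exact h1
  intro z hz
  rcases lt_or_gt_of_ne hz with h | h
  · have h1 := hpos ((starRingEnd ℂ) z) (by rw [Complex.conj_im]; linarith)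
    intro h0
    apply h1
    rw [Polynomial.aeval_conj, h0, map_zero]
  · exact hpos z h

theorem RR_iter (h1 : S_RRsub) (f : Polynomial ℝ) (c : ℝ) (hc : 0 ≤ c) (hf : RR f) (m : ℕ) :
    RR ((ustep c)^[m] f) := by
  induction m with
  | zero => exact hf
  | succ m ih =>
    rw [Function.iterate_succ_apply']
    exact h1 _ c hc ih

theorem eval_ne_zero (e : σ → ℝ) (p : MvPolynomial σ ℝ) (n : ℕ) (hp : p.IsHomogeneous n)
    (hs : Stab p e) : eval e p ≠ 0 := by
  intro h0
  have h1 := hs (fun _ => 0) 1 one_pos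
  apply h1
  have h2 : (cp (fun _ : σ => (0 : ℝ)) fun k => 1 * e k) =
      fun k => Complex.I * (e k : ℂ) := by
    funext k
    unfold cp
    push_cast
    ring
  rw [h2, aeval_scale hp, ofReal_eval, h0]
  simp

end Reg2Aux

open Reg2Aux in
theorem reg2 (hS : S2_Slice) (h1 : S_RRsub) (h2 : S_RRsimple) (h3 : S_RRexp) : S2_Reg := by
  intro σ _ e w p n he hp hs
  have hhom : ∀ δ, (reg e n δ p).IsHomogeneous n := fun δ => iter_hom e δ hp n
  have heval : ∀ δ, eval e (reg e n δ p) = eval e p := fun δ => eval_iter e δ p n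
  have hdeg : ∀ x, (slice e x p).natDegree ≤ n := fun x =>
    ((hS σ e x p).2.2.2.1).trans hp.totalDegree_le
  refine ⟨hhom, heval, ?_, ?_⟩
  · intro δ hδ x hx h0 h4
    obtain ⟨-, -, -, -, -, h5, h6⟩ := hS σ e x p
    have h6 := h6 he
    rcases h5.eq_or_lt with h7 | h7
    · obtain ⟨t, ht⟩ := h6 h7.symm
      have ht0 : t ≠ 0 := by
        rintro rfl
        apply hx
        rw [ht]
        funext k
        simp
      have h8 : eval x (reg e n δ p) = t ^ n * eval e p := by
        rw [ht, eval_scale (hhom δ), heval]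
      rw [h0] at h8
      exact (mul_ne_zero (pow_ne_zero n ht0) (eval_ne_zero e p n hp hs)) h8.symm
    · have h8 := h2 (slice e x p) n (δ * eval x (rho e)) (mul_pos hδ h7) (hdeg x)
        (RR_slice hS e x p hs) 0
      rw [← slice_iter hS] at h8
      have h9 : ∀ q : MvPolynomial σ ℝ, (slice e x q).eval 0 = eval x q := by
        intro q
        rw [(hS σ e x q).2.1]
        congr 2
        funext k
        ring
      have h10 := h8 (by
        rw [h9]
        exact h0)
      apply h10
      rw [(hS σ e x _).1, h9]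
      exact h4
  · intro δ a τ hδ ha x s hs0
    have hfl : slice e x (flow2 e w n a 0 τ (reg e n δ p)) =
        ∑ k ∈ Finset.range (n + 1), Polynomial.C ((-(τ ^ 2 * a)) ^ k / k.factorial) *
          (Polynomial.derivative^[2 * k]) (slice e x (reg e n δ p)) := by
      unfold flow2
      rw [slice_eq, map_sum, Finset.sum_eq_single_of_mem 0 (by simp)]
      · rw [map_sum]
        refine Finset.sum_congr rfl fun k _ => ?_
        rw [map_mul, sl_C, ← slice_eq]
        unfold g2
        rw [Function.iterate_zero, id, slice_dde_iter hS]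
        congr 2
        rw [zero_add, pow_zero, Nat.factorial_zero, Nat.cast_one, one_mul, one_mul, ← neg_mul,
          mul_pow]
        ring
      · intro i _ hi
        rw [map_sum]
        refine Finset.sum_eq_zero fun k _ => ?_
        rw [zero_pow hi, zero_mul, zero_div, mul_zero, C_0, zero_mul, map_zero]
    have hRR : RR (slice e x (flow2 e w n a 0 τ (reg e n δ p))) := by
      rw [hfl]
      refine h3 _ n (τ ^ 2 * a) (by positivity) ?_ ?_
      · exact ((hS σ e x _).2.2.2.1).trans (hhom δ).totalDegree_le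
      · unfold reg
        rw [slice_iter hS]
        exact RR_iter h1 _ _ (mul_nonneg hδ (hS σ e x p).2.2.2.2.2.1)
          (RR_slice hS e x p hs) n
    have h4 := hRR (s * Complex.I) (by simpa using hs0.ne')
    rw [(hS σ e x _).2.2.1] at h4
    have h5 : (fun k => (x k : ℂ) + (s * Complex.I) * (e k : ℂ)) = cp x fun k => s * e k := by
      funext k
      unfold cp
      push_cast
      ring
    rw [h5] at h4
    exact h4

end Pool.Agent.H783.HL
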