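import Pool.Agent.H783.HL.Sign
import Pool.Agent.H783.Hopf.Forms

/-!
# Families of forms
-/

set_option autoImplicit false
set_option linter.unusedSectionVars false
set_option linter.unusedVariables false

namespace Pool.Agent.H783.HL

open Finset Filter Topology
open Pool.Agent.W666.GB Pool.Agent.W669.HD
open Pool.Agent.H783.Hopf (qf gbc_of_forms vec)

variable {V : Type} [NormedAddCommGroup V] [InnerProductSpace ℝ V] {m : ℕ}

theorem qf_bform {A : V → V → ℝ} (hA : BForm A) (e : OrthonormalBasis (Fin m × Bool) ℝ V)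
    (x : EuclideanSpace ℝ (Fin m × Bool)) :
    qf (fun i j => A (e i) (e j)) x = A (vec e x) (vec e x) := by
  have h2 : ∀ y, A (vec e x) y = ∑ i, x i * A (e i) y := by
    intro y
    let f : V →ₗ[ℝ] ℝ :=
      { toFun := fun x => A x y
        map_add' := fun a b => hA.add a b y
        map_smul' := fun t a => hA.smul t a y }
    have h3 : f (vec e x) = ∑ i, x i * f (e i) := by
      unfold vec
      simp only [map_sum, map_smul, smul_eq_mul]
    exact h3
  rw [h2]
  unfold Hopf.qf
  refine Finset.sum_congr rfl fun i _ => ?_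
  rw [hA.symm, h2, Finset.mul_sum]
  refine Finset.sum_congr rfl fun j _ => ?_
  rw [hA.symm]
  ring

section fam

variable {J : Type} {r : ℕ} {N : Fin r → ℕ}

/-- the family of forms -/
noncomputable def famB (b0 : J → J → ℝ) (β0 : J × J → J → J → ℝ) (b : Fin r → J → J → ℝ)
    (β : (i : Fin r) → Fin (N i) → J → J → ℝ) :
    Option (Fin r) × Option ((Σ i : Fin r, Fin (N i)) ⊕ (J × J)) → J → J → ℝ
  | (none, none) => b0
  | (none, some (Sum.inl _)) => fun _ _ => 0
  | (none, some (Sum.inr q)) => β0 q
  | (some i, none) => b i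
  | (some i, some (Sum.inl p)) => fun k l => if p.1 = i then β p.1 p.2 k l else 0
  | (some _, some (Sum.inr _)) => fun _ _ => 0

variable [Fintype J] [DecidableEq J]

theorem sum_sigma_one (i : Fin r) (F : (Σ i : Fin r, Fin (N i)) → ℝ)
    (hF : ∀ p, p.1 ≠ i → F p = 0) : ∑ p, F p = ∑ k : Fin (N i), F ⟨i, k⟩ := by
  rw [Fintype.sum_sigma, Finset.sum_eq_single i]
  · intro j _ hj
    exact Finset.sum_eq_zero fun k _ => hF _ hj
  · simp

theorem famB_sum (b0 : J → J → ℝ) (β0 : J × J → J → J → ℝ) (b : Fin r → J → J → ℝ)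
    (β : (i : Fin r) → Fin (N i) → J → J → ℝ) (k l k' l' : J) :
    ∑ o, pw o * (famB b0 β0 b β o k l * famB b0 β0 b β o k' l') =
      (b0 k l * b0 k' l' - ∑ q, β0 q k l * β0 q k' l') +
        ∑ i, (b i k l * b i k' l' - ∑ p, β i p k l * β i p k' l') := by
  rw [Fintype.sum_prod_type, Fintype.sum_option]
  congr 1
  · rw [Fintype.sum_option, Fintype.sum_sum_type]
    simp only [famB, pw, Option.elim_none, Option.elim_some, mul_zero, Finset.sum_const_zero,
      zero_add, one_mul, neg_mul, Finset.sum_neg_distrib]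
    ring
  · refine Finset.sum_congr rfl fun i _ => ?_
    rw [Fintype.sum_option, Fintype.sum_sum_type]
    rw [sum_sigma_one i (fun p => pw ((some i : Option (Fin r)),
        (some (Sum.inl p) : Option ((Σ i : Fin r, Fin (N i)) ⊕ (J × J)))) *
      (famB b0 β0 b β (some i, some (Sum.inl p)) k l *
        famB b0 β0 b β (some i, some (Sum.inl p)) k' l'))]
    · simp only [famB, pw, Option.elim_none, Option.elim_some, mul_zero, Finset.sum_const_zero,
        add_zero, one_mul, neg_mul, Finset.sum_neg_distrib, if_true]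
      ring
    · intro p hp
      simp only [famB, if_neg hp, mul_zero]

end fam

theorem qf_zero' (y : EuclideanSpace ℝ (Fin m × Bool)) : qf (fun _ _ => (0 : ℝ)) y = 0 := by
  unfold Hopf.qf
  simp

end Pool.Agent.H783.HL
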