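import Pool.Agent.H783.HL.Defs2
import Pool.Agent.H783.HL.Sign2
import Pool.Agent.H783.HL.Gauss3
import Pool.Agent.H783.HL.Hyper3

/-!
# Tensors of the second kind are limits of causal Gauss tensors
-/

set_option autoImplicit false
set_option linter.unusedSectionVars false
set_option linter.unusedVariables false

namespace Pool.Agent.H783.HL

open Finset Filter Topology
open Pool.Agent.W666.GB Pool.Agent.W669.HD Pool.Agent.Y519.HB

variable {V : Type} [NormedAddCommGroup V] [InnerProductSpace ℝ V]

/-- the second kind form in coordinates -/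
theorem second_coord2 {J : Type} [Fintype J] (f : J → V) {U : Submodule ℝ V} (hf : ∀ i, f i ∈ U)
    {T : V → V → V → V → ℝ} (hT : AlgCurv T) {h : V → V → ℝ} (hh : BForm h)
    (hneg : ∀ (I : Type) [Fintype I] (t : I → ℝ) (x : I → V), (∀ i, x i ∈ U) →
      ∑ i, t i * h (x i) (x i) = 0 → 0 ≤ ∑ i, ∑ j, t i * t j * T (x i) (x j) (x i) (x j))
    (A : J → J → ℝ) (hA : ∀ i j, A i j = A j i)
    (h0 : pairJ (fun i j => h (f i) (f j)) A = 0) :
    0 ≤ QJ (fun i j k l => T (f i) (f j) (f k) (f l)) A := by
  have hx : ∀ q, xx f q ∈ U := by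
    rintro ⟨⟨i, j⟩, b⟩
    unfold xx
    cases b
    · exact U.sub_mem (hf i) (hf j)
    · exact U.add_mem (hf i) (hf j)
  have h1 := hneg ((J × J) × Bool) (tt A) (xx f) hx (by
    rw [polar_sum hh]
    rw [← h0]
    unfold pairJ
    exact Finset.sum_congr rfl fun i _ => Finset.sum_congr rfl fun j _ => by ring)
  refine h1.trans (le_of_eq ?_)
  have hG1 : ∀ y : V, BForm (fun x x' => T x y x' y) := fun y =>
    ⟨fun x x' => (hT.pair x y x' y).symm, fun x x' z => hT.add _ _ _ _ _,
      fun t x z => hT.smul _ _ _ _ _⟩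
  have hG2 : BForm (fun y y' => ∑ i, ∑ j, A i j * T (f i) y (f j) y') := by
    refine ⟨fun y y' => ?_, fun y y' z => ?_, fun t y z => ?_⟩
    · rw [Finset.sum_comm]
      refine Finset.sum_congr rfl fun i _ => Finset.sum_congr rfl fun j _ => ?_
      rw [hA, hT.pair (f i) y' (f j) y]
    · rw [← Finset.sum_add_distrib]
      refine Finset.sum_congr rfl fun i _ => ?_
      rw [← Finset.sum_add_distrib]
      refine Finset.sum_congr rfl fun j _ => ?_
      rw [curv_add2 hT]
      ring
    · rw [Finset.mul_sum]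
      refine Finset.sum_congr rfl fun i _ => ?_
      rw [Finset.mul_sum]
      refine Finset.sum_congr rfl fun j _ => ?_
      rw [curv_smul2 hT]
      ring
  have h2 : ∀ b : (J × J) × Bool,
      ∑ a, tt A a * tt A b * T (xx f a) (xx f b) (xx f a) (xx f b) =
        tt A b * ∑ i, ∑ j, A i j * T (f i) (xx f b) (f j) (xx f b) := by
    intro b
    rw [← polar_sum (hG1 (xx f b)), Finset.mul_sum]
    refine Finset.sum_congr rfl fun a _ => ?_
    ring
  rw [Finset.sum_comm, Finset.sum_congr rfl fun b _ => h2 b, polar_sum hG2]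
  unfold QJ
  rw [Finset.sum_comm]
  have h3 : ∀ j l, A l j * ∑ i, ∑ k, A i k * T (f i) (f l) (f k) (f j) =
      ∑ i, ∑ k, A i k * A l j * T (f i) (f l) (f k) (f j) := by
    intro j l
    rw [Finset.mul_sum]
    refine Finset.sum_congr rfl fun i _ => ?_
    rw [Finset.mul_sum]
    refine Finset.sum_congr rfl fun k _ => ?_
    ring
  simp only [h3]
  calc ∑ j, ∑ l, ∑ i, ∑ k, A i k * A l j * T (f i) (f l) (f k) (f j)
      = ∑ l, ∑ j, ∑ i, ∑ k, A i k * A l j * T (f i) (f l) (f k) (f j) := Finset.sum_comm
    _ = ∑ l, ∑ i, ∑ j, ∑ k, A i k * A l j * T (f i) (f l) (f k) (f j) :=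
        Finset.sum_congr rfl fun l _ => Finset.sum_comm
    _ = ∑ i, ∑ l, ∑ j, ∑ k, A i k * A l j * T (f i) (f l) (f k) (f j) := Finset.sum_comm
    _ = ∑ i, ∑ j, ∑ k, ∑ l, A i k * A j l * T (f i) (f j) (f k) (f l) :=
        Finset.sum_congr rfl fun i _ => Finset.sum_congr rfl fun j _ => Finset.sum_comm

/-- the coordinates of the projection -/
theorem lives_exp {n : ℕ} {U : Submodule ℝ V} (o : OrthonormalBasis (Fin n) ℝ U)
    {g : V →ₗ[ℝ] ℝ} (hg : ∀ x ∈ Uᗮ, g x = 0) (x : V) :
    g x = ∑ i, inner ℝ (o i : V) x * g (o i : V) := by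
  have hfin : FiniteDimensional ℝ U := Module.Finite.of_basis o.toBasis
  have hone : ∀ i, inner ℝ (o i : V) (o i : V) = 1 := by
    intro i
    have h : ‖(o i : V)‖ = 1 := o.orthonormal.1 i
    rw [real_inner_self_eq_norm_sq, h, one_pow]
  have hzero : ∀ i j, i ≠ j → inner ℝ (o i : V) (o j : V) = 0 := fun i j hij =>
    o.orthonormal.2 hij
  have h1 : x - ∑ i, inner ℝ (o i : V) x • (o i : V) ∈ Uᗮ := by
    rw [Submodule.mem_orthogonal]
    intro u hu
    have h2 : ∀ v : U, inner ℝ (v : V) (x - ∑ i, inner ℝ (o i : V) x • (o i : V)) = 0 := by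
      intro v
      have h3 : v = ∑ i, inner ℝ (o i) v • o i := (o.sum_repr' v).symm
      have h4 : (v : V) = ∑ i, inner ℝ (o i) v • (o i : V) := by
        conv_lhs => rw [h3]
        simp
      rw [inner_sub_right, inner_sum]
      simp only [inner_smul_right]
      conv_lhs => rw [h4]
      rw [sum_inner]
      simp only [inner_smul_left, conj_trivial, Submodule.coe_inner]
      have h5 : ∀ i, inner ℝ (∑ j, inner ℝ (o j : V) (v : V) • (o j : V)) (o i : V) =
          inner ℝ (o i : V) (v : V) := by
        intro i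
        rw [real_inner_comm, inner_sum]
        simp only [inner_smul_right]
        rw [Finset.sum_eq_single i]
        · rw [hone, mul_one]
        · intro j _ hj
          rw [hzero i j (Ne.symm hj), mul_zero]
        · simp
      simp only [h5]
      rw [sub_eq_zero]
      exact Finset.sum_congr rfl fun i _ => by ring
    exact h2 ⟨u, hu⟩
  have h2 := hg _ h1
  rw [map_sub, map_sum, sub_eq_zero] at h2
  rw [h2]
  exact Finset.sum_congr rfl fun i _ => by rw [map_smul, smul_eq_mul]

/-- a curvature tensor as a linear map in the first slot -/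
noncomputable def slot1 {T : V → V → V → V → ℝ} (hT : AlgCurv T) (y z w : V) : V →ₗ[ℝ] ℝ where
  toFun x := T x y z w
  map_add' x x' := hT.add x x' y z w
  map_smul' t x := hT.smul t x y z w

theorem lives_EE {n : ℕ} {U : Submodule ℝ V} (o : OrthonormalBasis (Fin n) ℝ U)
    {T : V → V → V → V → ℝ} (hT : AlgCurv T) (hL : LivesOn U T) (x y z w : V) :
    T x y z w = EE (fun i => (o i : V))
      (fun i j k l => T (o i : V) (o j : V) (o k : V) (o l : V)) x y z w := by
  have h1 : ∀ x y z w : V, T x y z w = ∑ i, inner ℝ (o i : V) x * T (o i : V) y z w := by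
    intro x y z w
    exact lives_exp o (g := slot1 hT y z w) (fun x hx => hL x hx y z w) x
  have h2 : ∀ x y z w : V, T x y z w = ∑ i, inner ℝ (o i : V) y * T x (o i : V) z w := by
    intro x y z w
    have h3 : T x y z w = - T y x z w := hT.anti y x z w
    rw [h3, h1, ← Finset.sum_neg_distrib]
    refine Finset.sum_congr rfl fun i _ => ?_
    rw [hT.anti x (o i : V)]
    ring
  have h3 : ∀ x y z w : V, T x y z w = ∑ i, inner ℝ (o i : V) z * T x y (o i : V) w := by
    intro x y z w
    rw [← hT.pair, h1]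
    refine Finset.sum_congr rfl fun i _ => ?_
    rw [hT.pair x y]
  have h4 : ∀ x y z w : V, T x y z w = ∑ i, inner ℝ (o i : V) w * T x y z (o i : V) := by
    intro x y z w
    rw [← hT.pair, h2]
    refine Finset.sum_congr rfl fun i _ => ?_
    rw [hT.pair x y]
  unfold EE
  rw [h1]
  refine Finset.sum_congr rfl fun i _ => ?_
  rw [h2, Finset.mul_sum]
  refine Finset.sum_congr rfl fun j _ => ?_
  rw [h3, Finset.mul_sum, Finset.mul_sum]
  refine Finset.sum_congr rfl fun k _ => ?_
  rw [h4, Finset.mul_sum, Finset.mul_sum, Finset.mul_sum]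
  refine Finset.sum_congr rfl fun l _ => ?_
  ring

/-- **A tensor of the second kind is a limit of causal Gauss tensors.** -/
theorem second_approx [FiniteDimensional ℝ V] {U : Submodule ℝ V} {T : V → V → V → V → ℝ}
    (hT : SecondOn U T) : Approx T := by
  obtain ⟨hT, hL, h, hh, hpos, hneg⟩ := hT
  set n := Module.finrank ℝ U with hn
  set o : OrthonormalBasis (Fin n) ℝ U := stdOrthonormalBasis ℝ U with ho
  set f : Fin n → V := fun i => (o i : V) with hf
  have hfU : ∀ i, f i ∈ U := fun i => (o i).2
  have hHs : ∀ i j, h (f i) (f j) = h (f j) (f i) := fun i j => hh.symm _ _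
  refine ⟨FM f fun i j => h (f i) (f j), FM_bform f hHs, fun ε hε => ?_⟩
  -- positivity in coordinates
  have hquad : ∀ y : Fin n → ℝ, ∑ i, ∑ j, h (f i) (f j) * (y i * y j) =
      h (∑ i, y i • f i) (∑ i, y i • f i) := by
    intro y
    have h1 : ∀ (c : Fin n → ℝ) (z : V), h (∑ i, c i • f i) z = ∑ i, c i * h (f i) z := by
      intro c z
      let g : V →ₗ[ℝ] ℝ :=
        { toFun := fun x => h x z
          map_add' := fun a b => hh.add a b z
          map_smul' := fun t a => hh.smul t a z }
      have h3 : g (∑ i, c i • f i) = ∑ i, c i * g (f i) := by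
        simp only [map_sum, map_smul, smul_eq_mul]
      exact h3
    rw [h1]
    refine Finset.sum_congr rfl fun i _ => ?_
    rw [hh.symm, h1, Finset.mul_sum]
    refine Finset.sum_congr rfl fun j _ => ?_
    rw [hh.symm]
    ring
  obtain ⟨c, hc0, hQ⟩ := hyper3 (Fin n) (fun i j k l => T (f i) (f j) (f k) (f l))
    (fun i j => h (f i) (f j)) hHs (fun y hy => by
      rw [hquad]
      refine hpos _ (U.sum_mem fun i _ => U.smul_mem _ (hfU i)) ?_
      intro h2
      apply hy
      have h3 : ∑ i, y i • o i = 0 := by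
        apply Subtype.ext
        rw [Submodule.coe_zero, ← h2]
        simp [hf]
      have h4 := o.toBasis.linearIndependent
      rw [OrthonormalBasis.coe_toBasis, Fintype.linearIndependent_iff] at h4
      funext i
      exact h4 y h3 i)
    (fun A hA h0 => second_coord2 f hfU hT hh hneg A hA h0) ε hε
  set s : ℝ := Real.sqrt (2 * c / 3) with hs
  have hs2 : s ^ 2 = 2 * c / 3 := Real.sq_sqrt (by positivity)
  have hs0 : 0 ≤ s := Real.sqrt_nonneg _
  obtain ⟨β0, hβs, hβq, hβR⟩ := gauss3 (Fin n)
    (fun i j k l => T (f i) (f j) (f k) (f l) - ε * (h (f i) (f k) * h (f j) (f l) -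
      h (f i) (f l) * h (f j) (f k))) (fun i j => s * h (f i) (f j))
    { anti := fun i j k l => by
        rw [hT.anti (f i) (f j)]
        ring
      pair := fun i j k l => by
        rw [hT.pair (f i) (f j), hh.symm (f k) (f i), hh.symm (f l) (f j), hh.symm (f k) (f j),
          hh.symm (f l) (f i)]
        ring
      bianchi := fun i j k l => by
        have h1 := hT.bianchi (f i) (f j) (f k) (f l)
        rw [hh.symm (f j) (f i), hh.symm (f k) (f j), hh.symm (f k) (f i)]
        linear_combination h1 }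
    (fun i j => by rw [hh.symm]) (fun A hA => by
      have h1 := hQ A hA
      have h2 : pairJ (fun i j => s * h (f i) (f j)) A =
          s * pairJ (fun i j => h (f i) (f j)) A := by
        unfold pairJ
        rw [Finset.mul_sum]
        refine Finset.sum_congr rfl fun i _ => ?_
        rw [Finset.mul_sum]
        refine Finset.sum_congr rfl fun j _ => ?_
        ring
      rw [h2, mul_pow, hs2]
      refine h1.trans (le_of_eq ?_)
      ring)
  let φ : Fin (Fintype.card (Fin n × Fin n)) ≃ Fin n × Fin n := (Fintype.equivFin _).symm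
  refine ⟨Fintype.card (Fin n × Fin n), FM f fun i j => s * h (f i) (f j),
    fun q => FM f (β0 (φ q)), FM_bform f fun i j => by rw [hh.symm],
    fun q => FM_bform f (hβs (φ q)), fun x => ⟨?_, ?_⟩, fun x y z w => ?_⟩
  · have h1 : FM f (fun i j => s * h (f i) (f j)) x x =
        s * h (∑ i, inner ℝ (f i) x • f i) (∑ i, inner ℝ (f i) x • f i) := by
      rw [← hquad, Finset.mul_sum]
      unfold FM
      refine Finset.sum_congr rfl fun i _ => ?_
      rw [Finset.mul_sum]
      refine Finset.sum_congr rfl fun j _ => ?_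
      ring
    rw [h1]
    refine mul_nonneg hs0 ?_
    rcases eq_or_ne (∑ i, inner ℝ (f i) x • f i) 0 with h1 | h1
    · rw [h1]
      have h2 := hh.smul 0 0 (0 : V)
      rw [zero_smul, zero_mul] at h2
      exact h2.ge
    · exact (hpos _ (U.sum_mem fun i _ => U.smul_mem _ (hfU i)) h1).le
  · have h1 := hβq (fun i => inner ℝ (f i) x)
    rw [← φ.sum_comp] at h1
    exact h1.le
  · have h1 : EE f (fun i j k l => T (f i) (f j) (f k) (f l) - ε * (h (f i) (f k) * h (f j) (f l) -
        h (f i) (f l) * h (f j) (f k))) x y z w =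
        EE f (fun i j k l => (∑ q, (β0 q i k * β0 q j l - β0 q i l * β0 q j k)) -
          ((s * h (f i) (f k)) * (s * h (f j) (f l)) -
            (s * h (f i) (f l)) * (s * h (f j) (f k)))) x y z w := by
      congr 1
      funext i j k l
      exact hβR i j k l
    rw [EE_sub, EE_smul, EE_sub, EE_FM, EE_FM', EE_sub, EE_sum, EE_sub, EE_FM f
      (fun i k => s * h (f i) (f k)) (fun j l => s * h (f j) (f l)), EE_FM' f
      (fun i l => s * h (f i) (f l)) (fun j k => s * h (f j) (f k)),
      ← lives_EE o hT hL] at h1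
    beta_reduce
    refine h1.trans ?_
    congr 1
    rw [← φ.sum_comp]
    refine Finset.sum_congr rfl fun q _ => ?_
    rw [EE_sub, EE_FM, EE_FM']

end Pool.Agent.H783.HL
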