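import Mathlib

/-!
# Curvature tensors with nonpositive curvature operator of the second kind: statements

`R : J → J → J → J → ℝ` are the components of an algebraic curvature tensor, `QJ R A` is the
quadratic form of the curvature operator of the second kind on the symmetric matrix `A`
(hyperbolic sign: for constant curvature `-1` it is `|A|² - (tr A)²`).
-/

set_option autoImplicit false

namespace Pool.Agent.H783.HL

/-- components of algebraic curvature tensors -/
structure CJ {J : Type} (R : J → J → J → J → ℝ) : Prop where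
  anti : ∀ i j k l, R j i k l = - R i j k l
  pair : ∀ i j k l, R k l i j = R i j k l
  bianchi : ∀ i j k l, R i j k l + R j k i l + R k i j l = 0

/-- the quadratic form of the second kind -/
noncomputable def QJ {J : Type} [Fintype J] (R : J → J → J → J → ℝ) (A : J → J → ℝ) : ℝ :=
  ∑ i, ∑ j, ∑ k, ∑ l, A i k * A j l * R i j k l

/-- the pairing with a form -/
noncomputable def pairJ {J : Type} [Fintype J] (H A : J → J → ℝ) : ℝ := ∑ i, ∑ j, H i j * A i j

/-- A1. Second kind nonnegative on the hyperplane `⟨H, A⟩ = 0` for a positive definite `H`: after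
subtracting `ε (H ∧ H)` it is nonnegative modulo the square of `⟨H, A⟩`. -/
def S3_Hyper : Prop :=
  ∀ (J : Type) [Fintype J] [DecidableEq J] (R : J → J → J → J → ℝ) (H : J → J → ℝ),
    (∀ i j, H i j = H j i) → (∀ y : J → ℝ, y ≠ 0 → 0 < ∑ i, ∑ j, H i j * (y i * y j)) →
    (∀ A : J → J → ℝ, (∀ i j, A i j = A j i) → pairJ H A = 0 → 0 ≤ QJ R A) →
    ∀ ε : ℝ, 0 < ε → ∃ c : ℝ, 0 < c ∧ ∀ A : J → J → ℝ, (∀ i j, A i j = A j i) →
      0 ≤ QJ (fun i j k l => R i j k l - ε * (H i k * H j l - H i l * H j k)) A +
        c * pairJ H A ^ 2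

/-- A2. If the second kind form plus `3/2` times the square of `⟨b, A⟩` is nonnegative, the tensor is
the Gauss tensor of a form with values on the light cone. -/
def S3_Gauss : Prop :=
  ∀ (J : Type) [Fintype J] [DecidableEq J] (R : J → J → J → J → ℝ) (b : J → J → ℝ), CJ R →
    (∀ i j, b i j = b j i) →
    (∀ A : J → J → ℝ, (∀ i j, A i j = A j i) → 0 ≤ QJ R A + 3 / 2 * pairJ b A ^ 2) →
    ∃ β : J × J → J → J → ℝ, (∀ q i j, β q i j = β q j i) ∧
      (∀ y : J → ℝ, ∑ q, (∑ i, ∑ j, β q i j * (y i * y j)) ^ 2 =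
        (∑ i, ∑ j, b i j * (y i * y j)) ^ 2) ∧
      ∀ i j k l, R i j k l = (∑ q, (β q i k * β q j l - β q i l * β q j k)) -
        (b i k * b j l - b i l * b j k)

end Pool.Agent.H783.HL
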