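import Pool.Agent.H783.HL.Defs
import Pool.Agent.H783.HL.Causal
import Pool.Agent.H783.HL.Stm3

/-!
# Polarization
-/

set_option autoImplicit false
set_option linter.unusedSectionVars false
set_option linter.unusedVariables false

namespace Pool.Agent.H783.HL

open Finset Filter Topology
open Pool.Agent.W666.GB Pool.Agent.W669.HD
open Pool.Agent.H783.Hopf (qf gbc_of_forms)

variable {V : Type} [NormedAddCommGroup V] [InnerProductSpace ℝ V] {m : ℕ}

theorem BForm.sub_left {G : V → V → ℝ} (hG : BForm G) (x y z : V) :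
    G (x - y) z = G x z - G y z := by
  have h1 : x - y = x + (-1 : ℝ) • y := by rw [neg_one_smul, sub_eq_add_neg]
  rw [h1, hG.add, hG.smul]
  ring

theorem BForm.add_right {G : V → V → ℝ} (hG : BForm G) (x y z : V) :
    G z (x + y) = G z x + G z y := by
  rw [hG.symm, hG.add, hG.symm x, hG.symm y]

theorem BForm.sub_right {G : V → V → ℝ} (hG : BForm G) (x y z : V) :
    G z (x - y) = G z x - G z y := by
  rw [hG.symm, hG.sub_left, hG.symm x, hG.symm y]

section polar

variable {J : Type} [Fintype J]

/-- weights of the polarization -/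
noncomputable def tt (A : J → J → ℝ) (q : (J × J) × Bool) : ℝ :=
  A q.1.1 q.1.2 * (if q.2 then 1 else -1) / 4

/-- vectors of the polarization -/
noncomputable def xx (e : J → V) (q : (J × J) × Bool) : V :=
  if q.2 then e q.1.1 + e q.1.2 else e q.1.1 - e q.1.2

theorem polar_sum {G : V → V → ℝ} (hG : BForm G) (e : J → V) (A : J → J → ℝ) :
    ∑ q : (J × J) × Bool, tt A q * G (xx e q) (xx e q) = ∑ i, ∑ j, A i j * G (e i) (e j) := by
  rw [Fintype.sum_prod_type, Fintype.sum_prod_type]
  refine Finset.sum_congr rfl fun i _ => Finset.sum_congr rfl fun j _ => ?_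
  rw [Fintype.sum_bool]
  simp only [tt, xx, if_true, Bool.false_eq_true, if_false]
  rw [hG.add, hG.sub_left, hG.add_right, hG.add_right, hG.sub_right, hG.sub_right,
    hG.symm (e j) (e i)]
  ring

end polar

theorem curv_add2 {T : V → V → V → V → ℝ} (hT : AlgCurv T) (x y y' z w : V) :
    T x (y + y') z w = T x y z w + T x y' z w := by
  rw [← neg_eq_iff_eq_neg.2 (hT.anti x (y + y') z w), hT.add, hT.anti x y z w, hT.anti x y' z w]
  ring

theorem curv_smul2 {T : V → V → V → V → ℝ} (hT : AlgCurv T) (t : ℝ) (x y z w : V) :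
    T x (t • y) z w = t * T x y z w := by
  rw [← neg_eq_iff_eq_neg.2 (hT.anti x (t • y) z w), hT.smul, hT.anti x y z w]
  ring

end Pool.Agent.H783.HL
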