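import Pool.Agent.H783.HL.Main2

/-!
# The product of light cones
-/

set_option autoImplicit false

namespace Pool.Agent.H783.HL

open MvPolynomial Filter Topology

theorem euler2 {σ : Type} [Fintype σ] {e : σ → ℝ} {q : MvPolynomial σ ℝ} {m : ℕ}
    (hq : q.IsHomogeneous m) : eval e (de e q) = m * eval e q := by
  have h1 := hq.sum_X_mul_pderiv
  have h2 := congrArg (eval e) h1
  rw [map_sum] at h2
  rw [eval_de]
  simp only [map_mul, eval_X] at h2
  rw [h2, nsmul_eq_mul, map_mul, map_natCast]

theorem lap_hom {σ : Type} [Fintype σ] (w : σ → ℝ) {q : MvPolynomial σ ℝ} {m : ℕ}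
    (hq : q.IsHomogeneous m) : (lap w q).IsHomogeneous (m - 2) := by
  unfold lap
  refine IsHomogeneous.sum _ _ _ fun k _ => ?_
  have h1 : (dd k q).IsHomogeneous (m - 1 - 1) := by
    unfold dd
    exact (hq.pderiv).pderiv
  have := (isHomogeneous_C σ (w k)).mul h1
  rw [zero_add] at this
  have h2 : m - 1 - 1 = m - 2 := by omega
  rwa [h2] at this

theorem pc_cone (ι K : Type) [Fintype ι] [Fintype K] : OCone (PC ι K) where
  isOpen := by
    unfold PC
    have h1 : {v : ι × Option K → ℝ | ∀ j, 0 < v (j, none) ∧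
        ∑ b : K, v (j, some b) ^ 2 < v (j, none) ^ 2} =
        ⋂ j, ({v | 0 < v (j, none)} ∩ {v | ∑ b : K, v (j, some b) ^ 2 < v (j, none) ^ 2}) := by
      ext v
      simp
    rw [h1]
    refine isOpen_iInter_of_finite fun j => ?_
    refine IsOpen.inter ?_ ?_
    · exact isOpen_lt continuous_const (continuous_apply _)
    · exact isOpen_lt (by fun_prop) (by fun_prop)
  convex := by
    intro v hv u hu a b ha hb hab j
    obtain ⟨v1, v2⟩ := hv j
    obtain ⟨u1, u2⟩ := hu j
    simp only [Pi.add_apply, Pi.smul_apply, smul_eq_mul]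
    have hcs : ∑ b : K, v (j, some b) * u (j, some b) ≤ v (j, none) * u (j, none) := by
      have h1 := Finset.sum_mul_sq_le_sq_mul_sq Finset.univ (fun b : K => v (j, some b))
        (fun b : K => u (j, some b))
      have h2 : (∑ b : K, v (j, some b) * u (j, some b)) ^ 2 ≤
          (v (j, none) * u (j, none)) ^ 2 := by
        refine h1.trans ?_
        rw [mul_pow]
        exact mul_le_mul v2.le u2.le (Finset.sum_nonneg fun _ _ => sq_nonneg _) (sq_nonneg _)
      exact (abs_le_of_sq_le_sq' h2 (by positivity)).2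
    have hexp : ∑ k : K, (a * v (j, some k) + b * u (j, some k)) ^ 2 =
        a ^ 2 * ∑ k : K, v (j, some k) ^ 2 + 2 * a * b * ∑ k : K, v (j, some k) * u (j, some k) +
          b ^ 2 * ∑ k : K, u (j, some k) ^ 2 := by
      simp only [Finset.mul_sum, ← Finset.sum_add_distrib]
      refine Finset.sum_congr rfl fun k _ => ?_
      ring
    rcases ha.eq_or_lt with ha0 | ha0
    · have hb1 : b = 1 := by linarith
      subst hb1
      rw [← ha0]
      simpa using ⟨u1, u2⟩
    · refine ⟨by positivity, ?_⟩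
      rw [hexp]
      have h3 : a ^ 2 * ∑ k : K, v (j, some k) ^ 2 < a ^ 2 * v (j, none) ^ 2 :=
        mul_lt_mul_of_pos_left v2 (by positivity)
      have h4 : 2 * a * b * ∑ k : K, v (j, some k) * u (j, some k) ≤
          2 * a * b * (v (j, none) * u (j, none)) :=
        mul_le_mul_of_nonneg_left hcs (by positivity)
      have h5 : b ^ 2 * ∑ k : K, u (j, some k) ^ 2 ≤ b ^ 2 * u (j, none) ^ 2 :=
        mul_le_mul_of_nonneg_left u2.le (by positivity)
      nlinarith
  cone := by
    intro s hs v hv j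
    obtain ⟨v1, v2⟩ := hv j
    refine ⟨by positivity, ?_⟩
    simp only [mul_pow]
    rw [← Finset.mul_sum]
    exact mul_lt_mul_of_pos_left v2 (by positivity)

theorem pe_mem (ι K : Type) [Fintype ι] [Fintype K] : (pe : ι × Option K → ℝ) ∈ PC ι K := by
  intro j
  simp [pe]

/-- **The product of light cones satisfies the condition.** -/
theorem star2 (hD : S2_Deriv) (hQ : S2_StarQuad) : S2_Star := by
  intro ι K _ _
  refine ⟨pc_cone ι K, pe_mem ι K, ?_⟩
  intro q m hm
  induction m, hm using Nat.le_induction generalizing q with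
  | base => intro hq hs; exact hQ ι K q hq hs
  | succ m hm ih =>
    intro hq hs
    obtain ⟨h1, h2, h3⟩ := hD _ (PC ι K) pe q (m + 1) (pc_cone ι K) (pe_mem ι K) (by omega) hq hs
    rw [Nat.add_sub_cancel] at h2
    have h4 := ih (de pe q) h2 h1
    have h5 : eval pe (lap pw (de pe q)) = ((m - 1 : ℕ) : ℝ) * eval pe (lap pw q) := by
      rw [← lap_de, euler2 (lap_hom pw hq)]
      have : m + 1 - 2 = m - 1 := by omega
      rw [this]
    rw [h3, h5] at h4
    have h6 : (0 : ℝ) < ((m + 1 : ℕ) : ℝ) := by positivity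
    have h7 : (0 : ℝ) < ((m - 1 : ℕ) : ℝ) := by exact_mod_cast (by omega : 0 < m - 1)
    have h8 : ((m + 1 : ℕ) : ℝ) * eval pe q * (((m - 1 : ℕ) : ℝ) * eval pe (lap pw q)) =
        (((m + 1 : ℕ) : ℝ) * ((m - 1 : ℕ) : ℝ)) * (eval pe q * eval pe (lap pw q)) := by ring
    rw [h8] at h4
    exact nonneg_of_mul_nonneg_right h4 (mul_pos h6 h7)

end Pool.Agent.H783.HL
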