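import Pool.Agent.H783.HL.Stm2
import Pool.Agent.H783.HL.Lowest
import Pool.Agent.H783.HL.Local
import Pool.Agent.H783.HL.Garding

/-!
# Stable members of the flow have simple real zeros
-/

set_option autoImplicit false

namespace Pool.Agent.H783.HL

open MvPolynomial

variable {σ : Type} [Fintype σ]

theorem eval_tr (x y : σ → ℝ) (P : MvPolynomial σ ℝ) :
    eval y (tr x P) = eval (fun k => y k + x k) P := by
  unfold tr
  induction P using MvPolynomial.induction_on with
  | C a => simp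
  | add p q hp hq => simp only [map_add, hp, hq]
  | mul_X p k hp => simp only [map_mul, hp, aeval_X, map_add, eval_X, eval_C]

theorem tr_ne_zero {x : σ → ℝ} {P : MvPolynomial σ ℝ} (hP : P ≠ 0) : tr x P ≠ 0 := by
  intro h
  apply hP
  apply MvPolynomial.funext
  intro y
  have h1 := eval_tr x (fun k => y k - x k) P
  rw [h, map_zero] at h1
  simp only [sub_add_cancel] at h1
  rw [← h1, map_zero]

theorem tr_de (e x : σ → ℝ) (P : MvPolynomial σ ℝ) : de e (tr x P) = tr x (de e P) := by
  unfold de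
  simp only [LowestAux.pderiv_tr]
  unfold tr
  rw [map_sum]
  refine Finset.sum_congr rfl fun k _ => ?_
  rw [map_mul, aeval_C]
  rfl

theorem hc_de (e : σ → ℝ) (j : ℕ) (P : MvPolynomial σ ℝ) :
    homogeneousComponent j (de e P) = de e (homogeneousComponent (j + 1) P) := by
  unfold de
  rw [map_sum]
  refine Finset.sum_congr rfl fun k _ => ?_
  rw [homogeneousComponent_C_mul, LowestAux.hc_pderiv]

theorem stabOn_zero {Ω : Set (σ → ℝ)} {e : σ → ℝ} (he : e ∈ Ω) : ¬ StabOn Ω 0 := by
  intro h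
  exact h 0 e he (map_zero _)

theorem exists_hc {R : MvPolynomial σ ℝ} (hR : R ≠ 0) : ∃ j, homogeneousComponent j R ≠ 0 := by
  by_contra hcon
  push Not at hcon
  apply hR
  rw [← sum_homogeneousComponent R]
  exact Finset.sum_eq_zero fun j _ => hcon j

theorem aeval_cp_zero {e : σ → ℝ} {q : MvPolynomial σ ℝ} {m : ℕ} (hq : q.IsHomogeneous m) :
    aeval (cp 0 e) q = Complex.I ^ m * (eval e q : ℂ) := by
  have h1 : cp (0 : σ → ℝ) e = fun k => Complex.I * ((e k : ℝ) : ℂ) := by
    funext k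
    simp [cp, mul_comm]
  rw [h1, Local.aeval_smul_hom q m hq]
  congr 1
  rw [aeval_def]
  have h2 := MvPolynomial.eval₂_comp_left (algebraMap ℝ ℂ) (RingHom.id ℝ) e q
  simp only [RingHom.comp_id] at h2
  exact h2.symm

theorem eval_ne {Ω : Set (σ → ℝ)} {e : σ → ℝ} (he : e ∈ Ω) {q : MvPolynomial σ ℝ} {m : ℕ}
    (hq : q.IsHomogeneous m) (hs : StabOn Ω q) : eval e q ≠ 0 := by
  intro h
  apply hs 0 e he
  rw [aeval_cp_zero hq, h]
  simp

/-- **The static lemma.** -/
theorem static2 (hPDE : S2_PDE) (hLow : S2_Lowest) (hTop : S2_FlowTop) (hG : S_Garding)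
    (hLoc : S_Local) (hD : S2_Deriv) : S2_Static := by
  intro σ _ Ω e w p n a b hΩ he hstar ha hb hp hpos hst x hx hx'
  have hpde := hPDE σ e w p n a b hp
  obtain ⟨hdeg, htop⟩ := hTop σ e w p n a b 1 hp
  obtain ⟨P, hP⟩ : ∃ P, P = flow2 e w n a b 1 p := ⟨_, rfl⟩
  rw [← hP] at hpde hdeg htop hst hx hx'
  have hOm : StabOn Ω P := by
    intro y v hv
    refine hG σ P n e v hdeg hst (fun θ h0 h1 => ?_) y
    rw [htop]
    refine (hpos _ ?_).ne'
    have h2 := hΩ.convex he hv (sub_nonneg.2 h1) h0 (by ring)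
    exact h2
  have hp0 : p ≠ 0 := by
    rintro rfl
    have := hpos e he
    rw [map_zero] at this
    exact lt_irrefl _ this
  have hP0 : P ≠ 0 := by
    intro h
    rw [h, map_zero] at htop
    exact hp0 htop.symm
  obtain ⟨R, hR⟩ : ∃ R, R = tr x P := ⟨_, rfl⟩
  have hR0 : R ≠ 0 := hR ▸ tr_ne_zero hP0
  classical
  have hex := exists_hc hR0
  obtain ⟨m, hm1, hm2⟩ : ∃ m, homogeneousComponent m R ≠ 0 ∧
      ∀ j < m, homogeneousComponent j R = 0 :=
    ⟨Nat.find hex, Nat.find_spec hex, fun j hj => not_not.1 (Nat.find_min hex hj)⟩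
  have hq : (homogeneousComponent m R).IsHomogeneous m := homogeneousComponent_isHomogeneous m R
  have hqs : StabOn Ω (homogeneousComponent m R) := by
    have := hLoc σ P Ω x m hΩ.isOpen hΩ.cone hOm (by rw [← hR]; exact hm2) (by rw [← hR]; exact hm1)
    rw [← hR] at this
    exact this
  have hzero : ∀ q : MvPolynomial σ ℝ, homogeneousComponent 0 q = C (eval 0 q) := by
    intro q
    rw [homogeneousComponent_zero]
    congr 1
    rw [← constantCoeff_eq]
    have : (eval (0 : σ → ℝ)) q = constantCoeff q := by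
      rw [constantCoeff_eq, eval_eq']
      simp only [Pi.zero_apply]
      rw [Finset.sum_eq_single 0]
      · simp
      · intro d _ hd
        obtain ⟨k, hk⟩ := Finsupp.ne_iff.1 hd
        rw [Finset.prod_eq_zero (Finset.mem_univ k) (zero_pow hk), mul_zero]
      · intro h
        rw [notMem_support_iff.1 h, zero_mul]
    rw [this]
  have hm0 : m ≠ 0 := by
    rintro rfl
    apply hm1
    rw [hzero, hR, eval_tr]
    simp only [Pi.zero_apply, zero_add]
    rw [hx, map_zero]
  have hm1' : m ≠ 1 := by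
    rintro rfl
    have h1 := (hD σ Ω e _ 1 hΩ he le_rfl hq hqs).1
    rw [← hc_de, hzero, hR, tr_de, eval_tr] at h1
    simp only [Pi.zero_apply, zero_add] at h1
    rw [hx', map_zero] at h1
    exact stabOn_zero he h1
  have hm : 2 ≤ m := by omega
  have hlow := hLow σ e w P n a b x m hm hpde (by rw [← hR]; exact hm2)
  rw [← hR] at hlow
  obtain ⟨q, hqdef⟩ : ∃ q, q = homogeneousComponent m R := ⟨_, rfl⟩
  rw [← hqdef] at hlow hq hqs
  have h1 := hD σ Ω e q m hΩ he (by omega) hq hqs
  have h2 := hD σ Ω e (de e q) (m - 1) hΩ he (by omega) h1.2.1 h1.1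
  have h3 : eval e (dde e q) = ((m - 1 : ℕ) : ℝ) * (m * eval e q) := by
    unfold dde
    rw [h2.2.2, h1.2.2]
  have h4 := hstar q m hm hq hqs
  have h5 : eval e q ≠ 0 := eval_ne he hq hqs
  have h6 := congrArg (eval e) hlow
  rw [map_add, map_mul, map_mul, eval_C, eval_C, h3, map_zero] at h6
  have h7 : (0 : ℝ) < ((m - 1 : ℕ) : ℝ) * m := by
    have : 0 < m - 1 := by omega
    have h8 : (0 : ℝ) < ((m - 1 : ℕ) : ℝ) := by exact_mod_cast this
    have h9 : (0 : ℝ) < (m : ℝ) := by exact_mod_cast (by omega : 0 < m)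
    positivity
  have h8 : 0 < eval e q ^ 2 := by positivity
  have h9 : a * (((m - 1 : ℕ) : ℝ) * m) * eval e q ^ 2 +
      b * (eval e q * eval e (lap w q)) = 0 := by
    have : (a * (((m - 1 : ℕ) : ℝ) * (m * eval e q)) + b * eval e (lap w q)) * eval e q = 0 := by
      rw [h6, zero_mul]
    linarith
  have h10 : 0 < a * (((m - 1 : ℕ) : ℝ) * m) * eval e q ^ 2 := by positivity
  have h11 : 0 ≤ b * (eval e q * eval e (lap w q)) := mul_nonneg hb h4
  linarith

end Pool.Agent.H783.HL
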