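import Mathlib

/-!
# A Heilmann–Lieb theorem for the Lorentz cone: definitions and statements

`K` is a finite type, the variables are indexed by `Option K` (`none` = time).  For a homogeneous
polynomial `p` which is hyperbolic with respect to the forward light cone, the polynomials
`exp (-τ² (a ∂₀² + b □)) p` are real stable; consequently `□^m p ≥ 0` for `p` of degree `2 m`.
-/

set_option autoImplicit false

namespace Pool.Agent.H783.HL

open MvPolynomial

/-- the complex point `x + i v` -/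
noncomputable def cp {σ : Type} (x v : σ → ℝ) : σ → ℂ :=
  fun k => (x k : ℂ) + (v k : ℂ) * Complex.I

/-- the second derivative -/
noncomputable def dd {σ : Type} (k : σ) (p : MvPolynomial σ ℝ) : MvPolynomial σ ℝ :=
  pderiv k (pderiv k p)

/-- translation: `tr x P = P (x + ·)` -/
noncomputable def tr {σ : Type} (x : σ → ℝ) (P : MvPolynomial σ ℝ) : MvPolynomial σ ℝ :=
  aeval (fun k => X k + C (x k)) P

/-- stability in the direction `e` -/
def Stab {σ : Type} (P : MvPolynomial σ ℝ) (e : σ → ℝ) : Prop :=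
  ∀ (x : σ → ℝ) (s : ℝ), 0 < s → aeval (cp x fun k => s * e k) P ≠ 0

/-- `□ p = ∂₀² p - ∑ ∂_b² p` -/
noncomputable def box {K : Type} [Fintype K] (p : MvPolynomial (Option K) ℝ) :
    MvPolynomial (Option K) ℝ :=
  dd none p - ∑ b : K, dd (some b) p

/-- the time direction -/
def e0 {K : Type} : Option K → ℝ := fun o => o.elim 1 fun _ => 0

/-- the open forward light cone -/
def OC {K : Type} [Fintype K] (v : Option K → ℝ) : Prop :=
  0 < v none ∧ ∑ b : K, v (some b) ^ 2 < v none ^ 2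

/-- the derivatives `□^i ∂₀^(2k) p` -/
noncomputable def gg {K : Type} [Fintype K] (p : MvPolynomial (Option K) ℝ) (i k : ℕ) :
    MvPolynomial (Option K) ℝ :=
  box^[i] ((dd none)^[k] p)

/-- `exp (-τ² (a ∂₀² + b □)) p`, truncated at the order `n` in each variable -/
noncomputable def flow {K : Type} [Fintype K] (n : ℕ) (a b τ : ℝ)
    (p : MvPolynomial (Option K) ℝ) : MvPolynomial (Option K) ℝ :=
  ∑ i ∈ Finset.range (n + 1), ∑ k ∈ Finset.range (n + 1),
    C ((-τ ^ 2) ^ (i + k) * (b ^ i * a ^ k / (i.factorial * k.factorial))) * gg p i k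

/-- real-rooted univariate polynomials -/
def RR (f : Polynomial ℝ) : Prop := ∀ z : ℂ, z.im ≠ 0 → Polynomial.aeval z f ≠ 0

/-- one step of the regularization of a univariate polynomial: `f - c f''` -/
noncomputable def ustep (c : ℝ) (f : Polynomial ℝ) : Polynomial ℝ :=
  f - Polynomial.C c * Polynomial.derivative (Polynomial.derivative f)

/-! ## The statements -/

/-- S1. A polynomial without zeros in the open upper half-plane is at least
`|leading coefficient| (Im t)^degree` there. -/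
def S_UniLower : Prop :=
  ∀ f : Polynomial ℂ, (∀ t : ℂ, 0 < t.im → f.eval t ≠ 0) → ∀ t : ℂ, 0 < t.im →
    ‖f.leadingCoeff‖ * t.im ^ f.natDegree ≤ ‖f.eval t‖

/-- S2. Harnack inequality for polynomials without zeros near `0`. -/
def S_Harnack : Prop :=
  ∀ (f : Polynomial ℂ) (n : ℕ) (d : ℝ), f.natDegree ≤ n → 0 < d →
    (∀ t : ℂ, ‖t‖ < d → f.eval t ≠ 0) → ‖f.eval 1‖ ≤ (1 + 1 / d) ^ n * ‖f.eval 0‖

/-- S3. Restriction of a polynomial to a complex line. -/
def S_Line : Prop :=
  ∀ (σ : Type) [Fintype σ] (p : MvPolynomial σ ℝ) (n : ℕ), p.totalDegree ≤ n →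
    ∀ w v : σ → ℂ, ∃ f : Polynomial ℂ, f.natDegree ≤ n ∧
      f.coeff n = aeval v (homogeneousComponent n p) ∧
      ∀ t : ℂ, f.eval t = aeval (fun k => w k + t * v k) p

/-- S4. Gårding's lemma: stability in the direction `e` implies stability in every direction `v`
such that the top component does not vanish on the segment from `e` to `v`. -/
def S_Garding : Prop :=
  ∀ (σ : Type) [Fintype σ] (P : MvPolynomial σ ℝ) (n : ℕ) (e v : σ → ℝ), P.totalDegree ≤ n →
    Stab P e →
    (∀ θ : ℝ, 0 ≤ θ → θ ≤ 1 →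
      eval (fun k => (1 - θ) * e k + θ * v k) (homogeneousComponent n P) ≠ 0) →
    ∀ x : σ → ℝ, aeval (cp x v) P ≠ 0

/-- S5. The lowest homogeneous component of a stable polynomial at a real point is stable. -/
def S_Local : Prop :=
  ∀ (σ : Type) [Fintype σ] (P : MvPolynomial σ ℝ) (Ω : Set (σ → ℝ)) (x₀ : σ → ℝ) (m : ℕ),
    IsOpen Ω → (∀ s : ℝ, 0 < s → ∀ v ∈ Ω, (fun k => s * v k) ∈ Ω) →
    (∀ (x : σ → ℝ), ∀ v ∈ Ω, aeval (cp x v) P ≠ 0) →
    (∀ j < m, homogeneousComponent j (tr x₀ P) = 0) →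
    homogeneousComponent m (tr x₀ P) ≠ 0 →
    ∀ (x : σ → ℝ), ∀ v ∈ Ω, aeval (cp x v) (homogeneousComponent m (tr x₀ P)) ≠ 0

/-- S6. The Lorentz inequality for homogeneous stable polynomials. -/
def S_Lorentz : Prop :=
  ∀ (K : Type) [Fintype K] (q : MvPolynomial (Option K) ℝ) (m : ℕ), 1 ≤ m → q.IsHomogeneous m →
    (∀ x v : Option K → ℝ, OC v → aeval (cp x v) q ≠ 0) →
    0 ≤ eval e0 q * eval e0 (box q)

/-- S7. The Hermite equation of the flow. -/
def S_PDE : Prop :=
  ∀ (K : Type) [Fintype K] (p : MvPolynomial (Option K) ℝ) (n : ℕ) (a b : ℝ),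
    p.IsHomogeneous n →
    (∑ k, X k * pderiv k (flow n a b 1 p)) - C (n : ℝ) * flow n a b 1 p =
      C 2 * (C a * dd none (flow n a b 1 p) + C b * box (flow n a b 1 p))

/-- S8. The lowest component of a solution of the Hermite equation. -/
def S_Lowest : Prop :=
  ∀ (K : Type) [Fintype K] (P : MvPolynomial (Option K) ℝ) (c a b : ℝ) (x : Option K → ℝ)
    (m : ℕ), 2 ≤ m →
    (∑ k, X k * pderiv k P) - C c * P = C 2 * (C a * dd none P + C b * box P) →
    (∀ j < m, homogeneousComponent j (tr x P) = 0) →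
    C a * dd none (homogeneousComponent m (tr x P)) +
      C b * box (homogeneousComponent m (tr x P)) = 0

/-- S9. Degree and top component of the flow. -/
def S_FlowTop : Prop :=
  ∀ (K : Type) [Fintype K] (p : MvPolynomial (Option K) ℝ) (n : ℕ) (a b τ : ℝ),
    p.IsHomogeneous n → (flow n a b τ p).totalDegree ≤ n ∧
      homogeneousComponent n (flow n a b τ p) = p

/-- S10. Homogeneity of the flow; the truncation `n` and the degree `d` are independent. -/
def S_FlowHom : Prop :=
  ∀ (K : Type) [Fintype K] (p : MvPolynomial (Option K) ℝ) (n d : ℕ) (a b τ l : ℝ)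
    (z : Option K → ℂ), p.IsHomogeneous d →
    aeval (fun k => (l : ℂ) * z k) (flow n a b (l * τ) p) =
      (l : ℂ) ^ d * aeval z (flow n a b τ p)

/-- S11. The imaginary part near real points. -/
def S_ImPart : Prop :=
  ∀ (σ : Type) [Fintype σ] (p : MvPolynomial σ ℝ) (e : σ → ℝ), ∃ h : (σ → ℝ) × ℝ → ℝ,
    Continuous h ∧ (∀ x s, (aeval (cp x fun k => s * e k) p).im = s * h (x, s)) ∧
      ∀ x, h (x, 0) = ∑ k, e k * eval x (pderiv k p)

/-- S12. `f ↦ f - c f''` preserves real-rootedness. -/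
def S_RRsub : Prop :=
  ∀ (f : Polynomial ℝ) (c : ℝ), 0 ≤ c → RR f → RR (ustep c f)

/-- S13. `n` steps with `c > 0` make all roots simple. -/
def S_RRsimple : Prop :=
  ∀ (f : Polynomial ℝ) (n : ℕ) (c : ℝ), 0 < c → f.natDegree ≤ n → RR f → ∀ t : ℝ,
    ((ustep c)^[n] f).eval t = 0 → (Polynomial.derivative ((ustep c)^[n] f)).eval t ≠ 0

/-- S14. `exp (-c ∂²)` preserves real-rootedness. -/
def S_RRexp : Prop :=
  ∀ (f : Polynomial ℝ) (n : ℕ) (c : ℝ), 0 ≤ c → f.natDegree ≤ n → RR f →
    RR (∑ k ∈ Finset.range (n + 1),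
      Polynomial.C ((-c) ^ k / k.factorial) * (Polynomial.derivative^[2 * k]) f)

/-- S15. Static lemma: a stable member of the flow has simple real zeros. -/
def S_Static : Prop :=
  ∀ (K : Type) [Fintype K] (p : MvPolynomial (Option K) ℝ) (n : ℕ) (a b : ℝ), 0 < a → 0 ≤ b →
    p.IsHomogeneous n → (∀ v, OC v → 0 < eval v p) → Stab (flow n a b 1 p) e0 →
    ∀ x, eval x (flow n a b 1 p) = 0 → eval x (pderiv none (flow n a b 1 p)) ≠ 0

/-- S16. The deformation argument. -/
def S_Main : Prop :=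
  ∀ (K : Type) [Fintype K] (p : MvPolynomial (Option K) ℝ) (n : ℕ) (a : ℝ), 0 < a →
    p.IsHomogeneous n → (∀ v, OC v → 0 < eval v p) →
    (∀ x, x ≠ 0 → eval x p = 0 → eval x (pderiv none p) ≠ 0) →
    (∀ τ, Stab (flow n a 0 τ p) e0) → ∀ b, 0 ≤ b → ∀ τ, Stab (flow n a b τ p) e0

/-- S17. What stability says about the constant term. -/
def S_Extract : Prop :=
  ∀ (K : Type) [Fintype K] (p : MvPolynomial (Option K) ℝ) (m : ℕ) (a : ℝ), 0 < a →
    p.IsHomogeneous (2 * m) → 0 < eval e0 p → Stab (flow (2 * m) a 1 1 p) e0 →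
    0 ≤ ∑ k ∈ Finset.range (m + 1),
      a ^ k / ((m - k).factorial * k.factorial) * eval e0 (gg p (m - k) k)

/-- S18. **The theorem**: `□^m p ≥ 0` for homogeneous `p` of degree `2 m` which are stable in the
time direction and positive on the closed cone. -/
def S_Box : Prop :=
  ∀ (K : Type) [Fintype K] (p : MvPolynomial (Option K) ℝ) (m : ℕ), p.IsHomogeneous (2 * m) →
    Stab p e0 → (∀ v : Option K → ℝ, 0 < v none → ∑ b, v (some b) ^ 2 ≤ v none ^ 2 →
      0 < eval v p) →
    0 ≤ eval e0 (box^[m] p)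

/-- S19. The iterated box of a symmetric form. -/
def S_Pair : Prop :=
  ∀ (K : Type) [Fintype K] [DecidableEq K] (w : K → ℝ) (m : ℕ)
    (F : (Fin m × Bool → K) → ℝ),
    (∀ (π : Equiv.Perm (Fin m × Bool)) (β : Fin m × Bool → K), F (β ∘ π) = F β) →
    (fun p : MvPolynomial K ℝ => ∑ k, C (w k) * dd k p)^[m]
        (∑ β : Fin m × Bool → K, (∏ j, X (β j)) * C (F β)) =
      C ((2 * m).factorial * ∑ α : Fin m → K, (∏ j, w (α j)) * F fun x => α x.1)

end Pool.Agent.H783.HL
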