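import Pool.Agent.H783.HL.Stm

/-!
# A Heilmann–Lieb theorem for cones: general definitions and statements

`σ` is a finite type of variables, `e : σ → ℝ` a direction, `w : σ → ℝ` weights, `Ω` an open
convex cone containing `e`.  `lap w = ∑ w_k ∂_k²`.  If `lap w q` and `q` have the same sign at `e`
for all homogeneous `Ω`-stable `q` of degree `≥ 2`, then `exp (-τ² (a ∂_e² + b lap w))` preserves
stability.
-/

set_option autoImplicit false

namespace Pool.Agent.H783.HL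

open MvPolynomial

/-- the directional derivative -/
noncomputable def de {σ : Type} [Fintype σ] (e : σ → ℝ) (p : MvPolynomial σ ℝ) :
    MvPolynomial σ ℝ :=
  ∑ k, C (e k) * pderiv k p

/-- the second directional derivative -/
noncomputable def dde {σ : Type} [Fintype σ] (e : σ → ℝ) (p : MvPolynomial σ ℝ) :
    MvPolynomial σ ℝ :=
  de e (de e p)

/-- the weighted Laplacian -/
noncomputable def lap {σ : Type} [Fintype σ] (w : σ → ℝ) (p : MvPolynomial σ ℝ) :
    MvPolynomial σ ℝ :=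
  ∑ k, C (w k) * dd k p

/-- the derivatives `(lap w)^i ∂_e^(2k) p` -/
noncomputable def g2 {σ : Type} [Fintype σ] (e w : σ → ℝ) (p : MvPolynomial σ ℝ) (i k : ℕ) :
    MvPolynomial σ ℝ :=
  (lap w)^[i] ((dde e)^[k] p)

/-- `exp (-τ² (a ∂_e² + b lap w)) p`, truncated at the order `n` in each variable -/
noncomputable def flow2 {σ : Type} [Fintype σ] (e w : σ → ℝ) (n : ℕ) (a b τ : ℝ)
    (p : MvPolynomial σ ℝ) : MvPolynomial σ ℝ :=
  ∑ i ∈ Finset.range (n + 1), ∑ k ∈ Finset.range (n + 1),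
    C ((-τ ^ 2) ^ (i + k) * (b ^ i * a ^ k / (i.factorial * k.factorial))) * g2 e w p i k

/-- stability with respect to a set of directions -/
def StabOn {σ : Type} (Ω : Set (σ → ℝ)) (q : MvPolynomial σ ℝ) : Prop :=
  ∀ (x : σ → ℝ), ∀ v ∈ Ω, aeval (cp x v) q ≠ 0

/-- open convex cones -/
structure OCone {σ : Type} (Ω : Set (σ → ℝ)) : Prop where
  isOpen : IsOpen Ω
  convex : Convex ℝ Ω
  cone : ∀ s : ℝ, 0 < s → ∀ v ∈ Ω, (fun k => s * v k) ∈ Ω

/-- the condition on the weights -/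
def Star {σ : Type} [Fintype σ] (Ω : Set (σ → ℝ)) (e w : σ → ℝ) : Prop :=
  ∀ (q : MvPolynomial σ ℝ) (m : ℕ), 2 ≤ m → q.IsHomogeneous m → StabOn Ω q →
    0 ≤ eval e q * eval e (lap w q)

/-- restriction to the line `x + t e` -/
noncomputable def slice {σ : Type} (e x : σ → ℝ) (q : MvPolynomial σ ℝ) : Polynomial ℝ :=
  aeval (fun k => Polynomial.C (x k) + Polynomial.C (e k) * Polynomial.X) q

/-- the quadratic form `|e|² |x|² - (e · x)²` -/
noncomputable def rho {σ : Type} [Fintype σ] (e : σ → ℝ) : MvPolynomial σ ℝ :=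
  C (∑ k, e k ^ 2) * (∑ k, X k ^ 2) - (∑ k, C (e k) * X k) ^ 2

/-- one step of the regularization -/
noncomputable def rstep {σ : Type} [Fintype σ] (e : σ → ℝ) (δ : ℝ) (q : MvPolynomial σ ℝ) :
    MvPolynomial σ ℝ :=
  q - C δ * (rho e * dde e q)

/-- the regularization -/
noncomputable def reg {σ : Type} [Fintype σ] (e : σ → ℝ) (n : ℕ) (δ : ℝ)
    (p : MvPolynomial σ ℝ) : MvPolynomial σ ℝ :=
  (rstep e δ)^[n] p

/-- the product of light cones -/
def PC (ι K : Type) [Fintype K] : Set (ι × Option K → ℝ) :=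
  {v | ∀ j, 0 < v (j, none) ∧ ∑ b : K, v (j, some b) ^ 2 < v (j, none) ^ 2}

/-- the direction `(e₀, …, e₀)` -/
def pe {ι K : Type} : ι × Option K → ℝ := fun o => o.2.elim 1 fun _ => 0

/-- the Lorentzian weights -/
def pw {ι K : Type} : ι × Option K → ℝ := fun o => o.2.elim 1 fun _ => -1

/-! ## The statements -/

/-- G1. The Hermite equation of the flow. -/
def S2_PDE : Prop :=
  ∀ (σ : Type) [Fintype σ] (e w : σ → ℝ) (p : MvPolynomial σ ℝ) (n : ℕ) (a b : ℝ),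
    p.IsHomogeneous n →
    (∑ k, X k * pderiv k (flow2 e w n a b 1 p)) - C (n : ℝ) * flow2 e w n a b 1 p =
      C 2 * (C a * dde e (flow2 e w n a b 1 p) + C b * lap w (flow2 e w n a b 1 p))

/-- G2. The lowest component of a solution of the Hermite equation. -/
def S2_Lowest : Prop :=
  ∀ (σ : Type) [Fintype σ] (e w : σ → ℝ) (P : MvPolynomial σ ℝ) (c a b : ℝ) (x : σ → ℝ)
    (m : ℕ), 2 ≤ m →
    (∑ k, X k * pderiv k P) - C c * P = C 2 * (C a * dde e P + C b * lap w P) →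
    (∀ j < m, homogeneousComponent j (tr x P) = 0) →
    C a * dde e (homogeneousComponent m (tr x P)) +
      C b * lap w (homogeneousComponent m (tr x P)) = 0

/-- G3. Degree and top component of the flow. -/
def S2_FlowTop : Prop :=
  ∀ (σ : Type) [Fintype σ] (e w : σ → ℝ) (p : MvPolynomial σ ℝ) (n : ℕ) (a b τ : ℝ),
    p.IsHomogeneous n → (flow2 e w n a b τ p).totalDegree ≤ n ∧
      homogeneousComponent n (flow2 e w n a b τ p) = p

/-- G4. Homogeneity of the flow; the truncation `n` and the degree `d` are independent. -/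
def S2_FlowHom : Prop :=
  ∀ (σ : Type) [Fintype σ] (e w : σ → ℝ) (p : MvPolynomial σ ℝ) (n d : ℕ) (a b τ l : ℝ)
    (z : σ → ℂ), p.IsHomogeneous d →
    aeval (fun k => (l : ℂ) * z k) (flow2 e w n a b (l * τ) p) =
      (l : ℂ) ^ d * aeval z (flow2 e w n a b τ p)

/-- G5. What stability says about the constant term. -/
def S2_Extract : Prop :=
  ∀ (σ : Type) [Fintype σ] (e w : σ → ℝ) (p : MvPolynomial σ ℝ) (m : ℕ) (a : ℝ), 0 < a →
    p.IsHomogeneous (2 * m) → 0 < eval e p → Stab (flow2 e w (2 * m) a 1 1 p) e →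
    0 ≤ ∑ k ∈ Finset.range (m + 1),
      a ^ k / ((m - k).factorial * k.factorial) * eval e (g2 e w p (m - k) k)

/-- G6. Derivatives of stable homogeneous polynomials. -/
def S2_Deriv : Prop :=
  ∀ (σ : Type) [Fintype σ] (Ω : Set (σ → ℝ)) (e : σ → ℝ) (q : MvPolynomial σ ℝ) (m : ℕ),
    OCone Ω → e ∈ Ω → 1 ≤ m → q.IsHomogeneous m → StabOn Ω q →
    StabOn Ω (de e q) ∧ (de e q).IsHomogeneous (m - 1) ∧ eval e (de e q) = m * eval e q

/-- G7. The product of light cones satisfies the condition (quadratic case). -/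
def S2_StarQuad : Prop :=
  ∀ (ι K : Type) [Fintype ι] [Fintype K] (q : MvPolynomial (ι × Option K) ℝ),
    q.IsHomogeneous 2 → StabOn (PC ι K) q → 0 ≤ eval pe q * eval pe (lap pw q)

/-- G8. The product of light cones satisfies the condition. -/
def S2_Star : Prop :=
  ∀ (ι K : Type) [Fintype ι] [Fintype K], OCone (PC ι K) ∧
    (pe : ι × Option K → ℝ) ∈ PC ι K ∧ Star (PC ι K) pe pw

/-- G9. Restriction to lines. -/
def S2_Slice : Prop :=
  ∀ (σ : Type) [Fintype σ] (e x : σ → ℝ) (q : MvPolynomial σ ℝ),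
    Polynomial.derivative (slice e x q) = slice e x (de e q) ∧
    (∀ t : ℝ, (slice e x q).eval t = eval (fun k => x k + t * e k) q) ∧
    (∀ z : ℂ, Polynomial.aeval z (slice e x q) = aeval (fun k => (x k : ℂ) + z * e k) q) ∧
    (slice e x q).natDegree ≤ q.totalDegree ∧
    slice e x (rho e) = Polynomial.C (eval x (rho e)) ∧
    0 ≤ eval x (rho e) ∧ ((∃ k, e k ≠ 0) → eval x (rho e) = 0 → ∃ t : ℝ, x = fun k => t * e k)

/-- G10. The regularization. -/
def S2_Reg : Prop :=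
  ∀ (σ : Type) [Fintype σ] (e w : σ → ℝ) (p : MvPolynomial σ ℝ) (n : ℕ), (∃ k, e k ≠ 0) →
    p.IsHomogeneous n → Stab p e →
    (∀ δ, (reg e n δ p).IsHomogeneous n) ∧ (∀ δ, eval e (reg e n δ p) = eval e p) ∧
    (∀ δ, 0 < δ → ∀ x, x ≠ 0 → eval x (reg e n δ p) = 0 →
      eval x (de e (reg e n δ p)) ≠ 0) ∧
    (∀ δ a τ : ℝ, 0 ≤ δ → 0 ≤ a → Stab (flow2 e w n a 0 τ (reg e n δ p)) e)

/-- G11. Continuity of the regularization. -/
def S2_RegCont : Prop :=
  ∀ (σ : Type) [Fintype σ] (e : σ → ℝ) (p : MvPolynomial σ ℝ) (n : ℕ),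
    (∀ L : MvPolynomial σ ℝ →ₗ[ℝ] ℝ, Continuous fun δ : ℝ => L (reg e n δ p)) ∧
    Continuous fun y : ℝ × (σ → ℝ) => eval y.2 (reg e n y.1 p)

/-- G12. Static lemma: a stable member of the flow has simple real zeros. -/
def S2_Static : Prop :=
  ∀ (σ : Type) [Fintype σ] (Ω : Set (σ → ℝ)) (e w : σ → ℝ) (p : MvPolynomial σ ℝ) (n : ℕ)
    (a b : ℝ), OCone Ω → e ∈ Ω → Star Ω e w → 0 < a → 0 ≤ b → p.IsHomogeneous n →
    (∀ v ∈ Ω, 0 < eval v p) → Stab (flow2 e w n a b 1 p) e →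
    ∀ x, eval x (flow2 e w n a b 1 p) = 0 → eval x (de e (flow2 e w n a b 1 p)) ≠ 0

/-- G13. The deformation argument. -/
def S2_Main : Prop :=
  ∀ (σ : Type) [Fintype σ] (Ω : Set (σ → ℝ)) (e w : σ → ℝ) (p : MvPolynomial σ ℝ) (n : ℕ)
    (a : ℝ), OCone Ω → e ∈ Ω → Star Ω e w → 0 < a → p.IsHomogeneous n →
    (∀ v ∈ Ω, 0 < eval v p) → (∀ x, x ≠ 0 → eval x p = 0 → eval x (de e p) ≠ 0) →
    (∀ τ, Stab (flow2 e w n a 0 τ p) e) → ∀ b, 0 ≤ b → ∀ τ, Stab (flow2 e w n a b τ p) e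

/-- G14. **The theorem**. -/
def S2_Box : Prop :=
  ∀ (σ : Type) [Fintype σ] (Ω : Set (σ → ℝ)) (e w : σ → ℝ) (p : MvPolynomial σ ℝ) (m : ℕ),
    OCone Ω → e ∈ Ω → (0 : σ → ℝ) ∉ Ω → Star Ω e w → p.IsHomogeneous (2 * m) → Stab p e →
    (∀ v ∈ closure Ω, v ≠ 0 → 0 < eval v p) → 0 ≤ eval e ((lap w)^[m] p)

end Pool.Agent.H783.HL
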